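import Pool.Agent.Lib.MP_ed189b_nt.Ev

/-!
# MP_ed189b_nt: means over short intervals
-/

set_option autoImplicit false

noncomputable section

namespace ERT

open Complex Filter Topology Set MeasureTheory

/-- The primitive of a locally integrable function is continuous
(`intervalIntegral.continuous_primitive`, `intervalIntegral.integral_comp_add_left`). -/
theorem av_cont {f : ℝ → ℝ} (hf : ∀ a b : ℝ, IntervalIntegrable f volume a b) (h : ℝ) :
    Continuous (Av h f) := by
  have h1 : Continuous fun b : ℝ => ∫ x in (0 : ℝ)..b, f x :=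
    intervalIntegral.continuous_primitive hf 0
  have h2 : Av h f = fun u => h⁻¹ * ((∫ x in (0 : ℝ)..(u + h), f x) - ∫ x in (0 : ℝ)..u, f x) := by
    funext u
    show h⁻¹ * ∫ v in (0 : ℝ)..h, f (u + v) = _
    rw [intervalIntegral.integral_comp_add_left, add_zero,
      intervalIntegral.integral_interval_sub_left (hf _ _) (hf _ _)]
  rw [h2]
  exact continuous_const.mul ((h1.comp (continuous_id.add continuous_const)).sub h1)

/-- Fubini on `[0, h] × ℝ` and `∫_0^h exp (z v) dv = (exp (z h) - 1) / z`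
(`integral_exp_mul_complex`). Integrability of
`(v, u) ↦ f (u + v) exp (-(z u))` on `[0, h] × ℝ`: its norm is
`|f (u+v)| exp (-(Re z) (u+v)) exp (Re z v)`. -/
theorem av_tr {f : ℝ → ℝ} {z : ℂ} {h : ℝ} (hh : 0 < h) (hz : z ≠ 0) (hf : Measurable f)
    (hi : Integrable (fun u : ℝ => (f u : ℂ) * exp (-(z * u)))) :
    Integrable (fun u : ℝ => (Av h f u : ℂ) * exp (-(z * u))) ∧
      ∫ u : ℝ, (Av h f u : ℂ) * exp (-(z * u)) =
        (exp (z * h) - 1) / (z * h) * ∫ u : ℝ, (f u : ℂ) * exp (-(z * u)) := by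
  have _ := hf
  obtain ⟨G, hG⟩ : ∃ G : ℝ → ℂ, G = fun u : ℝ => (f u : ℂ) * exp (-(z * u)) := ⟨_, rfl⟩
  obtain ⟨μ, hμ⟩ : ∃ μ : Measure ℝ, μ = volume.restrict (Ioc 0 h) := ⟨_, rfl⟩
  have hμf : IsFiniteMeasure μ := by
    rw [hμ]
    infer_instance
  have hGi : Integrable G := by
    rw [hG]
    exact hi
  have hE : Integrable (fun v : ℝ => exp (z * v)) μ := by
    rw [hμ]
    have h1 : Continuous fun v : ℝ => exp (z * v) := by fun_prop
    exact (h1.integrableOn_Icc (a := 0) (b := h)).mono_set Ioc_subset_Icc_self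
  have hK0 : Integrable (fun p : ℝ × ℝ => exp (z * p.1) * G p.2) (μ.prod volume) :=
    hE.mul_prod hGi
  have hmp : MeasurePreserving (fun p : ℝ × ℝ => (p.1, p.1 + p.2)) (μ.prod volume)
      (μ.prod volume) := measurePreserving_prod_add μ volume
  have hK : Integrable (fun p : ℝ × ℝ => exp (z * p.1) * G (p.1 + p.2)) (μ.prod volume) :=
    hmp.integrable_comp_of_integrable hK0
  have hpt : ∀ u : ℝ, (Av h f u : ℂ) * exp (-(z * u)) =
      (h : ℂ)⁻¹ * ∫ v, exp (z * v) * G (v + u) ∂μ := by
    intro u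
    rw [hμ, ← intervalIntegral.integral_of_le hh.le]
    unfold Av
    rw [Complex.ofReal_mul, ← intervalIntegral.integral_ofReal, Complex.ofReal_inv, mul_assoc,
      ← intervalIntegral.integral_mul_const]
    congr 1
    refine intervalIntegral.integral_congr fun v _ => ?_
    rw [hG]
    show (f (u + v) : ℂ) * exp (-(z * u)) =
      exp (z * v) * ((f (v + u) : ℂ) * exp (-(z * ((v + u : ℝ) : ℂ))))
    have h1 : exp (-(z * u)) = exp (z * v) * exp (-(z * ((v + u : ℝ) : ℂ))) := by
      rw [← Complex.exp_add]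
      congr 1
      push_cast
      ring
    rw [h1, add_comm u v]
    ring
  have hint : ∫ v, exp (z * v) ∂μ = (exp (z * h) - 1) / z := by
    rw [hμ, ← intervalIntegral.integral_of_le hh.le, integral_exp_mul_complex hz]
    simp
  constructor
  · have h1 := (hK.integral_prod_right).const_mul ((h : ℂ)⁻¹)
    refine h1.congr (Eventually.of_forall fun u => ?_)
    exact (hpt u).symm
  · simp only [hpt]
    rw [integral_const_mul]
    have h1 : ∫ u : ℝ, ∫ v : ℝ, exp (z * v) * G (v + u) ∂μ =
        ∫ v : ℝ, (∫ u : ℝ, exp (z * v) * G (v + u)) ∂μ := by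
      rw [← integral_prod_symm _ hK, integral_prod _ hK]
    rw [h1]
    have h2 : ∀ v : ℝ, ∫ u : ℝ, exp (z * v) * G (v + u) = exp (z * v) * ∫ u : ℝ, G u := by
      intro v
      rw [integral_const_mul, integral_add_left_eq_self]
    simp only [h2]
    rw [integral_mul_const, hint, hG]
    have hhC : (h : ℂ) ≠ 0 := by exact_mod_cast hh.ne'
    rw [← mul_assoc]
    congr 1
    field_simp

/-- translation: `∫ f (u + c) exp (-(z u)) du = exp (z c) ∫ f u exp (-(z u)) du`. -/
theorem sh_tr {f : ℝ → ℝ} {z : ℂ} (c : ℝ)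
    (hi : Integrable (fun u : ℝ => (f u : ℂ) * exp (-(z * u)))) :
    Integrable (fun u : ℝ => (f (u + c) : ℂ) * exp (-(z * u))) ∧
      ∫ u : ℝ, (f (u + c) : ℂ) * exp (-(z * u)) =
        exp (z * c) * ∫ u : ℝ, (f u : ℂ) * exp (-(z * u)) := by
  have h1 : ∀ u : ℝ, (f (u + c) : ℂ) * exp (-(z * u)) =
      exp (z * c) * ((f (u + c) : ℂ) * exp (-(z * ((u + c : ℝ) : ℂ)))) := by
    intro u
    have h2 : exp (-(z * u)) = exp (z * c) * exp (-(z * ((u + c : ℝ) : ℂ))) := by
      rw [← Complex.exp_add]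
      congr 1
      push_cast
      ring
    rw [h2]
    ring
  simp only [h1]
  constructor
  · exact (hi.comp_add_right c).const_mul _
  · rw [integral_const_mul]
    congr 1
    exact integral_add_right_eq_self (fun u : ℝ => (f u : ℂ) * exp (-(z * u))) c

theorem g_cont {h : ℝ} (hh : 0 < h) : Continuous (g h) := by
  have _ := hh
  have h1 := av_cont e_loc h
  have h2 : Continuous fun u => Av h e (u + h) := h1.comp (continuous_id.add continuous_const)
  have h3 : Continuous fun u => Av h e (u + 2 * h) := h1.comp (continuous_id.add continuous_const)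
  show Continuous fun u => (3 * Av h e u - 2 * Av h e (u + h) - Av h e (u + 2 * h)) / 4
  exact (((continuous_const.mul h1).sub (continuous_const.mul h2)).sub h3).div_const 4

theorem g_tr {h : ℝ} (h0 : 0 < h) {z : ℂ} (hz : 1 / 2 < z.re) :
    Integrable (fun u : ℝ => (g h u : ℂ) * exp (-(z * u))) ∧
      ∫ u : ℝ, (g h u : ℂ) * exp (-(z * u)) = mlt h z * hh z := by
  have hz0 : z ≠ 0 := by
    intro h1
    rw [h1, Complex.zero_re] at hz
    linarith
  obtain ⟨i0, e0⟩ := e_tr hz
  obtain ⟨i1, e1⟩ := av_tr h0 hz0 e_meas i0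
  obtain ⟨i2, e2⟩ := sh_tr (f := Av h e) h i1
  obtain ⟨i3, e3⟩ := sh_tr (f := Av h e) (2 * h) i1
  have hpt : ∀ u : ℝ, (g h u : ℂ) * exp (-(z * u)) =
      (3 * ((Av h e u : ℂ) * exp (-(z * u))) - 2 * ((Av h e (u + h) : ℂ) * exp (-(z * u))) -
        (Av h e (u + 2 * h) : ℂ) * exp (-(z * u))) / 4 := by
    intro u
    unfold g
    push_cast
    ring
  simp only [hpt]
  have j1 := i1.const_mul (3 : ℂ)
  have j2 := i2.const_mul (2 : ℂ)
  have j3 : Integrable (fun u : ℝ => 3 * ((Av h e u : ℂ) * exp (-(z * u))) -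
      2 * ((Av h e (u + h) : ℂ) * exp (-(z * u)))) := j1.sub j2
  constructor
  · exact (j3.sub i3).div_const 4
  · rw [integral_div, integral_sub j3 i3, integral_sub j1 j2, integral_const_mul,
      integral_const_mul, e3, e2, e1, e0]
    have h1 : exp (z * ((2 * h : ℝ) : ℂ)) = exp (2 * (z * h)) := by
      congr 1
      push_cast
      ring
    rw [h1]
    unfold mlt
    ring

end ERT
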