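import Mathlib

/-!
# MP_ed189b_nt: sums over blocks
-/

set_option autoImplicit false

noncomputable section

namespace ERT

open MeasureTheory

private theorem Blk_exp : 4 * Real.exp 4 ≤ 1000 := by
  have h1 : Real.exp 4 = Real.exp 1 ^ 4 := by
    rw [← Real.exp_nat_mul]
    norm_num
  have h2 := Real.exp_one_lt_d9
  have h3 := Real.exp_pos 1
  have h4 : Real.exp 1 ≤ 2.8 := by linarith
  have h5 : Real.exp 1 ^ 4 ≤ 2.8 ^ 4 := pow_le_pow_left₀ h3.le h4 4
  rw [h1]
  norm_num at h5 ⊢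
  linarith

/-- `∫_{v n}^{w n} f ≤ ∫_{n-2}^{n+2} f = ∑_{i < 4} ∫_{n-2+i}^{n-1+i} f` (`f ≥ 0`); for each `i` the
sum over `n` is `∫_{N-2+i}^{2N-2+i} f` (`intervalIntegral.sum_integral_adjacent_intervals_Ico`),
where `t ≤ 2N + 1`, so `exp (-(t/N)) ≥ exp (-4)` and the integral is at most
`exp 4 ∫ f exp (-(t/N))`; `4 exp 4 ≤ 1000`. -/
theorem blk {f : ℝ → ℝ} (hf : Continuous f) (h0 : ∀ u, 0 ≤ f u) {N : ℕ} (hN : 1 ≤ N)
    (hi : Integrable (fun u => f u * Real.exp (-(u / N)))) (v w : ℕ → ℝ)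
    (hv : ∀ n ∈ Finset.Ico N (2 * N), (n : ℝ) - 2 ≤ v n ∧ v n ≤ w n ∧ w n ≤ n + 2) :
    ∑ n ∈ Finset.Ico N (2 * N), ∫ t in (v n)..(w n), f t ≤
      1000 * ∫ t, f t * Real.exp (-(t / N)) := by
  have hii : ∀ a b : ℝ, IntervalIntegrable f volume a b := fun a b =>
    hf.intervalIntegrable a b
  have hN' : (1 : ℝ) ≤ N := by exact_mod_cast hN
  have hI : 0 ≤ ∫ t, f t * Real.exp (-(t / N)) :=
    integral_nonneg fun t => mul_nonneg (h0 t) (Real.exp_pos _).le
  -- one shift
  have key : ∀ i : ℕ, i < 4 → ∑ n ∈ Finset.Ico N (2 * N),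
      ∫ t in ((n : ℝ) - 2 + i)..(((n + 1 : ℕ) : ℝ) - 2 + i), f t ≤
        Real.exp 4 * ∫ t, f t * Real.exp (-(t / N)) := by
    intro i hi4
    have hi4' : (i : ℝ) ≤ 3 := by
      have : i ≤ 3 := by omega
      exact_mod_cast this
    have h1 := intervalIntegral.sum_integral_adjacent_intervals_Ico (f := f) (μ := volume)
      (a := fun n : ℕ => (n : ℝ) - 2 + i) (m := N) (n := 2 * N) (by omega)
      (fun k _ => hii _ _)
    rw [h1]
    have hle : ((N : ℝ) - 2 + i) ≤ (((2 * N : ℕ) : ℝ) - 2 + i) := by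
      push_cast
      linarith
    rw [intervalIntegral.integral_of_le hle]
    have h2 : ∫ t in Set.Ioc ((N : ℝ) - 2 + i) (((2 * N : ℕ) : ℝ) - 2 + i), f t ≤
        ∫ t in Set.Ioc ((N : ℝ) - 2 + i) (((2 * N : ℕ) : ℝ) - 2 + i),
          Real.exp 4 * (f t * Real.exp (-(t / N))) := by
      refine setIntegral_mono_on ?_ ?_ measurableSet_Ioc fun t ht => ?_
      · exact (intervalIntegrable_iff_integrableOn_Ioc_of_le hle).1 (hii _ _)
      · exact (hi.const_mul _).integrableOn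
      · have ht2 : t ≤ 4 * N := by
          have := ht.2
          push_cast at this
          linarith
        have h3 : 1 ≤ Real.exp 4 * Real.exp (-(t / N)) := by
          rw [← Real.exp_add]
          apply Real.one_le_exp
          have : t / N ≤ 4 := by
            rw [div_le_iff₀ (by positivity)]
            exact ht2
          linarith
        calc f t = f t * 1 := (mul_one _).symm
          _ ≤ f t * (Real.exp 4 * Real.exp (-(t / N))) := mul_le_mul_of_nonneg_left h3 (h0 t)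
          _ = Real.exp 4 * (f t * Real.exp (-(t / N))) := by ring
    refine h2.trans ?_
    rw [← integral_const_mul (Real.exp 4) fun t => f t * Real.exp (-(t / N))]
    exact setIntegral_le_integral (hi.const_mul _) (Filter.Eventually.of_forall fun t =>
        mul_nonneg (Real.exp_pos _).le (mul_nonneg (h0 t) (Real.exp_pos _).le))
  have hone : ∀ n ∈ Finset.Ico N (2 * N), ∫ t in (v n)..(w n), f t ≤
      ∑ i ∈ Finset.range 4, ∫ t in ((n : ℝ) - 2 + i)..(((n + 1 : ℕ) : ℝ) - 2 + i), f t := by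
    intro n hn
    obtain ⟨a1, a2, a3⟩ := hv n hn
    have h1 : ∑ i ∈ Finset.range 4,
        ∫ t in ((n : ℝ) - 2 + i)..(((n + 1 : ℕ) : ℝ) - 2 + i), f t =
        ∫ t in ((n : ℝ) - 2)..((n : ℝ) + 2), f t := by
      have h2 := intervalIntegral.sum_integral_adjacent_intervals (f := f) (μ := volume)
        (a := fun i : ℕ => (n : ℝ) - 2 + i) (n := 4) (fun k _ => hii _ _)
      have e1 : ∀ i : ℕ, ((n : ℝ) - 2 + ((i + 1 : ℕ) : ℝ)) = ((n + 1 : ℕ) : ℝ) - 2 + i := by
        intro i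
        push_cast
        ring
      simp only [e1] at h2
      rw [h2]
      congr 1
      · push_cast
        ring
      · push_cast
        ring
    rw [h1]
    exact intervalIntegral.integral_mono_interval a1 a2 a3
      (Filter.Eventually.of_forall fun t => h0 t) (hii _ _)
  calc ∑ n ∈ Finset.Ico N (2 * N), ∫ t in (v n)..(w n), f t
      ≤ ∑ n ∈ Finset.Ico N (2 * N), ∑ i ∈ Finset.range 4,
        ∫ t in ((n : ℝ) - 2 + i)..(((n + 1 : ℕ) : ℝ) - 2 + i), f t := Finset.sum_le_sum hone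
    _ = ∑ i ∈ Finset.range 4, ∑ n ∈ Finset.Ico N (2 * N),
        ∫ t in ((n : ℝ) - 2 + i)..(((n + 1 : ℕ) : ℝ) - 2 + i), f t := Finset.sum_comm
    _ ≤ ∑ _i ∈ Finset.range 4, Real.exp 4 * ∫ t, f t * Real.exp (-(t / N)) :=
        Finset.sum_le_sum fun i hi' => key i (Finset.mem_range.1 hi')
    _ = 4 * Real.exp 4 * ∫ t, f t * Real.exp (-(t / N)) := by
        rw [Finset.sum_const, Finset.card_range, nsmul_eq_mul]
        push_cast
        ring
    _ ≤ 1000 * ∫ t, f t * Real.exp (-(t / N)) :=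
        mul_le_mul_of_nonneg_right Blk_exp hI

end ERT
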