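import Pool.Agent.Lib.MP_ed189b_nt.JInt

/-!
# MP_ed189b_nt: global comparison of two lines
-/

set_option autoImplicit false

noncomputable section

namespace ERT

open Complex Filter Topology Set MeasureTheory

namespace CmpG

/-- every point is in at most four of the windows -/
theorem glob {f g : ℝ → ℝ} {K : ℝ} (hf : Integrable f) (hg : Integrable g)
    (hg0 : ∀ t, 0 ≤ g t) (hK : 0 ≤ K)
    (h : ∀ c : ℝ, ∫ t in (c - 1 / 200)..(c + 1 / 200), f t ≤
      K * ∫ t in (c - 1 / 50)..(c + 1 / 50), g t) : ∫ t, f t ≤ 4 * K * ∫ t, g t := by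
  have hlim : Tendsto (fun N : ℕ => ∫ t in (-(N : ℝ))..(N : ℝ), f t) atTop (𝓝 (∫ t, f t)) :=
    intervalIntegral_tendsto_integral hf
      (tendsto_neg_atTop_atBot.comp tendsto_natCast_atTop_atTop) tendsto_natCast_atTop_atTop
  refine le_of_tendsto' hlim fun N => ?_
  have hgI : ∀ a b : ℝ, IntervalIntegrable g volume a b := fun a b => hg.intervalIntegrable
  have hfI : ∀ a b : ℝ, IntervalIntegrable f volume a b := fun a b => hf.intervalIntegrable
  have h1 : ∫ t in (-(N : ℝ))..(N : ℝ), f t = ∑ k ∈ Finset.range (200 * N),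
      ∫ t in (-(N : ℝ) + k / 100)..(-(N : ℝ) + ((k + 1 : ℕ) : ℝ) / 100), f t := by
    have h2 := intervalIntegral.sum_integral_adjacent_intervals (f := f) (μ := volume)
      (a := fun k : ℕ => -(N : ℝ) + (k : ℝ) / 100) (n := 200 * N) (fun k _ => hfI _ _)
    rw [h2]
    congr 1
    · simp
    · push_cast
      ring
  have h3 : ∀ k : ℕ, ∫ t in (-(N : ℝ) + k / 100)..(-(N : ℝ) + ((k + 1 : ℕ) : ℝ) / 100), f t ≤
      K * ∑ i ∈ Finset.range 4,
        ∫ t in (-(N : ℝ) + k / 100 + 1 / 200 - 1 / 50 + i / 100)..(-(N : ℝ) + k / 100 + 1 / 200 -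
          1 / 50 + ((i + 1 : ℕ) : ℝ) / 100), g t := by
    intro k
    have h4 := h (-(N : ℝ) + k / 100 + 1 / 200)
    have h5 := intervalIntegral.sum_integral_adjacent_intervals (f := g) (μ := volume)
      (a := fun i : ℕ => -(N : ℝ) + k / 100 + 1 / 200 - 1 / 50 + (i : ℝ) / 100) (n := 4)
      (fun k _ => hgI _ _)
    rw [h5]
    convert h4 using 2
    · ring
    · push_cast
      ring
    · congr 1
      · push_cast
        ring
      · push_cast
        ring
  have h6 : ∀ i : ℕ, ∑ k ∈ Finset.range (200 * N),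
      ∫ t in (-(N : ℝ) + k / 100 + 1 / 200 - 1 / 50 + i / 100)..(-(N : ℝ) + k / 100 + 1 / 200 -
        1 / 50 + ((i + 1 : ℕ) : ℝ) / 100), g t ≤ ∫ t, g t := by
    intro i
    have h7 := intervalIntegral.sum_integral_adjacent_intervals (f := g) (μ := volume)
      (a := fun k : ℕ => -(N : ℝ) + k / 100 + 1 / 200 - 1 / 50 + (i : ℝ) / 100) (n := 200 * N)
      (fun k _ => hgI _ _)
    have h8 : ∀ k : ℕ, -(N : ℝ) + k / 100 + 1 / 200 - 1 / 50 + ((i + 1 : ℕ) : ℝ) / 100 =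
        -(N : ℝ) + ((k + 1 : ℕ) : ℝ) / 100 + 1 / 200 - 1 / 50 + (i : ℝ) / 100 := by
      intro k
      push_cast
      ring
    simp only [h8]
    rw [h7, intervalIntegral.integral_of_le]
    · exact setIntegral_le_integral hg (ae_of_all _ hg0)
    · push_cast
      have : (0 : ℝ) ≤ N := Nat.cast_nonneg N
      linarith
  rw [h1]
  calc _ ≤ ∑ k ∈ Finset.range (200 * N), K * ∑ i ∈ Finset.range 4,
        ∫ t in (-(N : ℝ) + k / 100 + 1 / 200 - 1 / 50 + i / 100)..(-(N : ℝ) + k / 100 + 1 / 200 -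
          1 / 50 + ((i + 1 : ℕ) : ℝ) / 100), g t := Finset.sum_le_sum fun k _ => h3 k
    _ = K * ∑ i ∈ Finset.range 4, ∑ k ∈ Finset.range (200 * N),
        ∫ t in (-(N : ℝ) + k / 100 + 1 / 200 - 1 / 50 + i / 100)..(-(N : ℝ) + k / 100 + 1 / 200 -
          1 / 50 + ((i + 1 : ℕ) : ℝ) / 100), g t := by
      rw [← Finset.mul_sum, Finset.sum_comm]
    _ ≤ K * ∑ _i ∈ Finset.range 4, ∫ t, g t :=
      mul_le_mul_of_nonneg_left (Finset.sum_le_sum fun i _ => h6 i) hK
    _ = 4 * K * ∫ t, g t := by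
      rw [Finset.sum_const, Finset.card_range, nsmul_eq_mul]
      push_cast
      ring

theorem W16 {T s t : ℝ} (hT : 1 ≤ T) (h : |s - t| ≤ 1 / 50) : W T s ≤ 16 * W T t := by
  have h1 := W_shift hT s (t - s)
  rw [add_sub_cancel] at h1
  refine h1.trans (mul_le_mul_of_nonneg_right ?_ (W_pos T t).le)
  have h2 : (t - s) ^ 2 ≤ 1 := by
    rw [abs_le] at h
    nlinarith
  have h3 := sq_nonneg (t - s)
  nlinarith

theorem lg4 {s t : ℝ} (h : |s - t| ≤ 1 / 50) : lg s ≤ 4 * lg t := by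
  have h1 := lg_shift t (s - t)
  rw [add_sub_cancel] at h1
  refine h1.trans (mul_le_mul_of_nonneg_right ?_ (lg_pos t).le)
  linarith

theorem lg_cont : Continuous lg := by
  unfold lg
  exact Continuous.log (by fun_prop) fun t => by positivity

theorem loc (h : ZF) {C T α α₀ c : ℝ} (hC : 0 < C) (hT : 1 ≤ T) (hα : 0 < α) (hα₀ : α ≤ α₀)
    (hc : ∫ t in (c - 1 / 200)..(c + 1 / 200), ‖P (pt α t)‖ ^ 2 ≤
      C * (α₀ / α) * ((∫ t in (c - 1 / 50)..(c + 1 / 50), ‖P (pt α₀ t)‖ ^ 2) + lg c ^ 2)) :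
    ∫ t in (c - 1 / 200)..(c + 1 / 200), ‖P (pt α t)‖ ^ 2 * W T t ≤
      256 * C * (α₀ / α) * ∫ t in (c - 1 / 50)..(c + 1 / 50),
        (‖P (pt α₀ t)‖ ^ 2 * W T t + 400 * (lg t ^ 2 * W T t)) := by
  have hα₀0 : 0 < α₀ := hα.trans_le hα₀
  have c1 : Continuous fun t : ℝ => ‖P (pt α t)‖ ^ 2 := ((P_cont h hα).norm).pow 2
  have c2 : Continuous fun t : ℝ => ‖P (pt α₀ t)‖ ^ 2 := ((P_cont h hα₀0).norm).pow 2
  have cW := W_cont T
  have cl := lg_cont
  have i1 : ∫ t in (c - 1 / 200)..(c + 1 / 200), ‖P (pt α t)‖ ^ 2 * W T t ≤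
      ∫ t in (c - 1 / 200)..(c + 1 / 200), ‖P (pt α t)‖ ^ 2 * (16 * W T c) := by
    refine intervalIntegral.integral_mono_on (by linarith)
      ((c1.mul cW).intervalIntegrable _ _) ((c1.mul continuous_const).intervalIntegrable _ _)
      fun t ht => mul_le_mul_of_nonneg_left (W16 hT ?_) (sq_nonneg _)
    rw [abs_le]
    constructor <;> linarith [ht.1, ht.2]
  rw [intervalIntegral.integral_mul_const] at i1
  have hWc : 0 ≤ 16 * W T c := by linarith [W_pos T c]
  have i2 := mul_le_mul_of_nonneg_right hc hWc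
  have hr : 0 < C * (α₀ / α) := mul_pos hC (div_pos hα₀0 hα)
  have i3 : W T c * ∫ t in (c - 1 / 50)..(c + 1 / 50), ‖P (pt α₀ t)‖ ^ 2 ≤
      16 * ∫ t in (c - 1 / 50)..(c + 1 / 50), ‖P (pt α₀ t)‖ ^ 2 * W T t := by
    rw [← intervalIntegral.integral_const_mul, ← intervalIntegral.integral_const_mul]
    refine intervalIntegral.integral_mono_on (by linarith)
      ((continuous_const.mul c2).intervalIntegrable _ _)
      ((continuous_const.mul (c2.mul cW)).intervalIntegrable _ _) fun t ht => ?_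
    have h1 : W T c ≤ 16 * W T t := W16 hT (by
      rw [abs_le]
      constructor <;> linarith [ht.1, ht.2])
    have h2 := mul_le_mul_of_nonneg_right h1 (sq_nonneg ‖P (pt α₀ t)‖)
    linarith
  have i4 : W T c * lg c ^ 2 ≤
      16 * ∫ t in (c - 1 / 50)..(c + 1 / 50), 400 * (lg t ^ 2 * W T t) := by
    have h1 : W T c * lg c ^ 2 = ∫ _t in (c - 1 / 50)..(c + 1 / 50), 25 * (W T c * lg c ^ 2) := by
      rw [intervalIntegral.integral_const, smul_eq_mul]
      ring
    rw [h1, ← intervalIntegral.integral_const_mul]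
    refine intervalIntegral.integral_mono_on (by linarith)
      (continuous_const.intervalIntegrable _ _)
      ((continuous_const.mul (continuous_const.mul
        ((cl.pow 2).mul cW))).intervalIntegrable _ _) fun t ht => ?_
    have ha : |c - t| ≤ 1 / 50 := by
      rw [abs_le]
      constructor <;> linarith [ht.1, ht.2]
    have h2 : W T c ≤ 16 * W T t := W16 hT ha
    have h3 : lg c ≤ 4 * lg t := lg4 ha
    have h4 : lg c ^ 2 ≤ 16 * lg t ^ 2 := by
      have := pow_le_pow_left₀ (lg_pos c).le h3 2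
      linarith [this, mul_pow (4 : ℝ) (lg t) 2]
    have h5 := mul_le_mul h2 h4 (sq_nonneg _) (by linarith [W_pos T t])
    linarith
  have i5 : ∫ t in (c - 1 / 50)..(c + 1 / 50),
      (‖P (pt α₀ t)‖ ^ 2 * W T t + 400 * (lg t ^ 2 * W T t)) =
      (∫ t in (c - 1 / 50)..(c + 1 / 50), ‖P (pt α₀ t)‖ ^ 2 * W T t) +
      ∫ t in (c - 1 / 50)..(c + 1 / 50), 400 * (lg t ^ 2 * W T t) :=
    intervalIntegral.integral_add ((c2.mul cW).intervalIntegrable _ _)
      ((continuous_const.mul ((cl.pow 2).mul cW)).intervalIntegrable _ _)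
  rw [i5]
  have i6 := mul_le_mul_of_nonneg_left (add_le_add i3 i4) hr.le
  calc _ ≤ _ := i1
    _ ≤ _ := i2
    _ = 16 * (C * (α₀ / α) * (W T c * (∫ t in (c - 1 / 50)..(c + 1 / 50), ‖P (pt α₀ t)‖ ^ 2) +
        W T c * lg c ^ 2)) := by ring
    _ ≤ 16 * _ := mul_le_mul_of_nonneg_left i6 (by norm_num)
    _ = _ := by ring

end CmpG

/-- Let `t_m = m/100`, `m ∈ ℤ`. For a nonnegative integrable function the integral over the line is
the sum over `m ∈ ℤ` of the integrals over `[t_m - 1/200, t_m + 1/200]`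
(`integral_iUnion` / `iUnion_Ioc_add_zsmul`-like lemmas, or `hasSum_integral_iUnion`). On this
interval `W T t ≤ 16 W T t_m` and for `|t - t_m| ≤ 1/50`, `W T t_m ≤ 16 W T t` (`W_shift`);
`cmp_loc` gives
`∫_{I_m} ‖P (pt α t)‖² W T ≤ 256 C (α₀/α) (∫_{|t - t_m| ≤ 1/50} ‖P (pt α₀ t)‖² W T +
lg (t_m)² W T t_m)`. The interval `|t - t_m| ≤ 1/50` is the union of four intervals of length
`1/100`, so the sum over `m` of the first terms is at most `4 J T α₀` (translate: or use that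
every point is in at most five of them); `lg (t_m)² W T t_m ≤ C ∫_{I_m} lg t² W T t`
(`lg_shift`, `W_shift`), and `W_lg`. -/
theorem cmp_glob (h : ZF) : ∃ C : ℝ, 0 < C ∧ ∀ T α α₀ : ℝ, 2 ≤ T → 0 < α → α ≤ α₀ →
    α₀ ≤ 1 / 100 → J T α ≤ C * (α₀ / α) * (J T α₀ + T * Real.log T ^ 2) := by
  obtain ⟨C, hC, hloc⟩ := cmp_loc h
  obtain ⟨C', hC', hW⟩ := W_lg
  refine ⟨1024 * C * (1 + 400 * C'), by positivity, fun T α α₀ hT hα hα₀ hα₁ => ?_⟩
  have hα₀0 : 0 < α₀ := hα.trans_le hα₀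
  obtain ⟨hWi, hWb⟩ := hW T hT
  have hr : 0 ≤ α₀ / α := (div_pos hα₀0 hα).le
  have j1 := J_int h hα (hα₀.trans hα₁) (show 0 < T by linarith)
  have j2 := J_int h hα₀0 hα₁ (show 0 < T by linarith)
  have j3 := j2.add (hWi.const_mul 400)
  have key := CmpG.glob (f := fun t => ‖P (pt α t)‖ ^ 2 * W T t)
    (g := fun t => ‖P (pt α₀ t)‖ ^ 2 * W T t + 400 * (lg t ^ 2 * W T t))
    (K := 256 * C * (α₀ / α)) j1 j3 (fun t => by
      have h1 := W_pos T t
      positivity) (by positivity) fun c =>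
        CmpG.loc h hC (by linarith) hα hα₀ (hloc c α α₀ hα hα₀ hα₁)
  rw [integral_add j2 (hWi.const_mul 400), integral_const_mul] at key
  have hJ := J_nonneg T α₀
  have hX : 0 ≤ T * Real.log T ^ 2 := by positivity
  have h1 : (∫ t, ‖P (pt α₀ t)‖ ^ 2 * W T t) = J T α₀ := rfl
  have h2 : (∫ t, ‖P (pt α t)‖ ^ 2 * W T t) = J T α := rfl
  rw [h1, h2] at key
  refine key.trans ?_
  have h3 : J T α₀ + 400 * ∫ t, lg t ^ 2 * W T t ≤
      (1 + 400 * C') * (J T α₀ + T * Real.log T ^ 2) := by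
    have h4 : 0 ≤ C' * J T α₀ := mul_nonneg hC'.le hJ
    nlinarith
  calc 4 * (256 * C * (α₀ / α)) * (J T α₀ + 400 * ∫ t, lg t ^ 2 * W T t)
      ≤ 4 * (256 * C * (α₀ / α)) * ((1 + 400 * C') * (J T α₀ + T * Real.log T ^ 2)) :=
        mul_le_mul_of_nonneg_left h3 (by positivity)
    _ = _ := by ring

end ERT
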