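import Mathlib

/-!
# MP_ed189b_nt: sums over primes
-/

set_option autoImplicit false

noncomputable section

namespace ERT

open Finset

/-- `log (N!) = ∑_{d ≤ N} Λ(d) ⌊N/d⌋ ≥ N ∑ Λ(d)/d - ψ(N)` and `log (N!) ≤ N log N`,
`ψ(N) ≤ C N` (Chebyshev, `Chebyshev.psi_le...`). The identity for `log (N!)`: sum
`∑_{d ∣ n} Λ(d) = log n` (`ArithmeticFunction.vonMangoldt_sum`) over `n ≤ N`. -/
theorem lam_div : ∃ C : ℝ, 0 < C ∧ ∀ N : ℕ, 1 ≤ N →
    ∑ n ∈ Finset.Icc 1 N, ArithmeticFunction.vonMangoldt n / n ≤ Real.log N + C := by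
  have hC : 0 < Real.log 4 + 4 := by
    have := Real.log_pos (show (1 : ℝ) < 4 by norm_num)
    linarith
  refine ⟨Real.log 4 + 4, hC, fun N hN => ?_⟩
  have hN' : (0 : ℝ) < N := by exact_mod_cast hN
  have hI : Finset.Icc 1 N = Finset.Ioc 0 N := by
    ext n
    simp [Nat.lt_iff_add_one_le]
  rw [hI]
  have h1 := ArithmeticFunction.sum_Ioc_mul_zeta_eq_sum
    (ArithmeticFunction.vonMangoldt : ArithmeticFunction ℝ) N
  rw [ArithmeticFunction.vonMangoldt_mul_zeta] at h1
  have h2 : ∑ n ∈ Ioc 0 N, (ArithmeticFunction.log : ArithmeticFunction ℝ) n ≤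
      N * Real.log N := by
    calc ∑ n ∈ Ioc 0 N, (ArithmeticFunction.log : ArithmeticFunction ℝ) n
        ≤ ∑ _n ∈ Ioc 0 N, Real.log N := by
          refine Finset.sum_le_sum fun n hn => ?_
          rw [ArithmeticFunction.log_apply]
          have hn' := Finset.mem_Ioc.1 hn
          exact Real.log_le_log (by exact_mod_cast hn'.1) (by exact_mod_cast hn'.2)
      _ = N * Real.log N := by
          rw [Finset.sum_const, Nat.card_Ioc, nsmul_eq_mul, Nat.sub_zero]
  have h3 : ∑ n ∈ Ioc 0 N, ArithmeticFunction.vonMangoldt n * (N / n - 1) ≤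
      ∑ n ∈ Ioc 0 N, ArithmeticFunction.vonMangoldt n * ((N / n : ℕ) : ℝ) := by
    refine Finset.sum_le_sum fun n hn => ?_
    refine mul_le_mul_of_nonneg_left ?_ ArithmeticFunction.vonMangoldt_nonneg
    have h4 := Nat.lt_floor_add_one ((N : ℝ) / n)
    rw [Nat.floor_div_eq_div] at h4
    linarith
  have hpsi : ∑ n ∈ Ioc 0 N, ArithmeticFunction.vonMangoldt n ≤ (Real.log 4 + 4) * N := by
    have h4 := Chebyshev.psi_le_const_mul_self (x := (N : ℝ)) hN'.le
    unfold Chebyshev.psi at h4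
    rwa [Nat.floor_natCast] at h4
  have h5 : ∑ n ∈ Ioc 0 N, ArithmeticFunction.vonMangoldt n * ((N : ℝ) / n - 1) =
      N * ∑ n ∈ Ioc 0 N, ArithmeticFunction.vonMangoldt n / n -
        ∑ n ∈ Ioc 0 N, ArithmeticFunction.vonMangoldt n := by
    rw [Finset.mul_sum, ← Finset.sum_sub_distrib]
    refine Finset.sum_congr rfl fun n _ => ?_
    ring
  have h6 : N * ∑ n ∈ Ioc 0 N, ArithmeticFunction.vonMangoldt n / n ≤
      N * (Real.log N + (Real.log 4 + 4)) := by
    rw [h5] at h3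
    have := h3.trans (h1.symm.le.trans h2)
    nlinarith
  exact le_of_mul_le_mul_left h6 hN'

/-- `Λ(n) ≤ log n ≤ log N` (`ArithmeticFunction.vonMangoldt_le_log`) and `lam_div`; for `N = 1`
the sum is `0` (for `N ≥ 2`, `1 ≤ 2 log N`). -/
theorem lam_sq : ∃ C : ℝ, 0 < C ∧ ∀ N : ℕ, 1 ≤ N →
    ∑ n ∈ Finset.Icc 1 N, ArithmeticFunction.vonMangoldt n ^ 2 / n ≤ C * Real.log N ^ 2 := by
  obtain ⟨C, hC, h⟩ := lam_div
  refine ⟨1 + 2 * C, by positivity, fun N hN => ?_⟩
  have hN' : (0 : ℝ) < N := by exact_mod_cast hN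
  have hL : 0 ≤ Real.log N := Real.log_natCast_nonneg N
  have h1 : ∑ n ∈ Finset.Icc 1 N, ArithmeticFunction.vonMangoldt n ^ 2 / n ≤
      Real.log N * (Real.log N + C) := by
    calc ∑ n ∈ Finset.Icc 1 N, ArithmeticFunction.vonMangoldt n ^ 2 / n
        ≤ ∑ n ∈ Finset.Icc 1 N, Real.log N * (ArithmeticFunction.vonMangoldt n / n) := by
          refine Finset.sum_le_sum fun n hn => ?_
          have hn' := Finset.mem_Icc.1 hn
          have h2 : ArithmeticFunction.vonMangoldt n ≤ Real.log N :=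
            ArithmeticFunction.vonMangoldt_le_log.trans
              (Real.log_le_log (by exact_mod_cast hn'.1) (by exact_mod_cast hn'.2))
          have h3 : 0 ≤ ArithmeticFunction.vonMangoldt n := ArithmeticFunction.vonMangoldt_nonneg
          rw [pow_two, mul_div_assoc]
          exact mul_le_mul_of_nonneg_right h2 (by positivity)
      _ = Real.log N * ∑ n ∈ Finset.Icc 1 N, ArithmeticFunction.vonMangoldt n / n := by
          rw [Finset.mul_sum]
      _ ≤ Real.log N * (Real.log N + C) := mul_le_mul_of_nonneg_left (h N hN) hL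
  refine h1.trans ?_
  rcases hN.eq_or_lt with h2 | h2
  · rw [← h2]
    simp
  · have h3 : Real.log 2 ≤ Real.log N :=
      Real.log_le_log (by norm_num) (by exact_mod_cast h2)
    have h4 := Real.log_two_gt_d9
    nlinarith [mul_nonneg hL hC.le]

private theorem Lam_pt (m : ℕ) (hm : 1 ≤ m) :
    ArithmeticFunction.vonMangoldt m * (m : ℝ) ^ (-(5 / 2) : ℝ) ≤ 2 / (m : ℝ) ^ 2 := by
  have hm' : (0 : ℝ) < m := by exact_mod_cast hm
  have h1 : ArithmeticFunction.vonMangoldt m ≤ 2 * √(m : ℝ) := by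
    have h2 := Real.log_le_sub_one_of_pos (Real.sqrt_pos.2 hm')
    rw [Real.log_sqrt hm'.le] at h2
    have h3 := ArithmeticFunction.vonMangoldt_le_log (n := m)
    linarith
  have h2 : (m : ℝ) ^ (-(5 / 2) : ℝ) = (√(m : ℝ))⁻¹ * ((m : ℝ) ^ 2)⁻¹ := by
    rw [Real.sqrt_eq_rpow, ← Real.rpow_natCast, ← Real.rpow_neg hm'.le, ← Real.rpow_neg hm'.le,
      ← Real.rpow_add hm']
    norm_num
  have hs := Real.sqrt_pos.2 hm'
  rw [h2]
  calc ArithmeticFunction.vonMangoldt m * ((√(m : ℝ))⁻¹ * ((m : ℝ) ^ 2)⁻¹)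
      ≤ 2 * √(m : ℝ) * ((√(m : ℝ))⁻¹ * ((m : ℝ) ^ 2)⁻¹) := by gcongr
    _ = 2 / (m : ℝ) ^ 2 := by
        field_simp

/-- `Λ(n) n^(-5/2) ≤ log n n^(-5/2) ≤ C n^(-2-1/4)`... compare with the integral, or
`∑_{n > N} 1/n² ≤ 1/N` after `log n ≤ 2 n^(1/2)`. -/
theorem lam_tail : ∃ C : ℝ, 0 < C ∧ ∀ N : ℕ, 1 ≤ N →
    Summable (fun n : ℕ => ArithmeticFunction.vonMangoldt n * (n : ℝ) ^ (-(5 / 2) : ℝ)) ∧
    ∑' n : ℕ, ArithmeticFunction.vonMangoldt (n + N + 1) *
      ((n + N + 1 : ℕ) : ℝ) ^ (-(5 / 2) : ℝ) ≤ C / N := by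
  refine ⟨2, two_pos, fun N hN => ⟨?_, ?_⟩⟩
  · have h1 : Summable (fun n : ℕ => 2 / (n : ℝ) ^ 2) := by
      have := (Real.summable_one_div_nat_pow (p := 2)).2 (by norm_num)
      simpa [div_eq_mul_inv] using this.mul_left 2
    refine Summable.of_nonneg_of_le (fun n => ?_) (fun n => ?_) h1
    · exact mul_nonneg ArithmeticFunction.vonMangoldt_nonneg (Real.rpow_nonneg (by positivity) _)
    · rcases Nat.eq_zero_or_pos n with rfl | hn
      · simp
      · exact Lam_pt n hn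
  · have hN' : (0 : ℝ) < N := by exact_mod_cast hN
    refine Real.tsum_le_of_sum_range_le (fun n => ?_) fun K => ?_
    · exact mul_nonneg ArithmeticFunction.vonMangoldt_nonneg (Real.rpow_nonneg (by positivity) _)
    · have h1 : ∀ K : ℕ, ∑ n ∈ Finset.range K, ArithmeticFunction.vonMangoldt (n + N + 1) *
          ((n + N + 1 : ℕ) : ℝ) ^ (-(5 / 2) : ℝ) ≤ 2 / N - 2 / (N + K) := by
        intro K
        induction K with
        | zero => simp
        | succ K ih =>
          rw [Finset.sum_range_succ]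
          have h2 := Lam_pt (K + N + 1) (by omega)
          have h3 : 2 / ((K + N + 1 : ℕ) : ℝ) ^ 2 ≤ 2 / (N + K) - 2 / (N + (K + 1 : ℕ)) := by
            push_cast
            have hK : (0 : ℝ) ≤ K := Nat.cast_nonneg K
            have e1 : 2 / ((N : ℝ) + K) - 2 / (N + (K + 1)) =
                2 / (((N : ℝ) + K) * (N + (K + 1))) := by
              field_simp
              ring
            rw [e1]
            apply div_le_div_of_nonneg_left (by norm_num) (by positivity)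
            nlinarith
          linarith
      have h2 := h1 K
      have h3 : (0 : ℝ) ≤ 2 / (N + K) := by positivity
      linarith

end ERT
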