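import Pool.Agent.Lib.MP_ed189b_nt.Wt

/-!
# MP_ed189b_nt: the mean value of a short Dirichlet polynomial
-/

set_option autoImplicit false

noncomputable section

namespace ERT

open Complex Filter Topology Set MeasureTheory

private lemma norm_e (a : ℝ) : ‖exp ((a : ℝ) * I)‖ = 1 := Complex.norm_exp_ofReal_mul_I a

private lemma int_mul_exp {u : ℝ → ℝ} (iu : Integrable u) (μ : ℝ) :
    Integrable (fun x : ℝ => (u x : ℂ) * exp ((μ * x : ℝ) * I)) := by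
  have h1 : Continuous (fun x : ℝ => exp (((μ * x : ℝ) : ℂ) * I)) := by fun_prop
  refine Integrable.mono' iu.norm (iu.ofReal.aestronglyMeasurable.mul h1.aestronglyMeasurable)
    (Eventually.of_forall fun x => ?_)
  rw [norm_mul, norm_e, mul_one, Complex.norm_real]

private lemma ibp {u u' : ℝ → ℝ} (hu : ∀ x, HasDerivAt u (u' x) x) (iu : Integrable u)
    (iu' : Integrable u') {μ : ℝ} (hμ : μ ≠ 0) :
    ‖∫ x : ℝ, (u x : ℂ) * exp ((μ * x : ℝ) * I)‖ =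
      |μ|⁻¹ * ‖∫ x : ℝ, (u' x : ℂ) * exp ((μ * x : ℝ) * I)‖ := by
  have hμ' : (μ : ℂ) * I ≠ 0 := mul_ne_zero (by exact_mod_cast hμ) I_ne_zero
  have hv : ∀ x : ℝ, HasDerivAt (fun x : ℝ => exp (((μ * x : ℝ) : ℂ) * I) / ((μ : ℂ) * I))
      (exp (((μ * x : ℝ) : ℂ) * I)) x := by
    intro x
    have h1 : HasDerivAt (fun x : ℝ => ((μ * x : ℝ) : ℂ) * I) ((μ : ℂ) * I) x := by
      have h2 : HasDerivAt (fun x : ℝ => μ * x) μ x := by
        simpa using (hasDerivAt_id x).const_mul μ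
      exact h2.ofReal_comp.mul_const I
    have h3 := h1.cexp.div_const ((μ : ℂ) * I)
    exact h3.congr_deriv (mul_div_cancel_right₀ _ hμ')
  have e1 : (fun x : ℝ => (u' x : ℂ)) * (fun x : ℝ => exp (((μ * x : ℝ) : ℂ) * I) / ((μ : ℂ) * I))
      = fun x : ℝ => ((u' x : ℂ) * exp (((μ * x : ℝ) : ℂ) * I)) / ((μ : ℂ) * I) := by
    funext x
    rw [Pi.mul_apply, mul_div_assoc]
  have e2 : (fun x : ℝ => (u x : ℂ)) * (fun x : ℝ => exp (((μ * x : ℝ) : ℂ) * I) / ((μ : ℂ) * I))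
      = fun x : ℝ => ((u x : ℂ) * exp (((μ * x : ℝ) : ℂ) * I)) / ((μ : ℂ) * I) := by
    funext x
    rw [Pi.mul_apply, mul_div_assoc]
  have h := integral_mul_deriv_eq_deriv_mul_of_integrable
    (u := fun x : ℝ => (u x : ℂ)) (u' := fun x : ℝ => (u' x : ℂ))
    (v := fun x : ℝ => exp (((μ * x : ℝ) : ℂ) * I) / ((μ : ℂ) * I))
    (v' := fun x : ℝ => exp (((μ * x : ℝ) : ℂ) * I))
    (fun x _ => (hu x).ofReal_comp) (fun x _ => hv x) (int_mul_exp iu μ)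
    (by rw [e1]; exact (int_mul_exp iu' μ).div_const _)
    (by rw [e2]; exact (int_mul_exp iu μ).div_const _)
  rw [h, norm_neg]
  have e3 : ∫ x : ℝ, (u' x : ℂ) * (exp (((μ * x : ℝ) : ℂ) * I) / ((μ : ℂ) * I)) =
      (∫ x : ℝ, (u' x : ℂ) * exp (((μ * x : ℝ) : ℂ) * I)) / ((μ : ℂ) * I) := by
    rw [← integral_div]
    exact integral_congr_ae (Eventually.of_forall fun x => (mul_div_assoc _ _ _).symm)
  rw [e3, norm_div, norm_mul, Complex.norm_I, mul_one, Complex.norm_real, Real.norm_eq_abs,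
    div_eq_inv_mul]

private lemma w_cont (n : ℕ) : Continuous fun x : ℝ => ((1 + x ^ 2) ^ n)⁻¹ :=
  Continuous.inv₀ (by fun_prop) fun x => by positivity

private lemma w_d1 (x : ℝ) : HasDerivAt (fun x : ℝ => ((1 + x ^ 2) ^ 2)⁻¹)
    (-(4 * x) * ((1 + x ^ 2) ^ 3)⁻¹) x := by
  have h1 : HasDerivAt (fun x : ℝ => 1 + x ^ 2) (2 * x) x := by
    simpa using (hasDerivAt_pow 2 x).const_add 1
  have h2 := (h1.fun_pow 2).fun_inv (by positivity)
  refine h2.congr_deriv ?_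
  have h3 : (1 + x ^ 2) ≠ 0 := by positivity
  field_simp
  ring

private lemma w_d2 (x : ℝ) : HasDerivAt (fun x : ℝ => -(4 * x) * ((1 + x ^ 2) ^ 3)⁻¹)
    ((20 * x ^ 2 - 4) * ((1 + x ^ 2) ^ 4)⁻¹) x := by
  have h1 : HasDerivAt (fun x : ℝ => 1 + x ^ 2) (2 * x) x := by
    simpa using (hasDerivAt_pow 2 x).const_add 1
  have h2 := (h1.fun_pow 3).fun_inv (by positivity)
  have h4 : HasDerivAt (fun x : ℝ => -(4 * x)) (-4) x := by
    exact ((hasDerivAt_id' x).const_mul (4 : ℝ)).fun_neg.congr_deriv (by ring)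
  refine (h4.fun_mul h2).congr_deriv ?_
  have h3 : (1 + x ^ 2) ≠ 0 := by positivity
  field_simp
  ring

private lemma w_i0 : Integrable fun x : ℝ => ((1 + x ^ 2) ^ 2)⁻¹ := by
  refine Integrable.mono' integrable_inv_one_add_sq (w_cont 2).aestronglyMeasurable
    (Eventually.of_forall fun x => ?_)
  rw [Real.norm_of_nonneg (by positivity)]
  apply inv_anti₀ (by positivity)
  nlinarith [sq_nonneg x]

private lemma w_i1 : Integrable fun x : ℝ => -(4 * x) * ((1 + x ^ 2) ^ 3)⁻¹ := by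
  refine Integrable.mono' (integrable_inv_one_add_sq.const_mul 4)
    (Continuous.aestronglyMeasurable (by
      have := w_cont 3
      fun_prop)) (Eventually.of_forall fun x => ?_)
  rw [norm_mul, norm_neg, norm_mul, Real.norm_of_nonneg (by positivity : (0:ℝ) ≤ 4),
    Real.norm_of_nonneg (by positivity : (0:ℝ) ≤ ((1 + x ^ 2) ^ 3)⁻¹), mul_assoc]
  refine mul_le_mul_of_nonneg_left ?_ (by norm_num)
  rw [← div_eq_mul_inv, div_le_iff₀ (by positivity), Real.norm_eq_abs]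
  have h1 : |x| ≤ 1 + x ^ 2 := by
    rw [← sq_abs]
    nlinarith [sq_nonneg (|x| - 1), abs_nonneg x]
  have h2 : (1 + x ^ 2)⁻¹ * (1 + x ^ 2) ^ 3 = (1 + x ^ 2) ^ 2 := by
    have : (1 + x ^ 2) ≠ 0 := by positivity
    field_simp
  rw [h2]
  refine h1.trans ?_
  nlinarith [sq_nonneg x]

private lemma w_i2 : Integrable fun x : ℝ => (20 * x ^ 2 - 4) * ((1 + x ^ 2) ^ 4)⁻¹ := by
  refine Integrable.mono' (integrable_inv_one_add_sq.const_mul 20)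
    (Continuous.aestronglyMeasurable (by
      have := w_cont 4
      fun_prop)) (Eventually.of_forall fun x => ?_)
  rw [norm_mul, Real.norm_of_nonneg (by positivity : (0:ℝ) ≤ ((1 + x ^ 2) ^ 4)⁻¹)]
  have h1 : ‖20 * x ^ 2 - 4‖ ≤ 20 * (1 + x ^ 2) ^ 3 := by
    rw [Real.norm_eq_abs, abs_le]
    have h2 : 1 + x ^ 2 ≤ (1 + x ^ 2) ^ 3 := by
      have h3 : 1 ≤ 1 + x ^ 2 := by nlinarith [sq_nonneg x]
      exact le_self_pow₀ h3 (by norm_num)
    constructor <;> nlinarith [sq_nonneg x]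
  calc ‖20 * x ^ 2 - 4‖ * ((1 + x ^ 2) ^ 4)⁻¹ ≤ 20 * (1 + x ^ 2) ^ 3 * ((1 + x ^ 2) ^ 4)⁻¹ :=
        mul_le_mul_of_nonneg_right h1 (by positivity)
    _ = 20 * (1 + x ^ 2)⁻¹ := by
        have : (1 + x ^ 2) ≠ 0 := by positivity
        field_simp

/-- Integrate by parts twice: `∫ W T t e^{iλt} dt = -λ⁻² ∫ (W T)'' t e^{iλt} dt`
(`integral_mul_deriv_eq_deriv_mul_of_integrable`), and `|(W T)'' t| ≤ C T⁻² (1 + (t/T)²)⁻¹`,
so the integral of `|(W T)''|` is at most `C / T`. -/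
theorem W_ft : ∃ C : ℝ, 0 < C ∧ ∀ T lam : ℝ, 0 < T → lam ≠ 0 →
    ‖∫ t : ℝ, (W T t : ℂ) * exp ((lam * t : ℝ) * I)‖ ≤ C / (T * lam ^ 2) := by
  set D : ℝ := ∫ x : ℝ, ‖(20 * x ^ 2 - 4) * ((1 + x ^ 2) ^ 4)⁻¹‖ with hD
  have hD0 : 0 ≤ D := integral_nonneg fun x => norm_nonneg _
  refine ⟨D + 1, by linarith, fun T lam hT hl => ?_⟩
  have hμ : lam * T ≠ 0 := mul_ne_zero hl hT.ne'
  have h1 : ∫ t : ℝ, (W T t : ℂ) * exp ((lam * t : ℝ) * I) =
      |T| • ∫ x : ℝ, ((((1 + x ^ 2) ^ 2)⁻¹ : ℝ) : ℂ) * exp (((lam * T) * x : ℝ) * I) := by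
    rw [← Measure.integral_comp_div
      (fun x : ℝ => ((((1 + x ^ 2) ^ 2)⁻¹ : ℝ) : ℂ) * exp (((lam * T) * x : ℝ) * I)) T]
    refine integral_congr_ae (Eventually.of_forall fun t => ?_)
    change (W T t : ℂ) * exp ((lam * t : ℝ) * I) =
      ((((1 + (t / T) ^ 2) ^ 2)⁻¹ : ℝ) : ℂ) * exp (((lam * T) * (t / T) : ℝ) * I)
    have e : lam * T * (t / T) = lam * t := by
      field_simp
    rw [e]
    rfl
  have h2 := ibp w_d1 w_i0 w_i1 hμ
  have h3 := ibp w_d2 w_i1 w_i2 hμ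
  have h4 : ‖∫ x : ℝ, (((20 * x ^ 2 - 4) * ((1 + x ^ 2) ^ 4)⁻¹ : ℝ) : ℂ) *
      exp (((lam * T) * x : ℝ) * I)‖ ≤ D := by
    refine (norm_integral_le_integral_norm _).trans_eq ?_
    refine integral_congr_ae (Eventually.of_forall fun x => ?_)
    change ‖(((20 * x ^ 2 - 4) * ((1 + x ^ 2) ^ 4)⁻¹ : ℝ) : ℂ) *
      exp (((lam * T) * x : ℝ) * I)‖ = _
    rw [norm_mul, norm_e, mul_one, Complex.norm_real]
  rw [h1, norm_smul, h2, h3, Real.norm_eq_abs, abs_abs]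
  have h5 : |lam * T| * |lam * T| = lam ^ 2 * T ^ 2 := by
    rw [abs_mul_abs_self]
    ring
  have h6 : |T| * (|lam * T|⁻¹ * (|lam * T|⁻¹ * ‖∫ x : ℝ,
      (((20 * x ^ 2 - 4) * ((1 + x ^ 2) ^ 4)⁻¹ : ℝ) : ℂ) * exp (((lam * T) * x : ℝ) * I)‖)) =
      T * (lam ^ 2 * T ^ 2)⁻¹ * ‖∫ x : ℝ,
      (((20 * x ^ 2 - 4) * ((1 + x ^ 2) ^ 4)⁻¹ : ℝ) : ℂ) * exp (((lam * T) * x : ℝ) * I)‖ := by
    rw [← h5, mul_inv, abs_of_pos hT]
    ring
  rw [h6]
  have h7 : T * (lam ^ 2 * T ^ 2)⁻¹ = 1 / (T * lam ^ 2) := by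
    have := hT.ne'
    field_simp
  rw [h7, div_mul_eq_mul_div, one_mul]
  exact div_le_div_of_nonneg_right (by linarith) (by positivity)

private lemma cpow_eq {n : ℕ} (hn : 1 ≤ n) (t : ℝ) :
    (n : ℂ) ^ (-((t : ℂ) * I)) = exp (((-Real.log n * t : ℝ) : ℂ) * I) := by
  have h : (n : ℂ) ≠ 0 := by exact_mod_cast (by omega : n ≠ 0)
  rw [Complex.cpow_def_of_ne_zero h, ← Complex.natCast_log]
  congr 1
  push_cast
  ring

private lemma prod_e (a b t : ℝ) : exp (((-a * t : ℝ) : ℂ) * I) *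
    (starRingEnd ℂ) (exp (((-b * t : ℝ) : ℂ) * I)) = exp ((((b - a) * t : ℝ) : ℂ) * I) := by
  rw [← Complex.exp_conj, ← Complex.exp_add, map_mul, Complex.conj_I, Complex.conj_ofReal]
  congr 1
  push_cast
  ring

private lemma log_low {N m n : ℕ} (hm : 1 ≤ m) (hn : n ≤ N) (hmn : m < n) :
    ((n : ℝ) - m) / N ≤ Real.log n - Real.log m := by
  have hm0 : (0 : ℝ) < m := by exact_mod_cast hm
  have hn0 : (0 : ℝ) < n := by exact_mod_cast (by omega : 0 < n)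
  have hN0 : (0 : ℝ) < N := by exact_mod_cast (by omega : 0 < N)
  have h1 := Real.one_sub_inv_le_log_of_pos (div_pos hn0 hm0)
  rw [Real.log_div hn0.ne' hm0.ne', inv_div] at h1
  refine le_trans ?_ h1
  have h2 : 1 - (m : ℝ) / n = ((n : ℝ) - m) / n := by
    field_simp
  rw [h2]
  have h3 : (m : ℝ) < n := by exact_mod_cast hmn
  exact div_le_div_of_nonneg_left (by linarith) hn0 (by exact_mod_cast hn)

private lemma log_sq {N m n : ℕ} (hm : 1 ≤ m) (hm' : m ≤ N) (hn : 1 ≤ n) (hn' : n ≤ N)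
    (hmn : m ≠ n) : ((n : ℝ) - m) ^ 2 ≤ N ^ 2 * (Real.log n - Real.log m) ^ 2 := by
  have hN0 : (0 : ℝ) < N := by exact_mod_cast (by omega : 0 < N)
  have key : ∀ a b : ℕ, 1 ≤ a → b ≤ N → a < b →
      ((b : ℝ) - a) ^ 2 ≤ N ^ 2 * (Real.log b - Real.log a) ^ 2 := by
    intro a b ha hb hab
    have h1 := log_low ha hb hab
    rw [div_le_iff₀ hN0] at h1
    have h2 : (a : ℝ) < b := by exact_mod_cast hab
    rw [← mul_pow]
    refine pow_le_pow_left₀ (by linarith) ?_ 2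
    linarith
  rcases lt_or_gt_of_ne hmn with h | h
  · exact key m n hm hn' h
  · have h1 := key n m hn hm' h
    have e1 : ((n : ℝ) - m) ^ 2 = ((m : ℝ) - n) ^ 2 := by ring
    have e2 : (Real.log n - Real.log m) ^ 2 = (Real.log m - Real.log n) ^ 2 := by ring
    rw [e1, e2]
    exact h1

private lemma sum_inv_sq : ∃ D : ℝ, 0 ≤ D ∧ ∀ (N m : ℕ),
    ∑ n ∈ Finset.Icc 1 N, 1 / ((n : ℝ) - m) ^ 2 ≤ D := by
  have hs : Summable fun k : ℤ => 1 / (k : ℝ) ^ 2 :=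
    Real.summable_one_div_int_pow.2 (by norm_num)
  refine ⟨∑' k : ℤ, 1 / (k : ℝ) ^ 2, tsum_nonneg fun k => by positivity, fun N m => ?_⟩
  have h1 : ∑ n ∈ Finset.Icc 1 N, 1 / ((n : ℝ) - m) ^ 2 =
      ∑ k ∈ (Finset.Icc 1 N).image (fun n : ℕ => (n : ℤ) - m), 1 / (k : ℝ) ^ 2 := by
    rw [Finset.sum_image]
    · refine Finset.sum_congr rfl fun n _ => ?_
      push_cast
      rfl
    · intro a _ b _ hab
      have hab' : (a : ℤ) - m = (b : ℤ) - m := hab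
      omega
  rw [h1]
  exact hs.sum_le_tsum _ fun k _ => by positivity

/-- Expand the square: diagonal `∑ ‖b n‖² ∫ W T ≤ 4 T ∑ ‖b n‖²` (`W_int`). Off the diagonal
`m^(-it) conj (n^(-it)) = exp (i t log (n/m))`, `|log (n/m)| ≥ |n - m| / N`
(`log x ≥ 1 - 1/x`), so `W_ft` bounds the terms by
`‖b m‖ ‖b n‖ C N² / (T (m - n)²) ≤ C (‖b m‖² + ‖b n‖²) / (m - n)²` (`N² ≤ T`), and
`∑_{k ≥ 1} 1/k² ≤ 2`. -/
theorem mvw : ∃ C : ℝ, 0 < C ∧ ∀ (T : ℝ) (N : ℕ) (b : ℕ → ℂ), 1 ≤ T → (N : ℝ) ^ 2 ≤ T →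
    Integrable (fun t : ℝ =>
      ‖∑ n ∈ Finset.Icc 1 N, b n * (n : ℂ) ^ (-((t : ℂ) * I))‖ ^ 2 * W T t) ∧
    ∫ t : ℝ, ‖∑ n ∈ Finset.Icc 1 N, b n * (n : ℂ) ^ (-((t : ℂ) * I))‖ ^ 2 * W T t ≤
      C * T * ∑ n ∈ Finset.Icc 1 N, ‖b n‖ ^ 2 := by
  obtain ⟨C, hC, hft⟩ := W_ft
  obtain ⟨D, hD, hsum⟩ := sum_inv_sq
  refine ⟨4 + C * D, by positivity, fun T N b hT hNT => ?_⟩
  have hT0 : 0 < T := by linarith
  obtain ⟨hWi, hW4⟩ := W_int hT0
  -- rewrite the polynomial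
  set f : ℝ → ℂ := fun t => ∑ n ∈ Finset.Icc 1 N, b n * exp (((-Real.log n * t : ℝ) : ℂ) * I)
    with hf
  have hfe : ∀ t : ℝ, ∑ n ∈ Finset.Icc 1 N, b n * (n : ℂ) ^ (-((t : ℂ) * I)) = f t := by
    intro t
    refine Finset.sum_congr rfl fun n hn => ?_
    rw [cpow_eq (Finset.mem_Icc.1 hn).1]
  simp only [hfe]
  have hfc : Continuous f := by
    rw [hf]
    fun_prop
  set B := ∑ n ∈ Finset.Icc 1 N, ‖b n‖ with hB
  have hfB : ∀ t, ‖f t‖ ≤ B := by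
    intro t
    refine (norm_sum_le _ _).trans (Finset.sum_le_sum fun n _ => ?_)
    rw [norm_mul, norm_e, mul_one]
  have hint : Integrable (fun t : ℝ => ‖f t‖ ^ 2 * W T t) := by
    refine Integrable.mono' (hWi.const_mul (B ^ 2))
      (((hfc.norm.pow 2).mul (W_cont T)).aestronglyMeasurable)
      (Eventually.of_forall fun t => ?_)
    rw [norm_mul, norm_pow, norm_norm, Real.norm_of_nonneg (W_pos T t).le]
    exact mul_le_mul_of_nonneg_right (pow_le_pow_left₀ (norm_nonneg _) (hfB t) 2) (W_pos T t).le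
  refine ⟨hint, ?_⟩
  -- the expansion
  have hexp : ((∫ t : ℝ, ‖f t‖ ^ 2 * W T t : ℝ) : ℂ) =
      ∑ m ∈ Finset.Icc 1 N, ∑ n ∈ Finset.Icc 1 N, (b m * (starRingEnd ℂ) (b n)) *
        ∫ t : ℝ, (W T t : ℂ) * exp ((((Real.log n - Real.log m) * t : ℝ) : ℂ) * I) := by
    rw [← integral_complex_ofReal]
    have e1 : (fun t : ℝ => ((‖f t‖ ^ 2 * W T t : ℝ) : ℂ)) = fun t : ℝ =>
        ∑ m ∈ Finset.Icc 1 N, ∑ n ∈ Finset.Icc 1 N, (b m * (starRingEnd ℂ) (b n)) *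
          ((W T t : ℂ) * exp ((((Real.log n - Real.log m) * t : ℝ) : ℂ) * I)) := by
      funext t
      have e2 : ((‖f t‖ ^ 2 : ℝ) : ℂ) = f t * (starRingEnd ℂ) (f t) := by
        rw [Complex.mul_conj, Complex.normSq_eq_norm_sq]
      rw [Complex.ofReal_mul, e2, hf]
      simp only
      rw [map_sum, Finset.sum_mul_sum, Finset.sum_mul]
      refine Finset.sum_congr rfl fun m _ => ?_
      rw [Finset.sum_mul]
      refine Finset.sum_congr rfl fun n _ => ?_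
      rw [map_mul, ← prod_e]
      ring
    rw [e1, integral_finsetSum _ fun m _ => integrable_finsetSum _ fun n _ =>
      (int_mul_exp hWi _).const_mul _]
    refine Finset.sum_congr rfl fun m _ => ?_
    rw [integral_finsetSum _ fun n _ => (int_mul_exp hWi _).const_mul _]
    refine Finset.sum_congr rfl fun n _ => ?_
    rw [integral_const_mul]
  -- the bound of the integrals
  have hI : ∀ m ∈ Finset.Icc 1 N, ∀ n ∈ Finset.Icc 1 N,
      ‖∫ t : ℝ, (W T t : ℂ) * exp ((((Real.log n - Real.log m) * t : ℝ) : ℂ) * I)‖ ≤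
        (if m = n then 4 * T else 0) + C * (1 / ((n : ℝ) - m) ^ 2) := by
    intro m hm n hn
    rw [Finset.mem_Icc] at hm hn
    by_cases hmn : m = n
    · subst hmn
      rw [if_pos rfl, sub_self, sub_self]
      have e : (fun t : ℝ => (W T t : ℂ) * exp (((0 * t : ℝ) : ℂ) * I)) =
          fun t : ℝ => ((W T t : ℝ) : ℂ) := by
        funext t
        simp
      rw [e, integral_complex_ofReal, Complex.norm_real, Real.norm_of_nonneg
        (integral_nonneg fun t => (W_pos T t).le)]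
      simpa using hW4
    · rw [if_neg hmn, zero_add]
      have hlog : Real.log n - Real.log m ≠ 0 := by
        intro h0
        have h1 := log_sq hm.1 hm.2 hn.1 hn.2 hmn
        rw [h0] at h1
        have h2 : ((n : ℝ) - m) ^ 2 = 0 := le_antisymm (by simpa using h1) (sq_nonneg _)
        have h3 : (n : ℝ) - m = 0 := pow_eq_zero_iff (by norm_num) |>.1 h2
        exact hmn (by exact_mod_cast (sub_eq_zero.1 h3).symm)
      refine (hft T _ hT0 hlog).trans ?_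
      have h1 := log_sq hm.1 hm.2 hn.1 hn.2 hmn
      have h2 : ((n : ℝ) - m) ^ 2 ≤ T * (Real.log n - Real.log m) ^ 2 :=
        h1.trans (mul_le_mul_of_nonneg_right hNT (sq_nonneg _))
      have h3 : (0 : ℝ) < ((n : ℝ) - m) ^ 2 := by
        have h4 : (n : ℝ) - m ≠ 0 := by
          intro h5
          exact hmn (by exact_mod_cast (sub_eq_zero.1 h5).symm)
        positivity
      rw [mul_one_div]
      exact div_le_div_of_nonneg_left hC.le h3 h2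
  have hnn : 0 ≤ ∫ t : ℝ, ‖f t‖ ^ 2 * W T t :=
    integral_nonneg fun t => mul_nonneg (sq_nonneg _) (W_pos T t).le
  have h1 : ∫ t : ℝ, ‖f t‖ ^ 2 * W T t ≤ ∑ m ∈ Finset.Icc 1 N, ∑ n ∈ Finset.Icc 1 N,
      (‖b m‖ * ‖b n‖) * ((if m = n then 4 * T else 0) + C * (1 / ((n : ℝ) - m) ^ 2)) := by
    have h2 : ∫ t : ℝ, ‖f t‖ ^ 2 * W T t = ‖((∫ t : ℝ, ‖f t‖ ^ 2 * W T t : ℝ) : ℂ)‖ := by
      rw [Complex.norm_real, Real.norm_of_nonneg hnn]
    rw [h2, hexp]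
    refine (norm_sum_le _ _).trans (Finset.sum_le_sum fun m hm => ?_)
    refine (norm_sum_le _ _).trans (Finset.sum_le_sum fun n hn => ?_)
    rw [norm_mul, norm_mul, RCLike.norm_conj]
    exact mul_le_mul_of_nonneg_left (hI m hm n hn) (by positivity)
  refine h1.trans ?_
  have h2 : ∑ m ∈ Finset.Icc 1 N, ∑ n ∈ Finset.Icc 1 N,
      (‖b m‖ * ‖b n‖) * ((if m = n then 4 * T else 0) + C * (1 / ((n : ℝ) - m) ^ 2)) ≤
      ∑ m ∈ Finset.Icc 1 N, ∑ n ∈ Finset.Icc 1 N, ((if m = n then ‖b m‖ ^ 2 * (4 * T) else 0) +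
        (C / 2 * (‖b m‖ ^ 2 * (1 / ((n : ℝ) - m) ^ 2)) +
          C / 2 * (‖b n‖ ^ 2 * (1 / ((n : ℝ) - m) ^ 2)))) := by
    refine Finset.sum_le_sum fun m _ => Finset.sum_le_sum fun n _ => ?_
    have h3 : ‖b m‖ * ‖b n‖ ≤ (‖b m‖ ^ 2 + ‖b n‖ ^ 2) / 2 := by
      nlinarith [sq_nonneg (‖b m‖ - ‖b n‖)]
    have h4 : 0 ≤ C * (1 / ((n : ℝ) - m) ^ 2) := by positivity
    have h5 := mul_le_mul_of_nonneg_right h3 h4
    rw [mul_add]
    refine add_le_add ?_ (h5.trans_eq (by ring))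
    split_ifs with h6
    · rw [h6, sq]
    · rw [mul_zero]
  refine h2.trans ?_
  simp only [Finset.sum_add_distrib]
  have h3 : ∑ m ∈ Finset.Icc 1 N, ∑ n ∈ Finset.Icc 1 N,
      (if m = n then ‖b m‖ ^ 2 * (4 * T) else 0) =
      4 * T * ∑ n ∈ Finset.Icc 1 N, ‖b n‖ ^ 2 := by
    rw [Finset.mul_sum]
    refine Finset.sum_congr rfl fun m hm => ?_
    rw [Finset.sum_ite_eq, if_pos hm]
    ring
  have h4 : ∑ m ∈ Finset.Icc 1 N, ∑ n ∈ Finset.Icc 1 N,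
      C / 2 * (‖b m‖ ^ 2 * (1 / ((n : ℝ) - m) ^ 2)) ≤
      C / 2 * D * ∑ n ∈ Finset.Icc 1 N, ‖b n‖ ^ 2 := by
    rw [Finset.mul_sum]
    refine Finset.sum_le_sum fun m _ => ?_
    rw [← Finset.mul_sum, ← Finset.mul_sum]
    have h5 := mul_le_mul_of_nonneg_left (hsum N m) (by positivity : 0 ≤ C / 2 * ‖b m‖ ^ 2)
    calc C / 2 * (‖b m‖ ^ 2 * ∑ n ∈ Finset.Icc 1 N, 1 / ((n : ℝ) - m) ^ 2)
        = C / 2 * ‖b m‖ ^ 2 * ∑ n ∈ Finset.Icc 1 N, 1 / ((n : ℝ) - m) ^ 2 := by ring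
      _ ≤ C / 2 * ‖b m‖ ^ 2 * D := h5
      _ = C / 2 * D * ‖b m‖ ^ 2 := by ring
  have h6 : ∑ m ∈ Finset.Icc 1 N, ∑ n ∈ Finset.Icc 1 N,
      C / 2 * (‖b n‖ ^ 2 * (1 / ((n : ℝ) - m) ^ 2)) ≤
      C / 2 * D * ∑ n ∈ Finset.Icc 1 N, ‖b n‖ ^ 2 := by
    rw [Finset.sum_comm]
    refine le_trans (le_of_eq ?_) h4
    refine Finset.sum_congr rfl fun m _ => Finset.sum_congr rfl fun n _ => ?_
    have e : ((m : ℝ) - n) ^ 2 = ((n : ℝ) - m) ^ 2 := by ring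
    rw [e]
  rw [h3]
  have h7 : 0 ≤ ∑ n ∈ Finset.Icc 1 N, ‖b n‖ ^ 2 := Finset.sum_nonneg fun n _ => sq_nonneg _
  have h8 : C * D * ∑ n ∈ Finset.Icc 1 N, ‖b n‖ ^ 2 ≤
      C * D * T * ∑ n ∈ Finset.Icc 1 N, ‖b n‖ ^ 2 := by
    refine mul_le_mul_of_nonneg_right ?_ h7
    exact le_mul_of_one_le_right (by positivity) hT
  linarith

end ERT
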