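import Pool.Agent.Lib.MP_ed189b_nt.Dir
import Pool.Agent.Lib.MP_ed189b_nt.MVw
import Pool.Agent.Lib.MP_ed189b_nt.Lam

/-!
# MP_ed189b_nt: the mean square of the Dirichlet polynomial
-/

set_option autoImplicit false

noncomputable section

namespace ERT

open Complex Filter Topology Set MeasureTheory

private lemma db_cpow {α : ℝ} {n : ℕ} (hn : 1 ≤ n) (t : ℝ) :
    (n : ℂ) ^ (-pt α t) =
      (((n : ℝ) ^ (-(1 / 2 + α)) : ℝ) : ℂ) * (n : ℂ) ^ (-((t : ℂ) * I)) := by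
  have h0 : (n : ℂ) ≠ 0 := by
    have : n ≠ 0 := by omega
    exact_mod_cast this
  unfold pt
  rw [neg_add, Complex.cpow_add _ _ h0]
  congr 1
  rw [Complex.ofReal_cpow (by positivity)]
  push_cast
  rfl

private lemma db_norm {α : ℝ} (hα : 0 < α) {n : ℕ} (hn : 1 ≤ n) (t : ℝ) :
    ‖(n : ℂ) ^ (-pt α t)‖ ≤ (n : ℝ) ^ (-(1 / 2) : ℝ) := by
  rw [Complex.norm_natCast_cpow_of_pos (by omega)]
  refine Real.rpow_le_rpow_of_exponent_le (by exact_mod_cast hn) ?_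
  rw [neg_re, pt_re]
  linarith

private lemma db_pow {m : ℕ} (hm : 1 ≤ m) :
    (m : ℝ) ^ (-(5 / 2) : ℝ) = (m : ℝ) ^ (-(1 / 2) : ℝ) * ((m : ℝ) ^ 2)⁻¹ := by
  have h0 : (0 : ℝ) < m := by exact_mod_cast hm
  rw [← Real.rpow_two, ← Real.rpow_neg h0.le, ← Real.rpow_add h0]
  norm_num

/-- the terms of the tail -/
private lemma db_term {C R α : ℝ} {ℓ : ℝ} (hα : 0 < α) {m : ℕ} (hm : 1 ≤ m)
    (h : ‖kap ℓ m‖ ≤ C * R / (m : ℝ) ^ 2) (t : ℝ) :
    ‖(ArithmeticFunction.vonMangoldt m : ℂ) * (m : ℂ) ^ (-pt α t) * kap ℓ m‖ ≤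
      C * R * (ArithmeticFunction.vonMangoldt m * (m : ℝ) ^ (-(5 / 2) : ℝ)) := by
  have h0 : 0 ≤ ArithmeticFunction.vonMangoldt m := ArithmeticFunction.vonMangoldt_nonneg
  rw [norm_mul, norm_mul, db_pow hm]
  have h1 : ‖((ArithmeticFunction.vonMangoldt m : ℝ) : ℂ)‖ =
      ArithmeticFunction.vonMangoldt m := by
    rw [Complex.norm_real, Real.norm_of_nonneg h0]
  rw [h1]
  have h2 := db_norm hα hm t
  have h3 : 0 ≤ (m : ℝ) ^ (-(1 / 2) : ℝ) := by positivity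
  calc ArithmeticFunction.vonMangoldt m * ‖(m : ℂ) ^ (-pt α t)‖ * ‖kap ℓ m‖
      ≤ ArithmeticFunction.vonMangoldt m * (m : ℝ) ^ (-(1 / 2) : ℝ) *
        (C * R / (m : ℝ) ^ 2) := by
        refine mul_le_mul (mul_le_mul_of_nonneg_left h2 h0) h (norm_nonneg _) (by positivity)
    _ = _ := by ring

private lemma db_meas {ℓ α : ℝ} (hℓ : 1 ≤ ℓ) (hα : 0 < α) :
    StronglyMeasurable (fun t : ℝ => ∫ v : ℝ, (pt α t - 1 + ln 2 v)⁻¹ * Kx ℓ (ln 2 v)) := by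
  apply StronglyMeasurable.integral_prod_right
  apply Continuous.stronglyMeasurable
  have h1 : Continuous (fun v : ℝ => Kx ℓ (ln 2 v)) := Kx_cont (by linarith) (by norm_num)
  have h2 : Continuous (fun p : ℝ × ℝ => Kx ℓ (ln 2 p.2)) := h1.comp continuous_snd
  have h3 : Continuous (fun p : ℝ × ℝ => pt α p.1 - 1 + ln 2 p.2) := by
    unfold pt ln
    fun_prop
  have h4 : ∀ p : ℝ × ℝ, pt α p.1 - 1 + ln 2 p.2 ≠ 0 := fun p hp => by
    have h5 := congrArg Complex.re hp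
    rw [add_re, sub_re, pt_re, ln_re, one_re, zero_re] at h5
    linarith
  exact (h3.inv₀ h4).mul h2

/-- the three parts -/
private lemma db_split {ℓ α : ℝ} (hℓ : 1 ≤ ℓ) (hα : 0 < α) (N : ℕ) (t : ℝ) :
    Dd ℓ α t = -(∑ n ∈ Finset.Icc 1 N,
        ((ArithmeticFunction.vonMangoldt n : ℂ) * kap ℓ n *
          (((n : ℝ) ^ (-(1 / 2 + α)) : ℝ) : ℂ)) * (n : ℂ) ^ (-((t : ℂ) * I))) -
      (∑' n : ℕ, (ArithmeticFunction.vonMangoldt (n + N + 1) : ℂ) *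
        ((n + N + 1 : ℕ) : ℂ) ^ (-pt α t) * kap ℓ (n + N + 1)) +
      (((2 * Real.pi)⁻¹ : ℝ) : ℂ) *
        ∫ v : ℝ, (pt α t - 1 + ln 2 v)⁻¹ * Kx ℓ (ln 2 v) := by
  obtain ⟨hs, he⟩ := dir_eq hℓ hα t
  rw [he]
  congr 1
  rw [← hs.sum_add_tsum_nat_add (N + 1), neg_add, ← sub_eq_add_neg]
  congr 1
  congr 1
  rw [Finset.sum_range_succ']
  have h0 : (ArithmeticFunction.vonMangoldt 0 : ℝ) = 0 := by simp
  rw [h0]
  simp only [ofReal_zero, zero_mul, add_zero]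
  have h1 : Finset.Icc 1 N = Finset.Ico 1 (N + 1) := by
    ext x
    simp [Finset.mem_Icc, Finset.mem_Ico]
  rw [h1, Finset.sum_Ico_eq_sum_range]
  refine Finset.sum_congr (by simp) fun n _ => ?_
  rw [add_comm 1 n, db_cpow (by omega : 1 ≤ n + 1) t]
  push_cast
  ring

/-- `ℓ = log T / 8 ≥ 1`, `exp (4 ℓ) = T^(1/2)`, `N = ⌊T^(1/2)⌋₊`. By `dir_eq`,
`Dd = -D₁ - D₂ + D₃` with `D₁ = ∑_{n ≤ N} Λ(n) kap ℓ n n^(-1/2-α) n^(-it)`: by `mvw`, `kap_one`,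
`lam_sq` its weighted mean square is at most `C T ∑ Λ(n)² / n ≤ C' T log² T`
(`n^(-1/2-α) ≤ n^(-1/2)`);
`|D₂| ≤ ∑_{n > N} Λ(n) n^(-1/2) C exp (4 ℓ) n^(-2) ≤ C T^(1/2) / N ≤ C'` (`kap_two`, `lam_tail`,
`N ≥ T^(1/2) / 2`); `|D₃| ≤ C T^(1/2) / (1 + |t|)` (`dir_pole`), with integral of the square at
most `C T`. Integrability: `Dd` is bounded (or measurable and square bounded by the sum). For the
measurability of `Dd` in `t`: from `dir_eq` or `Continuous` by dominated convergence. -/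
theorem db : ∃ C : ℝ, 0 < C ∧ ∀ T α : ℝ, Real.exp 8 ≤ T → 0 < α → α ≤ 1 / 100 →
    Integrable (fun t => ‖Dd (Real.log T / 8) α t‖ ^ 2 * W T t) ∧
    ∫ t, ‖Dd (Real.log T / 8) α t‖ ^ 2 * W T t ≤ C * T * Real.log T ^ 2 := by
  obtain ⟨Cm, hCm, hm⟩ := mvw
  obtain ⟨Ck, hCk, hk⟩ := kap_one
  obtain ⟨Cq, hCq, hq⟩ := kap_two
  obtain ⟨Cl, hCl, hl⟩ := lam_sq
  obtain ⟨Ct, hCt, ht⟩ := lam_tail
  obtain ⟨Cp, hCp, hp⟩ := dir_pole
  refine ⟨3 * (Cm * Ck ^ 2 * Cl) + 3 * ((2 * Cq * Ct) ^ 2 * 4) + 3 * (Cp ^ 2 * 4),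
    by positivity, ?_⟩
  intro T α hT hα _
  have hT0 : 0 < T := (Real.exp_pos 8).trans_le hT
  have hL : 8 ≤ Real.log T := by
    rw [Real.le_log_iff_exp_le hT0]
    exact hT
  have hT1 : 1 ≤ T := by
    have := Real.add_one_le_exp 8
    linarith
  set ℓ : ℝ := Real.log T / 8 with hℓd
  have hℓ : 1 ≤ ℓ := by
    rw [hℓd]
    linarith
  set R : ℝ := Real.exp (4 * ℓ) with hRd
  have hR0 : 0 < R := Real.exp_pos _
  have hR2 : R ^ 2 = T := by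
    rw [hRd, ← Real.exp_nat_mul, hℓd]
    rw [show ((2 : ℕ) : ℝ) * (4 * (Real.log T / 8)) = Real.log T by push_cast; ring]
    exact Real.exp_log hT0
  have hR5 : 5 ≤ R := by
    have h1 := Real.add_one_le_exp (4 * ℓ)
    linarith
  set N : ℕ := ⌊R⌋₊ with hNd
  have hN1 : (N : ℝ) ≤ R := Nat.floor_le hR0.le
  have hN2 : R < N + 1 := Nat.lt_floor_add_one R
  have hN3 : R / 2 ≤ N := by linarith
  have hN4 : 1 ≤ N := by
    have h1 : (1 : ℝ) ≤ N := by linarith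
    exact_mod_cast h1
  have hN0 : (0 : ℝ) < N := by exact_mod_cast hN4
  have hNT : (N : ℝ) ^ 2 ≤ T := by
    rw [← hR2]
    exact pow_le_pow_left₀ hN0.le hN1 2
  -- the main part
  set b : ℕ → ℂ := fun n => (ArithmeticFunction.vonMangoldt n : ℂ) * kap ℓ n *
          (((n : ℝ) ^ (-(1 / 2 + α)) : ℝ) : ℂ) with hb
  obtain ⟨hi1, hi2⟩ := hm T N b hT1 hNT
  have hb1 : ∑ n ∈ Finset.Icc 1 N, ‖b n‖ ^ 2 ≤ Ck ^ 2 * (Cl * Real.log T ^ 2) := by
    have h1 : ∑ n ∈ Finset.Icc 1 N, ‖b n‖ ^ 2 ≤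
        ∑ n ∈ Finset.Icc 1 N, Ck ^ 2 * (ArithmeticFunction.vonMangoldt n ^ 2 / n) := by
      refine Finset.sum_le_sum fun n hn => ?_
      have hn1 : 1 ≤ n := (Finset.mem_Icc.mp hn).1
      have hn0 : (0 : ℝ) < n := by exact_mod_cast hn1
      have h0 : 0 ≤ ArithmeticFunction.vonMangoldt n := ArithmeticFunction.vonMangoldt_nonneg
      have h2 : ‖b n‖ = ArithmeticFunction.vonMangoldt n * ‖kap ℓ n‖ *
          (n : ℝ) ^ (-(1 / 2 + α)) := by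
        rw [hb]
        simp only [norm_mul, Complex.norm_real]
        rw [Real.norm_of_nonneg h0, Real.norm_of_nonneg (by positivity)]
      have h3 : ((n : ℝ) ^ (-(1 / 2 + α))) ^ 2 ≤ (n : ℝ)⁻¹ := by
        rw [← Real.rpow_natCast, ← Real.rpow_mul hn0.le, ← Real.rpow_neg_one]
        refine Real.rpow_le_rpow_of_exponent_le (by exact_mod_cast hn1) ?_
        push_cast
        linarith
      have h4 : ‖kap ℓ n‖ ^ 2 ≤ Ck ^ 2 := pow_le_pow_left₀ (norm_nonneg _) (hk ℓ n hℓ hn1) 2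
      rw [h2, mul_pow, mul_pow]
      calc ArithmeticFunction.vonMangoldt n ^ 2 * ‖kap ℓ n‖ ^ 2 *
            ((n : ℝ) ^ (-(1 / 2 + α))) ^ 2
          ≤ ArithmeticFunction.vonMangoldt n ^ 2 * Ck ^ 2 * (n : ℝ)⁻¹ := by
            refine mul_le_mul (mul_le_mul_of_nonneg_left h4 (by positivity)) h3
              (by positivity) (by positivity)
        _ = _ := by
            rw [div_eq_mul_inv]
            ring
    refine h1.trans ?_
    rw [← Finset.mul_sum]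
    refine mul_le_mul_of_nonneg_left ((hl N hN4).trans ?_) (by positivity)
    refine mul_le_mul_of_nonneg_left ?_ hCl.le
    have h5 : 0 ≤ Real.log N := Real.log_nonneg (by exact_mod_cast hN4)
    have h6 : Real.log N ≤ Real.log T := by
      refine Real.log_le_log hN0 ?_
      nlinarith
    exact pow_le_pow_left₀ h5 h6 2
  -- the tail
  set D2 : ℝ → ℂ := fun t => ∑' n : ℕ, (ArithmeticFunction.vonMangoldt (n + N + 1) : ℂ) *
        ((n + N + 1 : ℕ) : ℂ) ^ (-pt α t) * kap ℓ (n + N + 1) with hD2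
  obtain ⟨hts, htb⟩ := ht N hN4
  have hts' : Summable (fun n : ℕ => Cq * R * (ArithmeticFunction.vonMangoldt (n + N + 1) *
      ((n + N + 1 : ℕ) : ℝ) ^ (-(5 / 2) : ℝ))) :=
    (((summable_nat_add_iff (N + 1)).mpr hts)).mul_left (Cq * R)
  have htm : ∀ (n : ℕ) (t : ℝ), ‖(ArithmeticFunction.vonMangoldt (n + N + 1) : ℂ) *
        ((n + N + 1 : ℕ) : ℂ) ^ (-pt α t) * kap ℓ (n + N + 1)‖ ≤
      Cq * R * (ArithmeticFunction.vonMangoldt (n + N + 1) *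
      ((n + N + 1 : ℕ) : ℝ) ^ (-(5 / 2) : ℝ)) := fun n t =>
    db_term hα (by omega) (hq ℓ (n + N + 1) hℓ (by omega)) t
  have hD2b : ∀ t, ‖D2 t‖ ≤ 2 * Cq * Ct := by
    intro t
    have h1 : ‖D2 t‖ ≤ ∑' n : ℕ, Cq * R * (ArithmeticFunction.vonMangoldt (n + N + 1) *
      ((n + N + 1 : ℕ) : ℝ) ^ (-(5 / 2) : ℝ)) :=
      tsum_of_norm_bounded hts'.hasSum (fun n => htm n t)
    rw [tsum_mul_left] at h1
    refine h1.trans ?_
    calc Cq * R * _ ≤ Cq * R * (Ct / N) := mul_le_mul_of_nonneg_left htb (by positivity)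
      _ ≤ 2 * Cq * Ct := by
        rw [mul_div_assoc', div_le_iff₀ hN0]
        have h2 : 0 < Cq * Ct := by positivity
        nlinarith
  have hD2c : Continuous D2 := by
    rw [hD2]
    refine continuous_tsum (fun n => ?_) hts' htm
    have h1 : ((n + N + 1 : ℕ) : ℂ) ≠ 0 := by
      exact_mod_cast Nat.succ_ne_zero (n + N)
    refine ((continuous_const).mul ?_).mul continuous_const
    refine Continuous.const_cpow ?_ (Or.inl h1)
    unfold pt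
    fun_prop
  -- the pole part
  set D3 : ℝ → ℂ := fun t => (((2 * Real.pi)⁻¹ : ℝ) : ℂ) *
        ∫ v : ℝ, (pt α t - 1 + ln 2 v)⁻¹ * Kx ℓ (ln 2 v) with hD3
  have hD3m : StronglyMeasurable D3 := (db_meas hℓ hα).const_mul _
  have hD3b : ∀ t, ‖D3 t‖ ^ 2 ≤ Cp ^ 2 * T * (1 + t ^ 2)⁻¹ := by
    intro t
    have h1 : ‖D3 t‖ ≤ Cp * R / (1 + |t|) := by
      rw [hD3]
      simp only [norm_mul, Complex.norm_real]
      have h2 : ‖(2 * Real.pi)⁻¹‖ ≤ 1 := by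
        rw [Real.norm_of_nonneg (by positivity)]
        refine inv_le_one_of_one_le₀ ?_
        have := Real.pi_gt_three
        linarith
      calc _ ≤ 1 * (Cp * R / (1 + |t|)) :=
            mul_le_mul h2 (hp ℓ α t hℓ hα) (norm_nonneg _) (by norm_num)
        _ = _ := one_mul _
    refine (pow_le_pow_left₀ (norm_nonneg _) h1 2).trans ?_
    rw [div_pow, mul_pow, hR2, div_eq_mul_inv]
    refine mul_le_mul_of_nonneg_left ?_ (by positivity)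
    refine inv_anti₀ (by positivity) ?_
    have h3 := abs_nonneg t
    have h4 := sq_abs t
    nlinarith
  -- the sum
  set D1 : ℝ → ℂ := fun t => ∑ n ∈ Finset.Icc 1 N, b n * (n : ℂ) ^ (-((t : ℂ) * I)) with hD1
  have hD1c : Continuous D1 := by
    rw [hD1]
    refine continuous_finsetSum _ fun n hn => ?_
    have hn1 : 1 ≤ n := (Finset.mem_Icc.mp hn).1
    have h1 : (n : ℂ) ≠ 0 := by
      have : n ≠ 0 := by omega
      exact_mod_cast this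
    refine continuous_const.mul (Continuous.const_cpow ?_ (Or.inl h1))
    fun_prop
  have hDd : ∀ t, Dd ℓ α t = -D1 t - D2 t + D3 t := fun t => db_split hℓ hα N t
  have hsq : ∀ t, ‖Dd ℓ α t‖ ^ 2 * W T t ≤ 3 * (‖D1 t‖ ^ 2 * W T t) +
      3 * ((2 * Cq * Ct) ^ 2 * W T t) + 3 * (Cp ^ 2 * T * (1 + t ^ 2)⁻¹) := by
    intro t
    have h1 : ‖Dd ℓ α t‖ ≤ ‖D1 t‖ + ‖D2 t‖ + ‖D3 t‖ := by
      rw [hDd t]
      refine (norm_add_le _ _).trans (add_le_add ((norm_sub_le _ _).trans ?_) le_rfl)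
      rw [norm_neg]
    have h2 : ‖Dd ℓ α t‖ ^ 2 ≤ 3 * (‖D1 t‖ ^ 2 + ‖D2 t‖ ^ 2 + ‖D3 t‖ ^ 2) := by
      refine (pow_le_pow_left₀ (norm_nonneg _) h1 2).trans ?_
      nlinarith [sq_nonneg (‖D1 t‖ - ‖D2 t‖), sq_nonneg (‖D1 t‖ - ‖D3 t‖),
        sq_nonneg (‖D2 t‖ - ‖D3 t‖)]
    have h3 : ‖D2 t‖ ^ 2 ≤ (2 * Cq * Ct) ^ 2 := pow_le_pow_left₀ (norm_nonneg _) (hD2b t) 2
    have h4 := W_pos T t
    have h5 := W_le_one T t
    have h6 : ‖D2 t‖ ^ 2 * W T t ≤ (2 * Cq * Ct) ^ 2 * W T t :=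
      mul_le_mul_of_nonneg_right h3 h4.le
    have h7 : ‖D3 t‖ ^ 2 * W T t ≤ Cp ^ 2 * T * (1 + t ^ 2)⁻¹ := by
      refine (mul_le_of_le_one_right (by positivity) h5).trans (hD3b t)
    have h8 : ‖Dd ℓ α t‖ ^ 2 * W T t ≤
        3 * (‖D1 t‖ ^ 2 + ‖D2 t‖ ^ 2 + ‖D3 t‖ ^ 2) * W T t :=
      mul_le_mul_of_nonneg_right h2 h4.le
    linarith
  obtain ⟨hW1, hW2⟩ := W_int hT0
  have hg1 : Integrable (fun t => 3 * (‖D1 t‖ ^ 2 * W T t)) := hi1.const_mul 3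
  have hg2 : Integrable (fun t => 3 * ((2 * Cq * Ct) ^ 2 * W T t)) :=
    (hW1.const_mul _).const_mul 3
  have hg3 : Integrable (fun t : ℝ => 3 * (Cp ^ 2 * T * (1 + t ^ 2)⁻¹)) :=
    (integrable_inv_one_add_sq.const_mul _).const_mul 3
  have hg12 : Integrable (fun t => 3 * (‖D1 t‖ ^ 2 * W T t) +
      3 * ((2 * Cq * Ct) ^ 2 * W T t)) := hg1.add hg2
  have hg : Integrable (fun t => 3 * (‖D1 t‖ ^ 2 * W T t) +
      3 * ((2 * Cq * Ct) ^ 2 * W T t) + 3 * (Cp ^ 2 * T * (1 + t ^ 2)⁻¹)) := hg12.add hg3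
  have hint : Integrable (fun t => ‖Dd ℓ α t‖ ^ 2 * W T t) := by
    refine Integrable.mono' hg ?_ (Eventually.of_forall fun t => ?_)
    · have h1 : (fun t => ‖Dd ℓ α t‖ ^ 2 * W T t) =
          fun t => ‖-D1 t - D2 t + D3 t‖ ^ 2 * W T t := by
        funext t
        rw [hDd t]
      rw [h1]
      refine AEStronglyMeasurable.mul ?_ (W_cont T).aestronglyMeasurable
      refine (AEStronglyMeasurable.norm ?_).pow 2
      exact ((hD1c.neg.sub hD2c).aestronglyMeasurable).add hD3m.aestronglyMeasurable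
    · rw [Real.norm_of_nonneg (mul_nonneg (by positivity) (W_pos T t).le)]
      exact hsq t
  refine ⟨hint, ?_⟩
  have h1 : ∫ t, ‖Dd ℓ α t‖ ^ 2 * W T t ≤ ∫ t, (3 * (‖D1 t‖ ^ 2 * W T t) +
      3 * ((2 * Cq * Ct) ^ 2 * W T t) + 3 * (Cp ^ 2 * T * (1 + t ^ 2)⁻¹)) :=
    integral_mono hint hg hsq
  refine h1.trans ?_
  rw [integral_add hg12 hg3, integral_add hg1 hg2]
  rw [integral_const_mul, integral_const_mul, integral_const_mul, integral_const_mul,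
    integral_const_mul, integral_univ_inv_one_add_sq]
  have h2 : ∫ t, ‖D1 t‖ ^ 2 * W T t ≤ Cm * T * (Ck ^ 2 * (Cl * Real.log T ^ 2)) :=
    hi2.trans (mul_le_mul_of_nonneg_left hb1 (by positivity))
  have h3 : (2 * Cq * Ct) ^ 2 * ∫ t, W T t ≤ (2 * Cq * Ct) ^ 2 * (4 * T) :=
    mul_le_mul_of_nonneg_left hW2 (by positivity)
  have h4 : Cp ^ 2 * T * Real.pi ≤ Cp ^ 2 * T * 4 :=
    mul_le_mul_of_nonneg_left Real.pi_le_four (by positivity)
  have h5 : T ≤ T * Real.log T ^ 2 := by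
    have h6 : 1 ≤ Real.log T ^ 2 := by nlinarith
    exact le_mul_of_one_le_right hT0.le h6
  have h7 : (2 * Cq * Ct) ^ 2 * (4 * T) ≤ (2 * Cq * Ct) ^ 2 * 4 * (T * Real.log T ^ 2) := by
    have h8 : 0 ≤ (2 * Cq * Ct) ^ 2 * 4 := by positivity
    nlinarith [mul_le_mul_of_nonneg_left h5 h8]
  have h9 : Cp ^ 2 * T * 4 ≤ Cp ^ 2 * 4 * (T * Real.log T ^ 2) := by
    have h8 : 0 ≤ Cp ^ 2 * 4 := by positivity
    nlinarith [mul_le_mul_of_nonneg_left h5 h8]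
  calc _ ≤ 3 * (Cm * T * (Ck ^ 2 * (Cl * Real.log T ^ 2))) +
        3 * ((2 * Cq * Ct) ^ 2 * 4 * (T * Real.log T ^ 2)) +
        3 * (Cp ^ 2 * 4 * (T * Real.log T ^ 2)) := by linarith
    _ = _ := by ring

end ERT
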