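import Pool.Agent.Lib.MP_ed189b_nt.Cnv
import Pool.Agent.Lib.MP_ed189b_nt.DB
import Pool.Agent.Lib.MP_ed189b_nt.CmpG

/-!
# MP_ed189b_nt: the mean square of the logarithmic derivative
-/

set_option autoImplicit false

noncomputable section

namespace ERT

open Complex Filter Topology Set MeasureTheory

/-- `L = log T`, `α₀ = 2a/L`, `δ = a/L`: `db`, `cnv` and `cmp_glob` (for `α₀ - δ = a/L ≤ α₀`)
give `J T α₀ ≤ C T L² + κ² 2 C (J T α₀ + T L²)` with `κ = C exp (-a/8) / a`. Choose `a` so large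
that `2 C κ² ≤ 1/2`; `T₀ = exp (max 8 (200 a))`. -/
theorem cls (h : ZF) : ∃ a C T₀ : ℝ, 1 ≤ a ∧ 0 < C ∧ 2 ≤ T₀ ∧ ∀ T : ℝ, T₀ ≤ T →
    2 * a / Real.log T ≤ 1 / 100 ∧
      J T (2 * a / Real.log T) ≤ C * T * Real.log T ^ 2 := by
  obtain ⟨C1, hC1, h1⟩ := db
  obtain ⟨C2, hC2, h2⟩ := cnv h
  obtain ⟨C3, hC3, h3⟩ := cmp_glob h
  set a : ℝ := 1 + 4 * C3 * C2 ^ 2 with had
  have hCC : 0 < 4 * C3 * C2 ^ 2 := by positivity
  have ha1 : 1 ≤ a := by linarith
  have ha0 : 0 < a := by linarith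
  refine ⟨a, 4 * C1 + 1, Real.exp (200 * a), ha1, by positivity, ?_, ?_⟩
  · have := Real.add_one_le_exp (200 * a)
    linarith
  intro T hT
  have hT0 : 0 < T := (Real.exp_pos _).trans_le hT
  have hL : 200 * a ≤ Real.log T := by
    rw [Real.le_log_iff_exp_le hT0]
    exact hT
  set L : ℝ := Real.log T with hLd
  have hL0 : 0 < L := by linarith
  have hα1 : 2 * a / L ≤ 1 / 100 := by
    rw [div_le_div_iff₀ hL0 (by norm_num)]
    linarith
  refine ⟨hα1, ?_⟩
  have hT8 : Real.exp 8 ≤ T := by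
    refine le_trans (Real.exp_le_exp.mpr ?_) hT
    linarith
  have hT2 : 2 ≤ T := by
    have := Real.add_one_le_exp 8
    linarith
  have hα0 : 0 < 2 * a / L := by positivity
  have hδ0 : 0 < a / L := by positivity
  have hδα : a / L < 2 * a / L := by
    rw [div_lt_div_iff_of_pos_right hL0]
    linarith
  obtain ⟨i1, i2⟩ := h1 T (2 * a / L) hT8 hα0 hα1
  have e1 := h2 T (2 * a / L) (a / L) hT8 hδ0 hδα hα1 i1
  have e2 : 2 * a / L - a / L = a / L := by ring
  have e3 : a / L * L = a := by field_simp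
  rw [e2, ← hLd, e3] at e1
  have e4 := h3 T (a / L) (2 * a / L) hT2 hδ0 hδα.le hα1
  have e5 : 2 * a / L / (a / L) = 2 := by
    field_simp
  rw [e5] at e4
  have hJ := J_nonneg T (2 * a / L)
  have hJ' := J_nonneg T (a / L)
  have hk : (C2 * Real.exp (-(a / 8)) / a) ^ 2 ≤ C2 ^ 2 / a := by
    rw [div_pow, mul_pow]
    have hE : Real.exp (-(a / 8)) ^ 2 ≤ 1 := by
      have : Real.exp (-(a / 8)) ≤ 1 := by
        rw [Real.exp_le_one_iff]
        linarith
      exact pow_le_one₀ (Real.exp_pos _).le this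
    have haa : a ≤ a ^ 2 := by nlinarith
    calc C2 ^ 2 * Real.exp (-(a / 8)) ^ 2 / a ^ 2 ≤ C2 ^ 2 * 1 / a ^ 2 := by gcongr
      _ = C2 ^ 2 / a ^ 2 := by ring
      _ ≤ C2 ^ 2 / a := by gcongr
  have hk2 : C2 ^ 2 / a * (C3 * 2) ≤ 1 / 2 := by
    rw [div_mul_eq_mul_div, div_le_iff₀ ha0]
    linarith
  have hTL : 0 ≤ T * L ^ 2 := by positivity
  have e6 : (C2 * Real.exp (-(a / 8)) / a) ^ 2 * J T (a / L) ≤
      1 / 2 * (J T (2 * a / L) + T * L ^ 2) := by
    calc (C2 * Real.exp (-(a / 8)) / a) ^ 2 * J T (a / L)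
        ≤ C2 ^ 2 / a * (C3 * 2 * (J T (2 * a / L) + T * L ^ 2)) :=
          mul_le_mul hk e4 hJ' (by positivity)
      _ = (C2 ^ 2 / a * (C3 * 2)) * (J T (2 * a / L) + T * L ^ 2) := by ring
      _ ≤ 1 / 2 * (J T (2 * a / L) + T * L ^ 2) :=
          mul_le_mul_of_nonneg_right hk2 (by linarith)
  linarith

/-- For `T ≥ T₀`: `cmp_glob` with `α₀ = 2a / log T ≥ α` and `cls`. For `2 ≤ T ≤ T₀`: `cmp_glob`
with `α₀ = 1/100` and `J_triv`: `J T α ≤ C (1/α) (J T (1/100) + T log² T) ≤ C' T log² T / α`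
and `log T ≤ log T₀`. -/
theorem mv (h : ZF) : ∃ C : ℝ, 0 < C ∧ ∀ T α : ℝ, 2 ≤ T → 0 < α → α ≤ 1 / 100 →
    α * Real.log T ≤ 1 → J T α ≤ C * T * Real.log T / α := by
  obtain ⟨a, C4, T₀, ha, hC4, hT₀, hcls⟩ := cls h
  obtain ⟨C3, hC3, h3⟩ := cmp_glob h
  obtain ⟨C5, hC5, h5⟩ := J_triv h
  have hl0 : 0 < Real.log T₀ := Real.log_pos (by linarith)
  have ha0 : 0 < a := by linarith
  refine ⟨C3 * (2 * a) * (C4 + 1) + C3 / 100 * (10000 * C5 + 1) * Real.log T₀, by positivity, ?_⟩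
  intro T α hT hα hα1 hαL
  have hT0 : 0 < T := by linarith
  have hL0 : 0 < Real.log T := Real.log_pos (by linarith)
  set L : ℝ := Real.log T with hLd
  have hX : 0 ≤ T * L / α := by positivity
  rcases le_total T₀ T with hc | hc
  · obtain ⟨g1, g2⟩ := hcls T hc
    have h6 : α ≤ 2 * a / L := by
      rw [le_div_iff₀ hL0]
      linarith
    have h7 := h3 T α (2 * a / L) hT hα h6 g1
    have h8 : C3 * (2 * a / L / α) * (J T (2 * a / L) + T * L ^ 2) ≤
        C3 * (2 * a / L / α) * (C4 * T * L ^ 2 + T * L ^ 2) := by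
      refine mul_le_mul_of_nonneg_left (by linarith) (by positivity)
    have h9 : C3 * (2 * a / L / α) * (C4 * T * L ^ 2 + T * L ^ 2) =
        C3 * (2 * a) * (C4 + 1) * (T * L / α) := by
      field_simp
    have h10 : 0 ≤ C3 / 100 * (10000 * C5 + 1) * Real.log T₀ * (T * L / α) := by positivity
    calc J T α ≤ C3 * (2 * a) * (C4 + 1) * (T * L / α) := by linarith
      _ ≤ (C3 * (2 * a) * (C4 + 1) + C3 / 100 * (10000 * C5 + 1) * Real.log T₀) * (T * L / α) := by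
        rw [add_mul]
        linarith
      _ = _ := by ring
  · have h7 := h3 T α (1 / 100) hT hα hα1 le_rfl
    have h8 := h5 (1 / 100) T (by norm_num) le_rfl hT
    have hLL : L ≤ Real.log T₀ := Real.log_le_log hT0 hc
    have h9 : C5 * T * L ^ 2 / (1 / 100) ^ 2 = 10000 * C5 * (T * L ^ 2) := by ring
    rw [← hLd, h9] at h8
    have h10 : J T α ≤ C3 * (1 / 100 / α) * (10000 * C5 * (T * L ^ 2) + T * L ^ 2) := by
      refine h7.trans (mul_le_mul_of_nonneg_left (by linarith) (by positivity))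
    have h11 : C3 * (1 / 100 / α) * (10000 * C5 * (T * L ^ 2) + T * L ^ 2) =
        C3 / 100 * (10000 * C5 + 1) * L * (T * L / α) := by ring
    have h12 : C3 / 100 * (10000 * C5 + 1) * L * (T * L / α) ≤
        C3 / 100 * (10000 * C5 + 1) * Real.log T₀ * (T * L / α) := by gcongr
    have h13 : 0 ≤ C3 * (2 * a) * (C4 + 1) * (T * L / α) := by positivity
    calc J T α ≤ C3 / 100 * (10000 * C5 + 1) * Real.log T₀ * (T * L / α) := by linarith
      _ ≤ (C3 * (2 * a) * (C4 + 1) + C3 / 100 * (10000 * C5 + 1) * Real.log T₀) * (T * L / α) := by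
        rw [add_mul]
        linarith
      _ = _ := by ring

end ERT
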