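import Pool.Agent.Lib.MP_ed189b_nt.Pr1

/-!
# MP_ed189b_nt: mean squares of sums of `1 / (α + i (t - γ))`
-/

set_option autoImplicit false

noncomputable section

namespace ERT

open Complex Filter Topology Set MeasureTheory

/-- the quadratic form -/
def Qf {ι : Type} (s : Finset ι) (γ : ι → ℝ) (α : ℝ) : ℝ :=
  ∑ j ∈ s, ∑ l ∈ s, 4 * Real.pi * α / (4 * α ^ 2 + (γ j - γ l) ^ 2)

private lemma conj_A (α x : ℝ) :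
    (starRingEnd ℂ) (((α : ℂ) + (x : ℂ) * I)⁻¹) = ((α : ℂ) - (x : ℂ) * I)⁻¹ := by
  rw [map_inv₀, map_add, map_mul, conj_I, conj_ofReal, conj_ofReal]
  congr 1
  ring

private lemma nsq_eq {ι : Type} (s : Finset ι) (γ : ι → ℝ) (α t : ℝ) :
    ((‖∑ j ∈ s, ((α : ℂ) + ((t - γ j : ℝ) : ℂ) * I)⁻¹‖ ^ 2 : ℝ) : ℂ) =
      ∑ j ∈ s, ∑ l ∈ s, ((α : ℂ) + ((t - γ j : ℝ) : ℂ) * I)⁻¹ *
        ((α : ℂ) - ((t - γ l : ℝ) : ℂ) * I)⁻¹ := by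
  rw [← Finset.sum_mul_sum]
  have h : ∑ l ∈ s, ((α : ℂ) - ((t - γ l : ℝ) : ℂ) * I)⁻¹ =
      (starRingEnd ℂ) (∑ j ∈ s, ((α : ℂ) + ((t - γ j : ℝ) : ℂ) * I)⁻¹) := by
    rw [map_sum]
    exact Finset.sum_congr rfl fun l _ => (conj_A α (t - γ l)).symm
  rw [h, Complex.mul_conj, Complex.normSq_eq_norm_sq]

private lemma re_frac (α d : ℝ) :
    (((2 * Real.pi : ℝ) : ℂ) / (((α + α : ℝ) : ℂ) + ((d : ℝ) : ℂ) * I)).re =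
      4 * Real.pi * α / (4 * α ^ 2 + d ^ 2) := by
  rw [Complex.div_re]
  simp only [Complex.ofReal_re, Complex.ofReal_im, Complex.add_re, Complex.add_im,
    Complex.mul_re, Complex.mul_im, Complex.I_re, Complex.I_im, Complex.normSq_apply]
  ring

/-- With `S = ∑ A_j⁻¹`: `‖S‖² = S conj S = ∑_{jl} A_j⁻¹ conj(A_l)⁻¹` (as complex numbers), and
`conj (α + i (t - b)) = α - i (t - b)`; integrate with `pr_opp`: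
`∑_{jl} 2π / (2α + i (γ_l - γ_j))`, whose real part is `Qf`. -/
theorem norm_sq_int {ι : Type} (s : Finset ι) (γ : ι → ℝ) {α : ℝ} (hα : 0 < α) :
    Integrable (fun t : ℝ => ‖∑ j ∈ s, ((α : ℂ) + ((t - γ j : ℝ) : ℂ) * I)⁻¹‖ ^ 2) ∧
    ∫ t : ℝ, ‖∑ j ∈ s, ((α : ℂ) + ((t - γ j : ℝ) : ℂ) * I)⁻¹‖ ^ 2 = Qf s γ α := by
  have hI1 : ∀ j ∈ s, Integrable fun t : ℝ => ∑ l ∈ s,
      ((α : ℂ) + ((t - γ j : ℝ) : ℂ) * I)⁻¹ * ((α : ℂ) - ((t - γ l : ℝ) : ℂ) * I)⁻¹ :=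
    fun j _ => integrable_finsetSum _ fun l _ => (pr_integrable hα hα (γ j) (γ l)).1
  have hI : Integrable fun t : ℝ => ∑ j ∈ s, ∑ l ∈ s,
      ((α : ℂ) + ((t - γ j : ℝ) : ℂ) * I)⁻¹ * ((α : ℂ) - ((t - γ l : ℝ) : ℂ) * I)⁻¹ :=
    integrable_finsetSum _ hI1
  have hre : (fun t : ℝ => ‖∑ j ∈ s, ((α : ℂ) + ((t - γ j : ℝ) : ℂ) * I)⁻¹‖ ^ 2) =
      fun t : ℝ => (∑ j ∈ s, ∑ l ∈ s,
        ((α : ℂ) + ((t - γ j : ℝ) : ℂ) * I)⁻¹ * ((α : ℂ) - ((t - γ l : ℝ) : ℂ) * I)⁻¹).re := by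
    funext t
    rw [← nsq_eq, Complex.ofReal_re]
  rw [hre]
  refine ⟨hI.re, ?_⟩
  have h1 := integral_re hI
  change ∫ t : ℝ, (∑ j ∈ s, ∑ l ∈ s, ((α : ℂ) + ((t - γ j : ℝ) : ℂ) * I)⁻¹ *
    ((α : ℂ) - ((t - γ l : ℝ) : ℂ) * I)⁻¹).re = (∫ t : ℝ, ∑ j ∈ s, ∑ l ∈ s,
    ((α : ℂ) + ((t - γ j : ℝ) : ℂ) * I)⁻¹ * ((α : ℂ) - ((t - γ l : ℝ) : ℂ) * I)⁻¹).re at h1
  rw [h1, integral_finsetSum _ hI1, Complex.re_sum]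
  unfold Qf
  refine Finset.sum_congr rfl fun j _ => ?_
  rw [integral_finsetSum _ fun l _ => (pr_integrable hα hα (γ j) (γ l)).1, Complex.re_sum]
  refine Finset.sum_congr rfl fun l _ => ?_
  rw [pr_opp hα hα, re_frac]
  congr 2
  ring

/-- `(Re S)² = 1/2 ‖S‖² + 1/2 Re (S²)` and the integral of `S²` is `0` by `pr_same`. -/
theorem re_sq_int {ι : Type} (s : Finset ι) (γ : ι → ℝ) {α : ℝ} (hα : 0 < α) :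
    Integrable (fun t : ℝ => (∑ j ∈ s, ((α : ℂ) + ((t - γ j : ℝ) : ℂ) * I)⁻¹).re ^ 2) ∧
    ∫ t : ℝ, (∑ j ∈ s, ((α : ℂ) + ((t - γ j : ℝ) : ℂ) * I)⁻¹).re ^ 2 = 1 / 2 * Qf s γ α := by
  have hI1 : ∀ j ∈ s, Integrable fun t : ℝ => ∑ l ∈ s,
      ((α : ℂ) + ((t - γ j : ℝ) : ℂ) * I)⁻¹ * ((α : ℂ) + ((t - γ l : ℝ) : ℂ) * I)⁻¹ :=
    fun j _ => integrable_finsetSum _ fun l _ => (pr_integrable hα hα (γ j) (γ l)).2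
  have hI : Integrable fun t : ℝ => ∑ j ∈ s, ∑ l ∈ s,
      ((α : ℂ) + ((t - γ j : ℝ) : ℂ) * I)⁻¹ * ((α : ℂ) + ((t - γ l : ℝ) : ℂ) * I)⁻¹ :=
    integrable_finsetSum _ hI1
  obtain ⟨hN, hNi⟩ := norm_sq_int s γ hα
  have hre : (fun t : ℝ => (∑ j ∈ s, ((α : ℂ) + ((t - γ j : ℝ) : ℂ) * I)⁻¹).re ^ 2) =
      fun t : ℝ => 1 / 2 * ‖∑ j ∈ s, ((α : ℂ) + ((t - γ j : ℝ) : ℂ) * I)⁻¹‖ ^ 2 +
        1 / 2 * (∑ j ∈ s, ∑ l ∈ s, ((α : ℂ) + ((t - γ j : ℝ) : ℂ) * I)⁻¹ *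
          ((α : ℂ) + ((t - γ l : ℝ) : ℂ) * I)⁻¹).re := by
    funext t
    rw [← Finset.sum_mul_sum, ← Complex.normSq_eq_norm_sq, Complex.normSq_apply,
      Complex.mul_re]
    ring
  have hIre := hI.re
  change Integrable (fun t : ℝ => (∑ j ∈ s, ∑ l ∈ s, ((α : ℂ) + ((t - γ j : ℝ) : ℂ) * I)⁻¹ *
    ((α : ℂ) + ((t - γ l : ℝ) : ℂ) * I)⁻¹).re) at hIre
  rw [hre]
  refine ⟨(hN.const_mul _).add (hIre.const_mul _), ?_⟩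
  rw [integral_add (hN.const_mul _) (hIre.const_mul _), integral_const_mul, integral_const_mul,
    hNi]
  have h1 := integral_re hI
  change ∫ t : ℝ, (∑ j ∈ s, ∑ l ∈ s, ((α : ℂ) + ((t - γ j : ℝ) : ℂ) * I)⁻¹ *
    ((α : ℂ) + ((t - γ l : ℝ) : ℂ) * I)⁻¹).re = (∫ t : ℝ, ∑ j ∈ s, ∑ l ∈ s,
    ((α : ℂ) + ((t - γ j : ℝ) : ℂ) * I)⁻¹ * ((α : ℂ) + ((t - γ l : ℝ) : ℂ) * I)⁻¹).re at h1
  have h0 : (∫ t : ℝ, ∑ j ∈ s, ∑ l ∈ s, ((α : ℂ) + ((t - γ j : ℝ) : ℂ) * I)⁻¹ *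
      ((α : ℂ) + ((t - γ l : ℝ) : ℂ) * I)⁻¹) = 0 := by
    rw [integral_finsetSum _ hI1]
    refine Finset.sum_eq_zero fun j _ => ?_
    rw [integral_finsetSum _ fun l _ => (pr_integrable hα hα (γ j) (γ l)).2]
    exact Finset.sum_eq_zero fun l _ => pr_same hα hα (γ j) (γ l)
  rw [h1, h0, Complex.zero_re, mul_zero, add_zero]

/-- Termwise: `α / (4 α² + d²) ≤ (α₀/α) (α₀ / (4 α₀² + d²))`, i.e.
`α² (4 α₀² + d²) ≤ α₀² (4 α² + d²)`. -/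
theorem Qf_mono {ι : Type} (s : Finset ι) (γ : ι → ℝ) {α α₀ : ℝ} (hα : 0 < α) (h : α ≤ α₀) :
    Qf s γ α ≤ α₀ / α * Qf s γ α₀ := by
  have h0 : 0 < α₀ := lt_of_lt_of_le hα h
  unfold Qf
  rw [Finset.mul_sum]
  refine Finset.sum_le_sum fun j _ => ?_
  rw [Finset.mul_sum]
  refine Finset.sum_le_sum fun l _ => ?_
  set d := γ j - γ l
  have e1 : 0 < 4 * α ^ 2 + d ^ 2 := by positivity
  have e2 : 0 < 4 * α₀ ^ 2 + d ^ 2 := by positivity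
  rw [div_mul_div_comm, div_le_div_iff₀ e1 (by positivity)]
  have h2 : α ^ 2 ≤ α₀ ^ 2 := by nlinarith
  have h3 : α ^ 2 * (4 * α₀ ^ 2 + d ^ 2) ≤ α₀ ^ 2 * (4 * α ^ 2 + d ^ 2) := by
    nlinarith [mul_le_mul_of_nonneg_right h2 (sq_nonneg d)]
  have h4 : 0 ≤ 4 * Real.pi := by positivity
  calc 4 * Real.pi * α * (α * (4 * α₀ ^ 2 + d ^ 2))
      = 4 * Real.pi * (α ^ 2 * (4 * α₀ ^ 2 + d ^ 2)) := by ring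
    _ ≤ 4 * Real.pi * (α₀ ^ 2 * (4 * α ^ 2 + d ^ 2)) := mul_le_mul_of_nonneg_left h3 h4
    _ = _ := by ring

theorem pr_cmp {ι : Type} (s : Finset ι) (γ : ι → ℝ) {α α₀ : ℝ} (hα : 0 < α) (h : α ≤ α₀) :
    ∫ t : ℝ, ‖∑ j ∈ s, ((α : ℂ) + ((t - γ j : ℝ) : ℂ) * I)⁻¹‖ ^ 2 ≤
      α₀ / α * (2 * ∫ t : ℝ, (∑ j ∈ s, ((α₀ : ℂ) + ((t - γ j : ℝ) : ℂ) * I)⁻¹).re ^ 2) := by
  have h0 : 0 < α₀ := lt_of_lt_of_le hα h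
  rw [(norm_sq_int s γ hα).2, (re_sq_int s γ h0).2]
  have := Qf_mono s γ hα h
  linarith [this, mul_comm (α₀ / α) (Qf s γ α₀)]

end ERT
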