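import Pool.Agent.Lib.MP_ed189b_nt.Str
import Pool.Agent.Lib.MP_ed189b_nt.Pr2

/-!
# MP_ed189b_nt: local comparison of two lines
-/

set_option autoImplicit false

noncomputable section

namespace ERT

open Complex Filter Topology Set MeasureTheory

private theorem cl_pt_cont (α : ℝ) : Continuous (pt α) := by
  unfold pt
  fun_prop

theorem P_cont (h : ZF) {α : ℝ} (hα : 0 < α) : Continuous (fun t : ℝ => P (pt α t)) := by
  rw [continuous_iff_continuousAt]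
  intro t
  have h1 : 1 / 2 < (pt α t).re := by
    rw [pt_re]
    linarith
  exact ContinuousAt.comp (f := pt α) (g := P) (P_diff h h1).continuousAt
    (cl_pt_cont α).continuousAt

private theorem cl_re (β x : ℝ) : (((β : ℂ) + (x : ℂ) * I)⁻¹).re = β / (β ^ 2 + x ^ 2) := by
  rw [Complex.inv_re, Complex.normSq_add_mul_I]
  simp

private theorem cl_norm {β x : ℝ} (hx : 1 / 200 ≤ |x|) : ‖((β : ℂ) + (x : ℂ) * I)⁻¹‖ ≤ 200 := by
  have h1 : |x| ≤ ‖(β : ℂ) + (x : ℂ) * I‖ := by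
    have h2 := Complex.abs_im_le_norm ((β : ℂ) + (x : ℂ) * I)
    simpa using h2
  rw [norm_inv]
  have h3 : (1 / 200 : ℝ) ≤ ‖(β : ℂ) + (x : ℂ) * I‖ := hx.trans h1
  have h4 := inv_anti₀ (by norm_num) h3
  linarith [h4, show ((1 : ℝ) / 200)⁻¹ = 200 by norm_num]

/-- positivity of the real part -/
private theorem cl_nonneg {ι : Type} (s : Finset ι) (γ : ι → ℝ) {β : ℝ} (hβ : 0 < β) (t : ℝ) :
    0 ≤ (∑ j ∈ s, ((β : ℂ) + ((t - γ j : ℝ) : ℂ) * I)⁻¹).re := by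
  rw [Complex.re_sum]
  refine Finset.sum_nonneg fun j _ => ?_
  rw [cl_re]
  positivity

private theorem cl_mono {ι : Type} {s s' : Finset ι} (hs : s ⊆ s') (γ : ι → ℝ) {β : ℝ}
    (hβ : 0 < β) (t : ℝ) : (∑ j ∈ s, ((β : ℂ) + ((t - γ j : ℝ) : ℂ) * I)⁻¹).re ≤
      (∑ j ∈ s', ((β : ℂ) + ((t - γ j : ℝ) : ℂ) * I)⁻¹).re := by
  rw [Complex.re_sum, Complex.re_sum]
  refine Finset.sum_le_sum_of_subset_of_nonneg hs fun j _ _ => ?_
  rw [cl_re]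
  positivity

/-- the real part far from the cluster -/
private theorem cl_far {k : ℕ} {s : Finset (Fin k)} {γ : Fin k → ℝ} {β t₀ : ℝ} (hβ : 0 < β)
    (hβ1 : β ≤ 1 / 100) (hs : ∀ j ∈ s, |γ j - t₀| ≤ 1 / 100) {t : ℝ} (ht : 1 / 50 ≤ |t - t₀|) :
    (∑ j ∈ s, ((β : ℂ) + ((t - γ j : ℝ) : ℂ) * I)⁻¹).re ^ 2 ≤
      10004 * (k : ℝ) ^ 2 * (1 + (t - t₀) ^ 2)⁻¹ := by
  obtain ⟨x, hx⟩ : ∃ x, x = t - t₀ := ⟨_, rfl⟩
  rw [← hx] at ht ⊢
  have hx2 : 1 / 2500 ≤ x ^ 2 := by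
    rw [← sq_abs]
    nlinarith
  have hx0 : 0 < x ^ 2 := by linarith
  have h1 : (∑ j ∈ s, ((β : ℂ) + ((t - γ j : ℝ) : ℂ) * I)⁻¹).re ≤ k / (25 * x ^ 2) := by
    rw [Complex.re_sum]
    have h2 : ∀ j ∈ s, (((β : ℂ) + ((t - γ j : ℝ) : ℂ) * I)⁻¹).re ≤ 1 / (25 * x ^ 2) := by
      intro j hj
      rw [cl_re]
      have h3 := hs j hj
      have h4 : |x| / 2 ≤ |t - γ j| := by
        have h5 : |x| ≤ |t - γ j| + |γ j - t₀| := by
          have h6 : x = (t - γ j) + (γ j - t₀) := by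
            rw [hx]
            ring
          rw [h6]
          exact abs_add_le _ _
        linarith
      have h7 : x ^ 2 / 4 ≤ (t - γ j) ^ 2 := by
        rw [← sq_abs x, ← sq_abs (t - γ j)]
        have h8 := abs_nonneg x
        nlinarith
      rw [div_le_div_iff₀ (by positivity) (by positivity)]
      nlinarith [sq_nonneg β]
    refine (Finset.sum_le_sum h2).trans ?_
    rw [Finset.sum_const, nsmul_eq_mul, mul_one_div]
    have h9 : (s.card : ℝ) ≤ k := by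
      have h10 := Finset.card_le_univ s
      rw [Fintype.card_fin] at h10
      exact_mod_cast h10
    exact div_le_div_of_nonneg_right h9 (by positivity)
  have h0 := cl_nonneg s γ hβ t
  have h11 : (∑ j ∈ s, ((β : ℂ) + ((t - γ j : ℝ) : ℂ) * I)⁻¹).re ^ 2 ≤
      (k / (25 * x ^ 2)) ^ 2 := pow_le_pow_left₀ h0 h1 2
  refine h11.trans ?_
  rw [← div_eq_mul_inv, div_pow, div_le_div_iff₀ (by positivity) (by positivity)]
  have h12 : 1 + x ^ 2 ≤ 6252500 * (x ^ 2) ^ 2 := by nlinarith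
  have h13 : (0 : ℝ) ≤ (k : ℝ) ^ 2 := by positivity
  calc (k : ℝ) ^ 2 * (1 + x ^ 2) ≤ (k : ℝ) ^ 2 * (6252500 * (x ^ 2) ^ 2) :=
        mul_le_mul_of_nonneg_left h12 h13
    _ = 10004 * (k : ℝ) ^ 2 * (25 * x ^ 2) ^ 2 := by ring

private theorem cl_sq {a b c : ℝ} (ha : 0 ≤ a) (h : a ≤ b + c) : a ^ 2 ≤ 2 * b ^ 2 + 2 * c ^ 2 := by
  have h1 : a ^ 2 ≤ (b + c) ^ 2 := pow_le_pow_left₀ ha h 2
  nlinarith [sq_nonneg (b - c)]

/-- `loc_str` at `t₀` gives `k ≤ C L` (`L = lg t₀`) and `γ : Fin k → ℝ` with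
`‖P (pt β t) - Sg γ β t‖ ≤ C L` for `0 < β ≤ 1/25`, `|t - t₀| ≤ 1/40`. Let
`s = {j | |γ j - t₀| ≤ 1/100}` (inner), `S β t = ∑_{j ∈ s} 1/(β + i (t - γ j))`.
(1) For `|t - t₀| ≤ 1/200` the outer terms have norm at most `200`, so
`‖P (pt α t)‖² ≤ 2 ‖S α t‖² + C' L²`; integrate, enlarge the range of integration to the whole
line for `‖S α‖²`, and use `pr_cmp`: at most `2 (α₀/α) 2 ∫ (Re S α₀)² + C' L²` (and
`α₀/α ≥ 1`).
(2) For `|t - t₀| ≤ 1/50`: all terms have positive real part `β / (β² + (t - γ)²)`, so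
`0 ≤ Re S α₀ ≤ Re Sg γ α₀ ≤ ‖P (pt α₀ t)‖ + C L`, and `(Re S α₀)² ≤ 2 ‖P‖² + 2 C² L²`.
(3) For `|t - t₀| > 1/50` and `j ∈ s`: `|t - γ j| ≥ |t - t₀| / 2`, so
`0 ≤ Re S α₀ ≤ k 4 α₀ / (t - t₀)²`, and the integral of the square over `|t - t₀| > 1/50` is at
most `C k² ≤ C' L²` (`1/x⁴ ≤ 50² /x²`, or use `1/(t-t₀)⁴ ≤ C (1 + (t - t₀)²)⁻¹` there and
`integral_univ_inv_one_add_sq`). -/
theorem cmp_loc (h : ZF) : ∃ C : ℝ, 0 < C ∧ ∀ t₀ α α₀ : ℝ, 0 < α → α ≤ α₀ → α₀ ≤ 1 / 100 →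
    ∫ t in (t₀ - 1 / 200)..(t₀ + 1 / 200), ‖P (pt α t)‖ ^ 2 ≤
      C * (α₀ / α) * ((∫ t in (t₀ - 1 / 50)..(t₀ + 1 / 50), ‖P (pt α₀ t)‖ ^ 2) +
        lg t₀ ^ 2) := by
  classical
  obtain ⟨C₁, hC₁, hstr⟩ := loc_str h
  obtain ⟨A, hA⟩ : ∃ A : ℝ, A = 2 * (201 * C₁) ^ 2 := ⟨_, rfl⟩
  obtain ⟨D, hD⟩ : ∃ D : ℝ, D = C₁ ^ 2 + 10004 * Real.pi * C₁ ^ 2 := ⟨_, rfl⟩
  have hA0 : 0 ≤ A := by
    rw [hA]
    positivity
  have hD0 : 0 ≤ D := by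
    rw [hD]
    positivity
  refine ⟨8 + 4 * D + A, by positivity, fun t₀ α α₀ hα hαα hα₀ => ?_⟩
  have hα0 : 0 < α₀ := hα.trans_le hαα
  obtain ⟨k, γ, hk, hP⟩ := hstr t₀
  obtain ⟨L, hL⟩ : ∃ L, L = lg t₀ := ⟨_, rfl⟩
  have hL0 : 0 < L := by
    rw [hL]
    exact lg_pos t₀
  rw [← hL] at hk hP ⊢
  obtain ⟨s, hs⟩ : ∃ s : Finset (Fin k), s = Finset.univ.filter fun j => |γ j - t₀| ≤ 1 / 100 :=
    ⟨_, rfl⟩
  have hsin : ∀ j ∈ s, |γ j - t₀| ≤ 1 / 100 := by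
    intro j hj
    rw [hs] at hj
    exact (Finset.mem_filter.1 hj).2
  have hsout : ∀ j ∈ sᶜ, 1 / 100 < |γ j - t₀| := by
    intro j hj
    rw [Finset.mem_compl, hs, Finset.mem_filter, not_and] at hj
    exact not_le.1 (hj (Finset.mem_univ j))
  have hk0 : (0 : ℝ) ≤ k := Nat.cast_nonneg k
  have hk2 : (k : ℝ) ^ 2 ≤ C₁ ^ 2 * L ^ 2 := by
    rw [← mul_pow]
    exact pow_le_pow_left₀ hk0 hk 2
  -- the small interval
  have e1 : ∀ t ∈ Icc (t₀ - 1 / 200) (t₀ + 1 / 200), ‖P (pt α t)‖ ^ 2 ≤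
      2 * ‖∑ j ∈ s, ((α : ℂ) + ((t - γ j : ℝ) : ℂ) * I)⁻¹‖ ^ 2 + A * L ^ 2 := by
    intro t ht
    have ht' : |t - t₀| ≤ 1 / 200 := by
      rw [abs_le]
      constructor <;> linarith [ht.1, ht.2]
    have h1 := hP α t hα (by linarith) (by linarith)
    have h2 : ‖∑ j ∈ sᶜ, ((α : ℂ) + ((t - γ j : ℝ) : ℂ) * I)⁻¹‖ ≤ 200 * k := by
      have h3 : ∀ j ∈ sᶜ, ‖((α : ℂ) + ((t - γ j : ℝ) : ℂ) * I)⁻¹‖ ≤ 200 := by
        intro j hj
        apply cl_norm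
        have h4 := hsout j hj
        have h5 : |γ j - t₀| ≤ |t - γ j| + |t - t₀| := by
          have h6 : γ j - t₀ = -(t - γ j) + (t - t₀) := by ring
          rw [h6]
          refine (abs_add_le _ _).trans ?_
          rw [abs_neg]
        linarith
      refine (norm_sum_le _ _).trans ((Finset.sum_le_sum h3).trans ?_)
      rw [Finset.sum_const, nsmul_eq_mul, mul_comm]
      have h10 := Finset.card_le_univ sᶜ
      rw [Fintype.card_fin] at h10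
      have h11 : ((sᶜ).card : ℝ) ≤ k := by exact_mod_cast h10
      linarith
    have h7 : Sg γ α t = (∑ j ∈ s, ((α : ℂ) + ((t - γ j : ℝ) : ℂ) * I)⁻¹) +
        ∑ j ∈ sᶜ, ((α : ℂ) + ((t - γ j : ℝ) : ℂ) * I)⁻¹ := by
      rw [Finset.sum_add_sum_compl]
      rfl
    have h8 : ‖P (pt α t)‖ ≤ ‖∑ j ∈ s, ((α : ℂ) + ((t - γ j : ℝ) : ℂ) * I)⁻¹‖ +
        201 * C₁ * L := by
      have h9 : P (pt α t) = (P (pt α t) - Sg γ α t) +
          ((∑ j ∈ s, ((α : ℂ) + ((t - γ j : ℝ) : ℂ) * I)⁻¹) +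
            ∑ j ∈ sᶜ, ((α : ℂ) + ((t - γ j : ℝ) : ℂ) * I)⁻¹) := by
        rw [← h7]
        ring
      rw [h9]
      refine (norm_add_le _ _).trans ?_
      have h10 := norm_add_le (∑ j ∈ s, ((α : ℂ) + ((t - γ j : ℝ) : ℂ) * I)⁻¹)
        (∑ j ∈ sᶜ, ((α : ℂ) + ((t - γ j : ℝ) : ℂ) * I)⁻¹)
      linarith
    have h12 := cl_sq (norm_nonneg _) h8
    refine h12.trans (le_of_eq ?_)
    rw [hA]
    ring
  have hint1 := (norm_sq_int s γ hα).1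
  have e2 : ∫ t in (t₀ - 1 / 200)..(t₀ + 1 / 200), ‖P (pt α t)‖ ^ 2 ≤
      2 * (∫ t : ℝ, ‖∑ j ∈ s, ((α : ℂ) + ((t - γ j : ℝ) : ℂ) * I)⁻¹‖ ^ 2) + A * L ^ 2 := by
    have hle : t₀ - 1 / 200 ≤ t₀ + 1 / 200 := by linarith
    have h1 : ∫ t in (t₀ - 1 / 200)..(t₀ + 1 / 200), ‖P (pt α t)‖ ^ 2 ≤
        ∫ t in (t₀ - 1 / 200)..(t₀ + 1 / 200),
          (2 * ‖∑ j ∈ s, ((α : ℂ) + ((t - γ j : ℝ) : ℂ) * I)⁻¹‖ ^ 2 + A * L ^ 2) := by
      refine intervalIntegral.integral_mono_on hle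
        (((P_cont h hα).norm.pow 2).intervalIntegrable _ _) ?_ e1
      exact ((hint1.const_mul 2).intervalIntegrable).add intervalIntegrable_const
    refine h1.trans ?_
    rw [intervalIntegral.integral_add (hint1.const_mul 2).intervalIntegrable
      intervalIntegrable_const, intervalIntegral.integral_const_mul,
      intervalIntegral.integral_const, smul_eq_mul]
    have h2 : ∫ t in (t₀ - 1 / 200)..(t₀ + 1 / 200),
        ‖∑ j ∈ s, ((α : ℂ) + ((t - γ j : ℝ) : ℂ) * I)⁻¹‖ ^ 2 ≤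
        ∫ t : ℝ, ‖∑ j ∈ s, ((α : ℂ) + ((t - γ j : ℝ) : ℂ) * I)⁻¹‖ ^ 2 := by
      rw [intervalIntegral.integral_of_le hle]
      exact setIntegral_le_integral hint1 (Eventually.of_forall fun t => by positivity)
    have h3 : (t₀ + 1 / 200 - (t₀ - 1 / 200)) * (A * L ^ 2) ≤ A * L ^ 2 := by
      have h4 : 0 ≤ A * L ^ 2 := by positivity
      nlinarith
    linarith
  -- the whole line for the real part
  have e3 : ∀ t : ℝ, (∑ j ∈ s, ((α₀ : ℂ) + ((t - γ j : ℝ) : ℂ) * I)⁻¹).re ^ 2 ≤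
      (Icc (t₀ - 1 / 50) (t₀ + 1 / 50)).indicator
        (fun t => 2 * ‖P (pt α₀ t)‖ ^ 2 + 2 * (C₁ * L) ^ 2) t +
      10004 * (k : ℝ) ^ 2 * (1 + (t - t₀) ^ 2)⁻¹ := by
    intro t
    by_cases ht : t ∈ Icc (t₀ - 1 / 50) (t₀ + 1 / 50)
    · rw [indicator_of_mem ht]
      have ht' : |t - t₀| ≤ 1 / 50 := by
        rw [abs_le]
        constructor <;> linarith [ht.1, ht.2]
      have h1 := hP α₀ t hα0 (by linarith) (by linarith)
      have h2 : (∑ j ∈ s, ((α₀ : ℂ) + ((t - γ j : ℝ) : ℂ) * I)⁻¹).re ≤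
          ‖P (pt α₀ t)‖ + C₁ * L := by
        refine (cl_mono (Finset.subset_univ s) γ hα0 t).trans ?_
        have h3 : (Sg γ α₀ t).re ≤ ‖Sg γ α₀ t‖ := Complex.re_le_norm _
        have h4 : ‖Sg γ α₀ t‖ ≤ ‖P (pt α₀ t)‖ + ‖P (pt α₀ t) - Sg γ α₀ t‖ := by
          have h5 := norm_sub_le (P (pt α₀ t)) (P (pt α₀ t) - Sg γ α₀ t)
          rwa [sub_sub_cancel] at h5
        exact h3.trans (by linarith)
      have h6 := cl_sq (cl_nonneg s γ hα0 t) h2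
      have h7 : 0 ≤ 10004 * (k : ℝ) ^ 2 * (1 + (t - t₀) ^ 2)⁻¹ := by positivity
      linarith
    · rw [indicator_of_notMem ht, zero_add]
      refine cl_far hα0 hα₀ hsin ?_
      by_contra h1
      rw [not_le, abs_lt] at h1
      exact ht ⟨by linarith [h1.1], by linarith [h1.2]⟩
  have hcont : Continuous fun t : ℝ => 2 * ‖P (pt α₀ t)‖ ^ 2 + 2 * (C₁ * L) ^ 2 :=
    (((P_cont h hα0).norm.pow 2).const_mul 2).add continuous_const
  have hi1 : Integrable ((Icc (t₀ - 1 / 50) (t₀ + 1 / 50)).indicator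
      (fun t => 2 * ‖P (pt α₀ t)‖ ^ 2 + 2 * (C₁ * L) ^ 2)) :=
    (hcont.continuousOn.integrableOn_compact isCompact_Icc).integrable_indicator
      measurableSet_Icc
  have hi2 : Integrable fun t : ℝ => 10004 * (k : ℝ) ^ 2 * (1 + (t - t₀) ^ 2)⁻¹ :=
    (integrable_inv_one_add_sq.comp_sub_right t₀).const_mul _
  have hi3 : IntervalIntegrable (fun t : ℝ => 2 * ‖P (pt α₀ t)‖ ^ 2) volume
      (t₀ - 1 / 50) (t₀ + 1 / 50) :=
    (((P_cont h hα0).norm.pow 2).const_mul 2).intervalIntegrable _ _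
  have e4 : ∫ t : ℝ, (∑ j ∈ s, ((α₀ : ℂ) + ((t - γ j : ℝ) : ℂ) * I)⁻¹).re ^ 2 ≤
      2 * (∫ t in (t₀ - 1 / 50)..(t₀ + 1 / 50), ‖P (pt α₀ t)‖ ^ 2) + D * L ^ 2 := by
    have h1 := integral_mono (re_sq_int s γ hα0).1 (g := fun t : ℝ =>
      (Icc (t₀ - 1 / 50) (t₀ + 1 / 50)).indicator
        (fun t => 2 * ‖P (pt α₀ t)‖ ^ 2 + 2 * (C₁ * L) ^ 2) t +
      10004 * (k : ℝ) ^ 2 * (1 + (t - t₀) ^ 2)⁻¹) (hi1.add hi2) e3
    refine h1.trans ?_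
    rw [integral_add hi1 hi2, integral_indicator measurableSet_Icc, integral_Icc_eq_integral_Ioc,
      ← intervalIntegral.integral_of_le (by linarith), intervalIntegral.integral_add hi3
        intervalIntegrable_const, intervalIntegral.integral_const_mul,
      intervalIntegral.integral_const, smul_eq_mul, integral_const_mul,
      integral_sub_right_eq_self (fun t : ℝ => (1 + t ^ 2)⁻¹) t₀,
      integral_univ_inv_one_add_sq]
    have h3 : (t₀ + 1 / 50 - (t₀ - 1 / 50)) * (2 * (C₁ * L) ^ 2) ≤ C₁ ^ 2 * L ^ 2 := by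
      have h4 : 0 ≤ C₁ ^ 2 * L ^ 2 := by positivity
      nlinarith
    have h5 : 10004 * (k : ℝ) ^ 2 * Real.pi ≤ 10004 * Real.pi * C₁ ^ 2 * L ^ 2 := by
      have h6 := mul_le_mul_of_nonneg_left hk2
        (show (0 : ℝ) ≤ 10004 * Real.pi by positivity)
      linarith
    rw [hD]
    linarith
  have e5 := pr_cmp s γ hα hαα
  obtain ⟨q, hq⟩ : ∃ q, q = α₀ / α := ⟨_, rfl⟩
  have hq1 : 1 ≤ q := by
    rw [hq, le_div_iff₀ hα, one_mul]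
    exact hαα
  rw [← hq] at e5 ⊢
  obtain ⟨I₀, hI₀⟩ : ∃ I₀, I₀ = ∫ t in (t₀ - 1 / 50)..(t₀ + 1 / 50), ‖P (pt α₀ t)‖ ^ 2 :=
    ⟨_, rfl⟩
  have hI0 : 0 ≤ I₀ := by
    rw [hI₀]
    exact intervalIntegral.integral_nonneg (by linarith) fun t _ => by positivity
  rw [← hI₀] at e4 ⊢
  have h1 : ∫ t : ℝ, ‖∑ j ∈ s, ((α : ℂ) + ((t - γ j : ℝ) : ℂ) * I)⁻¹‖ ^ 2 ≤
      q * (2 * (2 * I₀ + D * L ^ 2)) :=
    e5.trans (mul_le_mul_of_nonneg_left (by linarith) (by linarith))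
  have h2 : A * L ^ 2 ≤ q * (A * L ^ 2) := le_mul_of_one_le_left (by positivity) hq1
  have h3 : 0 ≤ q * (4 * D + A) * I₀ := by positivity
  have h4 : 0 ≤ q * 8 * L ^ 2 := by positivity
  calc ∫ t in (t₀ - 1 / 200)..(t₀ + 1 / 200), ‖P (pt α t)‖ ^ 2
      ≤ 2 * (q * (2 * (2 * I₀ + D * L ^ 2))) + q * (A * L ^ 2) := by linarith
    _ ≤ (8 + 4 * D + A) * q * (I₀ + L ^ 2) := by linarith

end ERT
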