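import Mathlib

/-!
# MP_ed189b_nt: counting exceptional scales, one block
-/

set_option autoImplicit false

noncomputable section

namespace ERT

/-- the conclusion of `fin_all` -/
def BlockBound (C : ℝ) : Prop := ∀ (N : ℕ) (x : ℕ → ℝ), 1 ≤ N →
  (∀ n ∈ Finset.Ico N (2 * N), Real.exp n ≤ x n ∧ x n ≤ Real.exp (n + 1)) →
    ∑ n ∈ Finset.Ico N (2 * N), (Chebyshev.psi (x n) - x n) ^ 2 / x n ≤ C * (N : ℝ) ^ 4

/-- the scales `n` for which `|ψ(x) - x| ≥ G(x)` for some `x ∈ [e^n, e^(n+1)]` -/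
def Exc (G : ℝ → ℝ) : Set ℕ :=
  {n | ∃ x : ℝ, Real.exp n ≤ x ∧ x ≤ Real.exp (n + 1) ∧ G x ≤ |Chebyshev.psi x - x|}

/-- the function `√x (log x)^a (log log x)^b (log log log x)^c` of the problem -/
def Fabc (a b c : ℝ) (x : ℝ) : ℝ :=
  x ^ (1 / 2 : ℝ) * Real.log x ^ a * Real.log (Real.log x) ^ b *
    Real.log (Real.log (Real.log x)) ^ c

/-- Choose `x n` in the block with `G (x n) ≤ |ψ - x|` for `n ∈ Exc G`, anything (e.g. `exp n`)
otherwise; each `n ∈ Exc G` contributes at least `(G (x n))² / x n ≥ m`, the others at least `0`.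
(`n + 1 ≤ 2N`, so `x n ≤ exp (2N)`.) -/
theorem cnt_block {C m : ℝ} (hC : BlockBound C) {G : ℝ → ℝ} {N : ℕ} (hN : 1 ≤ N)
    (hm : ∀ x : ℝ, Real.exp N ≤ x → x ≤ Real.exp (2 * N) → 0 ≤ G x ∧ m ≤ G x ^ 2 / x) :
    m * ((Set.Ico N (2 * N) ∩ Exc G).ncard : ℝ) ≤ C * (N : ℝ) ^ 4 := by
  classical
  have hex : ∀ n : ℕ, ∃ x : ℝ, Real.exp n ≤ x ∧ x ≤ Real.exp (n + 1) ∧
      (n ∈ Exc G → G x ≤ |Chebyshev.psi x - x|) := by
    intro n
    by_cases hn : n ∈ Exc G
    · obtain ⟨x, h1, h2, h3⟩ := hn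
      exact ⟨x, h1, h2, fun _ => h3⟩
    · exact ⟨Real.exp n, le_rfl, Real.exp_le_exp.2 (by linarith), fun h => absurd h hn⟩
  choose x hx1 hx2 hx3 using hex
  have h1 := hC N x hN fun n _ => ⟨hx1 n, hx2 n⟩
  have hset : Set.Ico N (2 * N) ∩ Exc G =
      (((Finset.Ico N (2 * N)).filter fun n => n ∈ Exc G : Finset ℕ) : Set ℕ) := by
    ext n
    simp
  rw [hset, Set.ncard_coe_finset]
  refine le_trans ?_ h1
  have hpos : ∀ n, 0 < x n := fun n => (Real.exp_pos _).trans_le (hx1 n)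
  calc m * (((Finset.Ico N (2 * N)).filter fun n => n ∈ Exc G).card : ℝ)
      = ∑ _n ∈ (Finset.Ico N (2 * N)).filter fun n => n ∈ Exc G, m := by
        rw [Finset.sum_const, nsmul_eq_mul, mul_comm]
    _ ≤ ∑ n ∈ (Finset.Ico N (2 * N)).filter fun n => n ∈ Exc G,
          (Chebyshev.psi (x n) - x n) ^ 2 / x n := by
        refine Finset.sum_le_sum fun n hn => ?_
        rw [Finset.mem_filter, Finset.mem_Ico] at hn
        obtain ⟨⟨h2, h3⟩, h4⟩ := hn
        have e1 : Real.exp N ≤ x n := by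
          refine le_trans (Real.exp_le_exp.2 ?_) (hx1 n)
          exact_mod_cast h2
        have e2 : x n ≤ Real.exp (2 * N) := by
          refine (hx2 n).trans (Real.exp_le_exp.2 ?_)
          have : n + 1 ≤ 2 * N := h3
          exact_mod_cast this
        obtain ⟨h5, h6⟩ := hm (x n) e1 e2
        refine h6.trans ?_
        have h7 := hx3 n h4
        have h8 : G (x n) ^ 2 ≤ (Chebyshev.psi (x n) - x n) ^ 2 := by
          rw [← sq_abs (Chebyshev.psi (x n) - x n)]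
          exact pow_le_pow_left₀ h5 h7 2
        exact div_le_div_of_nonneg_right h8 (hpos n).le
    _ ≤ ∑ n ∈ Finset.Ico N (2 * N), (Chebyshev.psi (x n) - x n) ^ 2 / x n := by
        refine Finset.sum_le_sum_of_subset_of_nonneg (Finset.filter_subset _ _) fun n _ _ => ?_
        exact div_nonneg (sq_nonneg _) (hpos n).le

/-- `[1, M]` is contained in the union of the blocks `[2^k, 2^(k+1))`, `k ≤ log₂ M`. -/
theorem cnt_dyadic (S : Set ℕ) (M : ℕ) : ((Set.Icc 1 M ∩ S).ncard : ℝ) ≤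
    ∑ k ∈ Finset.range (Nat.log 2 M + 1), ((Set.Ico (2 ^ k) (2 * 2 ^ k) ∩ S).ncard : ℝ) := by
  classical
  have hset : ∀ a b : ℕ, Set.Ico a b ∩ S =
      (((Finset.Ico a b).filter fun n => n ∈ S : Finset ℕ) : Set ℕ) := by
    intro a b
    ext n
    simp
  have hset' : Set.Icc 1 M ∩ S =
      (((Finset.Icc 1 M).filter fun n => n ∈ S : Finset ℕ) : Set ℕ) := by
    ext n
    simp
  simp only [hset, hset', Set.ncard_coe_finset]
  have hsub : (Finset.Icc 1 M).filter (fun n => n ∈ S) ⊆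
      (Finset.range (Nat.log 2 M + 1)).biUnion fun k =>
        (Finset.Ico (2 ^ k) (2 * 2 ^ k)).filter fun n => n ∈ S := by
    intro n hn
    rw [Finset.mem_filter, Finset.mem_Icc] at hn
    obtain ⟨⟨h1, h2⟩, h3⟩ := hn
    refine Finset.mem_biUnion.2 ⟨Nat.log 2 n, ?_, ?_⟩
    · rw [Finset.mem_range]
      have := Nat.log_mono_right (b := 2) h2
      omega
    · rw [Finset.mem_filter, Finset.mem_Ico]
      refine ⟨⟨Nat.pow_log_le_self 2 (by omega), ?_⟩, h3⟩
      have := Nat.lt_pow_succ_log_self (b := 2) (by norm_num) n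
      rw [pow_succ, mul_comm] at this
      exact this
  have h4 := (Finset.card_le_card hsub).trans Finset.card_biUnion_le
  exact_mod_cast h4

end ERT
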