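import Pool.Agent.Lib.MP_ed189b_nt.CntA

/-!
# MP_ed189b_nt: counting exceptional scales
-/

set_option autoImplicit false

noncomputable section

namespace ERT

/-- one block for `G x = c √x (log x)^a` -/
private theorem cntB_block {C : ℝ} (hC : BlockBound C) {a c : ℝ} (ha : 0 < a) (hc : 0 < c)
    {N : ℕ} (hN : 1 ≤ N) :
    ((Set.Ico N (2 * N) ∩ Exc (fun x => c * (x ^ (1 / 2 : ℝ) * Real.log x ^ a))).ncard : ℝ) ≤
      C / c ^ 2 * (N : ℝ) ^ (4 - 2 * a) := by
  have hN0 : (0 : ℝ) < N := by exact_mod_cast hN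
  have h1 := cnt_block (m := c ^ 2 * (N : ℝ) ^ (2 * a)) hC
    (G := fun x => c * (x ^ (1 / 2 : ℝ) * Real.log x ^ a)) hN (by
      intro x hx _
      have hx0 : 0 < x := (Real.exp_pos _).trans_le hx
      have hl : (N : ℝ) ≤ Real.log x := by
        rw [← Real.log_exp (N : ℝ)]
        exact Real.log_le_log (Real.exp_pos _) hx
      have hl0 : 0 < Real.log x := hN0.trans_le hl
      refine ⟨by positivity, ?_⟩
      have e1 : (x ^ (1 / 2 : ℝ)) ^ 2 = x := by
        rw [← Real.rpow_natCast, ← Real.rpow_mul hx0.le]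
        norm_num
      have e2 : (Real.log x ^ a) ^ 2 = Real.log x ^ (2 * a) := by
        rw [← Real.rpow_natCast, ← Real.rpow_mul hl0.le]
        congr 1
        push_cast
        ring
      have e3 : (c * (x ^ (1 / 2 : ℝ) * Real.log x ^ a)) ^ 2 / x =
          c ^ 2 * Real.log x ^ (2 * a) := by
        rw [mul_pow, mul_pow, e1, e2]
        field_simp
      rw [e3]
      have e4 : (N : ℝ) ^ (2 * a) ≤ Real.log x ^ (2 * a) :=
        Real.rpow_le_rpow hN0.le hl (by linarith)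
      exact mul_le_mul_of_nonneg_left e4 (by positivity))
  have h2 : 0 < c ^ 2 * (N : ℝ) ^ (2 * a) := by positivity
  have h3 := (le_div_iff₀' h2).2 h1
  refine h3.trans (le_of_eq ?_)
  rw [Real.rpow_sub hN0]
  have h4 : (N : ℝ) ^ (4 : ℝ) = (N : ℝ) ^ 4 := by
    rw [← Real.rpow_natCast]
    norm_num
  rw [h4]
  field_simp

private theorem cntB_nonneg {C : ℝ} (hC : BlockBound C) : 0 ≤ C := by
  have h1 := hC 1 (fun n => Real.exp n) le_rfl (fun n _ => ⟨le_rfl, Real.exp_le_exp.2 (by linarith)⟩)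
  have h2 : 0 ≤ ∑ n ∈ Finset.Ico 1 (2 * 1), (Chebyshev.psi (Real.exp (n : ℕ)) -
      Real.exp (n : ℕ)) ^ 2 / Real.exp (n : ℕ) :=
    Finset.sum_nonneg fun n _ => by positivity
  have h3 := h2.trans h1
  simpa using h3

/-- `cnt_dyadic` and `cnt_block` with `G x = c √x (log x)^a`, `m = c² N^(2a)`, `N = 2^k ≤ M`: each
block contains at most `C c⁻² 2^(k (4-2a))` scales; geometric sum with ratio `2^(4-2a) > 1`. -/
theorem cnt_pow {C : ℝ} (hC : BlockBound C) {a c : ℝ} (ha : 3 / 2 < a) (ha2 : a < 2)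
    (hc : 0 < c) : ∃ C' : ℝ, ∀ M : ℕ, 1 ≤ M →
    ((Set.Icc 1 M ∩ Exc (fun x => c * (x ^ (1 / 2 : ℝ) * Real.log x ^ a))).ncard : ℝ) ≤
      C' * (M : ℝ) ^ (4 - 2 * a) := by
  set r : ℝ := (2 : ℝ) ^ (4 - 2 * a) with hr
  have hr1 : 1 < r := Real.one_lt_rpow (by norm_num) (by linarith)
  have hr0 : 0 < r - 1 := by linarith
  have hC0 := cntB_nonneg hC
  refine ⟨C / c ^ 2 * (r / (r - 1)), fun M hM => ?_⟩
  refine (cnt_dyadic _ M).trans ?_
  have hb : ∀ k : ℕ, ((Set.Ico (2 ^ k) (2 * 2 ^ k) ∩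
      Exc (fun x => c * (x ^ (1 / 2 : ℝ) * Real.log x ^ a))).ncard : ℝ) ≤ C / c ^ 2 * r ^ k := by
    intro k
    refine (cntB_block hC (by linarith) hc (N := 2 ^ k) Nat.one_le_two_pow).trans (le_of_eq ?_)
    congr 1
    rw [hr]
    push_cast
    rw [← Real.rpow_natCast, ← Real.rpow_mul (by norm_num), ← Real.rpow_natCast,
      ← Real.rpow_mul (by norm_num), mul_comm]
  refine (Finset.sum_le_sum fun k _ => hb k).trans ?_
  rw [← Finset.mul_sum, mul_assoc]
  refine mul_le_mul_of_nonneg_left ?_ (by positivity)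
  have hg : ∑ k ∈ Finset.range (Nat.log 2 M + 1), r ^ k =
      (r ^ (Nat.log 2 M + 1) - 1) / (r - 1) := geom_sum_eq hr1.ne' _
  rw [hg]
  have hM2 : r ^ Nat.log 2 M ≤ (M : ℝ) ^ (4 - 2 * a) := by
    have h1 : ((2 : ℝ) ^ Nat.log 2 M) ≤ M := by
      exact_mod_cast Nat.pow_log_le_self 2 (by omega)
    have h2 : r ^ Nat.log 2 M = ((2 : ℝ) ^ Nat.log 2 M) ^ (4 - 2 * a) := by
      rw [hr, ← Real.rpow_natCast, ← Real.rpow_mul (by norm_num), ← Real.rpow_natCast,
        ← Real.rpow_mul (by norm_num), mul_comm]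
    rw [h2]
    exact Real.rpow_le_rpow (by positivity) h1 (by linarith)
  have h3 : r / (r - 1) * (M : ℝ) ^ (4 - 2 * a) = r * (M : ℝ) ^ (4 - 2 * a) / (r - 1) := by ring
  rw [h3]
  refine div_le_div_of_nonneg_right ?_ hr0.le
  have h4 : r ^ (Nat.log 2 M + 1) = r * r ^ Nat.log 2 M := by ring
  rw [h4]
  have h5 : r * r ^ Nat.log 2 M ≤ r * (M : ℝ) ^ (4 - 2 * a) :=
    mul_le_mul_of_nonneg_left hM2 (by linarith)
  linarith

/-- The same with `a = 2`: each dyadic block contains at most `C / c²` such scales, and there are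
`Nat.log 2 M + 1 ≤ C' log M` blocks. -/
theorem cnt_two {C : ℝ} (hC : BlockBound C) {c : ℝ} (hc : 0 < c) : ∃ C' : ℝ, ∀ M : ℕ, 2 ≤ M →
    ((Set.Icc 1 M ∩ Exc (fun x => c * (x ^ (1 / 2 : ℝ) * Real.log x ^ (2 : ℝ)))).ncard : ℝ) ≤
      C' * Real.log M := by
  have hC0 := cntB_nonneg hC
  have hl2 : 0 < Real.log 2 := Real.log_pos (by norm_num)
  refine ⟨C / c ^ 2 * (2 / Real.log 2), fun M hM => ?_⟩
  refine (cnt_dyadic _ M).trans ?_
  have hb : ∀ k : ℕ, ((Set.Ico (2 ^ k) (2 * 2 ^ k) ∩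
      Exc (fun x => c * (x ^ (1 / 2 : ℝ) * Real.log x ^ (2 : ℝ)))).ncard : ℝ) ≤ C / c ^ 2 := by
    intro k
    refine (cntB_block hC (by norm_num) hc (N := 2 ^ k) Nat.one_le_two_pow).trans (le_of_eq ?_)
    rw [show (4 : ℝ) - 2 * 2 = 0 by norm_num, Real.rpow_zero, mul_one]
  refine (Finset.sum_le_sum fun k _ => hb k).trans ?_
  rw [Finset.sum_const, Finset.card_range, nsmul_eq_mul, mul_comm, mul_assoc]
  refine mul_le_mul_of_nonneg_left ?_ (by positivity)
  have hM0 : (0 : ℝ) < M := by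
    have : 0 < M := by omega
    exact_mod_cast this
  have h1 : ((2 : ℝ) ^ Nat.log 2 M) ≤ M := by
    exact_mod_cast Nat.pow_log_le_self 2 (by omega)
  have h2 : (Nat.log 2 M : ℝ) * Real.log 2 ≤ Real.log M := by
    rw [← Real.log_pow]
    exact Real.log_le_log (by positivity) h1
  have h3 : Real.log 2 ≤ Real.log M := by
    apply Real.log_le_log (by norm_num)
    exact_mod_cast hM
  have h4 : 2 / Real.log 2 * Real.log M = 2 * Real.log M / Real.log 2 := by ring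
  rw [h4, le_div_iff₀ hl2]
  push_cast
  linarith

end ERT
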