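import Pool.Agent.Lib.MP_ed189b_nt.CntA

/-!
# MP_ed189b_nt: scales of density zero
-/

set_option autoImplicit false

noncomputable section

namespace ERT

open Filter Topology

private theorem cntc_geom (n : ℕ) : ∑ k ∈ Finset.range n, (2 : ℝ) ^ k = 2 ^ n - 1 := by
  induction n with
  | zero => simp
  | succ n ih =>
    rw [Finset.sum_range_succ, ih, pow_succ]
    ring

private theorem cntc_head (n k₀ : ℕ) :
    ∑ k ∈ Finset.range n, (if k < k₀ then (2 : ℝ) ^ k else 0) ≤ 2 ^ k₀ := by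
  rw [← Finset.sum_filter]
  have h1 : (Finset.range n).filter (fun k => k < k₀) ⊆ Finset.range k₀ := by
    intro k hk
    rw [Finset.mem_filter] at hk
    exact Finset.mem_range.2 hk.2
  refine (Finset.sum_le_sum_of_subset_of_nonneg h1 fun k _ _ => by positivity).trans ?_
  rw [cntc_geom]
  linarith

private theorem cntc_ncard (N : ℕ) (S : Set ℕ) : ((Set.Ico N (2 * N) ∩ S).ncard : ℝ) ≤ N := by
  have h1 : (Set.Ico N (2 * N) ∩ S).ncard ≤ (Set.Ico N (2 * N)).ncard :=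
    Set.ncard_le_ncard Set.inter_subset_left (Set.finite_Ico _ _)
  have h2 : (Set.Ico N (2 * N)).ncard = N := by
    rw [← Finset.coe_Ico, Set.ncard_coe_finset, Nat.card_Ico]
    omega
  rw [h2] at h1
  exact_mod_cast h1

private theorem cntc_lower {G : ℝ → ℝ}
    (hG : Tendsto (fun x => G x / (x ^ (1 / 2 : ℝ) * Real.log x ^ (3 / 2 : ℝ))) atTop atTop)
    {K : ℝ} (hK : 0 < K) : ∃ k₀ : ℕ, ∀ k, k₀ ≤ k → ∀ x : ℝ, Real.exp ((2 ^ k : ℕ) : ℝ) ≤ x →
      0 ≤ G x ∧ K ^ 2 * ((2 ^ k : ℕ) : ℝ) ^ 3 ≤ G x ^ 2 / x := by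
  obtain ⟨X, hX⟩ := eventually_atTop.1 (hG.eventually_ge_atTop K)
  have h1 : Tendsto (fun k : ℕ => Real.exp ((2 ^ k : ℕ) : ℝ)) atTop atTop := by
    refine Real.tendsto_exp_atTop.comp (tendsto_natCast_atTop_atTop.comp ?_)
    exact tendsto_pow_atTop_atTop_of_one_lt (by norm_num)
  obtain ⟨k₀, hk₀⟩ := eventually_atTop.1 (h1.eventually_ge_atTop X)
  refine ⟨k₀, fun k hk x hx => ?_⟩
  obtain ⟨N, hN⟩ : ∃ N : ℝ, N = ((2 ^ k : ℕ) : ℝ) := ⟨_, rfl⟩
  have hN0 : 0 < N := by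
    rw [hN]
    positivity
  have h2 := hX x ((hk₀ k hk).trans hx)
  rw [← hN] at hx ⊢
  have hx0 : 0 < x := (Real.exp_pos N).trans_le hx
  have hl : N ≤ Real.log x := (Real.le_log_iff_exp_le hx0).2 hx
  have hl0 : 0 < Real.log x := hN0.trans_le hl
  have h3 : 0 < x ^ (1 / 2 : ℝ) := Real.rpow_pos_of_pos hx0 _
  have h4 : 0 < Real.log x ^ (3 / 2 : ℝ) := Real.rpow_pos_of_pos hl0 _
  rw [le_div_iff₀ (mul_pos h3 h4)] at h2
  have h5 : 0 ≤ K * (x ^ (1 / 2 : ℝ) * Real.log x ^ (3 / 2 : ℝ)) := by positivity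
  refine ⟨h5.trans h2, ?_⟩
  rw [le_div_iff₀ hx0]
  have h6 := pow_le_pow_left₀ h5 h2 2
  have h7 : (x ^ (1 / 2 : ℝ)) ^ 2 = x := by
    rw [← Real.rpow_natCast, ← Real.rpow_mul hx0.le]
    norm_num
  have h8 : (Real.log x ^ (3 / 2 : ℝ)) ^ 2 = Real.log x ^ 3 := by
    rw [← Real.rpow_natCast, ← Real.rpow_mul hl0.le]
    norm_num
  rw [mul_pow, mul_pow, h7, h8] at h6
  refine le_trans ?_ h6
  have h9 : N ^ 3 ≤ Real.log x ^ 3 := pow_le_pow_left₀ hN0.le hl 3
  have h10 := mul_le_mul_of_nonneg_left h9 (mul_nonneg (sq_nonneg K) hx0.le)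
  calc K ^ 2 * N ^ 3 * x = K ^ 2 * x * N ^ 3 := by ring
    _ ≤ K ^ 2 * x * Real.log x ^ 3 := h10
    _ = _ := by ring

/-- For every `K > 0` there is `k₀` with `G x ≥ K √x (log x)^(3/2)` for `x ≥ exp (2^k₀)`;
`cnt_block` with `m = K² N³`, `N = 2^k`, `k ≥ k₀`: at most `C 2^k / K²` scales in the block; for
`k < k₀` at most `2^k`. `cnt_dyadic`: at most `2^k₀ + 2 C M / K²` scales up to `M`. -/
theorem cnt_dens {C : ℝ} (hC : BlockBound C) {G : ℝ → ℝ}
    (hG : Tendsto (fun x => G x / (x ^ (1 / 2 : ℝ) * Real.log x ^ (3 / 2 : ℝ))) atTop atTop) :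
    Tendsto (fun M : ℕ => ((Set.Icc 1 M ∩ Exc G).ncard : ℝ) / M) atTop (𝓝 0) := by
  rw [Metric.tendsto_atTop]
  intro ε hε
  obtain ⟨K, hK⟩ : ∃ K : ℝ, K = √(4 * (|C| + 1) / ε) := ⟨_, rfl⟩
  have hC0 : 0 < 4 * (|C| + 1) / ε := by positivity
  have hK0 : 0 < K := by rw [hK]; exact Real.sqrt_pos.2 hC0
  have hK2 : K ^ 2 = 4 * (|C| + 1) / ε := by rw [hK]; exact Real.sq_sqrt hC0.le
  obtain ⟨k₀, hk₀⟩ := cntc_lower hG hK0
  have hblk : ∀ k : ℕ, ((Set.Ico (2 ^ k) (2 * 2 ^ k) ∩ Exc G).ncard : ℝ) ≤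
      (if k < k₀ then (2 : ℝ) ^ k else 0) + |C| / K ^ 2 * 2 ^ k := by
    intro k
    have h1 : 0 ≤ |C| / K ^ 2 * 2 ^ k := by positivity
    split_ifs with hk
    · have h2 := cntc_ncard (2 ^ k) (Exc G)
      push_cast at h2
      linarith
    · rw [zero_add]
      have h2 := cnt_block (m := K ^ 2 * ((2 ^ k : ℕ) : ℝ) ^ 3) (N := 2 ^ k) hC (G := G)
        Nat.one_le_two_pow (fun x hx _ => hk₀ k (not_lt.1 hk) x hx)
      obtain ⟨N, hN⟩ : ∃ N : ℝ, N = ((2 ^ k : ℕ) : ℝ) := ⟨_, rfl⟩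
      have hN0 : 0 < N := by
        rw [hN]
        positivity
      have hN' : (2 : ℝ) ^ k = N := by
        rw [hN]
        push_cast
        rfl
      rw [← hN] at h2
      rw [hN']
      have h3 : C * N ^ 4 ≤ |C| * N ^ 4 :=
        mul_le_mul_of_nonneg_right (le_abs_self C) (by positivity)
      have h4 : 0 < K ^ 2 * N ^ 3 := by positivity
      have h5 : ((Set.Ico (2 ^ k) (2 * 2 ^ k) ∩ Exc G).ncard : ℝ) ≤
          |C| * N ^ 4 / (K ^ 2 * N ^ 3) := by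
        rw [le_div_iff₀ h4]
        linarith
      refine h5.trans (le_of_eq ?_)
      field_simp
  have hall : ∀ M : ℕ, 1 ≤ M → ((Set.Icc 1 M ∩ Exc G).ncard : ℝ) ≤
      2 ^ k₀ + 2 * |C| / K ^ 2 * M := by
    intro M hM
    refine (cnt_dyadic (Exc G) M).trans ?_
    refine (Finset.sum_le_sum fun k _ => hblk k).trans ?_
    rw [Finset.sum_add_distrib, ← Finset.mul_sum, cntc_geom]
    have h1 := cntc_head (Nat.log 2 M + 1) k₀
    have h2 : (2 : ℝ) ^ (Nat.log 2 M + 1) ≤ 2 * M := by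
      have h3 := Nat.pow_log_le_self 2 (by omega : M ≠ 0)
      have h4 : ((2 ^ Nat.log 2 M : ℕ) : ℝ) ≤ M := by exact_mod_cast h3
      push_cast at h4
      rw [pow_succ]
      linarith
    have h5 : |C| / K ^ 2 * (2 ^ (Nat.log 2 M + 1) - 1) ≤ |C| / K ^ 2 * (2 * M) :=
      mul_le_mul_of_nonneg_left (by linarith) (by positivity)
    have h6 : |C| / K ^ 2 * (2 * M) = 2 * |C| / K ^ 2 * M := by ring
    linarith
  obtain ⟨M₀, hM₀⟩ := exists_nat_gt (2 * 2 ^ k₀ / ε)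
  refine ⟨max M₀ 1, fun M hM => ?_⟩
  have hM1 : 1 ≤ M := (le_max_right _ _).trans hM
  have hM2 : (M₀ : ℝ) ≤ M := by exact_mod_cast (le_max_left _ _).trans hM
  have hM0 : (0 : ℝ) < M := by exact_mod_cast hM1
  rw [Real.dist_eq, sub_zero, abs_of_nonneg (by positivity), div_lt_iff₀ hM0]
  refine (hall M hM1).trans_lt ?_
  have h1 : (2 : ℝ) ^ k₀ < ε / 2 * M := by
    have h2 : 2 * 2 ^ k₀ / ε < M := hM₀.trans_le hM2
    rw [div_lt_iff₀ hε] at h2
    linarith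
  have h3 : 2 * |C| / K ^ 2 ≤ ε / 2 := by
    rw [hK2, div_div_eq_mul_div, div_le_iff₀ (by positivity)]
    nlinarith [abs_nonneg C]
  have h4 := mul_le_mul_of_nonneg_right h3 hM0.le
  linarith

private theorem cntc_log_rpow (c : ℝ) {z : ℝ} (hz : Real.exp 1 ≤ z) :
    z ^ (-|c|) ≤ Real.log z ^ c := by
  have hz0 : 0 < z := (Real.exp_pos 1).trans_le hz
  have hz1 : 1 ≤ z := by
    have := Real.add_one_le_exp 1
    linarith
  have hl : 1 ≤ Real.log z := (Real.le_log_iff_exp_le hz0).2 hz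
  have hlz : Real.log z ≤ z := (Real.log_le_sub_one_of_pos hz0).trans (by linarith)
  rcases le_total 0 c with hc | hc
  · have h1 : z ^ (-|c|) ≤ 1 := by
      refine Real.rpow_le_one_of_one_le_of_nonpos hz1 ?_
      linarith [abs_nonneg c]
    exact h1.trans (Real.one_le_rpow hl hc)
  · rw [abs_of_nonpos hc, neg_neg]
    exact Real.rpow_le_rpow_of_nonpos (by linarith) hlz hc

private theorem cntc_quot (a b c c₀ : ℝ) : ∀ᶠ x : ℝ in atTop,
    c₀ * Fabc a b c x / (x ^ (1 / 2 : ℝ) * Real.log x ^ (3 / 2 : ℝ)) =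
      c₀ * (Real.log x ^ (a - 3 / 2) * Real.log (Real.log x) ^ b *
        Real.log (Real.log (Real.log x)) ^ c) := by
  filter_upwards [eventually_gt_atTop 0, Real.tendsto_log_atTop.eventually_gt_atTop 0]
    with x hx hl
  have h1 : 0 < x ^ (1 / 2 : ℝ) := Real.rpow_pos_of_pos hx _
  have h2 : 0 < Real.log x ^ (3 / 2 : ℝ) := Real.rpow_pos_of_pos hl _
  unfold Fabc
  rw [Real.rpow_sub hl]
  field_simp

/-- With `y = log x → ∞` the quotient is `c₀ y^(a-3/2) (log y)^b (log log y)^c`. If `a > 3/2`: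
`y^(a - 3/2)` dominates (`isLittleO_log_rpow_rpow_atTop`); if `a = 3/2`, `b > 0`: `(log y)^b`
dominates `(log log y)^|c|`; if `a = 3/2`, `b = 0`: `(log log y)^c → ∞`. -/
theorem fabc_large {a b c c₀ : ℝ} (hc₀ : 0 < c₀)
    (h : 3 / 2 < a ∨ (a = 3 / 2 ∧ (0 < b ∨ (b = 0 ∧ 0 < c)))) :
    Tendsto (fun x => c₀ * Fabc a b c x / (x ^ (1 / 2 : ℝ) * Real.log x ^ (3 / 2 : ℝ)))
      atTop atTop := by
  refine Tendsto.congr' (EventuallyEq.symm (cntc_quot a b c c₀)) ?_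
  refine Tendsto.const_mul_atTop hc₀ ?_
  have hll : Tendsto (fun x : ℝ => Real.log (Real.log x)) atTop atTop :=
    Real.tendsto_log_atTop.comp Real.tendsto_log_atTop
  have hlll : Tendsto (fun x : ℝ => Real.log (Real.log (Real.log x))) atTop atTop :=
    Real.tendsto_log_atTop.comp hll
  rcases h with h | ⟨rfl, h⟩
  · have h1 := (tendsto_exp_mul_div_rpow_atTop (|c| - b) (a - 3 / 2) (by linarith)).comp hll
    refine tendsto_atTop_mono' atTop ?_ h1
    filter_upwards [Real.tendsto_log_atTop.eventually_gt_atTop 0,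
      hll.eventually_ge_atTop (Real.exp 1)] with x hl hz
    simp only [Function.comp_apply]
    obtain ⟨z, hzz⟩ : ∃ z, z = Real.log (Real.log x) := ⟨_, rfl⟩
    have h2 : Real.log x ^ (a - 3 / 2) = Real.exp ((a - 3 / 2) * z) := by
      rw [Real.rpow_def_of_pos hl, hzz, mul_comm]
    rw [h2]
    rw [← hzz] at hz ⊢
    have hz0 : 0 < z := (Real.exp_pos 1).trans_le hz
    have h3 := cntc_log_rpow c hz
    have h4 : Real.exp ((a - 3 / 2) * z) / z ^ (|c| - b) =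
        Real.exp ((a - 3 / 2) * z) * z ^ b * z ^ (-|c|) := by
      rw [mul_assoc, ← Real.rpow_add hz0, div_eq_mul_inv, ← Real.rpow_neg hz0.le]
      congr 2
      ring
    rw [h4]
    exact mul_le_mul_of_nonneg_left h3
      (mul_nonneg (Real.exp_pos _).le (Real.rpow_nonneg hz0.le _))
  · have h2 : ∀ᶠ x : ℝ in atTop, Real.log x ^ ((3 / 2 : ℝ) - 3 / 2) = 1 := by
      filter_upwards with x
      rw [sub_self, Real.rpow_zero]
    rcases h with h | ⟨rfl, h⟩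
    · have h1 := (tendsto_exp_mul_div_rpow_atTop (-c) b h).comp hlll
      refine Tendsto.congr' ?_ h1
      filter_upwards [h2, hll.eventually_gt_atTop 0, hlll.eventually_gt_atTop 0] with x h3 h4 h5
      simp only [Function.comp_apply]
      rw [h3, one_mul, Real.rpow_neg h5.le, div_inv_eq_mul]
      congr 1
      rw [Real.rpow_def_of_pos h4, mul_comm]
    · have h1 := (tendsto_rpow_atTop h).comp hlll
      refine Tendsto.congr' ?_ h1
      filter_upwards [h2] with x h3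
      simp only [Function.comp_apply]
      rw [h3, one_mul, Real.rpow_zero, one_mul]

end ERT
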