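import Pool.Agent.Lib.MP_ed189b_nt.Ker

/-!
# MP_ed189b_nt: the smooth cutoff
-/

set_option autoImplicit false

noncomputable section

namespace ERT

open Complex Filter Topology Set MeasureTheory

private theorem kap_pow {n : ℕ} (hn : 1 ≤ n) (w : ℂ) : ‖(n : ℂ) ^ (-w)‖ = (n : ℝ) ^ (-w.re) := by
  rw [Complex.norm_natCast_cpow_of_pos (by omega), Complex.neg_re]

private theorem kap_pow_le {n : ℕ} (hn : 1 ≤ n) {w : ℂ} (hw : 0 ≤ w.re) : ‖(n : ℂ) ^ (-w)‖ ≤ 1 := by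
  rw [kap_pow hn]
  exact Real.rpow_le_one_of_one_le_of_nonpos (by exact_mod_cast hn) (by linarith)

private theorem kap_eta (w : ℂ) : ln w.re w.im = w := by
  unfold ln
  exact Complex.re_add_im w

private theorem kap_exp (v : ℝ) : Real.exp (-v ^ 2) ≤ 2 * (1 + |v|) ^ (-(3 / 2) : ℝ) := by
  have h0 : 0 ≤ |v| := abs_nonneg v
  have h1 : (1 : ℝ) + v ^ 2 ≤ Real.exp (v ^ 2) := by
    have := Real.add_one_le_exp (v ^ 2)
    linarith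
  have h2 : (1 + |v|) ^ 2 ≤ 2 * (1 + v ^ 2) := by
    nlinarith [sq_nonneg (1 - |v|), sq_abs v]
  have h3 : Real.exp (-v ^ 2) ≤ 2 * ((1 + |v|) ^ 2)⁻¹ := by
    rw [Real.exp_neg, ← div_eq_mul_inv, inv_eq_one_div,
      div_le_div_iff₀ (Real.exp_pos _) (by positivity)]
    linarith
  have h4 : ((1 + |v|) ^ 2)⁻¹ ≤ (1 + |v|) ^ (-(3 / 2) : ℝ) := by
    have h5 : ((1 + |v|) ^ 2)⁻¹ = (1 + |v|) ^ (-2 : ℝ) := by
      rw [Real.rpow_neg (by positivity), Real.rpow_two]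
    rw [h5]
    exact Real.rpow_le_rpow_of_exponent_le (by linarith) (by norm_num)
  linarith

private theorem kap_diff {ℓ : ℝ} (hℓ : 0 < ℓ) {n : ℕ} (hn : 1 ≤ n) {w : ℂ} (hw : 0 < w.re) :
    DifferentiableAt ℂ (fun w => (n : ℂ) ^ (-w) * Kx ℓ w) w := by
  have hw0 : w ≠ 0 := by
    intro h
    rw [h, Complex.zero_re] at hw
    exact lt_irrefl _ hw
  have hn0 : (n : ℂ) ≠ 0 := by
    have : n ≠ 0 := by omega
    exact_mod_cast this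
  have hℓ0 : (ℓ : ℂ) ≠ 0 := by exact_mod_cast hℓ.ne'
  have h1 : DifferentiableAt ℂ (fun w : ℂ => (n : ℂ) ^ (-w)) w :=
    differentiableAt_id.neg.const_cpow (Or.inl hn0)
  have h2 : DifferentiableAt ℂ (Kx ℓ) w := by
    unfold Kx
    refine DifferentiableAt.fun_div (by fun_prop) (by fun_prop) ?_
    exact mul_ne_zero hℓ0 (pow_ne_zero 2 hw0)
  exact h1.mul h2

private theorem kap_bd {ℓ : ℝ} (hℓ : 1 ≤ ℓ) {n : ℕ} (hn : 1 ≤ n) {w : ℂ} (h1 : 1 / ℓ ≤ w.re)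
    (h2 : w.re ≤ 2) : ‖(n : ℂ) ^ (-w) * Kx ℓ w‖ ≤
      (4 * ℓ * Real.exp 4 * Real.exp (4 * ℓ)) * (1 + |w.im|) ^ (-(3 / 2) : ℝ) := by
  have hℓ0 : 0 < ℓ := by linarith
  have hc0 : 0 < 1 / ℓ := by positivity
  have hc : 0 < w.re := hc0.trans_le h1
  have h3 := Kx_bound hℓ0 hc.ne' w.im
  rw [kap_eta] at h3
  have e1 : Real.exp (w.re ^ 2 - w.im ^ 2) ≤ Real.exp 4 * Real.exp (-w.im ^ 2) := by
    rw [← Real.exp_add]
    exact Real.exp_le_exp.mpr (by nlinarith)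
  have e2 : Real.exp (2 * ℓ * w.re) + Real.exp (ℓ * w.re) ≤ 2 * Real.exp (4 * ℓ) := by
    have e3 : Real.exp (2 * ℓ * w.re) ≤ Real.exp (4 * ℓ) :=
      Real.exp_le_exp.mpr (by nlinarith)
    have e4 : Real.exp (ℓ * w.re) ≤ Real.exp (4 * ℓ) :=
      Real.exp_le_exp.mpr (by nlinarith)
    linarith
  have e5 : ℓ⁻¹ ≤ ℓ * (w.re ^ 2 + w.im ^ 2) := by
    have e6 : (1 / ℓ) ^ 2 ≤ w.re ^ 2 := pow_le_pow_left₀ hc0.le h1 2
    have e7 : ℓ * (1 / ℓ) ^ 2 = ℓ⁻¹ := by field_simp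
    rw [← e7]
    exact mul_le_mul_of_nonneg_left (by nlinarith [sq_nonneg w.im]) hℓ0.le
  have e8 : ‖Kx ℓ w‖ ≤ (Real.exp 4 * Real.exp (-w.im ^ 2)) * (2 * Real.exp (4 * ℓ)) / ℓ⁻¹ := by
    refine h3.trans ?_
    refine div_le_div₀ (by positivity) ?_ (by positivity) e5
    exact mul_le_mul e1 e2 (by positivity) (by positivity)
  have e9 : (Real.exp 4 * Real.exp (-w.im ^ 2)) * (2 * Real.exp (4 * ℓ)) / ℓ⁻¹ =
      (2 * ℓ * Real.exp 4 * Real.exp (4 * ℓ)) * Real.exp (-w.im ^ 2) := by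
    rw [div_inv_eq_mul]
    ring
  rw [e9] at e8
  rw [norm_mul]
  have e10 := kap_pow_le hn hc.le
  have e11 : ‖(n : ℂ) ^ (-w)‖ * ‖Kx ℓ w‖ ≤ 1 * ‖Kx ℓ w‖ :=
    mul_le_mul_of_nonneg_right e10 (norm_nonneg _)
  rw [one_mul] at e11
  refine e11.trans (e8.trans ?_)
  have e12 := mul_le_mul_of_nonneg_left (kap_exp w.im)
    (show 0 ≤ 2 * ℓ * Real.exp 4 * Real.exp (4 * ℓ) by positivity)
  linarith

/-- Shift the line of integration from `Re w = 2` to `Re w = 1/ℓ` (`lsh` with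
`H w = n^(-w) Kx ℓ w`, `‖n^(-w)‖ ≤ 1` for `Re w ≥ 0`, `n ≥ 1`); there
`‖Kx ℓ w‖ ≤ exp (1 - v²) (e² + e) / (ℓ (1/ℓ² + v²))` and
`∫ dv / (ℓ (1/ℓ² + v²)) = π` (substitution `v = x / ℓ`, `integral_univ_inv_one_add_sq`). -/
theorem kap_one : ∃ C : ℝ, 0 < C ∧ ∀ (ℓ : ℝ) (n : ℕ), 1 ≤ ℓ → 1 ≤ n → ‖kap ℓ n‖ ≤ C := by
  refine ⟨(2 * Real.pi)⁻¹ * (Real.exp 1 * (Real.exp 2 + Real.exp 1) * Real.pi), by positivity,
    fun ℓ n hℓ hn => ?_⟩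
  have hℓ0 : 0 < ℓ := by linarith
  have hc0 : 0 < 1 / ℓ := by positivity
  have hc1 : 1 / ℓ ≤ 1 := by
    rw [div_le_one hℓ0]
    exact hℓ
  obtain ⟨-, -, hs⟩ := lsh (H := fun w => (n : ℂ) ^ (-w) * Kx ℓ w) (a := 1 / ℓ) (b := 2)
    (M := 4 * ℓ * Real.exp 4 * Real.exp (4 * ℓ)) (by linarith)
    (fun w h1 _ => kap_diff hℓ0 hn (hc0.trans_le h1)) (fun w h1 h2 => kap_bd hℓ hn h1 h2)
  have hI : Integrable (fun v : ℝ => Real.exp 1 * (Real.exp 2 + Real.exp 1) *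
      (ℓ * (1 + (ℓ * v) ^ 2)⁻¹)) := by
    have h1 : Integrable (fun v : ℝ => (1 + (ℓ * v) ^ 2)⁻¹) :=
      integrable_inv_one_add_sq.comp_mul_left' hℓ0.ne'
    exact (h1.const_mul ℓ).const_mul _
  have hV : ∫ v : ℝ, Real.exp 1 * (Real.exp 2 + Real.exp 1) * (ℓ * (1 + (ℓ * v) ^ 2)⁻¹) =
      Real.exp 1 * (Real.exp 2 + Real.exp 1) * Real.pi := by
    rw [integral_const_mul, integral_const_mul]
    have h1 := Measure.integral_comp_mul_left (fun x : ℝ => (1 + x ^ 2)⁻¹) ℓ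
    rw [integral_univ_inv_one_add_sq, smul_eq_mul, abs_of_pos (inv_pos.mpr hℓ0)] at h1
    rw [h1, ← mul_assoc ℓ, mul_inv_cancel₀ hℓ0.ne', one_mul]
  have hb : ∀ v : ℝ, ‖(n : ℂ) ^ (-ln (1 / ℓ) v) * Kx ℓ (ln (1 / ℓ) v)‖ ≤
      Real.exp 1 * (Real.exp 2 + Real.exp 1) * (ℓ * (1 + (ℓ * v) ^ 2)⁻¹) := by
    intro v
    have h1 := Kx_bound hℓ0 hc0.ne' v
    have h2 : Real.exp ((1 / ℓ) ^ 2 - v ^ 2) ≤ Real.exp 1 := by
      refine Real.exp_le_exp.mpr ?_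
      nlinarith [sq_nonneg v]
    have h3 : 2 * ℓ * (1 / ℓ) = 2 := by field_simp
    have h4 : ℓ * (1 / ℓ) = 1 := by field_simp
    rw [h3, h4] at h1
    have h5 : (ℓ * ((1 / ℓ) ^ 2 + v ^ 2))⁻¹ = ℓ * (1 + (ℓ * v) ^ 2)⁻¹ := by
      have h6 : ℓ * ((1 / ℓ) ^ 2 + v ^ 2) = (1 + (ℓ * v) ^ 2) / ℓ := by
        field_simp
      rw [h6, inv_div, div_eq_mul_inv]
    rw [div_eq_mul_inv (Real.exp ((1 / ℓ) ^ 2 - v ^ 2) * (Real.exp 2 + Real.exp 1)), h5] at h1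
    have h7 : 0 ≤ ℓ * (1 + (ℓ * v) ^ 2)⁻¹ := by positivity
    have h8 : ‖Kx ℓ (ln (1 / ℓ) v)‖ ≤
        Real.exp 1 * (Real.exp 2 + Real.exp 1) * (ℓ * (1 + (ℓ * v) ^ 2)⁻¹) := by
      refine h1.trans (mul_le_mul_of_nonneg_right ?_ h7)
      exact mul_le_mul_of_nonneg_right h2 (by positivity)
    rw [norm_mul]
    have h9 : ‖(n : ℂ) ^ (-ln (1 / ℓ) v)‖ ≤ 1 :=
      kap_pow_le hn (by rw [ln_re]; exact hc0.le)
    calc ‖(n : ℂ) ^ (-ln (1 / ℓ) v)‖ * ‖Kx ℓ (ln (1 / ℓ) v)‖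
        ≤ 1 * ‖Kx ℓ (ln (1 / ℓ) v)‖ := mul_le_mul_of_nonneg_right h9 (norm_nonneg _)
      _ = ‖Kx ℓ (ln (1 / ℓ) v)‖ := one_mul _
      _ ≤ _ := h8
  have hfin : ‖∫ v : ℝ, (n : ℂ) ^ (-ln 2 v) * Kx ℓ (ln 2 v)‖ ≤
      Real.exp 1 * (Real.exp 2 + Real.exp 1) * Real.pi := by
    rw [← hV, ← hs]
    exact norm_integral_le_of_norm_le hI (Eventually.of_forall hb)
  unfold kap
  rw [norm_mul, Complex.norm_real, Real.norm_eq_abs, abs_of_pos (by positivity)]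
  exact mul_le_mul_of_nonneg_left hfin (by positivity)

/-- `‖n^(-2-iv)‖ = n^(-2)` and `‖Kx ℓ (ln 2 v)‖ ≤ exp (4 - v²) 2 exp (4 ℓ)` (`Kx_bound`). -/
theorem kap_two : ∃ C : ℝ, 0 < C ∧ ∀ (ℓ : ℝ) (n : ℕ), 1 ≤ ℓ → 1 ≤ n →
    ‖kap ℓ n‖ ≤ C * Real.exp (4 * ℓ) / (n : ℝ) ^ 2 := by
  have hG : Integrable (fun v : ℝ => Real.exp (-v ^ 2)) := by
    have h := integrable_exp_neg_mul_sq (b := 1) one_pos
    simpa using h
  have hG0 : 0 ≤ ∫ v : ℝ, Real.exp (-v ^ 2) := integral_nonneg fun v => (Real.exp_pos _).le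
  refine ⟨(2 * Real.pi)⁻¹ * (2 * Real.exp 4 * ((∫ v : ℝ, Real.exp (-v ^ 2)) + 1)), by positivity,
    fun ℓ n hℓ hn => ?_⟩
  have hℓ0 : 0 < ℓ := by linarith
  have hn0 : (0 : ℝ) < n := by exact_mod_cast hn
  have hb : ∀ v : ℝ, ‖(n : ℂ) ^ (-ln 2 v) * Kx ℓ (ln 2 v)‖ ≤
      (2 * Real.exp 4 * Real.exp (4 * ℓ) / (n : ℝ) ^ 2) * Real.exp (-v ^ 2) := by
    intro v
    have h1 := Kx_bound hℓ0 (two_ne_zero (α := ℝ)) v
    have h2 : ‖(n : ℂ) ^ (-ln 2 v)‖ = ((n : ℝ) ^ 2)⁻¹ := by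
      rw [kap_pow hn, ln_re, Real.rpow_neg hn0.le, Real.rpow_two]
    have h3 : ‖Kx ℓ (ln 2 v)‖ ≤ (Real.exp 4 * Real.exp (-v ^ 2)) * (2 * Real.exp (4 * ℓ)) := by
      refine h1.trans ?_
      have e1 : Real.exp (2 ^ 2 - v ^ 2) = Real.exp 4 * Real.exp (-v ^ 2) := by
        rw [← Real.exp_add]
        congr 1
        ring
      have e2 : Real.exp (2 * ℓ * 2) + Real.exp (ℓ * 2) ≤ 2 * Real.exp (4 * ℓ) := by
        have e3 : Real.exp (2 * ℓ * 2) ≤ Real.exp (4 * ℓ) := Real.exp_le_exp.mpr (by linarith)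
        have e4 : Real.exp (ℓ * 2) ≤ Real.exp (4 * ℓ) := Real.exp_le_exp.mpr (by linarith)
        linarith
      have e5 : 1 ≤ ℓ * (2 ^ 2 + v ^ 2) := by nlinarith [sq_nonneg v]
      refine (div_le_self (by positivity) e5).trans ?_
      rw [e1]
      exact mul_le_mul_of_nonneg_left e2 (by positivity)
    rw [norm_mul, h2]
    calc ((n : ℝ) ^ 2)⁻¹ * ‖Kx ℓ (ln 2 v)‖
        ≤ ((n : ℝ) ^ 2)⁻¹ * ((Real.exp 4 * Real.exp (-v ^ 2)) * (2 * Real.exp (4 * ℓ))) :=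
          mul_le_mul_of_nonneg_left h3 (by positivity)
      _ = _ := by ring
  have hfin := norm_integral_le_of_norm_le (hG.const_mul _) (Eventually.of_forall hb)
  rw [integral_const_mul] at hfin
  unfold kap
  rw [norm_mul, Complex.norm_real, Real.norm_eq_abs, abs_of_pos (by positivity)]
  have h10 : 2 * Real.exp 4 * Real.exp (4 * ℓ) / (n : ℝ) ^ 2 * ∫ v : ℝ, Real.exp (-v ^ 2) ≤
      2 * Real.exp 4 * Real.exp (4 * ℓ) / (n : ℝ) ^ 2 * ((∫ v : ℝ, Real.exp (-v ^ 2)) + 1) :=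
    mul_le_mul_of_nonneg_left (by linarith) (by positivity)
  calc (2 * Real.pi)⁻¹ * ‖∫ v : ℝ, (n : ℂ) ^ (-ln 2 v) * Kx ℓ (ln 2 v)‖
      ≤ (2 * Real.pi)⁻¹ * (2 * Real.exp 4 * Real.exp (4 * ℓ) / (n : ℝ) ^ 2 *
        ((∫ v : ℝ, Real.exp (-v ^ 2)) + 1)) :=
        mul_le_mul_of_nonneg_left (hfin.trans h10) (by positivity)
    _ = _ := by ring

end ERT
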