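import Pool.Agent.Lib.MP_ed189b_nt.FD
import Pool.Agent.Lib.MP_ed189b_nt.Kap

/-!
# MP_ed189b_nt: the Dirichlet polynomial
-/

set_option autoImplicit false

noncomputable section

namespace ERT

open Complex Filter Topology Set MeasureTheory

/-- the smoothed logarithmic derivative -/
def Dd (ℓ α t : ℝ) : ℂ :=
  (((2 * Real.pi)⁻¹ : ℝ) : ℂ) * ∫ v : ℝ, P (pt α t + ln 2 v) * Kx ℓ (ln 2 v)

private theorem dir_K {ℓ : ℝ} (hℓ : 1 ≤ ℓ) (v : ℝ) :
    ‖Kx ℓ (ln 2 v)‖ ≤ Real.exp 4 * Real.exp (4 * ℓ) * Real.exp (-1 * v ^ 2) := by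
  have h1 := Kx_bound (by linarith : 0 < ℓ) (c := 2) two_ne_zero v
  have h2 : Real.exp (ℓ * 2) ≤ Real.exp (4 * ℓ) := Real.exp_le_exp.2 (by linarith)
  have h3 : Real.exp (2 * ℓ * 2) = Real.exp (4 * ℓ) := by ring_nf
  have h4 : Real.exp ((2 : ℝ) ^ 2 - v ^ 2) = Real.exp 4 * Real.exp (-1 * v ^ 2) := by
    rw [← Real.exp_add]; ring_nf
  have h5 : (2 : ℝ) ≤ ℓ * (2 ^ 2 + v ^ 2) := by nlinarith [sq_nonneg v]
  refine h1.trans ?_
  rw [div_le_iff₀ (by linarith), h3, h4]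
  have h6 : 0 < Real.exp 4 * Real.exp (4 * ℓ) * Real.exp (-1 * v ^ 2) := by positivity
  have h7 : Real.exp 4 * Real.exp (-1 * v ^ 2) * (Real.exp (4 * ℓ) + Real.exp (ℓ * 2)) ≤
      Real.exp 4 * Real.exp (-1 * v ^ 2) * (Real.exp (4 * ℓ) + Real.exp (4 * ℓ)) :=
    mul_le_mul_of_nonneg_left (by linarith) (by positivity)
  refine h7.trans ?_
  nlinarith

private theorem dir_g_int (D : ℝ) : Integrable (fun v : ℝ => D * Real.exp (-1 * v ^ 2)) :=
  (integrable_exp_neg_mul_sq one_pos).const_mul D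

/-- the product with the kernel is integrable -/
private theorem dir_mul_int {ℓ : ℝ} (hℓ : 1 ≤ ℓ) {f : ℝ → ℂ} (hf : Continuous f) {A : ℝ}
    (hA : ∀ v, ‖f v‖ ≤ A) : Integrable (fun v : ℝ => f v * Kx ℓ (ln 2 v)) := by
  have h0 : 0 ≤ A := (norm_nonneg _).trans (hA 0)
  refine Integrable.mono' (dir_g_int (A * (Real.exp 4 * Real.exp (4 * ℓ))))
    (hf.mul (Kx_cont (by linarith : 0 < ℓ) two_ne_zero)).aestronglyMeasurable
    (Eventually.of_forall fun v => ?_)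
  rw [norm_mul]
  calc ‖f v‖ * ‖Kx ℓ (ln 2 v)‖
      ≤ A * (Real.exp 4 * Real.exp (4 * ℓ) * Real.exp (-1 * v ^ 2)) :=
        mul_le_mul (hA v) (dir_K hℓ v) (norm_nonneg _) h0
    _ = _ := by ring

private theorem dir_ln_cont (c : ℝ) : Continuous (ln c) := by
  unfold ln
  fun_prop

/-- the terms of the series -/
private def dirT (α t : ℝ) (n : ℕ) (v : ℝ) : ℂ :=
  (ArithmeticFunction.vonMangoldt n : ℂ) * (n : ℂ) ^ (-pt α t) * (n : ℂ) ^ (-ln 2 v)

private theorem dirT_eq (α t : ℝ) (n : ℕ) (v : ℝ) : dirT α t n v =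
    LSeries.term (fun n => (ArithmeticFunction.vonMangoldt n : ℂ)) (pt α t + ln 2 v) n := by
  unfold dirT
  rw [LSeries.term_def]
  split_ifs with h
  · subst h
    simp
  · have hn : (n : ℂ) ≠ 0 := by exact_mod_cast h
    rw [cpow_add _ _ hn, cpow_neg, cpow_neg]
    field_simp

private theorem dir_re (α t v : ℝ) : (pt α t + ln 2 v).re = 5 / 2 + α := by
  rw [add_re, pt_re, ln_re]; ring

private theorem dirT_norm (α t : ℝ) (n : ℕ) (v : ℝ) : ‖dirT α t n v‖ =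
    ‖LSeries.term (fun n => (ArithmeticFunction.vonMangoldt n : ℂ)) (pt α t + ln 2 0) n‖ := by
  rw [dirT_eq, LSeries.norm_term_eq, LSeries.norm_term_eq, dir_re, dir_re]

private theorem dirT_sum {α : ℝ} (hα : 0 < α) (t : ℝ) : Summable (fun n : ℕ =>
    ‖LSeries.term (fun n => (ArithmeticFunction.vonMangoldt n : ℂ)) (pt α t + ln 2 0) n‖) := by
  have h : 1 < (pt α t + ln 2 0).re := by rw [dir_re]; linarith
  exact (ArithmeticFunction.LSeriesSummable_vonMangoldt h).norm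

private theorem dirT_cont (α t : ℝ) (n : ℕ) : Continuous (dirT α t n) := by
  rcases eq_or_ne n 0 with rfl | hn
  · have : dirT α t 0 = fun _ => 0 := by
      funext v
      simp [dirT]
    rw [this]
    exact continuous_const
  · have hn' : (n : ℂ) ≠ 0 := by exact_mod_cast hn
    unfold dirT
    exact continuous_const.mul ((dir_ln_cont 2).neg.const_cpow (Or.inl hn'))

private theorem dir_pole_re {α : ℝ} (t v : ℝ) : (pt α t - 1 + ln 2 v).re = 3 / 2 + α := by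
  rw [add_re, sub_re, pt_re, ln_re, one_re]; ring

private theorem dir_pole_cont {α : ℝ} (hα : 0 < α) (t : ℝ) :
    Continuous (fun v : ℝ => (pt α t - 1 + ln 2 v)⁻¹) := by
  refine Continuous.inv₀ (continuous_const.add (dir_ln_cont 2)) fun v h => ?_
  have h1 := dir_pole_re (α := α) t v
  rw [h, zero_re] at h1
  linarith

private theorem dir_pole_le {α : ℝ} (hα : 0 < α) (t v : ℝ) :
    ‖(pt α t - 1 + ln 2 v)⁻¹‖ ≤ 1 := by
  rw [norm_inv]
  refine inv_le_one_of_one_le₀ ?_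
  have h1 := dir_pole_re (α := α) t v
  have h2 := Complex.re_le_norm (pt α t - 1 + ln 2 v)
  linarith

/-- `Re (pt α t + ln 2 v) = 5/2 + α > 1`: `P_eq`, the series
`∑ Λ(n) n^(-pt α t) n^(-ln 2 v)` converges absolutely, uniformly in `v`
(`‖Λ(n) n^(-5/2)‖ ≤ log n n^(-5/2)`), so sum and integral may be exchanged
(`hasSum_integral_of_summable_integral_norm` or `integral_tsum`), and
`(s + w - 1)⁻¹` with `s = pt α t`, `w = ln 2 v`. -/
theorem dir_eq {ℓ α : ℝ} (hℓ : 1 ≤ ℓ) (hα : 0 < α) (t : ℝ) :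
    Summable (fun n : ℕ => (ArithmeticFunction.vonMangoldt n : ℂ) * (n : ℂ) ^ (-pt α t) *
      kap ℓ n) ∧
    Dd ℓ α t = -(∑' n : ℕ, (ArithmeticFunction.vonMangoldt n : ℂ) * (n : ℂ) ^ (-pt α t) *
      kap ℓ n) + (((2 * Real.pi)⁻¹ : ℝ) : ℂ) *
        ∫ v : ℝ, (pt α t - 1 + ln 2 v)⁻¹ * Kx ℓ (ln 2 v) := by
  have hsum := dirT_sum hα t
  set a : ℕ → ℝ := fun n =>
    ‖LSeries.term (fun n => (ArithmeticFunction.vonMangoldt n : ℂ)) (pt α t + ln 2 0) n‖ with ha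
  have hTn : ∀ n v, ‖dirT α t n v‖ ≤ a n := fun n v => (dirT_norm α t n v).le
  -- sum and integral
  have hint : ∀ n, Integrable (fun v : ℝ => dirT α t n v * Kx ℓ (ln 2 v)) := fun n =>
    dir_mul_int hℓ (dirT_cont α t n) (hTn n)
  have hnorm : Summable (fun n => ∫ v : ℝ, ‖dirT α t n v * Kx ℓ (ln 2 v)‖) := by
    have h1 : ∀ n, ∫ v : ℝ, ‖dirT α t n v * Kx ℓ (ln 2 v)‖ =
        a n * ∫ v : ℝ, ‖Kx ℓ (ln 2 v)‖ := by
      intro n
      rw [← integral_const_mul]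
      refine integral_congr_ae (Eventually.of_forall fun v => ?_)
      change ‖dirT α t n v * Kx ℓ (ln 2 v)‖ = a n * ‖Kx ℓ (ln 2 v)‖
      rw [norm_mul, dirT_norm]
    simp only [h1]
    exact hsum.mul_right _
  have hHS := hasSum_integral_of_summable_integral_norm hint hnorm
  have hterm : ∀ n : ℕ, (ArithmeticFunction.vonMangoldt n : ℂ) * (n : ℂ) ^ (-pt α t) *
      kap ℓ n = (((2 * Real.pi)⁻¹ : ℝ) : ℂ) * ∫ v : ℝ, dirT α t n v * Kx ℓ (ln 2 v) := by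
    intro n
    have h1 : ∫ v : ℝ, dirT α t n v * Kx ℓ (ln 2 v) =
        ((ArithmeticFunction.vonMangoldt n : ℂ) * (n : ℂ) ^ (-pt α t)) *
          ∫ v : ℝ, (n : ℂ) ^ (-ln 2 v) * Kx ℓ (ln 2 v) := by
      rw [← integral_const_mul]
      refine integral_congr_ae (Eventually.of_forall fun v => ?_)
      change dirT α t n v * Kx ℓ (ln 2 v) = _
      unfold dirT
      ring
    rw [h1, kap]
    ring
  have hsm : HasSum (fun n : ℕ => (ArithmeticFunction.vonMangoldt n : ℂ) *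
      (n : ℂ) ^ (-pt α t) * kap ℓ n) ((((2 * Real.pi)⁻¹ : ℝ) : ℂ) *
        ∫ v : ℝ, ∑' n : ℕ, dirT α t n v * Kx ℓ (ln 2 v)) := by
    simp only [hterm]
    exact hHS.mul_left _
  refine ⟨hsm.summable, ?_⟩
  rw [hsm.tsum_eq]
  -- the series under the integral
  have hL : ∀ v : ℝ, ∑' n : ℕ, dirT α t n v * Kx ℓ (ln 2 v) =
      LSeries (fun n => (ArithmeticFunction.vonMangoldt n : ℂ)) (pt α t + ln 2 v) *
        Kx ℓ (ln 2 v) := by
    intro v
    rw [tsum_mul_right, LSeries]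
    congr 1
    exact tsum_congr fun n => dirT_eq α t n v
  have hLc : Continuous (fun v : ℝ => ∑' n : ℕ, dirT α t n v) :=
    continuous_tsum (dirT_cont α t) hsum hTn
  have hLb : ∀ v : ℝ, ‖∑' n : ℕ, dirT α t n v‖ ≤ ∑' n, a n := fun v =>
    tsum_of_norm_bounded hsum.hasSum (fun n => hTn n v)
  have hI1 : Integrable (fun v : ℝ => ∑' n : ℕ, dirT α t n v * Kx ℓ (ln 2 v)) := by
    have h1 := dir_mul_int hℓ hLc hLb
    refine h1.congr (Eventually.of_forall fun v => ?_)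
    change (∑' n : ℕ, dirT α t n v) * Kx ℓ (ln 2 v) = ∑' n : ℕ, dirT α t n v * Kx ℓ (ln 2 v)
    rw [tsum_mul_right]
  have hI2 : Integrable (fun v : ℝ => (pt α t - 1 + ln 2 v)⁻¹ * Kx ℓ (ln 2 v)) :=
    dir_mul_int hℓ (dir_pole_cont hα t) (dir_pole_le hα t)
  have hP : ∀ v : ℝ, P (pt α t + ln 2 v) * Kx ℓ (ln 2 v) =
      -(∑' n : ℕ, dirT α t n v * Kx ℓ (ln 2 v)) +
        (pt α t - 1 + ln 2 v)⁻¹ * Kx ℓ (ln 2 v) := by
    intro v
    rw [hL v, P_eq (by rw [dir_re]; linarith)]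
    have h1 : pt α t + ln 2 v - 1 = pt α t - 1 + ln 2 v := by ring
    rw [h1]
    ring
  have hfin : ∫ v : ℝ, (-(∑' n : ℕ, dirT α t n v * Kx ℓ (ln 2 v)) +
        (pt α t - 1 + ln 2 v)⁻¹ * Kx ℓ (ln 2 v)) =
      -(∫ v : ℝ, ∑' n : ℕ, dirT α t n v * Kx ℓ (ln 2 v)) +
        ∫ v : ℝ, (pt α t - 1 + ln 2 v)⁻¹ * Kx ℓ (ln 2 v) := by
    rw [← integral_neg]
    exact integral_add hI1.neg hI2
  unfold Dd
  simp only [hP]
  rw [hfin]
  ring


/-- `|pt α t - 1 + ln 2 v| ≥ max 1 |t + v| ≥ (1 + |t + v|) / 2`, so `1 + |t| ≤ (1 + |t + v|)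
(1 + |v|)` gives `‖(...)⁻¹‖ ≤ 2 (1 + |v|) / (1 + |t|)`; `Kx_bound`. -/
theorem dir_pole : ∃ C : ℝ, 0 < C ∧ ∀ ℓ α t : ℝ, 1 ≤ ℓ → 0 < α →
    ‖∫ v : ℝ, (pt α t - 1 + ln 2 v)⁻¹ * Kx ℓ (ln 2 v)‖ ≤
      C * Real.exp (4 * ℓ) / (1 + |t|) := by
  refine ⟨4 * Real.exp 4 * √(Real.pi / (1 / 2)), by positivity, ?_⟩
  intro ℓ α t hℓ hα
  have ht : 0 < 1 + |t| := by positivity
  set D : ℝ := 4 * Real.exp 4 * Real.exp (4 * ℓ) / (1 + |t|) with hD
  have hg : Integrable (fun v : ℝ => D * Real.exp (-(1 / 2) * v ^ 2)) :=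
    (integrable_exp_neg_mul_sq (by norm_num)).const_mul D
  have h1 : ‖∫ v : ℝ, (pt α t - 1 + ln 2 v)⁻¹ * Kx ℓ (ln 2 v)‖ ≤
      ∫ v : ℝ, D * Real.exp (-(1 / 2) * v ^ 2) := by
    refine norm_integral_le_of_norm_le hg (Eventually.of_forall fun v => ?_)
    rw [norm_mul, norm_inv]
    have hre : (pt α t - 1 + ln 2 v).re = 3 / 2 + α := dir_pole_re t v
    have him : (pt α t - 1 + ln 2 v).im = t + v := by
      rw [add_im, sub_im, pt_im, ln_im, one_im]; ring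
    have h2 := Complex.re_le_norm (pt α t - 1 + ln 2 v)
    have h3 := Complex.abs_im_le_norm (pt α t - 1 + ln 2 v)
    rw [hre] at h2
    rw [him] at h3
    have h4 : 0 < 1 + |v| := by positivity
    have h5 : 1 + |t| ≤ (1 + |t + v|) * (1 + |v|) := by
      have h6 : |t| ≤ |t + v| + |v| := by
        have := abs_sub (t + v) v
        rwa [add_sub_cancel_right] at this
      nlinarith [mul_nonneg (abs_nonneg (t + v)) (abs_nonneg v)]
    have h6 : (1 + |t|) / (2 * (1 + |v|)) ≤ ‖pt α t - 1 + ln 2 v‖ := by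
      rw [div_le_iff₀ (by positivity)]
      nlinarith
    have h7 : ‖pt α t - 1 + ln 2 v‖⁻¹ ≤ 2 * (1 + |v|) / (1 + |t|) := by
      have h8 := inv_anti₀ (by positivity) h6
      rwa [inv_div] at h8
    have h8 : 1 + |v| ≤ 2 * Real.exp (1 / 2 * v ^ 2) := by
      have h9 := Real.add_one_le_exp (1 / 2 * v ^ 2)
      have h10 : |v| ^ 2 = v ^ 2 := sq_abs v
      nlinarith [sq_nonneg (|v| - 1)]
    calc ‖pt α t - 1 + ln 2 v‖⁻¹ * ‖Kx ℓ (ln 2 v)‖
        ≤ 2 * (1 + |v|) / (1 + |t|) *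
          (Real.exp 4 * Real.exp (4 * ℓ) * Real.exp (-1 * v ^ 2)) :=
          mul_le_mul h7 (dir_K hℓ v) (norm_nonneg _) (by positivity)
      _ ≤ 2 * (2 * Real.exp (1 / 2 * v ^ 2)) / (1 + |t|) *
          (Real.exp 4 * Real.exp (4 * ℓ) * Real.exp (-1 * v ^ 2)) := by
          gcongr
      _ = D * Real.exp (-(1 / 2) * v ^ 2) := by
          have h11 : Real.exp (-(1 / 2) * v ^ 2) =
              Real.exp (1 / 2 * v ^ 2) * Real.exp (-1 * v ^ 2) := by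
            rw [← Real.exp_add]
            ring_nf
          rw [h11, hD]
          ring
  refine h1.trans (le_of_eq ?_)
  rw [integral_const_mul, integral_gaussian, hD]
  ring

end ERT
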