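import Pool.Agent.Lib.MP_ed189b_nt.JInt
import Pool.Agent.Lib.MP_ed189b_nt.Dir

/-!
# MP_ed189b_nt: the mean square and the kernel
-/

set_option autoImplicit false

noncomputable section

namespace ERT

open Complex Filter Topology Set MeasureTheory

/-- Cauchy-Schwarz for the convolution, with extended nonnegative integrals -/
private theorem cnv_cs {f k : ℝ → ℝ} (hf : Continuous f) (hk : Continuous k)
    (hk0 : ∀ v, 0 ≤ k v) (hf0 : ∀ t, 0 ≤ f t) (t : ℝ) :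
    (∫⁻ v, ENNReal.ofReal (f (t + v) * k v)) ^ 2 ≤
      (∫⁻ v, ENNReal.ofReal ((1 + v ^ 2) * k v)) *
        ∫⁻ v, ENNReal.ofReal (f (t + v) ^ 2 * (k v / (1 + v ^ 2))) := by
  have hpos : ∀ v : ℝ, 0 < 1 + v ^ 2 := fun v => by positivity
  have h1 := ENNReal.lintegral_mul_le_Lp_mul_Lq (volume : Measure ℝ) (p := 2) (q := 2)
    (by constructor <;> norm_num)
    (f := fun v => ENNReal.ofReal (Real.sqrt ((1 + v ^ 2) * k v)))
    (g := fun v => ENNReal.ofReal (f (t + v) * Real.sqrt (k v / (1 + v ^ 2))))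
    (by
      apply Measurable.aemeasurable
      apply ENNReal.measurable_ofReal.comp
      exact (Real.continuous_sqrt.comp (by fun_prop)).measurable)
    (by
      apply Measurable.aemeasurable
      apply ENNReal.measurable_ofReal.comp
      refine Continuous.measurable ?_
      refine (hf.comp (by fun_prop)).mul (Real.continuous_sqrt.comp ?_)
      exact hk.div (by fun_prop) fun v => (hpos v).ne')
  have h2 : ∀ v : ℝ, ((fun v => ENNReal.ofReal (Real.sqrt ((1 + v ^ 2) * k v))) *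
      fun v => ENNReal.ofReal (f (t + v) * Real.sqrt (k v / (1 + v ^ 2)))) v =
      ENNReal.ofReal (f (t + v) * k v) := by
    intro v
    rw [Pi.mul_apply, ← ENNReal.ofReal_mul (Real.sqrt_nonneg _)]
    congr 1
    have h3 : Real.sqrt ((1 + v ^ 2) * k v) * Real.sqrt (k v / (1 + v ^ 2)) = k v := by
      rw [← Real.sqrt_mul (mul_nonneg (hpos v).le (hk0 v))]
      have : (1 + v ^ 2) * k v * (k v / (1 + v ^ 2)) = k v ^ 2 := by
        field_simp
      rw [this, Real.sqrt_sq (hk0 v)]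
    calc Real.sqrt ((1 + v ^ 2) * k v) * (f (t + v) * Real.sqrt (k v / (1 + v ^ 2)))
        = f (t + v) * (Real.sqrt ((1 + v ^ 2) * k v) * Real.sqrt (k v / (1 + v ^ 2))) := by ring
      _ = _ := by rw [h3]
  rw [lintegral_congr h2] at h1
  have h4 : ∀ v : ℝ, ENNReal.ofReal (Real.sqrt ((1 + v ^ 2) * k v)) ^ (2 : ℝ) =
      ENNReal.ofReal ((1 + v ^ 2) * k v) := by
    intro v
    rw [show (2 : ℝ) = ((2 : ℕ) : ℝ) by norm_num, ENNReal.rpow_natCast,
      ← ENNReal.ofReal_pow (Real.sqrt_nonneg _), Real.sq_sqrt (mul_nonneg (hpos v).le (hk0 v))]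
  have h5 : ∀ v : ℝ, ENNReal.ofReal (f (t + v) * Real.sqrt (k v / (1 + v ^ 2))) ^ (2 : ℝ) =
      ENNReal.ofReal (f (t + v) ^ 2 * (k v / (1 + v ^ 2))) := by
    intro v
    rw [show (2 : ℝ) = ((2 : ℕ) : ℝ) by norm_num, ENNReal.rpow_natCast,
      ← ENNReal.ofReal_pow (mul_nonneg (hf0 _) (Real.sqrt_nonneg _)), mul_pow,
      Real.sq_sqrt (div_nonneg (hk0 v) (hpos v).le)]
  rw [lintegral_congr h4, lintegral_congr h5] at h1
  have h6 := pow_le_pow_left' h1 2
  refine h6.trans (le_of_eq ?_)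
  rw [mul_pow]
  have h7 : ∀ x : ENNReal, (x ^ (1 / (2 : ℝ))) ^ 2 = x := by
    intro x
    rw [← ENNReal.rpow_natCast, ← ENNReal.rpow_mul]
    norm_num
  rw [h7, h7]

/-- Weighted Minkowski (as in the proof that `‖f * k‖₂ ≤ ‖k‖₁ ‖f‖₂`): by Cauchy-Schwarz
`(∫ f (t+v) k v dv)² ≤ (∫ (1 + v²) k v dv) (∫ f (t+v)² k v / (1 + v²) dv)`; integrate against
`W T t ≤ 4 (1 + v²)² W T (t + v)` (`W_shift`) and use Tonelli:
`≤ (∫ (1 + v²) k) (∫ 4 (1 + v²) k v dv) ∫ f² W T`. -/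
theorem mink {f k : ℝ → ℝ} {T : ℝ} (hT : 1 ≤ T) (hf : Continuous f) (hk : Continuous k)
    (hk0 : ∀ v, 0 ≤ k v) (hki : Integrable (fun v => (1 + v ^ 2) * k v))
    (hfi : Integrable (fun t => f t ^ 2 * W T t)) (hf0 : ∀ t, 0 ≤ f t)
    (hfk : ∀ t, Integrable (fun v => f (t + v) * k v)) :
    Integrable (fun t => (∫ v, f (t + v) * k v) ^ 2 * W T t) ∧
    ∫ t, (∫ v, f (t + v) * k v) ^ 2 * W T t ≤
      4 * (∫ v, (1 + v ^ 2) * k v) ^ 2 * ∫ t, f t ^ 2 * W T t := by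
  have hpos : ∀ v : ℝ, 0 < 1 + v ^ 2 := fun v => by positivity
  set K : ℝ := ∫ v, (1 + v ^ 2) * k v with hK
  set A : ℝ := ∫ t, f t ^ 2 * W T t with hA
  have hK0 : 0 ≤ K := integral_nonneg fun v => mul_nonneg (hpos v).le (hk0 v)
  have hA0 : 0 ≤ A := integral_nonneg fun v => mul_nonneg (sq_nonneg _) (W_pos _ _).le
  have hKe : ∫⁻ v, ENNReal.ofReal ((1 + v ^ 2) * k v) = ENNReal.ofReal K :=
    (ofReal_integral_eq_lintegral_ofReal hki
      (Filter.Eventually.of_forall fun v => mul_nonneg (hpos v).le (hk0 v))).symm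
  have hAe : ∫⁻ t, ENNReal.ofReal (f t ^ 2 * W T t) = ENNReal.ofReal A :=
    (ofReal_integral_eq_lintegral_ofReal hfi
      (Filter.Eventually.of_forall fun v => mul_nonneg (sq_nonneg _) (W_pos _ _).le)).symm
  have ha0 : ∀ t, 0 ≤ ∫ v, f (t + v) * k v := fun t =>
    integral_nonneg fun v => mul_nonneg (hf0 _) (hk0 v)
  have hae : ∀ t, ENNReal.ofReal (∫ v, f (t + v) * k v) =
      ∫⁻ v, ENNReal.ofReal (f (t + v) * k v) := fun t =>
    ofReal_integral_eq_lintegral_ofReal (hfk t)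
      (Filter.Eventually.of_forall fun v => mul_nonneg (hf0 _) (hk0 v))
  have hmeas : AEStronglyMeasurable (fun t => (∫ v, f (t + v) * k v) ^ 2 * W T t) volume := by
    have h1 : StronglyMeasurable (fun t : ℝ => ∫ v, f (t + v) * k v) := by
      have h2 : StronglyMeasurable (Function.uncurry fun t v : ℝ => f (t + v) * k v) := by
        apply Continuous.stronglyMeasurable
        have h3 : Continuous fun p : ℝ × ℝ => f (p.1 + p.2) := hf.comp (by fun_prop)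
        have h4 : Continuous fun p : ℝ × ℝ => k p.2 := hk.comp (by fun_prop)
        exact h3.mul h4
      exact h2.integral_prod_right
    exact ((h1.pow 2).mul (W_cont T).stronglyMeasurable).aestronglyMeasurable
  have hnn : ∀ t, 0 ≤ (∫ v, f (t + v) * k v) ^ 2 * W T t := fun t =>
    mul_nonneg (sq_nonneg _) (W_pos _ _).le
  -- the main estimate
  have hmain : ∫⁻ t, ENNReal.ofReal ((∫ v, f (t + v) * k v) ^ 2 * W T t) ≤
      ENNReal.ofReal (4 * K ^ 2 * A) := by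
    have h1 : ∀ t, ENNReal.ofReal ((∫ v, f (t + v) * k v) ^ 2 * W T t) ≤
        ENNReal.ofReal K * ∫⁻ v, ENNReal.ofReal (f (t + v) ^ 2 * W T (t + v)) *
          ENNReal.ofReal (4 * ((1 + v ^ 2) * k v)) := by
      intro t
      rw [ENNReal.ofReal_mul (sq_nonneg _), ENNReal.ofReal_pow (ha0 t), hae t]
      have h2 := cnv_cs hf hk hk0 hf0 t
      rw [hKe] at h2
      refine le_trans (mul_le_mul_left h2 _) ?_
      rw [mul_assoc]
      apply mul_le_mul_right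
      rw [← lintegral_mul_const' _ _ ENNReal.ofReal_ne_top]
      refine lintegral_mono fun v => ?_
      rw [← ENNReal.ofReal_mul (mul_nonneg (sq_nonneg _) (div_nonneg (hk0 v) (hpos v).le)),
        ← ENNReal.ofReal_mul (mul_nonneg (sq_nonneg _) (W_pos _ _).le)]
      apply ENNReal.ofReal_le_ofReal
      have h3 := W_shift hT t v
      have h4 : 0 ≤ f (t + v) ^ 2 * (k v / (1 + v ^ 2)) :=
        mul_nonneg (sq_nonneg _) (div_nonneg (hk0 v) (hpos v).le)
      refine (mul_le_mul_of_nonneg_left h3 h4).trans (le_of_eq ?_)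
      have h5 := (hpos v).ne'
      field_simp
    refine (lintegral_mono h1).trans ?_
    rw [lintegral_const_mul' _ _ ENNReal.ofReal_ne_top]
    have hm : AEMeasurable (Function.uncurry fun t v : ℝ =>
        ENNReal.ofReal (f (t + v) ^ 2 * W T (t + v)) *
          ENNReal.ofReal (4 * ((1 + v ^ 2) * k v))) ((volume : Measure ℝ).prod volume) := by
      apply Measurable.aemeasurable
      have h3 : Continuous fun p : ℝ × ℝ => f (p.1 + p.2) ^ 2 * W T (p.1 + p.2) :=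
        ((hf.comp (by fun_prop)).pow 2).mul ((W_cont T).comp (by fun_prop))
      have h4 : Continuous fun p : ℝ × ℝ => 4 * ((1 + p.2 ^ 2) * k p.2) := by
        have : Continuous fun p : ℝ × ℝ => k p.2 := hk.comp (by fun_prop)
        fun_prop
      exact (ENNReal.measurable_ofReal.comp h3.measurable).mul
        (ENNReal.measurable_ofReal.comp h4.measurable)
    rw [lintegral_lintegral_swap hm]
    have h6 : ∀ v : ℝ, ∫⁻ t, ENNReal.ofReal (f (t + v) ^ 2 * W T (t + v)) *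
        ENNReal.ofReal (4 * ((1 + v ^ 2) * k v)) =
        ENNReal.ofReal A * ENNReal.ofReal (4 * ((1 + v ^ 2) * k v)) := by
      intro v
      rw [lintegral_mul_const' _ _ ENNReal.ofReal_ne_top,
        lintegral_add_right_eq_self (fun t => ENNReal.ofReal (f t ^ 2 * W T t)) v, hAe]
    rw [lintegral_congr h6, lintegral_const_mul' _ _ ENNReal.ofReal_ne_top]
    have h7 : ∫⁻ v : ℝ, ENNReal.ofReal (4 * ((1 + v ^ 2) * k v)) = ENNReal.ofReal (4 * K) := by
      rw [← ofReal_integral_eq_lintegral_ofReal (hki.const_mul 4)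
        (Filter.Eventually.of_forall fun v =>
          mul_nonneg (by norm_num) (mul_nonneg (hpos v).le (hk0 v))), integral_const_mul]
    rw [h7, ← ENNReal.ofReal_mul hA0, ← ENNReal.ofReal_mul hK0]
    apply ENNReal.ofReal_le_ofReal
    apply le_of_eq
    ring
  refine ⟨?_, ?_⟩
  · rw [← lintegral_ofReal_ne_top_iff_integrable hmeas (Filter.Eventually.of_forall hnn)]
    exact (lt_of_le_of_lt hmain ENNReal.ofReal_lt_top).ne
  · rw [integral_eq_lintegral_of_nonneg_ae (Filter.Eventually.of_forall hnn) hmeas]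
    refine ENNReal.toReal_le_of_le_ofReal ?_ hmain
    exact mul_nonneg (mul_nonneg (by norm_num) (sq_nonneg _)) hA0

/-- `∫ dv / (δ² + v²) = π / δ` -/
private theorem cnv_poisson {δ : ℝ} (hδ : 0 < δ) :
    Integrable (fun v : ℝ => (δ ^ 2 + v ^ 2)⁻¹) ∧ ∫ v : ℝ, (δ ^ 2 + v ^ 2)⁻¹ = Real.pi / δ := by
  have h1 : ∀ v : ℝ, (δ ^ 2 + v ^ 2)⁻¹ = (δ ^ 2)⁻¹ * (1 + (v / δ) ^ 2)⁻¹ := by
    intro v
    rw [← mul_inv]
    congr 1
    field_simp
  have h2 : Integrable (fun v : ℝ => (1 + (v / δ) ^ 2)⁻¹) :=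
    (integrable_inv_one_add_sq).comp_div hδ.ne'
  refine ⟨?_, ?_⟩
  · simp_rw [h1]
    exact h2.const_mul _
  · simp_rw [h1]
    rw [integral_const_mul, Measure.integral_comp_div (fun v => (1 + v ^ 2)⁻¹) δ,
      integral_univ_inv_one_add_sq, abs_of_pos hδ, smul_eq_mul]
    field_simp

private theorem cnv_K {ℓ δ : ℝ} (hℓ : 0 < ℓ) (hδ : 0 < δ) (hδ1 : δ ≤ 1 / 100) :
    Integrable (fun v => (1 + v ^ 2) * ‖Kx ℓ (ln (-δ) v)‖) ∧
    ∫ v, (1 + v ^ 2) * ‖Kx ℓ (ln (-δ) v)‖ ≤ 4 * Real.pi * Real.exp (-(ℓ * δ)) / (ℓ * δ) := by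
  have hδ' : -δ ≠ 0 := (neg_lt_zero.2 hδ).ne
  obtain ⟨hI, hInt⟩ := cnv_poisson hδ
  have hb : ∀ v : ℝ, (1 + v ^ 2) * ‖Kx ℓ (ln (-δ) v)‖ ≤
      4 * Real.exp (-(ℓ * δ)) / ℓ * (δ ^ 2 + v ^ 2)⁻¹ := by
    intro v
    have h1 := Kx_bound hℓ hδ' v
    rw [neg_sq] at h1
    have h2 : Real.exp (δ ^ 2 - v ^ 2) ≤ 2 * (1 + v ^ 2)⁻¹ := by
      have h3 : Real.exp (δ ^ 2) ≤ 2 := by
        have h4 : δ ^ 2 ≤ 1 / 2 := by nlinarith
        have h5 : Real.exp (1 / 2) ≤ 2 := by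
          have h6 : Real.exp (1 / 2) ^ 2 = Real.exp 1 := by
            rw [← Real.exp_nat_mul]
            norm_num
          nlinarith [Real.exp_one_lt_d9, Real.exp_pos (1 / 2 : ℝ)]
        exact (Real.exp_le_exp.2 h4).trans h5
      have h4 : Real.exp (-(v ^ 2)) ≤ (1 + v ^ 2)⁻¹ := by
        rw [Real.exp_neg]
        apply inv_anti₀ (by positivity)
        linarith [Real.add_one_le_exp (v ^ 2)]
      rw [sub_eq_add_neg, Real.exp_add]
      exact mul_le_mul h3 h4 (Real.exp_pos _).le (by norm_num)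
    have h3 : Real.exp (2 * ℓ * -δ) + Real.exp (ℓ * -δ) ≤ 2 * Real.exp (-(ℓ * δ)) := by
      have h4 : Real.exp (2 * ℓ * -δ) ≤ Real.exp (-(ℓ * δ)) := by
        apply Real.exp_le_exp.2
        nlinarith [mul_pos hℓ hδ]
      have h5 : ℓ * -δ = -(ℓ * δ) := by ring
      rw [h5]
      linarith
    have h4 : 0 < δ ^ 2 + v ^ 2 := by positivity
    have h5 : Real.exp (δ ^ 2 - v ^ 2) * (Real.exp (2 * ℓ * -δ) + Real.exp (ℓ * -δ)) ≤
        2 * (1 + v ^ 2)⁻¹ * (2 * Real.exp (-(ℓ * δ))) :=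
      mul_le_mul h2 h3 (by positivity) (by positivity)
    have h6 : ‖Kx ℓ (ln (-δ) v)‖ ≤ 2 * (1 + v ^ 2)⁻¹ * (2 * Real.exp (-(ℓ * δ))) /
        (ℓ * (δ ^ 2 + v ^ 2)) :=
      h1.trans (div_le_div_of_nonneg_right h5 (mul_pos hℓ h4).le)
    have h7 : (0 : ℝ) < 1 + v ^ 2 := by positivity
    refine (mul_le_mul_of_nonneg_left h6 h7.le).trans (le_of_eq ?_)
    field_simp
    ring
  have hc : Continuous (fun v : ℝ => (1 + v ^ 2) * ‖Kx ℓ (ln (-δ) v)‖) :=
    (by fun_prop : Continuous fun v : ℝ => 1 + v ^ 2).mul (Kx_cont hℓ hδ').norm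
  have hi : Integrable (fun v => (1 + v ^ 2) * ‖Kx ℓ (ln (-δ) v)‖) := by
    refine (hI.const_mul (4 * Real.exp (-(ℓ * δ)) / ℓ)).mono' hc.aestronglyMeasurable
      (Filter.Eventually.of_forall fun v => ?_)
    rw [Real.norm_of_nonneg (mul_nonneg (by positivity) (norm_nonneg _))]
    exact hb v
  refine ⟨hi, (integral_mono hi (hI.const_mul _) hb).trans (le_of_eq ?_)⟩
  rw [integral_const_mul, hInt]
  field_simp

private theorem cnv_add (α δ t v : ℝ) : pt α t + ln (-δ) v = pt (α - δ) (t + v) := by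
  unfold pt ln
  push_cast
  ring

/-- `ker_rep` with `h w = P (pt α t + w)` on `-δ ≤ Re w ≤ 2` (`P_diff`; polynomial growth by
`P_bound` on `Re ≥ 1/2 + (α - δ)`, `lg (t + v) ≤ 2 (1 + |v|) lg t`) and `ℓ = log T / 8`:
`P (pt α t) = Dd ℓ α t - (2π)⁻¹ ∫ P (pt (α - δ) (t + v)) Kx ℓ (ln (-δ) v) dv`. By `Kx_bound`
`‖Kx ℓ (ln (-δ) v)‖ ≤ k v := 2 e exp (-v²) exp (-(ℓ δ)) / (ℓ (δ² + v²))`, and
`∫ (1 + v²) k v dv ≤ C exp (-(ℓ δ)) / (ℓ δ)` (`(1 + v²) exp (-v²) ≤ 1`,
`∫ dv/(δ² + v²) = π/δ`). Then `‖P‖² ≤ 2 ‖Dd‖² + 2 (...)²` and `mink` with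
`f t = ‖P (pt (α - δ) t)‖` (continuous: `P_cont`). -/
theorem cnv (h : ZF) : ∃ C : ℝ, 0 < C ∧ ∀ T α δ : ℝ, Real.exp 8 ≤ T → 0 < δ → δ < α →
    α ≤ 1 / 100 →
    Integrable (fun t => ‖Dd (Real.log T / 8) α t‖ ^ 2 * W T t) →
    J T α ≤ 2 * (∫ t, ‖Dd (Real.log T / 8) α t‖ ^ 2 * W T t) +
      (C * Real.exp (-(δ * Real.log T / 8)) / (δ * Real.log T)) ^ 2 * J T (α - δ) := by
  refine ⟨64, by norm_num, fun T α δ hT hδ hδα hα hD => ?_⟩
  set ℓ : ℝ := Real.log T / 8 with hℓdef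
  have hT0 : 0 < T := (Real.exp_pos 8).trans_le hT
  have hlog : 8 ≤ Real.log T := by
    have := Real.log_le_log (Real.exp_pos 8) hT
    rwa [Real.log_exp] at this
  have hℓ : 0 < ℓ := by
    rw [hℓdef]
    linarith
  have hT1 : 1 ≤ T := (Real.one_le_exp (by norm_num : (0 : ℝ) ≤ 8)).trans hT
  have hδ1 : δ ≤ 1 / 100 := by linarith
  have hα0 : 0 < α - δ := by linarith
  have hα0' : 0 < α := by linarith
  have hα1 : α - δ ≤ 1 / 100 := by linarith
  have hδ' : -δ ≠ 0 := (neg_lt_zero.2 hδ).ne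
  obtain ⟨C, hC, hP⟩ := P_bound h
  obtain ⟨hKi, hKb⟩ := cnv_K hℓ hδ hδ1
  set k : ℝ → ℝ := fun v => ‖Kx ℓ (ln (-δ) v)‖ with hk
  set f : ℝ → ℝ := fun t => ‖P (pt (α - δ) t)‖ with hf
  have hkc : Continuous k := (Kx_cont hℓ hδ').norm
  have hfc : Continuous f := (P_cont h hα0).norm
  have hrep : ∀ t : ℝ, Integrable (fun v => f (t + v) * k v) ∧
      P (pt α t) = Dd ℓ α t - (((2 * Real.pi)⁻¹ : ℝ) : ℂ) *
        ∫ v : ℝ, P (pt (α - δ) (t + v)) * Kx ℓ (ln (-δ) v) := by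
    intro t
    have h1 := ker_rep (h := fun w => P (pt α t + w)) (ℓ := ℓ) (δ := δ)
      (C := C * (2 * lg t) / (α - δ)) (k := 1) hℓ hδ (by linarith) ?_ ?_
    · obtain ⟨h2, h3, h4⟩ := h1
      simp only [cnv_add] at h3 h4
      refine ⟨?_, ?_⟩
      · have h5 := h3.norm
        refine h5.congr (Filter.Eventually.of_forall fun v => ?_)
        simp only [norm_mul, hf, hk]
      · unfold Dd
        rw [h4, add_zero]
        have hpi : ((2 * Real.pi : ℝ) : ℂ) ≠ 0 := by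
          exact_mod_cast Real.two_pi_pos.ne'
        push_cast at hpi ⊢
        field_simp
        ring
    · intro w hw _
      have h2 : DifferentiableAt ℂ P (pt α t + w) := P_diff h (by
        rw [add_re, pt_re]
        linarith)
      exact h2.comp w (by fun_prop)
    · intro w hw hw2
      have h2 := hP (α - δ) (pt α t + w) hα0 hα1 (by rw [add_re, pt_re]; linarith)
        (by rw [add_re, pt_re]; linarith)
      rw [add_im, pt_im] at h2
      have h3 := lg_shift t w.im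
      refine h2.trans ?_
      rw [pow_one, div_mul_eq_mul_div]
      apply div_le_div_of_nonneg_right _ hα0.le
      have h4 := mul_le_mul_of_nonneg_left h3 hC.le
      refine h4.trans (le_of_eq ?_)
      ring
  have hkn : ∀ v, 0 ≤ k v := fun v => norm_nonneg _
  have hfn : ∀ t, 0 ≤ f t := fun t => norm_nonneg _
  obtain ⟨hmi, hmb⟩ := mink hT1 hfc hkc hkn hKi (J_int h hα0 hα1 hT0) hfn fun t => (hrep t).1
  have hpt : ∀ t, ‖P (pt α t)‖ ^ 2 * W T t ≤ 2 * (‖Dd ℓ α t‖ ^ 2 * W T t) +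
      2 * ((2 * Real.pi)⁻¹ ^ 2) * ((∫ v, f (t + v) * k v) ^ 2 * W T t) := by
    intro t
    have h1 : ‖P (pt α t)‖ ≤ ‖Dd ℓ α t‖ + (2 * Real.pi)⁻¹ * ∫ v, f (t + v) * k v := by
      rw [(hrep t).2]
      refine (norm_sub_le _ _).trans ?_
      gcongr
      rw [norm_mul, Complex.norm_real, Real.norm_of_nonneg (by positivity)]
      gcongr
      refine (norm_integral_le_integral_norm _).trans (le_of_eq ?_)
      refine integral_congr_ae (Filter.Eventually.of_forall fun v => ?_)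
      simp only [norm_mul, hf, hk]
    have h2 : ‖P (pt α t)‖ ^ 2 ≤ 2 * ‖Dd ℓ α t‖ ^ 2 +
        2 * ((2 * Real.pi)⁻¹ ^ 2) * (∫ v, f (t + v) * k v) ^ 2 := by
      have h3 := pow_le_pow_left₀ (norm_nonneg _) h1 2
      nlinarith [sq_nonneg (‖Dd ℓ α t‖ - (2 * Real.pi)⁻¹ * ∫ v, f (t + v) * k v)]
    refine (mul_le_mul_of_nonneg_right h2 (W_pos T t).le).trans (le_of_eq ?_)
    ring
  have h1 : J T α ≤ 2 * (∫ t, ‖Dd ℓ α t‖ ^ 2 * W T t) +
      2 * ((2 * Real.pi)⁻¹ ^ 2) * ∫ t, (∫ v, f (t + v) * k v) ^ 2 * W T t := by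
    unfold J
    rw [← integral_const_mul, ← integral_const_mul, ← integral_add (hD.const_mul _)
      (hmi.const_mul _)]
    exact integral_mono (J_int h hα0' hα hT0) ((hD.const_mul _).add (hmi.const_mul _)) hpt
  have h2 : ∫ t, f t ^ 2 * W T t = J T (α - δ) := rfl
  rw [h2] at hmb
  refine h1.trans (add_le_add le_rfl ?_)
  have hJ := J_nonneg T (α - δ)
  have hKn : 0 ≤ ∫ v, (1 + v ^ 2) * k v :=
    integral_nonneg fun v => mul_nonneg (by positivity) (hkn v)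
  have h3 : 2 * ((2 * Real.pi)⁻¹ ^ 2) * ∫ t, (∫ v, f (t + v) * k v) ^ 2 * W T t ≤
      2 * ((2 * Real.pi)⁻¹ ^ 2) * (4 * (4 * Real.pi * Real.exp (-(ℓ * δ)) / (ℓ * δ)) ^ 2 *
        J T (α - δ)) := by
    apply mul_le_mul_of_nonneg_left _ (by positivity)
    refine hmb.trans ?_
    gcongr
  refine h3.trans ?_
  have h4 : Real.exp (-(ℓ * δ)) = Real.exp (-(δ * Real.log T / 8)) := by
    congr 1
    rw [hℓdef]
    ring
  rw [h4]
  set E := Real.exp (-(δ * Real.log T / 8)) with hE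
  have h5 : 2 * ((2 * Real.pi)⁻¹ ^ 2) * (4 * (4 * Real.pi * E / (ℓ * δ)) ^ 2 * J T (α - δ)) =
      2048 * (E / (δ * Real.log T)) ^ 2 * J T (α - δ) := by
    rw [hℓdef]
    have hpi := Real.pi_pos.ne'
    have hl : Real.log T ≠ 0 := by linarith
    field_simp
    ring
  have h6 : (64 * E / (δ * Real.log T)) ^ 2 * J T (α - δ) =
      4096 * (E / (δ * Real.log T)) ^ 2 * J T (α - δ) := by ring
  rw [h5, h6]
  have h7 : 0 ≤ (E / (δ * Real.log T)) ^ 2 * J T (α - δ) := mul_nonneg (sq_nonneg _) hJ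
  nlinarith

end ERT
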