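import Mathlib

/-!
# MP_ed189b_nt: the error term of the prime number theorem on RH, definitions

`F s = (s - 1) ζ(s)`, `P = F' / F`, `W T` is the weight `(1 + (t/T)²)⁻²`, `J T α` the weighted
mean square of `P` on the line `Re s = 1/2 + α`, `e u = (ψ(x) - x) / √x` for `x = e^u ≥ 1`.
-/

set_option autoImplicit false

noncomputable section

namespace ERT

open Complex

/-- `(s - 1) ζ(s)` -/
def F : ℂ → ℂ := Function.update (fun s => (s - 1) * riemannZeta s) 1 1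

/-- the logarithmic derivative of `F` -/
def P (s : ℂ) : ℂ := deriv F s / F s

/-- the Riemann hypothesis for `F` -/
def ZF : Prop := ∀ s : ℂ, 0 < s.re → F s = 0 → s.re = 1 / 2

/-- the point `1/2 + α + it` -/
def pt (α t : ℝ) : ℂ := ((1 / 2 + α : ℝ) : ℂ) + (t : ℂ) * I

/-- `log (|t| + 2)` -/
def lg (t : ℝ) : ℝ := Real.log (|t| + 2)

/-- the weight -/
def W (T t : ℝ) : ℝ := ((1 + (t / T) ^ 2) ^ 2)⁻¹

/-- the weighted mean square of `P` on the line `Re s = 1/2 + α` -/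
def J (T α : ℝ) : ℝ := ∫ t : ℝ, ‖P (pt α t)‖ ^ 2 * W T t

/-- `(ψ(x) - x) / √x`, `x = e^u ≥ 1` -/
def e (u : ℝ) : ℝ :=
  if 0 ≤ u then (Chebyshev.psi (Real.exp u) - Real.exp u) * Real.exp (-u / 2) else 0

/-- the mean of `f` over `[u, u + h]` -/
def Av (h : ℝ) (f : ℝ → ℝ) (u : ℝ) : ℝ := h⁻¹ * ∫ v in (0 : ℝ)..h, f (u + v)

/-- the difference of the scales `h` and `2 h` -/
def g (h u : ℝ) : ℝ := (3 * Av h e u - 2 * Av h e (u + h) - Av h e (u + 2 * h)) / 4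

/-- the transform of `e` -/
def hh (z : ℂ) : ℂ := -((P (1 / 2 + z) + 1) / (1 / 2 + z))

/-- the multiplier of `g h` -/
def mlt (h : ℝ) (z : ℂ) : ℂ :=
  (exp (z * h) - 1) / (z * h) * (3 - 2 * exp (z * h) - exp (2 * (z * h))) / 4

/-- the kernel, `ℓ = log x` -/
def Kx (ℓ : ℝ) (w : ℂ) : ℂ := exp (w ^ 2) * (exp (2 * ℓ * w) - exp (ℓ * w)) / (ℓ * w ^ 2)

/-- the point `c + iv` -/
def ln (c v : ℝ) : ℂ := (c : ℂ) + (v : ℂ) * I

/-- the smooth cutoff -/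
def kap (ℓ : ℝ) (n : ℕ) : ℂ :=
  ((2 * Real.pi)⁻¹ : ℝ) * ∫ v : ℝ, (n : ℂ) ^ (-ln 2 v) * Kx ℓ (ln 2 v)

/-- the sum `∑ 1 / (α + i(t - γ_j))` -/
def Sg {k : ℕ} (γ : Fin k → ℝ) (α t : ℝ) : ℂ := ∑ j, ((α : ℂ) + ((t - γ j : ℝ) : ℂ) * I)⁻¹

lemma pt_re (α t : ℝ) : (pt α t).re = 1 / 2 + α := by
  simp [pt]

lemma pt_im (α t : ℝ) : (pt α t).im = t := by
  simp [pt]

lemma ln_re (c v : ℝ) : (ln c v).re = c := by
  simp [ln]

lemma ln_im (c v : ℝ) : (ln c v).im = v := by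
  simp [ln]

lemma W_pos (T t : ℝ) : 0 < W T t := by
  unfold W
  positivity

lemma W_le_one (T t : ℝ) : W T t ≤ 1 := by
  unfold W
  have h : (1 : ℝ) ≤ (1 + (t / T) ^ 2) ^ 2 := by
    nlinarith [sq_nonneg (t / T)]
  exact inv_le_one_of_one_le₀ h

lemma lg_pos (t : ℝ) : 0 < lg t := Real.log_pos (by linarith [abs_nonneg t])

lemma W_cont (T : ℝ) : Continuous (W T) := by
  unfold W
  have h : ∀ t : ℝ, (1 + (t / T) ^ 2) ^ 2 ≠ 0 := fun t => by positivity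
  exact Continuous.inv₀ (by fun_prop) h

end ERT
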