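import Pool.Agent.Lib.MP_ed189b_nt.FD

/-!
# MP_ed189b_nt: the function `e` and its transform
-/

set_option autoImplicit false

noncomputable section

namespace ERT

open Complex Filter Topology Set MeasureTheory

/-- `0 ≤ ψ(x) ≤ C x` (`Chebyshev.psi_nonneg`, `Chebyshev.psi_le_const_mul_self`). -/
theorem e_bound : ∃ C : ℝ, 0 < C ∧ ∀ u : ℝ, |e u| ≤ C * Real.exp (u / 2) := by
  have h4 : 0 < Real.log 4 := Real.log_pos (by norm_num)
  refine ⟨Real.log 4 + 4 + 1, by linarith, fun u => ?_⟩
  unfold e
  split_ifs with hu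
  · have h1 := Chebyshev.psi_nonneg (Real.exp u)
    have h2 := Chebyshev.psi_le_const_mul_self (Real.exp_pos u).le
    have hp := Real.exp_pos u
    have h3 : |Chebyshev.psi (Real.exp u) - Real.exp u| ≤ (Real.log 4 + 4 + 1) * Real.exp u := by
      rw [abs_le]
      constructor
      · nlinarith
      · nlinarith
    rw [abs_mul, abs_of_pos (Real.exp_pos (-u / 2))]
    calc |Chebyshev.psi (Real.exp u) - Real.exp u| * Real.exp (-u / 2)
        ≤ ((Real.log 4 + 4 + 1) * Real.exp u) * Real.exp (-u / 2) :=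
          mul_le_mul_of_nonneg_right h3 (Real.exp_pos _).le
      _ = (Real.log 4 + 4 + 1) * Real.exp (u / 2) := by
          rw [mul_assoc, ← Real.exp_add]
          congr 2
          ring
  · rw [abs_zero]
    positivity

/-- `Chebyshev.psi_mono.measurable`. -/
theorem e_meas : Measurable e := by
  unfold e
  refine Measurable.ite measurableSet_Ici ?_ measurable_const
  have h := Chebyshev.psi_mono.measurable
  exact ((h.comp Real.measurable_exp).sub Real.measurable_exp).mul (by fun_prop)

theorem e_loc (a b : ℝ) : IntervalIntegrable e volume a b := by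
  obtain ⟨C, hC, h⟩ := e_bound
  have h1 : IntervalIntegrable (fun u : ℝ => C * Real.exp (u / 2)) volume a b :=
    Continuous.intervalIntegrable (by fun_prop) a b
  refine h1.mono_fun e_meas.aestronglyMeasurable (Eventually.of_forall fun u => ?_)
  simp only [Real.norm_eq_abs]
  exact (h u).trans (le_abs_self _)

private lemma psi_int {s : ℂ} (hs : 1 < s.re) :
    IntegrableOn (fun x : ℝ => (Chebyshev.psi x : ℂ) * (x : ℂ) ^ (-(s + 1))) (Ioi 1) := by
  have h1 : IntegrableOn (fun x : ℝ => (x : ℂ) ^ (-s)) (Ioi 1) :=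
    integrableOn_Ioi_cpow_of_lt (by simpa using hs) one_pos
  have h2 := h1.norm.const_mul (Real.log 4 + 4)
  refine Integrable.mono' h2 ?_ ?_
  · refine AEStronglyMeasurable.mul ?_ ?_
    · exact (Complex.measurable_ofReal.comp Chebyshev.psi_mono.measurable).aestronglyMeasurable
    · refine ContinuousOn.aestronglyMeasurable ?_ measurableSet_Ioi
      intro x hx
      have hx0 : (0 : ℝ) < x := lt_trans one_pos hx
      exact (continuousAt_ofReal_cpow_const x _ (Or.inr hx0.ne')).continuousWithinAt
  · filter_upwards [ae_restrict_mem measurableSet_Ioi] with x hx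
    have hx0 : (0 : ℝ) < x := lt_trans one_pos hx
    rw [norm_mul, Complex.norm_real, Real.norm_of_nonneg (Chebyshev.psi_nonneg x),
      Complex.norm_cpow_eq_rpow_re_of_pos hx0, Complex.norm_cpow_eq_rpow_re_of_pos hx0]
    calc Chebyshev.psi x * x ^ (-(s + 1)).re
        ≤ ((Real.log 4 + 4) * x) * x ^ (-(s + 1)).re :=
          mul_le_mul_of_nonneg_right (Chebyshev.psi_le_const_mul_self hx0.le)
            (Real.rpow_nonneg hx0.le _)
      _ = (Real.log 4 + 4) * x ^ (-s).re := by
          rw [mul_assoc]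
          congr 1
          nth_rewrite 1 [← Real.rpow_one x]
          rw [← Real.rpow_add hx0]
          congr 1
          simp

private lemma psi_tr {s : ℂ} (hs : 1 < s.re) :
    ∫ x in Ioi (1 : ℝ), ((Chebyshev.psi x : ℂ) - x) * (x : ℂ) ^ (-(s + 1)) = -((P s + 1) / s) := by
  have hs0 : s ≠ 0 := by
    intro h
    rw [h] at hs
    simp at hs
    linarith
  have hs1 : s - 1 ≠ 0 := by
    intro h
    have : s = 1 := by linear_combination h
    rw [this] at hs
    simp at hs
  have h1 : IntegrableOn (fun x : ℝ => (x : ℂ) ^ (-s)) (Ioi 1) :=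
    integrableOn_Ioi_cpow_of_lt (by simpa using hs) one_pos
  have h2 := psi_int hs
  have h3 : ∫ x in Ioi (1 : ℝ), (x : ℂ) ^ (-s) = 1 / (s - 1) := by
    rw [integral_Ioi_cpow_of_lt (by simpa using hs) one_pos, Complex.ofReal_one, Complex.one_cpow]
    have : -s + 1 ≠ 0 := by
      intro h
      apply hs1
      linear_combination -h
    field_simp
    ring
  have h4 : LSeries (fun n => (ArithmeticFunction.vonMangoldt n : ℂ)) s =
      s * ∫ x in Ioi (1 : ℝ), (Chebyshev.psi x : ℂ) * (x : ℂ) ^ (-(s + 1)) := by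
    have := LSeries_eq_mul_integral_of_nonneg (fun n => ArithmeticFunction.vonMangoldt n)
      (zero_le_one) hs ?_ (fun n => ArithmeticFunction.vonMangoldt_nonneg)
    · rw [this]
      congr 1
      refine setIntegral_congr_fun measurableSet_Ioi fun x _ => ?_
      congr 1
      rw [Chebyshev.psi]
      push_cast
      refine Finset.sum_congr ?_ fun _ _ => rfl
      ext n
      simp [Nat.succ_le_iff]
    · have hb : ∀ n : ℕ, ‖∑ k ∈ Finset.Icc 1 n, ArithmeticFunction.vonMangoldt k‖ ≤
          (Real.log 4 + 4) * ‖((n : ℝ) ^ (1 : ℝ))‖ := by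
        intro n
        have e1 : ∑ k ∈ Finset.Icc 1 n, ArithmeticFunction.vonMangoldt k =
            Chebyshev.psi (n : ℝ) := by
          rw [Chebyshev.psi, Nat.floor_natCast]
          refine Finset.sum_congr ?_ fun _ _ => rfl
          ext k
          simp [Nat.succ_le_iff]
        rw [e1, Real.rpow_one, Real.norm_of_nonneg (Chebyshev.psi_nonneg _),
          Real.norm_of_nonneg (Nat.cast_nonneg n)]
        exact Chebyshev.psi_le_const_mul_self (Nat.cast_nonneg n)
      exact Asymptotics.IsBigO.of_bound _ (Eventually.of_forall hb)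
  have h5 := P_eq hs
  have h6 : ∫ x in Ioi (1 : ℝ), ((Chebyshev.psi x : ℂ) - x) * (x : ℂ) ^ (-(s + 1)) =
      (∫ x in Ioi (1 : ℝ), (Chebyshev.psi x : ℂ) * (x : ℂ) ^ (-(s + 1))) -
        ∫ x in Ioi (1 : ℝ), (x : ℂ) ^ (-s) := by
    rw [← integral_sub h2 h1]
    refine setIntegral_congr_fun measurableSet_Ioi fun x hx => ?_
    have hx0 : (0 : ℝ) < x := lt_trans one_pos hx
    have hx1 : (x : ℂ) ≠ 0 := by exact_mod_cast hx0.ne'
    rw [sub_mul]
    congr 1
    rw [show -s = 1 + -(s + 1) by ring, Complex.cpow_add _ _ hx1, Complex.cpow_one]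
  rw [h6, h3, h5, h4]
  field_simp
  ring

/-- `s = 1/2 + z`, `Re s > 1`. Substitution `x = exp u` (`integral_comp_...`, or
`MeasureTheory.integral_image_eq_integral_abs_deriv_smul` on `Ioi 0 → Ioi 1`):
`∫_0^∞ (ψ(e^u) - e^u) e^{-u/2 - zu} du = ∫_1^∞ (ψ(x) - x) x^{-s-1} dx`;
`s ∫_1^∞ ψ(x) x^{-s-1} dx = LSeries Λ s` (`LSeries_eq_mul_integral_of_nonneg`, `r = 1`) and
`∫_1^∞ x^{-s} dx = 1/(s-1)` (`integral_Ioi_cpow_of_lt`). By `P_eq` the value is
`- (P s + 1) / s`. Integrability from `e_bound`. -/
theorem e_tr {z : ℂ} (hz : 1 / 2 < z.re) :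
    Integrable (fun u : ℝ => (e u : ℂ) * exp (-(z * u))) ∧
      ∫ u : ℝ, (e u : ℂ) * exp (-(z * u)) = hh z := by
  have h0 : ∀ u : ℝ, u ∉ Ici (0 : ℝ) → (e u : ℂ) * exp (-(z * u)) = 0 := by
    intro u hu
    have : ¬ (0 : ℝ) ≤ u := hu
    simp [e, this]
  constructor
  · obtain ⟨C, hC, h⟩ := e_bound
    have h1 : IntegrableOn (fun u : ℝ => (e u : ℂ) * exp (-(z * u))) (Ici 0) := by
      rw [integrableOn_Ici_iff_integrableOn_Ioi]
      have h2 := (integrableOn_exp_mul_Ioi (show -(z.re - 1 / 2) < 0 by linarith) 0).const_mul C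
      refine Integrable.mono' h2 ?_ (Eventually.of_forall fun u => ?_)
      · refine AEStronglyMeasurable.mul ?_ ?_
        · exact (Complex.measurable_ofReal.comp e_meas).aestronglyMeasurable
        · exact Continuous.aestronglyMeasurable (by fun_prop)
      · rw [norm_mul, Complex.norm_real, Complex.norm_exp, Real.norm_eq_abs]
        have e1 : (-(z * (u : ℂ))).re = -(z.re * u) := by simp
        rw [e1]
        calc |e u| * Real.exp (-(z.re * u))
            ≤ (C * Real.exp (u / 2)) * Real.exp (-(z.re * u)) :=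
              mul_le_mul_of_nonneg_right (h u) (Real.exp_pos _).le
          _ = C * Real.exp (-(z.re - 1 / 2) * u) := by
              rw [mul_assoc, ← Real.exp_add]
              congr 2
              ring
    exact (integrableOn_iff_integrable_of_support_subset fun u hu => by
      by_contra hc
      exact hu (h0 u hc)).1 h1
  · rw [← setIntegral_eq_integral_of_forall_compl_eq_zero h0, integral_Ici_eq_integral_Ioi]
    have him : Real.exp '' Ioi 0 = Ioi 1 := by
      ext x
      constructor
      · rintro ⟨u, hu, rfl⟩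
        exact Real.one_lt_exp_iff.2 hu
      · intro hx
        have hx0 : (0 : ℝ) < x := lt_trans one_pos hx
        exact ⟨Real.log x, Real.log_pos hx, Real.exp_log hx0⟩
    have hs : 1 < (1 / 2 + z).re := by
      simp only [Complex.add_re, Complex.div_re, Complex.one_re]
      norm_num
      linarith
    have h1 := psi_tr hs
    rw [← him, integral_image_eq_integral_abs_deriv_smul measurableSet_Ioi
      (fun x _ => (Real.hasDerivAt_exp x).hasDerivWithinAt) (Real.exp_injective.injOn)] at h1
    rw [hh, ← h1]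
    refine setIntegral_congr_fun measurableSet_Ioi fun u hu => ?_
    have hu0 : (0 : ℝ) ≤ u := le_of_lt hu
    simp only [e, hu0, if_true]
    rw [abs_of_pos (Real.exp_pos u), Complex.real_smul]
    push_cast
    have e1 : (exp (u : ℂ)) ^ (-(1 / 2 + z + 1)) = exp (-(1 / 2 + z + 1) * u) := by
      rw [Complex.cpow_def_of_ne_zero (Complex.exp_ne_zero _)]
      rw [← Complex.ofReal_exp, ← Complex.ofReal_log (Real.exp_pos u).le, Real.log_exp]
      congr 1
      ring
    rw [e1]
    have e2 : exp (-(u : ℂ) / 2) * exp (-(z * u)) =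
        exp (u : ℂ) * exp (-(1 / 2 + z + 1) * u) := by
      rw [← Complex.exp_add, ← Complex.exp_add]
      congr 1
      ring
    linear_combination ((Chebyshev.psi (Real.exp u) : ℂ) - exp (u : ℂ)) * e2

end ERT
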