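import Pool.Agent.Lib.MP_ed189b_nt.Defs

/-!
# MP_ed189b_nt: the function F
-/

set_option autoImplicit false

noncomputable section

namespace ERT

open Complex Filter Topology

theorem F_eq {s : ℂ} (hs : s ≠ 1) : F s = (s - 1) * riemannZeta s := by
  unfold F
  rw [Function.update_of_ne hs]

theorem F_one : F 1 = 1 := by
  unfold F
  rw [Function.update_self]

private theorem FD_ev {s : ℂ} (hs : s ≠ 1) : F =ᶠ[𝓝 s] fun z => (z - 1) * riemannZeta z := by
  filter_upwards [isOpen_ne.mem_nhds hs] with z hz using F_eq hz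

private theorem FD_at {s : ℂ} (hs : s ≠ 1) : DifferentiableAt ℂ F s := by
  have h1 : DifferentiableAt ℂ (fun z => (z - 1) * riemannZeta z) s :=
    (differentiableAt_id.sub_const 1).mul (differentiableAt_riemannZeta hs)
  exact h1.congr_of_eventuallyEq (FD_ev hs)

/-- `F` is entire: differentiable off `1` (`differentiableAt_riemannZeta`), continuous at `1`
(`riemannZeta_residue_one`); removable singularity
(`Complex.analyticAt_of_differentiable_on_punctured_nhds_of_continuousAt`). -/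
theorem F_diff : Differentiable ℂ F := by
  intro s
  by_cases hs : s = 1
  · subst hs
    refine (Complex.analyticAt_of_differentiable_on_punctured_nhds_of_continuousAt
      ?_ ?_).differentiableAt
    · exact eventually_nhdsWithin_of_forall fun z hz => FD_at hz
    · unfold F
      rw [continuousAt_update_same]
      exact riemannZeta_residue_one
  · exact FD_at hs

/-- RH gives `ZF`: `F 1 = 1 ≠ 0`; for `s ≠ 1`, `F s = 0` gives `ζ s = 0`; `s = -2 (n + 1)` is
impossible for `Re s > 0`. -/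
theorem zf_of_rh (h : RiemannHypothesis) : ZF := by
  intro s hs hF
  have h1 : s ≠ 1 := by
    rintro rfl
    rw [F_one] at hF
    exact one_ne_zero hF
  rw [F_eq h1] at hF
  have h2 : riemannZeta s = 0 := (mul_eq_zero.1 hF).resolve_left (sub_ne_zero.2 h1)
  refine h s h2 ?_ h1
  rintro ⟨n, hn⟩
  rw [hn] at hs
  have h3 : ((-2 : ℂ) * ((n : ℂ) + 1)).re = -2 * ((n : ℝ) + 1) := by
    simp
  rw [h3] at hs
  have : (0 : ℝ) ≤ n := Nat.cast_nonneg n
  linarith

theorem F_ne (h : ZF) {s : ℂ} (hs : 1 / 2 < s.re) : F s ≠ 0 := by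
  intro h0
  have := h s (by linarith) h0
  linarith

/-- `P` is the logarithmic derivative, for `Re s > 1` by
`ArithmeticFunction.LSeries_vonMangoldt_eq_deriv_riemannZeta_div` and the product rule (near `s`,
`F = (s - 1) ζ`). -/
theorem P_eq {s : ℂ} (hs : 1 < s.re) :
    P s = -LSeries (fun n => (ArithmeticFunction.vonMangoldt n : ℂ)) s + (s - 1)⁻¹ := by
  have h1 : s ≠ 1 := by
    rintro rfl
    simp at hs
  have hz : riemannZeta s ≠ 0 := riemannZeta_ne_zero_of_one_le_re hs.le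
  have h2 : deriv F s = riemannZeta s + (s - 1) * deriv riemannZeta s := by
    rw [(FD_ev h1).deriv_eq]
    have h3 : HasDerivAt (fun z : ℂ => z - 1) 1 s := (hasDerivAt_id s).sub_const 1
    have h4 := (h3.mul (differentiableAt_riemannZeta h1).hasDerivAt).deriv
    have h5 : (fun z => (z - 1) * riemannZeta z) = (fun z : ℂ => z - 1) * riemannZeta := rfl
    rw [h5, h4]
    ring
  have h6 := ArithmeticFunction.LSeries_vonMangoldt_eq_deriv_riemannZeta_div hs
  rw [h6]
  unfold P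
  rw [h2, F_eq h1]
  have h7 : s - 1 ≠ 0 := sub_ne_zero.2 h1
  field_simp
  ring

theorem P_diff (h : ZF) {s : ℂ} (hs : 1 / 2 < s.re) : DifferentiableAt ℂ P s := by
  unfold P
  have h1 : DifferentiableAt ℂ (deriv F) s := (F_diff.analyticAt s).deriv.differentiableAt
  exact h1.div (F_diff s) (F_ne h hs)

/-- `|ζ(2 + it) - 1| ≤ ζ(2) - 1 < 3/4`, `|1 + it| ≥ 1`. -/
theorem F_two (t : ℝ) : 1 / 4 ≤ ‖F (2 + (t : ℂ) * I)‖ := by
  set s : ℂ := 2 + (t : ℂ) * I with hs
  have hre : s.re = 2 := by simp [hs]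
  have him : s.im = t := by simp [hs]
  have h1 : s ≠ 1 := by
    intro h
    rw [h] at hre
    norm_num at hre
  have hre1 : 1 < s.re := by rw [hre]; norm_num
  have hz := zeta_eq_tsum_one_div_nat_add_one_cpow hre1
  have hnorm : ∀ n : ℕ, ‖1 / ((n : ℂ) + 1) ^ s‖ = 1 / ((n : ℝ) + 1) ^ 2 := by
    intro n
    have e1 : ((n : ℂ) + 1) = ((n + 1 : ℕ) : ℂ) := by push_cast; ring
    rw [e1, norm_div, norm_one, norm_natCast_cpow_of_pos (Nat.succ_pos n), hre]
    push_cast
    norm_num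
  have hsum2 := hasSum_zeta_two
  have hshift : HasSum (fun n : ℕ => 1 / ((n : ℝ) + 1) ^ 2) (Real.pi ^ 2 / 6) := by
    have h2 := (hasSum_nat_add_iff' (f := fun n : ℕ => 1 / (n : ℝ) ^ 2) 1).2 hsum2
    simpa using h2
  have hshift2 : HasSum (fun n : ℕ => 1 / (((n + 1 : ℕ) : ℝ) + 1) ^ 2)
      (Real.pi ^ 2 / 6 - 1) := by
    have h2 := (hasSum_nat_add_iff' (f := fun n : ℕ => 1 / ((n : ℝ) + 1) ^ 2) 1).2 hshift
    simpa using h2
  have hsummable : Summable (fun n : ℕ => 1 / ((n : ℂ) + 1) ^ s) := by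
    refine Summable.of_norm ?_
    simp only [hnorm]
    exact hshift.summable
  rw [hsummable.tsum_eq_zero_add] at hz
  have h0 : (1 : ℂ) / (((0 : ℕ) : ℂ) + 1) ^ s = 1 := by simp
  rw [h0] at hz
  have htail : ‖∑' n : ℕ, 1 / (((n + 1 : ℕ) : ℂ) + 1) ^ s‖ ≤ Real.pi ^ 2 / 6 - 1 := by
    refine tsum_of_norm_bounded hshift2 fun n => ?_
    rw [hnorm]
  have hpi : Real.pi ^ 2 / 6 - 1 ≤ 3 / 4 := by
    have h3 := Real.pi_lt_d2
    have h4 := Real.pi_pos
    nlinarith
  have hzeta : 1 / 4 ≤ ‖riemannZeta s‖ := by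
    rw [hz]
    have h5 := norm_sub_le_norm_add (1 : ℂ) (∑' n : ℕ, 1 / (((n + 1 : ℕ) : ℂ) + 1) ^ s)
    rw [norm_one] at h5
    linarith
  have hs1 : 1 ≤ ‖s - 1‖ := by
    have h5 := Complex.abs_re_le_norm (s - 1)
    have h6 : (s - 1).re = 1 := by rw [sub_re, hre, one_re]; norm_num
    rw [h6, abs_one] at h5
    exact h5
  rw [F_eq h1, norm_mul]
  nlinarith [norm_nonneg (riemannZeta s)]

end ERT
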