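import Pool.Agent.Lib.MP_ed189b_nt.Defs

/-!
# MP_ed189b_nt: the weight
-/

set_option autoImplicit false

noncomputable section

namespace ERT

open Complex Filter Topology Set MeasureTheory

private theorem Wt_le (T t : ℝ) : W T t ≤ (1 + (t / T) ^ 2)⁻¹ := by
  unfold W
  have h1 : (0 : ℝ) ≤ (t / T) ^ 2 := sq_nonneg _
  apply inv_anti₀ (by positivity)
  nlinarith

private theorem Wt_cauchy {T : ℝ} (hT : 0 < T) :
    Integrable (fun t : ℝ => (1 + (t / T) ^ 2)⁻¹) ∧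
      ∫ t : ℝ, (1 + (t / T) ^ 2)⁻¹ = T * Real.pi := by
  refine ⟨integrable_inv_one_add_sq.comp_div hT.ne', ?_⟩
  have h := Measure.integral_comp_div (fun x : ℝ => (1 + x ^ 2)⁻¹) T
  rw [h, integral_univ_inv_one_add_sq, abs_of_pos hT, smul_eq_mul]

/-- `W T t = (1 + (t/T)²)⁻² ≤ (1 + (t/T)²)⁻¹`, integral `π T`
(`integral_univ_inv_one_add_sq`, `integrable_inv_one_add_sq`, `Integrable.comp_div`). -/
theorem W_int {T : ℝ} (hT : 0 < T) : Integrable (W T) ∧ ∫ t, W T t ≤ 4 * T := by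
  obtain ⟨h1, h2⟩ := Wt_cauchy hT
  have h3 : Integrable (W T) := by
    refine h1.mono' (W_cont T).aestronglyMeasurable (Eventually.of_forall fun t => ?_)
    rw [Real.norm_eq_abs, abs_of_pos (W_pos T t)]
    exact Wt_le T t
  refine ⟨h3, (integral_mono h3 h1 fun t => Wt_le T t).trans ?_⟩
  rw [h2]
  nlinarith [Real.pi_le_four]

/-- `1 + ((t+v)/T)² ≤ 1 + 2 (t/T)² + 2 v² ≤ 2 (1 + v²) (1 + (t/T)²)`. -/
theorem W_shift {T : ℝ} (hT : 1 ≤ T) (t v : ℝ) :
    W T t ≤ 4 * (1 + v ^ 2) ^ 2 * W T (t + v) := by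
  have hT0 : 0 < T := by linarith
  have hv : (v / T) ^ 2 ≤ v ^ 2 := by
    rw [div_pow, div_le_iff₀ (by positivity)]
    have : 1 ≤ T ^ 2 := by nlinarith
    nlinarith [sq_nonneg v]
  have h1 : 1 + ((t + v) / T) ^ 2 ≤ 2 * (1 + v ^ 2) * (1 + (t / T) ^ 2) := by
    have e : (t + v) / T = t / T + v / T := add_div _ _ _
    rw [e]
    nlinarith [sq_nonneg (t / T - v / T), sq_nonneg (t / T), mul_nonneg (sq_nonneg v)
      (sq_nonneg (t / T)), sq_nonneg v]
  have h2 : (1 + ((t + v) / T) ^ 2) ^ 2 ≤ 4 * (1 + v ^ 2) ^ 2 * (1 + (t / T) ^ 2) ^ 2 := by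
    have := pow_le_pow_left₀ (by positivity) h1 2
    calc (1 + ((t + v) / T) ^ 2) ^ 2 ≤ (2 * (1 + v ^ 2) * (1 + (t / T) ^ 2)) ^ 2 := this
      _ = 4 * (1 + v ^ 2) ^ 2 * (1 + (t / T) ^ 2) ^ 2 := by ring
  unfold W
  rw [← div_eq_mul_inv, le_div_iff₀ (by positivity), inv_mul_le_iff₀ (by positivity)]
  calc (1 + ((t + v) / T) ^ 2) ^ 2 ≤ 4 * (1 + v ^ 2) ^ 2 * (1 + (t / T) ^ 2) ^ 2 := h2
    _ = (1 + (t / T) ^ 2) ^ 2 * (4 * (1 + v ^ 2) ^ 2) := by ring

theorem W_mono {S T : ℝ} (hS : 0 < S) (h : S ≤ T) (t : ℝ) : W S t ≤ W T t := by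
  have hT : 0 < T := lt_of_lt_of_le hS h
  unfold W
  apply inv_anti₀ (by positivity)
  have h1 : (t / T) ^ 2 ≤ (t / S) ^ 2 := by
    rw [div_pow, div_pow]
    gcongr
  have h2 : (0 : ℝ) ≤ (t / T) ^ 2 := sq_nonneg _
  exact pow_le_pow_left₀ (by positivity) (by linarith) 2

private theorem Wt_log_two : 1 / 2 < Real.log 2 := by
  have := Real.log_two_gt_d9
  linarith

private theorem Wt_lg_ge (t : ℝ) : 1 / 2 < lg t := by
  unfold lg
  have h1 : Real.log 2 ≤ Real.log (|t| + 2) :=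
    Real.log_le_log (by norm_num) (by linarith [abs_nonneg t])
  linarith [Wt_log_two]

private theorem Wt_log_one_add {x : ℝ} (hx : 0 ≤ x) : Real.log (1 + x) ≤ x := by
  have := Real.log_le_sub_one_of_pos (show 0 < 1 + x by linarith)
  linarith

/-- `|t + v| + 2 ≤ (|t| + 2) (1 + |v|)`, `log (1 + |v|) ≤ |v|`, `lg t ≥ log 2 > 1/2`. -/
theorem lg_shift (t v : ℝ) : lg (t + v) ≤ 2 * (1 + |v|) * lg t := by
  have h1 : lg (t + v) ≤ lg t + |v| := by
    unfold lg
    have h2 : |t + v| + 2 ≤ (|t| + 2) * (1 + |v|) := by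
      nlinarith [abs_add_le t v, abs_nonneg t, abs_nonneg v, mul_nonneg (abs_nonneg t)
        (abs_nonneg v)]
    calc Real.log (|t + v| + 2) ≤ Real.log ((|t| + 2) * (1 + |v|)) :=
          Real.log_le_log (by positivity) h2
      _ = Real.log (|t| + 2) + Real.log (1 + |v|) :=
          Real.log_mul (by positivity) (by positivity)
      _ ≤ Real.log (|t| + 2) + |v| := by
          have := Wt_log_one_add (abs_nonneg v)
          linarith
  have h2 := Wt_lg_ge t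
  have h3 := abs_nonneg v
  nlinarith

/-- `|t| + 2 ≤ 2 T (1 + |t/T|)`, so `lg t ≤ log (2T) + log (1 + |t/T|)
≤ C log T (1 + |t/T|)^(1/2)` and
`lg t² W T t ≤ C log² T (1 + |t/T|) (1 + (t/T)²)⁻² ≤ C' log² T (1 + (t/T)²)⁻¹`. -/
theorem W_lg : ∃ C : ℝ, 0 < C ∧ ∀ T : ℝ, 2 ≤ T →
    Integrable (fun t => lg t ^ 2 * W T t) ∧
      ∫ t, lg t ^ 2 * W T t ≤ C * T * Real.log T ^ 2 := by
  refine ⟨256, by norm_num, fun T hT => ?_⟩
  have hT0 : 0 < T := by linarith
  have hL : 1 / 2 < Real.log T := by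
    have : Real.log 2 ≤ Real.log T := Real.log_le_log (by norm_num) hT
    linarith [Wt_log_two]
  have hpt : ∀ t : ℝ, lg t ^ 2 * W T t ≤ 64 * Real.log T ^ 2 * (1 + (t / T) ^ 2)⁻¹ := by
    intro t
    set x := |t / T| with hx
    have hx0 : 0 ≤ x := abs_nonneg _
    have hx2 : (t / T) ^ 2 = x ^ 2 := by rw [hx, sq_abs]
    have h1 : lg t ≤ 2 * Real.log T + 2 * Real.log (1 + √x) := by
      unfold lg
      have e1 : |t| = x * T := by
        rw [hx, abs_div, abs_of_pos hT0]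
        field_simp
      have e2 : (√x) ^ 2 = x := Real.sq_sqrt hx0
      have e3 : |t| + 2 ≤ T ^ 2 * (1 + √x) ^ 2 := by
        have : 0 ≤ √x := Real.sqrt_nonneg x
        have e4 : (1 + √x) ^ 2 = 1 + 2 * √x + x := by linear_combination e2
        rw [e1, e4]
        nlinarith [mul_nonneg hx0 hT0.le, mul_nonneg this hT0.le, mul_nonneg this (sq_nonneg T)]
      calc Real.log (|t| + 2) ≤ Real.log (T ^ 2 * (1 + √x) ^ 2) :=
            Real.log_le_log (by positivity) e3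
        _ = 2 * Real.log T + 2 * Real.log (1 + √x) := by
            rw [Real.log_mul (by positivity) (by positivity), Real.log_pow, Real.log_pow]
            push_cast
            ring
    have h2 : Real.log (1 + √x) ≤ √x := Wt_log_one_add (Real.sqrt_nonneg x)
    have hs0 := Real.sqrt_nonneg x
    have hlg := lg_pos t
    have h3 : lg t ≤ 4 * Real.log T * (1 + √x) := by nlinarith
    have h4 : lg t ^ 2 ≤ 16 * Real.log T ^ 2 * (1 + √x) ^ 2 := by
      calc lg t ^ 2 ≤ (4 * Real.log T * (1 + √x)) ^ 2 := pow_le_pow_left₀ hlg.le h3 2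
        _ = 16 * Real.log T ^ 2 * (1 + √x) ^ 2 := by ring
    have h5 : (1 + √x) ^ 2 ≤ 2 * (1 + x ^ 2) + 2 := by
      have e2 : (√x) ^ 2 = x := Real.sq_sqrt hx0
      nlinarith [sq_nonneg (1 - √x), sq_nonneg (x - 1)]
    have h6 : (1 + √x) ^ 2 ≤ 4 * (1 + x ^ 2) := by nlinarith [sq_nonneg x]
    have hpos : 0 < 1 + x ^ 2 := by positivity
    unfold W
    rw [hx2]
    calc lg t ^ 2 * ((1 + x ^ 2) ^ 2)⁻¹
        ≤ 16 * Real.log T ^ 2 * (1 + √x) ^ 2 * ((1 + x ^ 2) ^ 2)⁻¹ := by gcongr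
      _ ≤ 16 * Real.log T ^ 2 * (4 * (1 + x ^ 2)) * ((1 + x ^ 2) ^ 2)⁻¹ := by gcongr
      _ = 64 * Real.log T ^ 2 * (1 + x ^ 2)⁻¹ := by
          field_simp
          ring
  have hcont : Continuous fun t => lg t ^ 2 * W T t := by
    have : Continuous lg := by
      unfold lg
      exact Continuous.log (by fun_prop) fun t => by positivity
    exact (this.pow 2).mul (W_cont T)
  obtain ⟨i1, i2⟩ := Wt_cauchy hT0
  have i3 : Integrable (fun t => lg t ^ 2 * W T t) := by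
    refine (i1.const_mul (64 * Real.log T ^ 2)).mono' hcont.aestronglyMeasurable
      (Eventually.of_forall fun t => ?_)
    rw [Real.norm_eq_abs, abs_of_nonneg (mul_nonneg (sq_nonneg _) (W_pos T t).le)]
    exact hpt t
  refine ⟨i3, (integral_mono i3 (i1.const_mul (64 * Real.log T ^ 2)) hpt).trans ?_⟩
  rw [integral_const_mul, i2]
  have := Real.pi_le_four
  nlinarith [mul_nonneg hT0.le (sq_nonneg (Real.log T))]

end ERT
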