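import Pool.Agent.Lib.MP_ed189b_nt.CmpL
import Pool.Agent.Lib.MP_ed189b_nt.Wt

/-!
# MP_ed189b_nt: the mean square `J`, first facts
-/

set_option autoImplicit false

noncomputable section

namespace ERT

open Complex Filter Topology Set MeasureTheory

private theorem jint_sq {C : ℝ} (hP : ∀ (α : ℝ) (s : ℂ), 0 < α → α ≤ 1 / 100 →
    1 / 2 + α ≤ s.re → s.re ≤ 17 / 5 → ‖P s‖ ≤ C * lg s.im / α) {α : ℝ} (hα : 0 < α)
    (hα1 : α ≤ 1 / 100) (t : ℝ) : ‖P (pt α t)‖ ^ 2 ≤ (C / α) ^ 2 * lg t ^ 2 := by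
  have h1 := hP α (pt α t) hα hα1 (by rw [pt_re]) (by rw [pt_re]; linarith)
  rw [pt_im] at h1
  have h2 := pow_le_pow_left₀ (norm_nonneg _) h1 2
  refine h2.trans (le_of_eq ?_)
  ring

/-- `‖P (pt α t)‖ ≤ C lg t / α` (P_bound) and `W_lg` (for `T < 2` compare `W T ≤ W 2`). -/
theorem J_int (h : ZF) {α T : ℝ} (hα : 0 < α) (hα1 : α ≤ 1 / 100) (hT : 0 < T) :
    Integrable (fun t => ‖P (pt α t)‖ ^ 2 * W T t) := by
  obtain ⟨C, hC, hP⟩ := P_bound h
  obtain ⟨C', hC', hW⟩ := W_lg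
  have hI := (hW (max T 2) (le_max_right _ _)).1
  refine (hI.const_mul ((C / α) ^ 2)).mono' ?_ (Filter.Eventually.of_forall fun t => ?_)
  · exact (((P_cont h hα).norm.pow 2).mul (W_cont T)).aestronglyMeasurable
  · rw [Real.norm_of_nonneg (mul_nonneg (sq_nonneg _) (W_pos T t).le)]
    have h1 := jint_sq hP hα hα1 t
    have h2 := W_mono hT (le_max_left T 2) t
    calc ‖P (pt α t)‖ ^ 2 * W T t ≤ ((C / α) ^ 2 * lg t ^ 2) * W (max T 2) t :=
          mul_le_mul h1 h2 (W_pos T t).le (by positivity)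
      _ = (C / α) ^ 2 * (lg t ^ 2 * W (max T 2) t) := by ring

theorem J_triv (h : ZF) : ∃ C : ℝ, 0 < C ∧ ∀ α T : ℝ, 0 < α → α ≤ 1 / 100 → 2 ≤ T →
    J T α ≤ C * T * Real.log T ^ 2 / α ^ 2 := by
  obtain ⟨C, hC, hP⟩ := P_bound h
  obtain ⟨C', hC', hW⟩ := W_lg
  refine ⟨C ^ 2 * C', by positivity, fun α T hα hα1 hT => ?_⟩
  have hI := hW T hT
  have hT0 : 0 < T := by linarith
  have h1 : J T α ≤ ∫ t, (C / α) ^ 2 * (lg t ^ 2 * W T t) := by
    unfold J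
    refine integral_mono (J_int h hα hα1 hT0) (hI.1.const_mul _) fun t => ?_
    have h2 := mul_le_mul_of_nonneg_right (jint_sq hP hα hα1 t) (W_pos T t).le
    refine h2.trans (le_of_eq ?_)
    ring
  rw [integral_const_mul] at h1
  calc J T α ≤ (C / α) ^ 2 * ∫ t, lg t ^ 2 * W T t := h1
    _ ≤ (C / α) ^ 2 * (C' * T * Real.log T ^ 2) :=
        mul_le_mul_of_nonneg_left hI.2 (sq_nonneg _)
    _ = C ^ 2 * C' * T * Real.log T ^ 2 / α ^ 2 := by ring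

theorem J_mono (h : ZF) {α S T : ℝ} (hα : 0 < α) (hα1 : α ≤ 1 / 100) (hS : 0 < S)
    (hST : S ≤ T) : J S α ≤ J T α := by
  unfold J
  refine integral_mono (J_int h hα hα1 hS) (J_int h hα hα1 (hS.trans_le hST)) fun t => ?_
  exact mul_le_mul_of_nonneg_left (W_mono hS hST t) (sq_nonneg _)

theorem J_nonneg (T α : ℝ) : 0 ≤ J T α :=
  integral_nonneg fun t => mul_nonneg (sq_nonneg _) (W_pos T t).le

end ERT
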