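import Pool.Agent.Lib.MP_ed189b_nt.Str

/-!
# MP_ed189b_nt: the multipliers
-/

set_option autoImplicit false

noncomputable section

namespace ERT

open Complex Filter Topology Set MeasureTheory

private theorem mlt_exp_le {y : ℂ} (h : y.re ≤ 1) : ‖exp y‖ ≤ 3 := by
  rw [Complex.norm_exp]
  have h1 : Real.exp y.re ≤ Real.exp 1 := Real.exp_le_exp.2 h
  linarith [Real.exp_one_lt_d9]

private theorem mlt_exp_sub {y : ℂ} (h : y.re ≤ 1) : ‖exp y - 1‖ ≤ 4 ∧ ‖exp y - 1‖ ≤ 4 * ‖y‖ := by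
  have h1 : ‖exp y - 1‖ ≤ 4 := by
    refine (norm_sub_le _ _).trans ?_
    rw [norm_one]
    linarith [mlt_exp_le h]
  refine ⟨h1, ?_⟩
  rcases le_total ‖y‖ 1 with h2 | h2
  · have h3 := Complex.norm_exp_sub_one_le h2
    linarith [norm_nonneg y]
  · linarith

private theorem mlt_fac (h : ℝ) (z : ℂ) : mlt h z =
    -((exp (z * h) - 1) ^ 2 * (3 + exp (z * h)) / (4 * (z * h))) := by
  have h1 : exp (2 * (z * h)) = exp (z * h) ^ 2 := by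
    rw [← Complex.exp_nat_mul]
    norm_num
  unfold mlt
  rw [h1]
  generalize exp (z * h) = E
  rw [div_mul_eq_mul_div, div_div, ← neg_div]
  congr 1
  · ring
  · ring

/-- With `y = z h`, `Re y ≤ 1`: for `|y| ≤ 1`, `|exp y - 1| ≤ 2 |y|` and
`|3 - 2 exp y - exp (2 y)| = |2 (1 - exp y) + (1 - exp (2 y))| ≤ C |y|`; for `|y| ≥ 1`,
`|exp y| ≤ e`, so `|mlt| ≤ C / |y|`. -/
theorem mlt_bound : ∃ C : ℝ, 0 < C ∧ ∀ (h : ℝ) (z : ℂ), 0 < h → h ≤ 1 → 0 < z.re → z.re ≤ 1 →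
    ‖mlt h z‖ ≤ C * (‖z‖ * h) ∧ ‖mlt h z‖ ≤ C / (‖z‖ * h) := by
  refine ⟨24, by norm_num, fun h z h0 h1 hz0 hz1 => ?_⟩
  have hz : z ≠ 0 := by
    rintro rfl
    simp at hz0
  have hz' : 0 < ‖z‖ := norm_pos_iff.2 hz
  have hy : (z * h).re ≤ 1 := by
    rw [Complex.re_mul_ofReal]
    nlinarith
  have hn : ‖z * h‖ = ‖z‖ * h := by
    rw [norm_mul, Complex.norm_real, Real.norm_of_nonneg h0.le]
  obtain ⟨h2, h3⟩ := mlt_exp_sub hy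
  have h4 : ‖3 + exp (z * h)‖ ≤ 6 := by
    refine (norm_add_le _ _).trans ?_
    have h5 : ‖(3 : ℂ)‖ = 3 := by simp
    rw [h5]
    linarith [mlt_exp_le hy]
  have hx : 0 < ‖z‖ * h := mul_pos hz' h0
  rw [mlt_fac, norm_neg, norm_div, norm_mul, norm_pow, norm_mul, hn]
  have h5 : ‖(4 : ℂ)‖ = 4 := by simp
  rw [h5]
  rw [hn] at h3
  generalize ‖z‖ * h = x at hx h3 ⊢
  have h6 : 0 < 4 * x := by linarith
  have h7 : 0 ≤ ‖exp (z * h) - 1‖ := norm_nonneg _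
  constructor
  · rw [div_le_iff₀ h6]
    calc ‖exp (z * h) - 1‖ ^ 2 * ‖3 + exp (z * h)‖ ≤ (4 * x) ^ 2 * 6 :=
          mul_le_mul (pow_le_pow_left₀ h7 h3 2) h4 (norm_nonneg _) (by positivity)
      _ = 24 * x * (4 * x) := by ring
  · rw [div_le_div_iff₀ h6 hx]
    calc ‖exp (z * h) - 1‖ ^ 2 * ‖3 + exp (z * h)‖ * x ≤ 4 ^ 2 * 6 * x := by
          apply mul_le_mul_of_nonneg_right _ hx.le
          exact mul_le_mul (pow_le_pow_left₀ h7 h2 2) h4 (norm_nonneg _) (by positivity)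
      _ = 24 * (4 * x) := by ring

/-- `(exp z - 1) / z` -/
theorem m1_bound : ∃ C : ℝ, 0 < C ∧ ∀ z : ℂ, 0 < z.re → z.re ≤ 1 →
    ‖(exp z - 1) / z‖ ≤ C ∧ ‖(exp z - 1) / z‖ ≤ C / ‖z‖ := by
  refine ⟨4, by norm_num, fun z hz0 hz1 => ?_⟩
  have hz : z ≠ 0 := by
    rintro rfl
    simp at hz0
  have hz' : 0 < ‖z‖ := norm_pos_iff.2 hz
  obtain ⟨h2, h3⟩ := mlt_exp_sub hz1
  rw [norm_div]
  constructor
  · rw [div_le_iff₀ hz']
    exact h3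
  · exact div_le_div_of_nonneg_right h2 hz'.le

private theorem mlt_pt (α t : ℝ) : 1 / 2 + ln α t = pt α t := by
  unfold ln pt
  push_cast
  ring

private theorem mlt_half {z : ℂ} (hz : 0 < z.re) : ‖z‖ ≤ ‖1 / 2 + z‖ := by
  rw [← Real.sqrt_sq (norm_nonneg z), ← Real.sqrt_sq (norm_nonneg (1 / 2 + z))]
  apply Real.sqrt_le_sqrt
  rw [← Complex.normSq_eq_norm_sq, ← Complex.normSq_eq_norm_sq, Complex.normSq_apply,
    Complex.normSq_apply]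
  have h1 : (1 / 2 + z).re = 1 / 2 + z.re := by simp
  have h2 : (1 / 2 + z).im = z.im := by simp
  rw [h1, h2]
  nlinarith

private theorem hh_norm {z : ℂ} (hz : 0 < z.re) :
    ‖hh z‖ ^ 2 * ‖1 / 2 + z‖ ^ 2 ≤ 2 * (‖P (1 / 2 + z)‖ ^ 2 + 1) := by
  have hz0 : z ≠ 0 := by
    rintro rfl
    simp at hz
  have h0 : 0 < ‖1 / 2 + z‖ := lt_of_lt_of_le (norm_pos_iff.2 hz0) (mlt_half hz)
  have h1 : ‖hh z‖ * ‖1 / 2 + z‖ = ‖P (1 / 2 + z) + 1‖ := by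
    unfold hh
    rw [norm_neg, norm_div, div_mul_cancel₀ _ h0.ne']
  rw [← mul_pow, h1]
  have h2 : ‖P (1 / 2 + z) + 1‖ ≤ ‖P (1 / 2 + z)‖ + 1 := by
    refine (norm_add_le _ _).trans ?_
    rw [norm_one]
  have h3 := pow_le_pow_left₀ (norm_nonneg _) h2 2
  nlinarith [sq_nonneg (‖P (1 / 2 + z)‖ - 1)]

private theorem mlt_core {A C x : ℝ} (hA : 0 ≤ A) (hC : 0 < C) (hx : 0 < x) (h1 : A ≤ C * x)
    (h2 : A ≤ C / x) : A ^ 2 * (1 + x ^ 2) ^ 2 ≤ 4 * C ^ 2 * x ^ 2 := by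
  rcases le_total x 1 with h3 | h3
  · have h4 : A ^ 2 ≤ (C * x) ^ 2 := pow_le_pow_left₀ hA h1 2
    have h5 : (1 + x ^ 2) ^ 2 ≤ 4 := by
      have h6 : 1 + x ^ 2 ≤ 2 := by nlinarith
      nlinarith [sq_nonneg x]
    calc A ^ 2 * (1 + x ^ 2) ^ 2 ≤ (C * x) ^ 2 * 4 :=
          mul_le_mul h4 h5 (by positivity) (by positivity)
      _ = 4 * C ^ 2 * x ^ 2 := by ring
  · have h4 : A * x ≤ C := by rwa [le_div_iff₀ hx] at h2
    have h5 : (A * x) ^ 2 ≤ C ^ 2 := pow_le_pow_left₀ (mul_nonneg hA hx.le) h4 2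
    have h6 : (1 + x ^ 2) ^ 2 ≤ (2 * x ^ 2) ^ 2 := by
      apply pow_le_pow_left₀ (by positivity)
      nlinarith
    calc A ^ 2 * (1 + x ^ 2) ^ 2 ≤ A ^ 2 * (2 * x ^ 2) ^ 2 :=
          mul_le_mul_of_nonneg_left h6 (by positivity)
      _ = 4 * (A * x) ^ 2 * x ^ 2 := by ring
      _ ≤ 4 * C ^ 2 * x ^ 2 := by
          apply mul_le_mul_of_nonneg_right _ (by positivity)
          linarith

private theorem mlt_core2 {A B Z S Q C h t : ℝ} (hA : 0 ≤ A) (hC : 0 < C) (hh0 : 0 < h)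
    (hZ : 0 < Z) (hb1 : A ≤ C * (Z * h)) (hb2 : A ≤ C / (Z * h)) (hB : B ^ 2 * S ^ 2 ≤ 2 * Q)
    (hZS : Z ≤ S) (ht : |t| ≤ Z) :
    A ^ 2 * B ^ 2 ≤ 8 * C ^ 2 * h ^ 2 * Q * ((1 + (t * h) ^ 2) ^ 2)⁻¹ := by
  have h1 := mlt_core hA hC (mul_pos hZ hh0) hb1 hb2
  have h2 : B ^ 2 * Z ^ 2 ≤ 2 * Q := by
    refine le_trans ?_ hB
    exact mul_le_mul_of_nonneg_left (pow_le_pow_left₀ hZ.le hZS 2) (sq_nonneg B)
  have h3 : (A ^ 2 * (1 + (Z * h) ^ 2) ^ 2) * (B ^ 2 * Z ^ 2) ≤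
      (4 * C ^ 2 * (Z * h) ^ 2) * (2 * Q) := mul_le_mul h1 h2 (by positivity) (by positivity)
  have h4 : A ^ 2 * B ^ 2 * (1 + (Z * h) ^ 2) ^ 2 ≤ 8 * C ^ 2 * h ^ 2 * Q := by
    have h5 : (A ^ 2 * B ^ 2 * (1 + (Z * h) ^ 2) ^ 2) * Z ^ 2 ≤
        (8 * C ^ 2 * h ^ 2 * Q) * Z ^ 2 := by
      calc (A ^ 2 * B ^ 2 * (1 + (Z * h) ^ 2) ^ 2) * Z ^ 2 =
            (A ^ 2 * (1 + (Z * h) ^ 2) ^ 2) * (B ^ 2 * Z ^ 2) := by ring
        _ ≤ (4 * C ^ 2 * (Z * h) ^ 2) * (2 * Q) := h3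
        _ = (8 * C ^ 2 * h ^ 2 * Q) * Z ^ 2 := by ring
    exact le_of_mul_le_mul_right h5 (by positivity)
  have h6 : (1 + (t * h) ^ 2) ^ 2 ≤ (1 + (Z * h) ^ 2) ^ 2 := by
    apply pow_le_pow_left₀ (by positivity)
    have h7 : t ^ 2 ≤ Z ^ 2 := by
      rw [← sq_abs t]
      exact pow_le_pow_left₀ (abs_nonneg t) ht 2
    rw [mul_pow, mul_pow]
    nlinarith [mul_le_mul_of_nonneg_right h7 (sq_nonneg h)]
  rw [← div_eq_mul_inv, le_div_iff₀ (by positivity)]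
  exact (mul_le_mul_of_nonneg_left h6 (by positivity)).trans h4

private theorem mlt_core3 {B S Q Z D C t : ℝ} (hD : 0 ≤ D) (hC : 0 < C)
    (hZ : 0 < Z) (hb1 : D ≤ C) (hb2 : D ≤ C / Z) (hB : B ^ 2 * S ^ 2 ≤ 2 * Q)
    (hS : (1 + t ^ 2) / 4 ≤ S ^ 2) (ht : |t| ≤ Z) :
    D ^ 2 * B ^ 2 ≤ 16 * C ^ 2 * Q * ((1 + t ^ 2) ^ 2)⁻¹ := by
  have h1 : D ^ 2 * (1 + t ^ 2) ≤ 2 * C ^ 2 := by
    have h2 : D ^ 2 ≤ C ^ 2 := pow_le_pow_left₀ hD hb1 2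
    have h3 : D * Z ≤ C := by rwa [le_div_iff₀ hZ] at hb2
    have h4 : (D * Z) ^ 2 ≤ C ^ 2 := pow_le_pow_left₀ (mul_nonneg hD hZ.le) h3 2
    have h5 : t ^ 2 ≤ Z ^ 2 := by
      rw [← sq_abs t]
      exact pow_le_pow_left₀ (abs_nonneg t) ht 2
    have h6 := mul_le_mul_of_nonneg_left h5 (sq_nonneg D)
    rw [mul_pow] at h4
    linarith
  have h2 : B ^ 2 * (1 + t ^ 2) ≤ 8 * Q := by
    have h3 := mul_le_mul_of_nonneg_left hS (sq_nonneg B)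
    linarith
  have h3 : (D ^ 2 * (1 + t ^ 2)) * (B ^ 2 * (1 + t ^ 2)) ≤ (2 * C ^ 2) * (8 * Q) :=
    mul_le_mul h1 h2 (by positivity) (by positivity)
  rw [← div_eq_mul_inv, le_div_iff₀ (by positivity)]
  calc D ^ 2 * B ^ 2 * (1 + t ^ 2) ^ 2 = (D ^ 2 * (1 + t ^ 2)) * (B ^ 2 * (1 + t ^ 2)) := by ring
    _ ≤ (2 * C ^ 2) * (8 * Q) := h3
    _ = 16 * C ^ 2 * Q := by ring

/-- `‖hh z‖² ≤ 2 (‖P (1/2 + z)‖² + 1) / |1/2 + z|²`, `|z| ≤ |1/2 + z|`, so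
`‖mlt‖² ‖hh‖² ≤ C min (|zh|², |zh|⁻²) (‖P‖² + 1) / |z|² = C h² min (1, |zh|⁻⁴) (‖P‖² + 1)` and
`min (1, x⁻⁴) ≤ 4 / (1 + x²)²` with `x = |z| h ≥ |t| h`. -/
theorem mlt_hh : ∃ C : ℝ, 0 < C ∧ ∀ h α t : ℝ, 0 < h → h ≤ 1 → 0 < α → α ≤ 1 / 100 →
    ‖mlt h (ln α t) * hh (ln α t)‖ ^ 2 ≤
      C * h ^ 2 * (‖P (pt α t)‖ ^ 2 + 1) * W (1 / h) t := by
  obtain ⟨C, hC, hb⟩ := mlt_bound
  refine ⟨8 * C ^ 2, by positivity, fun h α t h0 h1 hα0 hα1 => ?_⟩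
  have hzr : 0 < (ln α t).re := by
    rw [ln_re]
    exact hα0
  obtain ⟨hb1, hb2⟩ := hb h (ln α t) h0 h1 hzr (by rw [ln_re]; linarith)
  have hh1 := hh_norm hzr
  have hhf := mlt_half hzr
  rw [mlt_pt] at hh1 hhf
  have hz0 : 0 < ‖ln α t‖ := by
    rw [norm_pos_iff]
    intro h2
    rw [h2] at hzr
    simp at hzr
  have ht : |t| ≤ ‖ln α t‖ := by
    have := Complex.abs_im_le_norm (ln α t)
    rwa [ln_im] at this
  have hW : W (1 / h) t = ((1 + (t * h) ^ 2) ^ 2)⁻¹ := by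
    unfold W
    rw [one_div, div_inv_eq_mul]
  rw [hW, norm_mul, mul_pow]
  exact mlt_core2 (norm_nonneg _) hC h0 hz0 hb1 hb2 hh1 hhf ht

theorem m1_hh : ∃ C : ℝ, 0 < C ∧ ∀ α t : ℝ, 0 < α → α ≤ 1 / 100 →
    ‖(exp (ln α t) - 1) / ln α t * hh (ln α t)‖ ^ 2 ≤
      C * (‖P (pt α t)‖ ^ 2 + 1) * W 1 t := by
  obtain ⟨C, hC, hb⟩ := m1_bound
  refine ⟨16 * C ^ 2, by positivity, fun α t hα0 hα1 => ?_⟩
  have hzr : 0 < (ln α t).re := by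
    rw [ln_re]
    exact hα0
  obtain ⟨hb1, hb2⟩ := hb (ln α t) hzr (by rw [ln_re]; linarith)
  have hh1 := hh_norm hzr
  rw [mlt_pt] at hh1
  have hz0 : 0 < ‖ln α t‖ := by
    rw [norm_pos_iff]
    intro h2
    rw [h2] at hzr
    simp at hzr
  have ht : |t| ≤ ‖ln α t‖ := by
    have := Complex.abs_im_le_norm (ln α t)
    rwa [ln_im] at this
  have hW : W 1 t = ((1 + t ^ 2) ^ 2)⁻¹ := by
    unfold W
    rw [div_one]
  have hS : (1 + t ^ 2) / 4 ≤ ‖pt α t‖ ^ 2 := by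
    rw [← Complex.normSq_eq_norm_sq, Complex.normSq_apply, pt_re, pt_im]
    nlinarith [sq_nonneg t]
  rw [hW, norm_mul, mul_pow]
  exact mlt_core3 (norm_nonneg _) hC hz0 hb1 hb2 hh1 hS ht

private theorem mlt_lg (t : ℝ) : lg t ≤ 4 * (1 + |t|) ^ (1 / 2 : ℝ) := by
  have h0 : 0 ≤ |t| := abs_nonneg t
  have h1 := Real.log_le_rpow_div (show 0 ≤ |t| + 2 by linarith) (show (0 : ℝ) < 1 / 2 by norm_num)
  have h2 : (|t| + 2) ^ (1 / 2 : ℝ) ≤ 2 * (1 + |t|) ^ (1 / 2 : ℝ) := by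
    have h3 : (|t| + 2) ^ (1 / 2 : ℝ) ≤ (4 * (1 + |t|)) ^ (1 / 2 : ℝ) :=
      Real.rpow_le_rpow (by linarith) (by linarith) (by norm_num)
    have h4 : (4 : ℝ) ^ (1 / 2 : ℝ) = 2 := by
      rw [← Real.sqrt_eq_rpow]
      rw [show (4 : ℝ) = 2 ^ 2 by norm_num, Real.sqrt_sq (by norm_num)]
    rwa [Real.mul_rpow (by norm_num) (by linarith), h4] at h3
  unfold lg
  calc Real.log (|t| + 2) ≤ (|t| + 2) ^ (1 / 2 : ℝ) / (1 / 2) := h1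
    _ ≤ (2 * (1 + |t|) ^ (1 / 2 : ℝ)) / (1 / 2) := by
        apply div_le_div_of_nonneg_right h2 (by norm_num)
    _ = 4 * (1 + |t|) ^ (1 / 2 : ℝ) := by ring

private theorem mlt_dec (h : ZF) {α : ℝ} (hα : 0 < α) (hα1 : α ≤ 1 / 100) :
    ∃ M : ℝ, 0 ≤ M ∧ ∀ (w m : ℂ) (D : ℝ), 0 ≤ D → α ≤ w.re → w.re ≤ 1 → ‖m‖ ≤ D / ‖w‖ →
      ‖m * hh w‖ ≤ D * M * (1 + |w.im|) ^ (-(3 / 2) : ℝ) := by
  obtain ⟨C, hC, hP⟩ := P_bound h
  refine ⟨(4 * C / α + 1) * (2 / α) ^ 2, by positivity, fun w m D hD h1 h2 hm => ?_⟩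
  have hwr : 0 < w.re := lt_of_lt_of_le hα h1
  have hre : (1 / 2 + w).re = 1 / 2 + w.re := by simp
  have him : (1 / 2 + w).im = w.im := by simp
  have hPw := hP α (1 / 2 + w) hα hα1 (by rw [hre]; linarith) (by rw [hre]; linarith)
  rw [him] at hPw
  have hlg := mlt_lg w.im
  have hx0 : (1 : ℝ) ≤ 1 + |w.im| := by linarith [abs_nonneg w.im]
  have hu : (1 : ℝ) ≤ (1 + |w.im|) ^ (1 / 2 : ℝ) := Real.one_le_rpow hx0 (by norm_num)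
  have hwn : (1 + |w.im|) ≤ 2 / α * ‖w‖ := by
    have h3 : α ≤ ‖w‖ := le_trans h1 (le_trans (le_abs_self _) (Complex.abs_re_le_norm w))
    have h4 : |w.im| ≤ ‖w‖ := Complex.abs_im_le_norm w
    have h5 : 1 ≤ ‖w‖ / α := by rwa [le_div_iff₀ hα, one_mul]
    have h6 : ‖w‖ ≤ ‖w‖ / α := by
      rw [le_div_iff₀ hα]
      nlinarith [norm_nonneg w]
    calc 1 + |w.im| ≤ ‖w‖ / α + ‖w‖ / α := add_le_add h5 (h4.trans h6)
      _ = 2 / α * ‖w‖ := by ring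
  have hw0 : 0 < ‖w‖ := lt_of_lt_of_le hα
    (le_trans h1 (le_trans (le_abs_self _) (Complex.abs_re_le_norm w)))
  have hinv : ‖w‖⁻¹ ≤ 2 / α * (1 + |w.im|)⁻¹ := by
    rw [← div_eq_mul_inv, le_div_iff₀ (by linarith), inv_mul_le_iff₀ hw0, mul_comm]
    exact hwn
  have hhw : ‖hh w‖ ≤ (4 * C / α + 1) * (1 + |w.im|) ^ (1 / 2 : ℝ) * ‖w‖⁻¹ := by
    unfold hh
    rw [norm_neg, norm_div, div_eq_mul_inv]
    apply mul_le_mul _ _ (inv_nonneg.2 (norm_nonneg _)) (by positivity)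
    · refine (norm_add_le _ _).trans ?_
      rw [norm_one]
      have h3 : C * lg w.im / α ≤ 4 * C / α * (1 + |w.im|) ^ (1 / 2 : ℝ) := by
        rw [div_mul_eq_mul_div]
        apply div_le_div_of_nonneg_right _ hα.le
        have := mul_le_mul_of_nonneg_left hlg hC.le
        linarith
      rw [add_mul, one_mul]
      linarith
    · exact inv_anti₀ hw0 (mlt_half hwr)
  have hpow : (1 + |w.im|) ^ (1 / 2 : ℝ) * ((1 + |w.im|)⁻¹) ^ 2 =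
      (1 + |w.im|) ^ (-(3 / 2) : ℝ) := by
    have h3 : ((1 + |w.im|)⁻¹) ^ 2 = (1 + |w.im|) ^ (-2 : ℝ) := by
      rw [Real.rpow_neg (by linarith), Real.rpow_two, inv_pow]
    rw [h3, ← Real.rpow_add (by linarith)]
    norm_num
  rw [norm_mul]
  calc ‖m‖ * ‖hh w‖ ≤ (D / ‖w‖) * ((4 * C / α + 1) * (1 + |w.im|) ^ (1 / 2 : ℝ) * ‖w‖⁻¹) :=
        mul_le_mul hm hhw (norm_nonneg _) (by positivity)
    _ = D * (4 * C / α + 1) * (1 + |w.im|) ^ (1 / 2 : ℝ) * (‖w‖⁻¹) ^ 2 := by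
        rw [div_eq_mul_inv]
        ring
    _ ≤ D * (4 * C / α + 1) * (1 + |w.im|) ^ (1 / 2 : ℝ) * (2 / α * (1 + |w.im|)⁻¹) ^ 2 := by
        apply mul_le_mul_of_nonneg_left _ (by positivity)
        exact pow_le_pow_left₀ (inv_nonneg.2 (norm_nonneg _)) hinv 2
    _ = D * ((4 * C / α + 1) * (2 / α) ^ 2) *
          ((1 + |w.im|) ^ (1 / 2 : ℝ) * ((1 + |w.im|)⁻¹) ^ 2) := by ring
    _ = D * ((4 * C / α + 1) * (2 / α) ^ 2) * (1 + |w.im|) ^ (-(3 / 2) : ℝ) := by rw [hpow]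

private theorem hh_diff (h : ZF) {w : ℂ} (hw : 0 < w.re) : DifferentiableAt ℂ hh w := by
  have hre : (1 / 2 + w).re = 1 / 2 + w.re := by simp
  have h1 : DifferentiableAt ℂ P (1 / 2 + w) := P_diff h (by rw [hre]; linarith)
  have h2 : DifferentiableAt ℂ (fun z : ℂ => 1 / 2 + z) w := by fun_prop
  have h3 : DifferentiableAt ℂ (fun z : ℂ => P (1 / 2 + z)) w :=
    DifferentiableAt.comp w h1 h2
  have h4 : 1 / 2 + w ≠ 0 := by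
    intro h5
    rw [h5] at hre
    simp at hre
    linarith
  exact ((h3.add_const 1).div h2 h4).neg

/-- `P_bound`: `‖P (1/2 + w)‖ ≤ C lg (w.im) / α` and `lg t ≤ C (1 + |t|)^(1/2)`;
`|mlt|, |hh|` are `O(1 / (1 + |t|))` up to this factor (constants depending on `h`, `α`). -/
theorem mlt_decay (h : ZF) {k α : ℝ} (hk : 0 < k) (hk1 : k ≤ 1) (hα : 0 < α)
    (hα1 : α ≤ 1 / 100) : (∀ w : ℂ, α ≤ w.re → w.re ≤ 1 →
      DifferentiableAt ℂ (fun z => mlt k z * hh z) w) ∧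
    ∃ M : ℝ, ∀ w : ℂ, α ≤ w.re → w.re ≤ 1 →
      ‖mlt k w * hh w‖ ≤ M * (1 + |w.im|) ^ (-(3 / 2) : ℝ) := by
  constructor
  · intro w h1 _
    have hwr : 0 < w.re := lt_of_lt_of_le hα h1
    have hw0 : w ≠ 0 := by
      rintro rfl
      simp at hwr
    have hwk : w * (k : ℂ) ≠ 0 := mul_ne_zero hw0 (by exact_mod_cast hk.ne')
    refine DifferentiableAt.mul ?_ (hh_diff h hwr)
    have h2 : DifferentiableAt ℂ (fun z : ℂ => z * (k : ℂ)) w := by fun_prop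
    have h3 : DifferentiableAt ℂ (fun z : ℂ => exp (z * k)) w := by fun_prop
    have h4 : DifferentiableAt ℂ (fun z : ℂ => exp (2 * (z * k))) w := by fun_prop
    exact (((h3.sub_const 1).div h2 hwk).mul (((h3.const_mul 2).const_sub 3).sub h4)).div_const 4
  · obtain ⟨C, hC, hb⟩ := mlt_bound
    obtain ⟨M, hM, hd⟩ := mlt_dec h hα hα1
    refine ⟨C / k * M, fun w h1 h2 => ?_⟩
    refine hd w _ _ (by positivity) h1 h2 ?_
    have h3 := (hb k w hk hk1 (lt_of_lt_of_le hα h1) h2).2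
    rw [div_div, mul_comm k]
    exact h3

theorem m1_decay (h : ZF) {α : ℝ} (hα : 0 < α) (hα1 : α ≤ 1 / 100) :
    (∀ w : ℂ, α ≤ w.re → w.re ≤ 1 →
      DifferentiableAt ℂ (fun z => (exp z - 1) / z * hh z) w) ∧
    ∃ M : ℝ, ∀ w : ℂ, α ≤ w.re → w.re ≤ 1 →
      ‖(exp w - 1) / w * hh w‖ ≤ M * (1 + |w.im|) ^ (-(3 / 2) : ℝ) := by
  constructor
  · intro w h1 _
    have hwr : 0 < w.re := lt_of_lt_of_le hα h1
    have hw0 : w ≠ 0 := by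
      rintro rfl
      simp at hwr
    refine DifferentiableAt.mul ?_ (hh_diff h hwr)
    have h2 : DifferentiableAt ℂ (fun z : ℂ => z) w := differentiableAt_id
    have h3 : DifferentiableAt ℂ (fun z : ℂ => exp z - 1) w := by fun_prop
    exact h3.div h2 hw0
  · obtain ⟨C, hC, hb⟩ := m1_bound
    obtain ⟨M, hM, hd⟩ := mlt_dec h hα hα1
    refine ⟨C * M, fun w h1 h2 => ?_⟩
    exact hd w _ _ hC.le h1 h2 (hb w (lt_of_lt_of_le hα h1) h2).2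

end ERT
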