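import Pool.Agent.Lib.MP_ed189b_nt.LSh

/-!
# MP_ed189b_nt: inversion
-/

set_option autoImplicit false

noncomputable section

namespace ERT

open Complex Filter Topology Set MeasureTheory

open scoped FourierTransform in
/-- inversion on the line `Re z = 1` -/
private lemma inv_one {f : ℝ → ℝ} {Φ : ℂ → ℂ} (hf : Continuous f)
    (hi : Integrable (fun u : ℝ => (f u : ℂ) * exp (-(u : ℂ))))
    (ht : ∀ t : ℝ, ∫ u : ℝ, (f u : ℂ) * exp (-(ln 1 t * u)) = Φ (ln 1 t))
    (hI : Integrable (fun v : ℝ => Φ (ln 1 v))) (u : ℝ) :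
    (f u : ℂ) * exp (-(u : ℂ)) =
      (((2 * Real.pi)⁻¹ : ℝ) : ℂ) * ∫ t : ℝ, exp (I * u * t) * Φ (ln 1 t) := by
  have hpi : (0 : ℝ) < 2 * Real.pi := by positivity
  have h1 : 𝓕 (fun u : ℝ => (f u : ℂ) * exp (-(u : ℂ))) =
      fun ξ : ℝ => Φ (ln 1 (2 * Real.pi * ξ)) := by
    funext ξ
    rw [Real.fourier_real_eq_integral_exp_smul, ← ht]
    refine integral_congr_ae (Eventually.of_forall fun v => ?_)
    show exp ((((-2 * Real.pi * v * ξ : ℝ)) : ℂ) * I) • ((f v : ℂ) * exp (-(v : ℂ))) =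
      (f v : ℂ) * exp (-(ln 1 (2 * Real.pi * ξ) * v))
    rw [smul_eq_mul, mul_left_comm, ← Complex.exp_add]
    congr 2
    simp only [ln]
    push_cast
    ring
  have h2 : Integrable (𝓕 (fun u : ℝ => (f u : ℂ) * exp (-(u : ℂ)))) := by
    rw [h1]
    exact hI.comp_mul_left' hpi.ne'
  have hc : Continuous (fun u : ℝ => (f u : ℂ) * exp (-(u : ℂ))) := by
    have := Complex.continuous_ofReal.comp hf
    have h3 : Continuous (fun u : ℝ => exp (-(u : ℂ))) := by fun_prop
    exact this.mul h3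
  have h4 := hi.fourierInv_fourier_eq h2 (hc.continuousAt (x := u))
  rw [← h4, Real.fourierInv_eq', h1]
  have h5 := MeasureTheory.Measure.integral_comp_mul_left
    (fun t : ℝ => exp (I * u * t) * Φ (ln 1 t)) (2 * Real.pi)
  rw [abs_of_pos (inv_pos.2 hpi), Complex.real_smul] at h5
  rw [← h5]
  refine integral_congr_ae (Eventually.of_forall fun v => ?_)
  simp only [smul_eq_mul, RCLike.inner_apply, conj_trivial]
  congr 2
  push_cast
  ring

/-- On `Re z = 1`: `u ↦ f u exp (-u)` is continuous and integrable, and its Fourier transform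
`t ↦ Φ (ln 1 t)` is integrable (`lsh`), so Fourier inversion
(`MeasureTheory.Integrable.fourierInv_fourier_eq`, after rescaling `t = 2 π ξ`) gives
`f u exp (-u) = (2π)⁻¹ ∫ Φ (ln 1 t) exp (itu) dt`, i.e. `f u = (2π)⁻¹ ∫ Φ (ln 1 t)
exp (ln 1 t * u) dt`; `lsh` for `H w = Φ w exp (w u)`. -/
theorem inv_line {f : ℝ → ℝ} {Φ : ℂ → ℂ} {α M : ℝ} (hα1 : α ≤ 1) (hf : Continuous f)
    (hi : Integrable (fun u : ℝ => (f u : ℂ) * exp (-(u : ℂ))))
    (ht : ∀ t : ℝ, ∫ u : ℝ, (f u : ℂ) * exp (-(ln 1 t * u)) = Φ (ln 1 t))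
    (hd : ∀ w : ℂ, α ≤ w.re → w.re ≤ 1 → DifferentiableAt ℂ Φ w)
    (hM : ∀ w : ℂ, α ≤ w.re → w.re ≤ 1 → ‖Φ w‖ ≤ M * (1 + |w.im|) ^ (-(3 / 2) : ℝ)) (u : ℝ) :
    (f u : ℂ) * exp (-((α * u : ℝ) : ℂ)) =
      (((2 * Real.pi)⁻¹ : ℝ) : ℂ) * ∫ t : ℝ, Φ (ln α t) * exp (I * u * t) := by
  have hI := (lsh hα1 hd hM).2.1
  have h1 := inv_one hf hi ht hI u
  have hM0 : 0 ≤ M := by
    have h := (norm_nonneg _).trans (hM 1 (by simpa using hα1) (by simp))
    simpa using h
  have h2 := (lsh (H := fun w => Φ w * exp (w * u)) (M := M * Real.exp ((|α| + 1) * |u|)) hα1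
    (fun w h1 h2 => (hd w h1 h2).mul (by fun_prop)) (fun w h1 h2 => ?_)).2.2
  · have h3 : ∀ c t : ℝ, Φ (ln c t) * exp (ln c t * u) =
        exp ((c * u : ℝ) : ℂ) * (Φ (ln c t) * exp (I * u * t)) := by
      intro c t
      have : exp (ln c t * u) = exp ((c * u : ℝ) : ℂ) * exp (I * u * t) := by
        rw [← Complex.exp_add]
        congr 1
        simp only [ln]
        push_cast
        ring
      rw [this]
      ring
    simp only [h3, integral_const_mul] at h2
    have h4 : ∀ t : ℝ, exp (I * u * t) * Φ (ln 1 t) = Φ (ln 1 t) * exp (I * u * t) :=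
      fun t => mul_comm _ _
    simp only [h4] at h1
    have h5 : exp (((1 : ℝ) * u : ℝ) : ℂ) = exp (u : ℂ) := by rw [one_mul]
    rw [h5] at h2
    have h6 : (f u : ℂ) = exp (u : ℂ) * ((f u : ℂ) * exp (-(u : ℂ))) := by
      rw [mul_left_comm, ← Complex.exp_add, add_neg_cancel, Complex.exp_zero, mul_one]
    have h7 : exp ((α * u : ℝ) : ℂ) * exp (-((α * u : ℝ) : ℂ)) = 1 := by
      rw [← Complex.exp_add, add_neg_cancel, Complex.exp_zero]
    rw [h6, h1, mul_left_comm (exp (u : ℂ)), ← h2]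
    rw [mul_assoc, mul_right_comm, h7, one_mul]
  · rw [norm_mul]
    have h3 : ‖exp (w * u)‖ ≤ Real.exp ((|α| + 1) * |u|) := by
      rw [Complex.norm_exp]
      apply Real.exp_le_exp.2
      have h4 : (w * u).re = w.re * u := by simp
      rw [h4]
      calc w.re * u ≤ |w.re * u| := le_abs_self _
        _ = |w.re| * |u| := abs_mul _ _
        _ ≤ (|α| + 1) * |u| := by
          refine mul_le_mul_of_nonneg_right ?_ (abs_nonneg _)
          rw [abs_le]
          constructor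
          · have := neg_abs_le α
            linarith
          · have := abs_nonneg α
            linarith
    calc ‖Φ w‖ * ‖exp (w * u)‖ ≤ (M * (1 + |w.im|) ^ (-(3 / 2) : ℝ)) *
          Real.exp ((|α| + 1) * |u|) := by
          refine mul_le_mul (hM w h1 h2) h3 (norm_nonneg _) ?_
          positivity
      _ = _ := by ring

end ERT
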