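import Pool.Agent.Lib.MP_af79d0_an.Plancherel
import Pool.Agent.Lib.MP_ed189b_nt.Inv

/-!
# MP_ed189b_nt: Plancherel
-/

set_option autoImplicit false

noncomputable section

namespace ERT

open Complex Filter Topology Set MeasureTheory

private theorem pl_enorm_sq (z : ℂ) : ‖z‖ₑ ^ 2 = ENNReal.ofReal (‖z‖ ^ 2) := by
  rw [← ofReal_norm, ENNReal.ofReal_pow (norm_nonneg z)]

private theorem pl_norm_sq (x a : ℝ) :
    ‖(x : ℂ) * exp (-((a : ℝ) : ℂ))‖ ^ 2 = x ^ 2 * Real.exp (-(2 * a)) := by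
  rw [norm_mul, mul_pow, norm_real, Real.norm_eq_abs, sq_abs, norm_exp, neg_re, ofReal_re,
    ← Real.exp_nat_mul]
  congr 2
  push_cast
  ring

/-- `Pool.Agent.Domar.plancherel` for `b t = Φ (ln α t)` (integrable and square integrable,
being continuous and at most `M (1 + |t|)^(-3/2)`) and `inv_line`; the function
`f u exp (-(α u))` is continuous, so the `lintegral` is an integral
(`ofReal_integral_eq_lintegral_ofReal`-like lemmas). -/
theorem pl_line {f : ℝ → ℝ} {Φ : ℂ → ℂ} {α M : ℝ} (hα1 : α ≤ 1) (hf : Continuous f)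
    (hi : Integrable (fun u : ℝ => (f u : ℂ) * exp (-(u : ℂ))))
    (ht : ∀ t : ℝ, ∫ u : ℝ, (f u : ℂ) * exp (-(ln 1 t * u)) = Φ (ln 1 t))
    (hd : ∀ w : ℂ, α ≤ w.re → w.re ≤ 1 → DifferentiableAt ℂ Φ w)
    (hM : ∀ w : ℂ, α ≤ w.re → w.re ≤ 1 → ‖Φ w‖ ≤ M * (1 + |w.im|) ^ (-(3 / 2) : ℝ)) :
    Integrable (fun u : ℝ => f u ^ 2 * Real.exp (-(2 * α * u))) ∧
    ∫ u : ℝ, f u ^ 2 * Real.exp (-(2 * α * u)) =
      (2 * Real.pi)⁻¹ * ∫ t : ℝ, ‖Φ (ln α t)‖ ^ 2 := by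
  have hpi : (0 : ℝ) < 2 * Real.pi := by positivity
  obtain ⟨b, hb⟩ : ∃ b : ℝ → ℂ, b = fun t => Φ (ln α t) := ⟨_, rfl⟩
  have hlc : Continuous (fun t : ℝ => ln α t) := by
    unfold ln
    fun_prop
  have hbc : Continuous b := by
    rw [hb, continuous_iff_continuousAt]
    intro t
    have h1 := (hd (ln α t) (by rw [ln_re]) (by rw [ln_re]; exact hα1)).continuousAt
    exact ContinuousAt.comp (f := fun t : ℝ => ln α t) h1 hlc.continuousAt
  have hbM : ∀ t, ‖b t‖ ≤ M * (1 + ‖t‖) ^ (-(3 / 2) : ℝ) := by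
    intro t
    have h1 := hM (ln α t) (by rw [ln_re]) (by rw [ln_re]; exact hα1)
    rw [ln_im] at h1
    rw [hb, Real.norm_eq_abs]
    exact h1
  have hM0 : 0 ≤ M := by
    have h1 := (norm_nonneg _).trans (hbM 0)
    simpa using h1
  have hint : Integrable (fun t : ℝ => M * (1 + ‖t‖) ^ (-(3 / 2) : ℝ)) :=
    (integrable_one_add_norm (by simp; norm_num)).const_mul M
  have hbi : Integrable b :=
    hint.mono' hbc.aestronglyMeasurable (Eventually.of_forall hbM)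
  have hb1 : ∀ t, ‖b t‖ ≤ M := by
    intro t
    refine (hbM t).trans ?_
    have h1 : (1 + ‖t‖) ^ (-(3 / 2) : ℝ) ≤ 1 :=
      Real.rpow_le_one_of_one_le_of_nonpos (by linarith [norm_nonneg t]) (by norm_num)
    exact mul_le_of_le_one_right hM0 h1
  have hb2 : Integrable (fun t => ‖b t‖ ^ 2) := by
    refine (hbi.norm.const_mul M).mono' (hbc.norm.pow 2).aestronglyMeasurable
      (Eventually.of_forall fun t => ?_)
    rw [Real.norm_eq_abs, abs_of_nonneg (sq_nonneg _), sq]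
    exact mul_le_mul_of_nonneg_right (hb1 t) (norm_nonneg _)
  have hmem : MemLp b 2 := (memLp_two_iff_integrable_sq_norm hbc.aestronglyMeasurable).2 hb2
  have hP := Pool.Agent.Domar.plancherel b hbi hmem
  obtain ⟨g, hg⟩ : ∃ g : ℝ → ℝ, g = fun u => f u ^ 2 * Real.exp (-(2 * α * u)) := ⟨_, rfl⟩
  have hg0 : ∀ u, 0 ≤ g u := by
    intro u
    rw [hg]
    positivity
  have hgc : Continuous g := by
    rw [hg]
    fun_prop
  have e1 : ∀ u : ℝ, ‖∫ s, b s * exp (I * u * s)‖ₑ ^ 2 =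
      ENNReal.ofReal ((2 * Real.pi) ^ 2) * ENNReal.ofReal (g u) := by
    intro u
    have h1 := inv_line hα1 hf hi ht hd hM u
    have h2 : ∫ s, b s * exp (I * u * s) =
        ((2 * Real.pi : ℝ) : ℂ) * ((f u : ℂ) * exp (-((α * u : ℝ) : ℂ))) := by
      rw [h1, ← mul_assoc, ← ofReal_mul, mul_inv_cancel₀ hpi.ne', ofReal_one, one_mul, hb]
    rw [pl_enorm_sq, h2, norm_mul, mul_pow, norm_real, Real.norm_eq_abs, sq_abs, pl_norm_sq,
      ENNReal.ofReal_mul (sq_nonneg _), hg]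
    congr 4
    ring
  have e2 : ∀ s : ℝ, ‖b s‖ₑ ^ 2 = ENNReal.ofReal (‖b s‖ ^ 2) := fun s => pl_enorm_sq _
  simp only [e1, e2] at hP
  rw [lintegral_const_mul' _ _ ENNReal.ofReal_ne_top,
    ← ofReal_integral_eq_lintegral_ofReal hb2 (Eventually.of_forall fun t => sq_nonneg _),
    ← ENNReal.ofReal_mul hpi.le] at hP
  have hfin : ∫⁻ u, ENNReal.ofReal (g u) ≠ ⊤ := by
    intro h1
    rw [h1, ENNReal.mul_top (by simp)] at hP
    exact ENNReal.ofReal_ne_top hP.symm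
  have hgi : Integrable g := by
    refine ⟨hgc.aestronglyMeasurable, ?_⟩
    rw [hasFiniteIntegral_iff_ofReal (Eventually.of_forall hg0)]
    exact lt_top_iff_ne_top.2 hfin
  rw [← ofReal_integral_eq_lintegral_ofReal hgi (Eventually.of_forall hg0),
    ← ENNReal.ofReal_mul (by positivity)] at hP
  have hg1 : 0 ≤ ∫ u, g u := integral_nonneg hg0
  have hb3 : 0 ≤ ∫ t, ‖b t‖ ^ 2 := integral_nonneg fun t => sq_nonneg _
  have h3 := (ENNReal.ofReal_eq_ofReal_iff (by positivity) (by positivity)).1 hP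
  rw [hb] at h3
  rw [← hg]
  refine ⟨hgi, ?_⟩
  have h4 : (∫ u, g u) = (2 * Real.pi)⁻¹ * ((2 * Real.pi)⁻¹ * ((2 * Real.pi) ^ 2 * ∫ u, g u)) := by
    field_simp
  rw [h4, h3]
  field_simp

end ERT
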