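import Pool.Agent.Lib.MP_ed189b_nt.AvT
import Pool.Agent.Lib.MP_ed189b_nt.Pl
import Pool.Agent.Lib.MP_ed189b_nt.Mlt
import Pool.Agent.Lib.MP_ed189b_nt.JInt

/-!
# MP_ed189b_nt: mean squares of the differences
-/

set_option autoImplicit false

noncomputable section

namespace ERT

open Complex Filter Topology Set MeasureTheory

private lemma gb_int (h : ZF) {T α c : ℝ} {f : ℝ → ℝ} (hT : 0 < T) (hα : 0 < α)
    (hα1 : α ≤ 1 / 100) (hc : 0 ≤ c) (h0 : ∀ t, 0 ≤ f t)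
    (hf : ∀ t, f t ≤ c * (‖P (pt α t)‖ ^ 2 + 1) * W T t) :
    (2 * Real.pi)⁻¹ * ∫ t, f t ≤ c * (J T α + T) := by
  obtain ⟨hW, hW4⟩ := W_int hT
  have hJ := J_int h hα hα1 hT
  have e1 : ∀ t, c * (‖P (pt α t)‖ ^ 2 + 1) * W T t =
      c * (‖P (pt α t)‖ ^ 2 * W T t + W T t) := fun t => by ring
  have hi : Integrable (fun t => c * (‖P (pt α t)‖ ^ 2 * W T t + W T t)) :=
    (hJ.add hW).const_mul c
  have h1 : ∫ t, f t ≤ ∫ t, c * (‖P (pt α t)‖ ^ 2 * W T t + W T t) :=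
    integral_mono_of_nonneg (Filter.Eventually.of_forall h0) hi
      (Filter.Eventually.of_forall fun t => (hf t).trans (e1 t).le)
  rw [integral_const_mul, integral_add hJ hW] at h1
  have hJ0 : 0 ≤ J T α := J_nonneg T α
  have h2 : c * (J T α + ∫ t, W T t) ≤ c * (J T α + 4 * T) :=
    mul_le_mul_of_nonneg_left (by linarith) hc
  have h3 : ∫ t, f t ≤ c * (J T α + 4 * T) := h1.trans h2
  have hpi := Real.pi_gt_three
  have h4 : c * (J T α + 4 * T) ≤ (2 * Real.pi) * (c * (J T α + T)) := by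
    have h5 : 4 * (c * (J T α + T)) ≤ (2 * Real.pi) * (c * (J T α + T)) :=
      mul_le_mul_of_nonneg_right (by linarith) (by positivity)
    have h6 : 0 ≤ c * J T α := mul_nonneg hc hJ0
    linarith
  rw [inv_mul_le_iff₀ (by positivity)]
  exact h3.trans h4

/-- `pl_line` with `f = g k`, `Φ z = mlt k z * hh z` (`g_cont`, `g_tr` with `z = ln 1 t`,
`mlt_decay`), then `mlt_hh`, `J_int` and `W_int` with `T = 1/k`. -/
theorem g_sq (h : ZF) : ∃ C : ℝ, 0 < C ∧ ∀ k α : ℝ, 0 < k → k ≤ 1 → 0 < α → α ≤ 1 / 100 →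
    Integrable (fun u => g k u ^ 2 * Real.exp (-(2 * α * u))) ∧
    ∫ u, g k u ^ 2 * Real.exp (-(2 * α * u)) ≤ C * k ^ 2 * (J (1 / k) α + 1 / k) := by
  obtain ⟨C, hC, hb⟩ := mlt_hh
  refine ⟨C, hC, fun k α hk hk1 hα hα1 => ?_⟩
  obtain ⟨hd, M, hM⟩ := mlt_decay h hk hk1 hα hα1
  have h1 := g_tr hk (z := 1) (by rw [Complex.one_re]; norm_num)
  obtain ⟨hi, he⟩ := pl_line (f := g k) (Φ := fun z => mlt k z * hh z) (by linarith) (g_cont hk)
    (by simpa only [one_mul] using h1.1)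
    (fun t => (g_tr hk (z := ln 1 t) (by rw [ln_re]; norm_num)).2) hd hM
  refine ⟨hi, ?_⟩
  rw [he]
  exact gb_int h (c := C * k ^ 2) (by positivity) hα hα1 (by positivity)
    (fun t => sq_nonneg _) (fun t => hb k α t hk hk1 hα hα1)

/-- The same with `f = Av 1 e`, `Φ z = (exp z - 1) / z * hh z` (`av_cont`, `e_loc`, `av_tr`,
`e_tr`, `m1_decay`, `m1_hh`). -/
theorem av_sq (h : ZF) : ∃ C : ℝ, 0 < C ∧ ∀ α : ℝ, 0 < α → α ≤ 1 / 100 →
    Integrable (fun u => Av 1 e u ^ 2 * Real.exp (-(2 * α * u))) ∧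
    ∫ u, Av 1 e u ^ 2 * Real.exp (-(2 * α * u)) ≤ C * (J 1 α + 1) := by
  obtain ⟨C, hC, hb⟩ := m1_hh
  refine ⟨C, hC, fun α hα hα1 => ?_⟩
  obtain ⟨hd, M, hM⟩ := m1_decay h hα hα1
  have key : ∀ z : ℂ, 1 / 2 < z.re →
      Integrable (fun u : ℝ => (Av 1 e u : ℂ) * exp (-(z * u))) ∧
        ∫ u : ℝ, (Av 1 e u : ℂ) * exp (-(z * u)) = (exp z - 1) / z * hh z := by
    intro z hz
    have hz0 : z ≠ 0 := by
      rintro rfl
      rw [Complex.zero_re] at hz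
      norm_num at hz
    obtain ⟨h1, h2⟩ := e_tr hz
    obtain ⟨h3, h4⟩ := av_tr (h := 1) one_pos hz0 e_meas h1
    refine ⟨h3, ?_⟩
    rw [h4, h2, Complex.ofReal_one, mul_one]
  have h1 := key 1 (by rw [Complex.one_re]; norm_num)
  obtain ⟨hi, he⟩ := pl_line (f := Av 1 e) (Φ := fun z => (exp z - 1) / z * hh z) (by linarith)
    (av_cont e_loc 1) (by simpa only [one_mul] using h1.1)
    (fun t => (key (ln 1 t) (by rw [ln_re]; norm_num)).2) hd hM
  refine ⟨hi, ?_⟩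
  rw [he]
  exact gb_int h (c := C) one_pos hα hα1 hC.le
    (fun t => sq_nonneg _) (fun t => hb α t hα hα1)

end ERT
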