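import Pool.Agent.Lib.MP_ed189b_nt.Ev

/-!
# MP_ed189b_nt: monotonicity
-/

set_option autoImplicit false

noncomputable section

namespace ERT

open Complex Filter Topology Set MeasureTheory

/-- Cauchy-Schwarz on the interval `[u, u + h]`
(`(∫ f)² ≤ h ∫ f²`, e.g. from `∫ (f - m)² ≥ 0` with `m` the mean). -/
theorem sup_av {f : ℝ → ℝ} (hf : Continuous f) {h : ℝ} (hh : 0 < h) (u : ℝ) :
    (Av h f u) ^ 2 ≤ h⁻¹ * ∫ v in u..(u + h), f v ^ 2 := by
  have h1 : ∫ v in (0 : ℝ)..h, f (u + v) = ∫ v in u..(u + h), f v := by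
    rw [intervalIntegral.integral_comp_add_left, add_zero]
  unfold Av
  rw [h1]
  set S := ∫ v in u..(u + h), f v with hS
  set m := h⁻¹ * S with hm
  have hSm : S = h * m := by
    rw [hm, mul_inv_cancel_left₀ hh.ne']
  have h2 : 0 ≤ ∫ v in u..(u + h), (f v - m) ^ 2 :=
    intervalIntegral.integral_nonneg (by linarith) fun _ _ => sq_nonneg _
  have hf1 : IntervalIntegrable (fun v => f v ^ 2) volume u (u + h) :=
    (hf.pow 2).intervalIntegrable _ _
  have hf2 : IntervalIntegrable (fun v => 2 * m * f v) volume u (u + h) :=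
    (continuous_const.mul hf).intervalIntegrable _ _
  have hf3 : IntervalIntegrable (fun _ : ℝ => m ^ 2) volume u (u + h) :=
    continuous_const.intervalIntegrable _ _
  have h3 : ∫ v in u..(u + h), (f v - m) ^ 2 =
      (∫ v in u..(u + h), f v ^ 2) - 2 * m * S + h * m ^ 2 := by
    have h4 : (fun v => (f v - m) ^ 2) = fun v => (f v ^ 2 - 2 * m * f v) + m ^ 2 := by
      funext v; ring
    rw [h4, intervalIntegral.integral_add (hf1.sub hf2) hf3,
      intervalIntegral.integral_sub hf1 hf2, intervalIntegral.integral_const_mul,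
      intervalIntegral.integral_const, smul_eq_mul, add_sub_cancel_left]
  rw [h3, hSm] at h2
  rw [← div_eq_inv_mul, le_div_iff₀ hh]
  nlinarith [h2]

private theorem av_shift {f : ℝ → ℝ} (hf : ∀ a b : ℝ, IntervalIntegrable f volume a b)
    (h x : ℝ) : IntervalIntegrable (fun v => f (x + v)) volume 0 h := by
  have h1 := (hf (x + 0) (x + h)).comp_add_left x
  rwa [add_sub_cancel_left, add_sub_cancel_left] at h1

private theorem av_ge {f : ℝ → ℝ} (hf : ∀ a b : ℝ, IntervalIntegrable f volume a b) {h : ℝ}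
    (hh : 0 < h) {x K : ℝ} (hK : ∀ v, 0 ≤ v → v ≤ h → K ≤ f (x + v)) : K ≤ Av h f x := by
  have h1 : ∫ _ in (0 : ℝ)..h, K ≤ ∫ v in (0 : ℝ)..h, f (x + v) :=
    intervalIntegral.integral_mono_on hh.le (continuous_const.intervalIntegrable _ _)
      (av_shift hf h x) fun v hv => hK v hv.1 hv.2
  rw [intervalIntegral.integral_const, sub_zero, smul_eq_mul] at h1
  unfold Av
  rw [← div_eq_inv_mul, le_div_iff₀ hh]
  linarith

private theorem av_le {f : ℝ → ℝ} (hf : ∀ a b : ℝ, IntervalIntegrable f volume a b) {h : ℝ}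
    (hh : 0 < h) {x K : ℝ} (hK : ∀ v, 0 ≤ v → v ≤ h → f (x + v) ≤ K) : Av h f x ≤ K := by
  have h1 : ∫ v in (0 : ℝ)..h, f (x + v) ≤ ∫ _ in (0 : ℝ)..h, K :=
    intervalIntegral.integral_mono_on hh.le (av_shift hf h x)
      (continuous_const.intervalIntegrable _ _) fun v hv => hK v hv.1 hv.2
  rw [intervalIntegral.integral_const, sub_zero, smul_eq_mul] at h1
  unfold Av
  rw [← div_eq_inv_mul, div_le_iff₀ hh]
  linarith

private theorem av_int (h : ℝ) (a b : ℝ) : IntervalIntegrable (Av h e) volume a b := by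
  have h1 : Av h e = fun x => h⁻¹ * ((∫ v in (0 : ℝ)..(x + h), e v) - ∫ v in (0 : ℝ)..x, e v) := by
    funext x
    unfold Av
    rw [intervalIntegral.integral_comp_add_left (fun v => e v) x, add_zero,
      intervalIntegral.integral_interval_sub_left (e_loc _ _) (e_loc _ _)]
  have h2 : Continuous fun x => ∫ v in (0 : ℝ)..x, e v :=
    intervalIntegral.continuous_primitive (fun a b => e_loc a b) 0
  have h3 : Continuous (Av h e) := by
    rw [h1]
    exact continuous_const.mul ((h2.comp (continuous_id.add continuous_const)).sub h2)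
  exact h3.intervalIntegrable _ _

/-- For `0 ≤ a ≤ b ≤ a + 2 exp (-a/2)`: `ψ(e^b) ≥ ψ(e^a)`, so
`e b ≥ e a exp ((a - b)/2) - (exp b - exp a) exp (-b/2)`, where `exp b - exp a ≤ (b - a) exp b`,
`exp (b/2) ≤ e exp (a/2)`, and `|e a| (1 - exp ((a - b)/2)) ≤ C exp (a/2) (b - a)/2 ≤ C`
(`e_bound`). -/
theorem e_mono : ∃ C : ℝ, 0 < C ∧ ∀ a b : ℝ, 0 ≤ a → a ≤ b → b ≤ a + 2 * Real.exp (-a / 2) →
    e a - C ≤ e b := by
  obtain ⟨C, hC, hb⟩ := e_bound
  refine ⟨C + 2 * Real.exp 1, by positivity, fun a b ha hab hba => ?_⟩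
  have hb0 : 0 ≤ b := ha.trans hab
  have h1 : Real.exp (-a / 2) ≤ 1 := Real.exp_le_one_iff.2 (by linarith)
  have h2 : Chebyshev.psi (Real.exp a) ≤ Chebyshev.psi (Real.exp b) :=
    Chebyshev.psi_mono (Real.exp_le_exp.2 hab)
  have ea : e a = (Chebyshev.psi (Real.exp a) - Real.exp a) * Real.exp (-a / 2) := by
    unfold e; rw [if_pos ha]
  have eb : e b = (Chebyshev.psi (Real.exp b) - Real.exp b) * Real.exp (-b / 2) := by
    unfold e; rw [if_pos hb0]
  have h3 : Real.exp (-b / 2) = Real.exp (-a / 2) * Real.exp ((a - b) / 2) := by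
    rw [← Real.exp_add]; congr 1; ring
  have h4 : e a * Real.exp ((a - b) / 2) - (Real.exp b - Real.exp a) * Real.exp (-b / 2) ≤
      e b := by
    have h5 : e a * Real.exp ((a - b) / 2) =
        (Chebyshev.psi (Real.exp a) - Real.exp a) * Real.exp (-b / 2) := by
      rw [ea, h3, mul_assoc]
    rw [h5, eb]
    have h6 := mul_le_mul_of_nonneg_right h2 (Real.exp_pos (-b / 2)).le
    linarith
  have h7 : (Real.exp b - Real.exp a) * Real.exp (-b / 2) ≤ 2 * Real.exp 1 := by
    have h8 : Real.exp a = Real.exp b * Real.exp (a - b) := by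
      rw [← Real.exp_add]; congr 1; ring
    have h9 : 1 + (a - b) ≤ Real.exp (a - b) := by
      have := Real.add_one_le_exp (a - b)
      linarith
    have h10 : Real.exp b - Real.exp a ≤ (b - a) * Real.exp b := by
      rw [h8]
      nlinarith [Real.exp_pos b]
    have h11 : Real.exp b * Real.exp (-b / 2) = Real.exp (b / 2) := by
      rw [← Real.exp_add]; congr 1; ring
    have h12 : Real.exp (-a / 2) * Real.exp (b / 2) = Real.exp ((b - a) / 2) := by
      rw [← Real.exp_add]; congr 1; ring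
    have h13 : Real.exp ((b - a) / 2) ≤ Real.exp 1 := Real.exp_le_exp.2 (by linarith)
    calc (Real.exp b - Real.exp a) * Real.exp (-b / 2)
        ≤ (b - a) * Real.exp b * Real.exp (-b / 2) :=
          mul_le_mul_of_nonneg_right h10 (Real.exp_pos _).le
      _ = (b - a) * Real.exp (b / 2) := by rw [mul_assoc, h11]
      _ ≤ 2 * Real.exp (-a / 2) * Real.exp (b / 2) :=
          mul_le_mul_of_nonneg_right (by linarith) (Real.exp_pos _).le
      _ = 2 * Real.exp ((b - a) / 2) := by rw [mul_assoc, h12]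
      _ ≤ 2 * Real.exp 1 := by linarith
  have h14 : |e a| * (1 - Real.exp ((a - b) / 2)) ≤ C := by
    have h15 : 1 - Real.exp ((a - b) / 2) ≤ Real.exp (-a / 2) := by
      have := Real.add_one_le_exp ((a - b) / 2)
      linarith
    calc |e a| * (1 - Real.exp ((a - b) / 2)) ≤ |e a| * Real.exp (-a / 2) :=
          mul_le_mul_of_nonneg_left h15 (abs_nonneg _)
      _ ≤ C * Real.exp (a / 2) * Real.exp (-a / 2) :=
          mul_le_mul_of_nonneg_right (hb a) (Real.exp_pos _).le
      _ = C := by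
          rw [mul_assoc, ← Real.exp_add, show a / 2 + -a / 2 = 0 by ring, Real.exp_zero, mul_one]
  have h16 : e a - |e a| * (1 - Real.exp ((a - b) / 2)) ≤ e a * Real.exp ((a - b) / 2) := by
    have h17 : Real.exp ((a - b) / 2) ≤ 1 := Real.exp_le_one_iff.2 (by linarith)
    nlinarith [le_abs_self (e a), abs_nonneg (e a)]
  linarith

/-- `Av h (Av h e) u = h⁻² ∫∫_{[0,h]²} e (u + v + w)`, the arguments are in `[u, u + 2h]`: at least
`e u - C` by `e_mono`; and `Av h (Av h e) (u - 2h)` has the arguments in `[u - 2h, u]`: at most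
`e u + C` (`u - 2 h ≥ 0` since `h ≤ exp (-1)`). -/
theorem san : ∃ C : ℝ, 0 < C ∧ ∀ u h : ℝ, 2 ≤ u → 0 < h → h ≤ Real.exp (-u / 2) →
    |e u| ≤ C + max |Av h (Av h e) u| |Av h (Av h e) (u - 2 * h)| := by
  obtain ⟨C, hC, hm⟩ := e_mono
  refine ⟨C, hC, fun u h hu hh hhu => ?_⟩
  have h1 : e u - C ≤ Av h (Av h e) u := by
    refine av_ge (av_int h) hh fun v hv0 hv1 => av_ge (fun a b => e_loc a b) hh
      fun w hw0 hw1 => ?_
    exact hm u (u + v + w) (by linarith) (by linarith) (by linarith)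
  have h2 : Av h (Av h e) (u - 2 * h) ≤ e u + C := by
    refine av_le (av_int h) hh fun v hv0 hv1 => av_le (fun a b => e_loc a b) hh
      fun w hw0 hw1 => ?_
    have h3 : Real.exp (-u / 2) ≤ 1 := Real.exp_le_one_iff.2 (by linarith)
    have h4 : Real.exp (-u / 2) ≤ Real.exp (-(u - 2 * h + v + w) / 2) :=
      Real.exp_le_exp.2 (by linarith)
    have h5 := hm (u - 2 * h + v + w) u (by linarith) (by linarith) (by linarith)
    linarith
  have h6 := le_max_left |Av h (Av h e) u| |Av h (Av h e) (u - 2 * h)|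
  have h7 := le_max_right |Av h (Av h e) u| |Av h (Av h e) (u - 2 * h)|
  have h8 := le_abs_self (Av h (Av h e) u)
  have h9 := neg_abs_le (Av h (Av h e) (u - 2 * h))
  rw [abs_le]
  constructor <;> linarith

end ERT
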