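import Pool.Agent.Lib.MP_ed189b_nt.AvT

/-!
# MP_ed189b_nt: the dyadic decomposition
-/

set_option autoImplicit false

noncomputable section

namespace ERT

open Complex Filter Topology Set MeasureTheory

private theorem tel_shift_int {f : ℝ → ℝ} (hf : ∀ a b : ℝ, IntervalIntegrable f volume a b)
    (u a b : ℝ) : IntervalIntegrable (fun v => f (u + v)) volume a b := by
  have h := (hf (a + u) (b + u)).comp_add_left u
  simpa using h

/-- `Av (2h) f u = (Av h f u + Av h f (u + h)) / 2` for `h > 0` and locally integrable `f`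
(`intervalIntegral.integral_add_adjacent_intervals`). -/
theorem av_double {f : ℝ → ℝ} (hf : ∀ a b : ℝ, IntervalIntegrable f volume a b) {h : ℝ}
    (hh : 0 < h) (u : ℝ) : Av (2 * h) f u = (Av h f u + Av h f (u + h)) / 2 := by
  unfold Av
  rw [← intervalIntegral.integral_add_adjacent_intervals (tel_shift_int hf u 0 h)
    (tel_shift_int hf u h (2 * h))]
  have h1 : ∫ v in (0 : ℝ)..h, f (u + h + v) = ∫ v in h..(2 * h), f (u + v) := by
    have h2 := intervalIntegral.integral_comp_add_left (a := 0) (b := h) (fun v => f (u + v)) h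
    rw [add_zero, ← two_mul] at h2
    rw [← h2]
    refine intervalIntegral.integral_congr fun v _ => ?_
    rw [add_assoc]
  rw [h1, mul_inv]
  ring

private theorem tel_translate (f : ℝ → ℝ) (h c u : ℝ) :
    Av h (fun v => f (v + c)) u = Av h f (u + c) := by
  unfold Av
  congr 1
  refine intervalIntegral.integral_congr fun v _ => ?_
  show f (u + v + c) = f (u + c + v)
  congr 1
  ring

private theorem tel_lin {f₁ f₂ f₃ : ℝ → ℝ} (h1 : Continuous f₁) (h2 : Continuous f₂)
    (h3 : Continuous f₃) (a b c h u : ℝ) :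
    Av h (fun v => a * f₁ v + b * f₂ v + c * f₃ v) u =
      a * Av h f₁ u + b * Av h f₂ u + c * Av h f₃ u := by
  have i1 : IntervalIntegrable (fun v => a * f₁ (u + v)) volume 0 h :=
    (continuous_const.mul (h1.comp (by fun_prop))).intervalIntegrable _ _
  have i2 : IntervalIntegrable (fun v => b * f₂ (u + v)) volume 0 h :=
    (continuous_const.mul (h2.comp (by fun_prop))).intervalIntegrable _ _
  have i3 : IntervalIntegrable (fun v => c * f₃ (u + v)) volume 0 h :=
    (continuous_const.mul (h3.comp (by fun_prop))).intervalIntegrable _ _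
  unfold Av
  rw [intervalIntegral.integral_add (i1.add i2) i3, intervalIntegral.integral_add i1 i2,
    intervalIntegral.integral_const_mul, intervalIntegral.integral_const_mul,
    intervalIntegral.integral_const_mul]
  ring

/-- With `A = Av h e`: `Av (2h) e = (A + A(· + h))/2`, so
`Av (2h) (Av (2h) e) u = (Av h A u + 2 Av h A (u + h) + Av h A (u + 2h)) / 4` (linearity and
translation of `Av h`), and `Av h (g h) u = (3 Av h A u - 2 Av h A (u+h) - Av h A (u+2h))/4`. -/
theorem tel_step {h : ℝ} (hh : 0 < h) (u : ℝ) :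
    Av h (Av h e) u = Av (2 * h) (Av (2 * h) e) u + Av h (g h) u := by
  have hA : Continuous (Av h e) := av_cont e_loc h
  have hA2 : Continuous (Av (2 * h) e) := av_cont e_loc (2 * h)
  have hAs : ∀ c : ℝ, Continuous (fun v => Av h e (v + c)) := fun c => hA.comp (by fun_prop)
  have e1 : Av (2 * h) e = fun v => 1 / 2 * Av h e v + 1 / 2 * Av h e (v + h) +
      0 * Av h e (v + h) := by
    funext v
    rw [av_double e_loc hh v]
    ring
  have e2 : ∀ w, Av h (Av (2 * h) e) w = 1 / 2 * Av h (Av h e) w +
      1 / 2 * Av h (Av h e) (w + h) := by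
    intro w
    rw [e1, tel_lin hA (hAs h) (hAs h), tel_translate]
    ring
  have e3 : Av (2 * h) (Av (2 * h) e) u =
      (Av h (Av (2 * h) e) u + Av h (Av (2 * h) e) (u + h)) / 2 :=
    av_double (fun a b => hA2.intervalIntegrable a b) hh u
  have e4 : g h = fun v => 3 / 4 * Av h e v + (-(1 / 2)) * Av h e (v + h) +
      (-(1 / 4)) * Av h e (v + 2 * h) := by
    funext v
    unfold g
    ring
  have e5 : Av h (g h) u = 3 / 4 * Av h (Av h e) u + (-(1 / 2)) * Av h (Av h e) (u + h) +
      (-(1 / 4)) * Av h (Av h e) (u + 2 * h) := by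
    rw [e4, tel_lin hA (hAs h) (hAs (2 * h)), tel_translate, tel_translate]
  rw [e3, e5, e2, e2, show u + h + h = u + 2 * h by ring]
  ring

theorem tel (K : ℕ) (u : ℝ) :
    Av ((1 / 2) ^ K) (Av ((1 / 2) ^ K) e) u = Av 1 (Av 1 e) u +
      ∑ j ∈ Finset.range K, Av ((1 / 2) ^ (j + 1)) (g ((1 / 2) ^ (j + 1))) u := by
  induction K with
  | zero => simp
  | succ K ih =>
    have h0 : (0 : ℝ) < (1 / 2) ^ (K + 1) := by positivity
    have h1 := tel_step h0 u
    have h2 : 2 * (1 / 2 : ℝ) ^ (K + 1) = (1 / 2) ^ K := by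
      rw [pow_succ]
      ring
    rw [h2] at h1
    rw [h1, ih, Finset.sum_range_succ]
    ring

end ERT
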