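import Pool.Agent.Lib.MP_ed189b_nt.Cls
import Pool.Agent.Lib.MP_ed189b_nt.Gb
import Pool.Agent.Lib.MP_ed189b_nt.San
import Pool.Agent.Lib.MP_ed189b_nt.Tel
import Pool.Agent.Lib.MP_ed189b_nt.Blk

/-!
# MP_ed189b_nt: the main estimate
-/

set_option autoImplicit false

noncomputable section

namespace ERT

open Complex Filter Topology Set MeasureTheory

/-- block sums of squares of means -/
private theorem finA_sum {f : ℝ → ℝ} (hf : Continuous f) {k : ℝ} (hk : 0 < k) (hk1 : k ≤ 1)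
    {N : ℕ} (hN : 50 ≤ N)
    (hi : Integrable (fun u => f u ^ 2 * Real.exp (-(2 * (1 / (2 * (N : ℝ))) * u)))) (v : ℕ → ℝ)
    (hv : ∀ n ∈ Finset.Ico N (2 * N), (n : ℝ) - 1 ≤ v n ∧ v n ≤ n + 1) :
    ∑ n ∈ Finset.Ico N (2 * N), (Av k f (v n)) ^ 2 ≤
      k⁻¹ * (1000 * ∫ u, f u ^ 2 * Real.exp (-(2 * (1 / (2 * (N : ℝ))) * u))) := by
  have hN0 : (0:ℝ) < N := by
    have : 0 < N := by omega
    exact_mod_cast this
  have he : ∀ u : ℝ, -(2 * (1 / (2 * (N : ℝ))) * u) = -(u / N) := by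
    intro u
    field_simp
  simp only [he] at hi ⊢
  have h1 : ∑ n ∈ Finset.Ico N (2 * N), (Av k f (v n)) ^ 2 ≤
      ∑ n ∈ Finset.Ico N (2 * N), k⁻¹ * ∫ t in (v n)..(v n + k), f t ^ 2 :=
    Finset.sum_le_sum fun n _ => sup_av hf hk (v n)
  refine h1.trans ?_
  rw [← Finset.mul_sum]
  refine mul_le_mul_of_nonneg_left ?_ (inv_nonneg.2 hk.le)
  refine blk (f := fun t => f t ^ 2) (hf.pow 2) (fun u => sq_nonneg _) (by omega) hi v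
    (fun n => v n + k) (fun n hn => ?_)
  obtain ⟨h2, h3⟩ := hv n hn
  exact ⟨by linarith, by linarith, by linarith⟩

private theorem finA_alpha {N : ℕ} (hN : 50 ≤ N) :
    (0:ℝ) < 1 / (2 * (N : ℝ)) ∧ 1 / (2 * (N : ℝ)) ≤ 1 / 100 := by
  have hN0 : (50:ℝ) ≤ N := by exact_mod_cast hN
  refine ⟨by positivity, ?_⟩
  exact one_div_le_one_div_of_le (by norm_num) (by linarith)

/-- One scale: `k = (1/2)^(j+1)`, `j < 2N`, `α = 1/(2N)` (so `2 α t = t / N`). By `sup_av`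
(`g_cont`), `blk` with `f = g k ^ 2`, `w n = v n + k`, and `g_sq`:
`≤ 1000 (1/k) C k² (J (1/k) α + 1/k)`; `1/k = 2^(j+1) = T`, and `mv`
(`α log T = (j+1) log 2 / (2N) ≤ 1`) gives `J T α ≤ C T log T / α ≤ C T (2N) (2N)`. -/
theorem fin_scale (h : ZF) : ∃ C : ℝ, 0 < C ∧ ∀ (N j : ℕ) (v : ℕ → ℝ), 50 ≤ N → j < 2 * N →
    (∀ n ∈ Finset.Ico N (2 * N), (n : ℝ) - 1 ≤ v n ∧ v n ≤ n + 1) →
    ∑ n ∈ Finset.Ico N (2 * N), (Av ((1 / 2) ^ (j + 1)) (g ((1 / 2) ^ (j + 1))) (v n)) ^ 2 ≤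
      C * (N : ℝ) ^ 2 := by
  obtain ⟨C1, hC1, H1⟩ := g_sq h
  obtain ⟨C2, hC2, H2⟩ := mv h
  refine ⟨1000 * C1 * (4 * C2 + 1), by positivity, fun N j v hN hj hv => ?_⟩
  obtain ⟨hα, hα1⟩ := finA_alpha hN
  have hN50 : (50:ℝ) ≤ N := by exact_mod_cast hN
  have hN0 : (0:ℝ) < N := by linarith
  obtain ⟨T, hT⟩ : ∃ T : ℝ, T = 2 ^ (j + 1) := ⟨_, rfl⟩
  have hT0 : 0 < T := by
    rw [hT]
    positivity
  have hT2 : 2 ≤ T := by
    rw [hT, pow_succ]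
    have : (1:ℝ) ≤ 2 ^ j := one_le_pow₀ (by norm_num)
    linarith
  have hk : ((1:ℝ) / 2) ^ (j + 1) = T⁻¹ := by
    rw [hT, one_div, inv_pow]
  rw [hk]
  have hk0 : 0 < T⁻¹ := inv_pos.2 hT0
  have hk1 : T⁻¹ ≤ 1 := inv_le_one_of_one_le₀ (by linarith)
  obtain ⟨hi, hle⟩ := H1 T⁻¹ (1 / (2 * (N : ℝ))) hk0 hk1 hα hα1
  have h1 := finA_sum (g_cont hk0) hk0 hk1 hN hi v hv
  have hlog : Real.log T ≤ 2 * N := by
    rw [hT, Real.log_pow]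
    have h2 : Real.log 2 ≤ 1 := by
      have := Real.log_two_lt_d9
      linarith
    have h3 : ((j + 1 : ℕ) : ℝ) ≤ 2 * N := by exact_mod_cast hj
    have h4 : 0 ≤ Real.log 2 := Real.log_nonneg (by norm_num)
    calc ((j + 1 : ℕ) : ℝ) * Real.log 2 ≤ ((j + 1 : ℕ) : ℝ) * 1 :=
          mul_le_mul_of_nonneg_left h2 (Nat.cast_nonneg _)
      _ ≤ 2 * N := by rw [mul_one]; exact h3
  have h2 := H2 T (1 / (2 * (N : ℝ))) hT2 hα hα1 (by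
    rw [one_div, inv_mul_le_iff₀ (by positivity), mul_one]
    exact hlog)
  have h3 : J T (1 / (2 * (N : ℝ))) ≤ C2 * T * (4 * N ^ 2) := by
    refine h2.trans ?_
    have e1 : C2 * T * Real.log T / (1 / (2 * (N : ℝ))) = C2 * T * (Real.log T * (2 * N)) := by
      rw [div_div_eq_mul_div, div_one]
      ring
    rw [e1]
    refine mul_le_mul_of_nonneg_left ?_ (by positivity)
    calc Real.log T * (2 * N) ≤ (2 * N) * (2 * N) :=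
          mul_le_mul_of_nonneg_right hlog (by positivity)
      _ = 4 * N ^ 2 := by ring
  have e2 : 1 / T⁻¹ = T := by rw [one_div, inv_inv]
  rw [e2] at hle
  refine h1.trans ?_
  have h4 : T⁻¹⁻¹ * (1000 * ∫ u, g T⁻¹ u ^ 2 * Real.exp (-(2 * (1 / (2 * (N : ℝ))) * u))) ≤
      T * (1000 * (C1 * T⁻¹ ^ 2 * (C2 * T * (4 * N ^ 2) + T))) := by
    rw [inv_inv]
    refine mul_le_mul_of_nonneg_left ?_ hT0.le
    refine mul_le_mul_of_nonneg_left ?_ (by norm_num)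
    refine hle.trans ?_
    refine mul_le_mul_of_nonneg_left ?_ (by positivity)
    linarith
  refine h4.trans ?_
  have e3 : T * (1000 * (C1 * T⁻¹ ^ 2 * (C2 * T * (4 * N ^ 2) + T))) =
      1000 * C1 * (4 * C2 * N ^ 2 + 1) := by
    field_simp
  rw [e3]
  have h5 : (1:ℝ) ≤ (N:ℝ) ^ 2 := by nlinarith
  have h6 : 4 * C2 * (N:ℝ) ^ 2 + 1 ≤ (4 * C2 + 1) * (N:ℝ) ^ 2 := by linarith
  calc 1000 * C1 * (4 * C2 * (N:ℝ) ^ 2 + 1) ≤ 1000 * C1 * ((4 * C2 + 1) * (N:ℝ) ^ 2) :=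
        mul_le_mul_of_nonneg_left h6 (by positivity)
    _ = 1000 * C1 * (4 * C2 + 1) * (N:ℝ) ^ 2 := by ring

/-- The base: `f = Av 1 e ^ 2`, `av_sq`, `J_mono` (`J 1 α ≤ J 2 α`) and `mv` with `T = 2`. -/
theorem fin_base (h : ZF) : ∃ C : ℝ, 0 < C ∧ ∀ (N : ℕ) (v : ℕ → ℝ), 50 ≤ N →
    (∀ n ∈ Finset.Ico N (2 * N), (n : ℝ) - 1 ≤ v n ∧ v n ≤ n + 1) →
    ∑ n ∈ Finset.Ico N (2 * N), (Av 1 (Av 1 e) (v n)) ^ 2 ≤ C * (N : ℝ) ^ 2 := by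
  obtain ⟨C1, hC1, H1⟩ := av_sq h
  obtain ⟨C2, hC2, H2⟩ := mv h
  refine ⟨1000 * C1 * (4 * C2 + 1), by positivity, fun N v hN hv => ?_⟩
  obtain ⟨hα, hα1⟩ := finA_alpha hN
  have hN50 : (50:ℝ) ≤ N := by exact_mod_cast hN
  have hN0 : (0:ℝ) < N := by linarith
  obtain ⟨hi, hle⟩ := H1 (1 / (2 * (N : ℝ))) hα hα1
  have h1 := finA_sum (av_cont e_loc 1) one_pos le_rfl hN hi v hv
  have hl2 : Real.log 2 ≤ 1 := by
    have := Real.log_two_lt_d9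
    linarith
  have hl0 : 0 ≤ Real.log 2 := Real.log_nonneg (by norm_num)
  have h2 := H2 2 (1 / (2 * (N : ℝ))) le_rfl hα hα1 (by
    have : 1 / (2 * (N : ℝ)) * Real.log 2 ≤ 1 / 100 * 1 :=
      mul_le_mul hα1 hl2 hl0 (by norm_num)
    linarith)
  have h3 : J 1 (1 / (2 * (N : ℝ))) ≤ J 2 (1 / (2 * (N : ℝ))) :=
    J_mono h hα hα1 one_pos (by norm_num)
  have h4 : J 1 (1 / (2 * (N : ℝ))) ≤ 4 * C2 * N := by
    refine h3.trans (h2.trans ?_)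
    have e1 : C2 * 2 * Real.log 2 / (1 / (2 * (N : ℝ))) = 4 * C2 * N * Real.log 2 := by
      rw [div_div_eq_mul_div, div_one]
      ring
    rw [e1]
    have : 4 * C2 * N * Real.log 2 ≤ 4 * C2 * N * 1 :=
      mul_le_mul_of_nonneg_left hl2 (by positivity)
    linarith
  refine h1.trans ?_
  rw [inv_one, one_mul]
  have h5 : (1000:ℝ) * ∫ u, Av 1 e u ^ 2 * Real.exp (-(2 * (1 / (2 * (N : ℝ))) * u)) ≤
      1000 * (C1 * (4 * C2 * N + 1)) := by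
    refine mul_le_mul_of_nonneg_left ?_ (by norm_num)
    refine hle.trans (mul_le_mul_of_nonneg_left ?_ hC1.le)
    linarith
  refine h5.trans ?_
  have h6 : (N:ℝ) ≤ (N:ℝ) ^ 2 := by nlinarith
  have h7 : (1:ℝ) ≤ (N:ℝ) ^ 2 := by nlinarith
  have h8 : 4 * C2 * (N:ℝ) + 1 ≤ (4 * C2 + 1) * (N:ℝ) ^ 2 := by
    have : 4 * C2 * (N:ℝ) ≤ 4 * C2 * (N:ℝ) ^ 2 :=
      mul_le_mul_of_nonneg_left h6 (by positivity)
    linarith
  calc 1000 * (C1 * (4 * C2 * (N:ℝ) + 1)) ≤ 1000 * (C1 * ((4 * C2 + 1) * (N:ℝ) ^ 2)) :=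
        mul_le_mul_of_nonneg_left (mul_le_mul_of_nonneg_left h8 hC1.le) (by norm_num)
    _ = 1000 * C1 * (4 * C2 + 1) * (N:ℝ) ^ 2 := by ring

end ERT
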