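import Pool.Agent.Lib.MP_ed189b_nt.FinA

/-!
# MP_ed189b_nt: the sum over the blocks
-/

set_option autoImplicit false

noncomputable section

namespace ERT

open Complex Filter Topology Set MeasureTheory

/-- `tel` with `K = 2N` and Cauchy-Schwarz: `(a + ∑_{j < K} b j)² ≤ 2 a² + 2 K ∑ (b j)²`
(`sq_sum_le_card_mul_sum_sq`), exchange the sums, `fin_scale` and `fin_base`:
`≤ 2 C N² + 4 N (2N) C N²`. -/
theorem fin_av (h : ZF) : ∃ C : ℝ, 0 < C ∧ ∀ (N : ℕ) (v : ℕ → ℝ), 50 ≤ N →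
    (∀ n ∈ Finset.Ico N (2 * N), (n : ℝ) - 1 ≤ v n ∧ v n ≤ n + 1) →
    ∑ n ∈ Finset.Ico N (2 * N),
      (Av ((1 / 2) ^ (2 * N)) (Av ((1 / 2) ^ (2 * N)) e) (v n)) ^ 2 ≤ C * (N : ℝ) ^ 4 := by
  obtain ⟨C1, hC1, h1⟩ := fin_scale h
  obtain ⟨C2, hC2, h2⟩ := fin_base h
  refine ⟨2 * C2 + 8 * C1, by positivity, fun N v hN hv => ?_⟩
  have hN1 : (1 : ℝ) ≤ N := by
    have : 1 ≤ N := by omega
    exact_mod_cast this
  have hterm : ∀ n ∈ Finset.Ico N (2 * N),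
      (Av ((1 / 2) ^ (2 * N)) (Av ((1 / 2) ^ (2 * N)) e) (v n)) ^ 2 ≤
        2 * (Av 1 (Av 1 e) (v n)) ^ 2 + 4 * N * ∑ j ∈ Finset.range (2 * N),
          (Av ((1 / 2) ^ (j + 1)) (g ((1 / 2) ^ (j + 1))) (v n)) ^ 2 := by
    intro n _
    rw [tel (2 * N) (v n)]
    have h3 := sq_sum_le_card_mul_sum_sq (s := Finset.range (2 * N))
      (f := fun j => Av ((1 / 2) ^ (j + 1)) (g ((1 / 2) ^ (j + 1))) (v n))
    rw [Finset.card_range] at h3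
    push_cast at h3
    have h4 : ∀ a b : ℝ, (a + b) ^ 2 ≤ 2 * a ^ 2 + 2 * b ^ 2 := fun a b => by
      nlinarith [sq_nonneg (a - b)]
    refine (h4 _ _).trans ?_
    linarith
  refine (Finset.sum_le_sum hterm).trans ?_
  rw [Finset.sum_add_distrib, ← Finset.mul_sum, ← Finset.mul_sum, Finset.sum_comm]
  have h5 := h2 N v hN hv
  have h6 : ∑ j ∈ Finset.range (2 * N), ∑ n ∈ Finset.Ico N (2 * N),
      (Av ((1 / 2) ^ (j + 1)) (g ((1 / 2) ^ (j + 1))) (v n)) ^ 2 ≤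
      ∑ _j ∈ Finset.range (2 * N), C1 * (N : ℝ) ^ 2 :=
    Finset.sum_le_sum fun j hj => h1 N j v hN (Finset.mem_range.1 hj) hv
  rw [Finset.sum_const, Finset.card_range, nsmul_eq_mul] at h6
  push_cast at h6
  have h7 : 4 * (N : ℝ) * ∑ j ∈ Finset.range (2 * N), ∑ n ∈ Finset.Ico N (2 * N),
      (Av ((1 / 2) ^ (j + 1)) (g ((1 / 2) ^ (j + 1))) (v n)) ^ 2 ≤
      4 * (N : ℝ) * (2 * N * (C1 * (N : ℝ) ^ 2)) :=
    mul_le_mul_of_nonneg_left h6 (by positivity)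
  have h8 : (N : ℝ) ^ 2 ≤ (N : ℝ) ^ 4 := pow_le_pow_right₀ hN1 (by norm_num)
  have h9 : C2 * (N : ℝ) ^ 2 ≤ C2 * (N : ℝ) ^ 4 := mul_le_mul_of_nonneg_left h8 hC2.le
  have h10 : 4 * (N : ℝ) * (2 * N * (C1 * (N : ℝ) ^ 2)) = 8 * C1 * (N : ℝ) ^ 4 := by ring
  rw [h10] at h7
  have h11 : (2 * C2 + 8 * C1) * (N : ℝ) ^ 4 = 2 * (C2 * (N : ℝ) ^ 4) + 8 * C1 * (N : ℝ) ^ 4 := by
    ring
  rw [h11]
  linarith

/-- `san` with the step `(1/2)^(2N)`, which is at most `exp (-N) ≤ exp (-u/2)` as `4 ≥ e`: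
`(e u)² ≤ 2 C² + 2 A(u)² + 2 A(u - 2 step)²`, and `fin_av` for `v = u` and
`v = u - 2 step`. -/
theorem fin_main (h : ZF) : ∃ C : ℝ, 0 < C ∧ ∀ (N : ℕ) (u : ℕ → ℝ), 50 ≤ N →
    (∀ n ∈ Finset.Ico N (2 * N), (n : ℝ) ≤ u n ∧ u n ≤ n + 1) →
    ∑ n ∈ Finset.Ico N (2 * N), (e (u n)) ^ 2 ≤ C * (N : ℝ) ^ 4 := by
  obtain ⟨Ca, hCa, ha⟩ := fin_av h
  obtain ⟨Cs, hCs, hs⟩ := san
  refine ⟨2 * Cs ^ 2 + 4 * Ca, by positivity, fun N u hN hu => ?_⟩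
  have hN50 : (50 : ℝ) ≤ N := by exact_mod_cast hN
  have hN1 : (1 : ℝ) ≤ N := by linarith
  have hst0 : (0 : ℝ) < (1 / 2) ^ (2 * N) := by positivity
  have hst1 : (1 / 2 : ℝ) ^ (2 * N) ≤ Real.exp (-(N : ℝ)) := by
    have e1 : (1 / 2 : ℝ) ^ (2 * N) = (1 / 4) ^ N := by
      rw [pow_mul]
      norm_num
    have e2 : Real.exp (-(N : ℝ)) = Real.exp (-1) ^ N := by
      rw [← Real.exp_nat_mul]
      congr 1
      ring
    rw [e1, e2]
    refine pow_le_pow_left₀ (by norm_num) ?_ _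
    rw [Real.exp_neg, one_div]
    refine inv_anti₀ (Real.exp_pos _) ?_
    have := Real.exp_one_lt_d9
    linarith
  have hst2 : (1 / 2 : ℝ) ^ (2 * N) ≤ 1 / 2 := by
    have := pow_le_pow_of_le_one (by norm_num : (0 : ℝ) ≤ 1 / 2) (by norm_num) (
      by omega : 1 ≤ 2 * N)
    rwa [pow_one] at this
  have hterm : ∀ n ∈ Finset.Ico N (2 * N), (e (u n)) ^ 2 ≤ 2 * Cs ^ 2 +
      (2 * (Av ((1 / 2) ^ (2 * N)) (Av ((1 / 2) ^ (2 * N)) e) (u n)) ^ 2 +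
      2 * (Av ((1 / 2) ^ (2 * N)) (Av ((1 / 2) ^ (2 * N)) e)
        (u n - 2 * (1 / 2) ^ (2 * N))) ^ 2) := by
    intro n hn
    rw [Finset.mem_Ico] at hn
    obtain ⟨hu1, hu2⟩ := hu n (Finset.mem_Ico.2 hn)
    have hn1 : (N : ℝ) ≤ n := by exact_mod_cast hn.1
    have hn2 : (n : ℝ) + 1 ≤ 2 * N := by
      have : n + 1 ≤ 2 * N := by omega
      exact_mod_cast this
    have h1 := hs (u n) ((1 / 2) ^ (2 * N)) (by linarith) hst0
      (hst1.trans (Real.exp_le_exp.2 (by linarith)))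
    set A := Av ((1 / 2) ^ (2 * N)) (Av ((1 / 2) ^ (2 * N)) e) (u n)
    set B := Av ((1 / 2) ^ (2 * N)) (Av ((1 / 2) ^ (2 * N)) e) (u n - 2 * (1 / 2) ^ (2 * N))
    have h2 : e (u n) ^ 2 ≤ (Cs + max |A| |B|) ^ 2 := by
      rw [← sq_abs]
      exact pow_le_pow_left₀ (abs_nonneg _) h1 2
    have h3 : (Cs + max |A| |B|) ^ 2 ≤ 2 * Cs ^ 2 + 2 * (max |A| |B|) ^ 2 := by
      nlinarith [sq_nonneg (Cs - max |A| |B|)]
    have h4 : (max |A| |B|) ^ 2 ≤ A ^ 2 + B ^ 2 := by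
      rcases max_choice |A| |B| with h5 | h5
      · rw [h5, sq_abs]
        nlinarith [sq_nonneg B]
      · rw [h5, sq_abs]
        nlinarith [sq_nonneg A]
    linarith
  refine (Finset.sum_le_sum hterm).trans ?_
  rw [Finset.sum_add_distrib, Finset.sum_add_distrib, Finset.sum_const, Nat.card_Ico,
    nsmul_eq_mul, ← Finset.mul_sum, ← Finset.mul_sum]
  have h5 := ha N u hN fun n hn => ⟨by linarith [(hu n hn).1], (hu n hn).2⟩
  have h6 := ha N (fun n => u n - 2 * (1 / 2) ^ (2 * N)) hN fun n hn =>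
    ⟨by linarith [(hu n hn).1], by linarith [(hu n hn).2]⟩
  have h7 : ((2 * N - N : ℕ) : ℝ) = N := by
    congr 1
    omega
  rw [h7]
  have h8 : (N : ℝ) ≤ (N : ℝ) ^ 4 := by
    have := pow_le_pow_right₀ hN1 (by norm_num : 1 ≤ 4)
    rwa [pow_one] at this
  have h9 : (N : ℝ) * (2 * Cs ^ 2) ≤ (N : ℝ) ^ 4 * (2 * Cs ^ 2) :=
    mul_le_mul_of_nonneg_right h8 (by positivity)
  have h10 : (2 * Cs ^ 2 + 4 * Ca) * (N : ℝ) ^ 4 =
      (N : ℝ) ^ 4 * (2 * Cs ^ 2) + (2 * (Ca * (N : ℝ) ^ 4) + 2 * (Ca * (N : ℝ) ^ 4)) := by ring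
  rw [h10]
  refine add_le_add h9 (add_le_add ?_ ?_)
  · linarith
  · linarith

private theorem finB_sq {x : ℝ} (hx : 1 ≤ x) :
    (e (Real.log x)) ^ 2 = (Chebyshev.psi x - x) ^ 2 / x := by
  have hx0 : 0 < x := by linarith
  unfold e
  rw [if_pos (Real.log_nonneg hx), Real.exp_log hx0, mul_pow, ← Real.exp_nat_mul]
  have h1 : ((2 : ℕ) : ℝ) * (-Real.log x / 2) = -Real.log x := by
    push_cast
    ring
  rw [h1, Real.exp_neg, Real.exp_log hx0]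
  rfl

/-- For `N < 50` by `e_bound` (`u n ≤ 100`). With `u n = log (x n)`:
`(e (log x))² = (ψ x - x)² / x` for `x ≥ 1`. -/
theorem fin_all (h : ZF) : ∃ C : ℝ, 0 < C ∧ ∀ (N : ℕ) (x : ℕ → ℝ), 1 ≤ N →
    (∀ n ∈ Finset.Ico N (2 * N), Real.exp n ≤ x n ∧ x n ≤ Real.exp (n + 1)) →
    ∑ n ∈ Finset.Ico N (2 * N), (Chebyshev.psi (x n) - x n) ^ 2 / x n ≤ C * (N : ℝ) ^ 4 := by
  obtain ⟨Cm, hCm, hm⟩ := fin_main h
  obtain ⟨Cb, hCb, hb⟩ := e_bound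
  refine ⟨Cm + 50 * (Cb ^ 2 * Real.exp 100), by positivity, fun N x hN hx => ?_⟩
  have hN1 : (1 : ℝ) ≤ N := by exact_mod_cast hN
  have h4 : (1 : ℝ) ≤ (N : ℝ) ^ 4 := one_le_pow₀ hN1
  have hx1 : ∀ n ∈ Finset.Ico N (2 * N), 1 ≤ x n := fun n hn =>
    (Real.one_le_exp (Nat.cast_nonneg n)).trans (hx n hn).1
  have hu : ∀ n ∈ Finset.Ico N (2 * N), (n : ℝ) ≤ Real.log (x n) ∧ Real.log (x n) ≤ n + 1 := by
    intro n hn
    obtain ⟨h1, h2⟩ := hx n hn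
    have h3 := hx1 n hn
    constructor
    · rw [← Real.log_exp (n : ℝ)]
      exact Real.log_le_log (Real.exp_pos _) h1
    · rw [← Real.log_exp ((n : ℝ) + 1)]
      exact Real.log_le_log (by linarith) h2
  have hs : ∑ n ∈ Finset.Ico N (2 * N), (Chebyshev.psi (x n) - x n) ^ 2 / x n =
      ∑ n ∈ Finset.Ico N (2 * N), (e (Real.log (x n))) ^ 2 :=
    Finset.sum_congr rfl fun n hn => (finB_sq (hx1 n hn)).symm
  rw [hs]
  have hcb : 0 < 50 * (Cb ^ 2 * Real.exp 100) := by positivity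
  by_cases hN50 : 50 ≤ N
  · refine (hm N (fun n => Real.log (x n)) hN50 hu).trans ?_
    exact mul_le_mul_of_nonneg_right (by linarith) (by positivity)
  · have h5 : ∀ n ∈ Finset.Ico N (2 * N), (e (Real.log (x n))) ^ 2 ≤ Cb ^ 2 * Real.exp 100 := by
      intro n hn
      have h6 := (hu n hn).2
      rw [Finset.mem_Ico] at hn
      have h7 : (n : ℝ) + 1 ≤ 100 := by
        have : n + 1 ≤ 100 := by omega
        exact_mod_cast this
      have h8 := hb (Real.log (x n))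
      have h9 : (e (Real.log (x n))) ^ 2 ≤ (Cb * Real.exp (Real.log (x n) / 2)) ^ 2 := by
        rw [← sq_abs]
        exact pow_le_pow_left₀ (abs_nonneg _) h8 2
      refine h9.trans ?_
      rw [mul_pow, ← Real.exp_nat_mul]
      refine mul_le_mul_of_nonneg_left (Real.exp_le_exp.2 ?_) (by positivity)
      push_cast
      linarith
    refine (Finset.sum_le_sum h5).trans ?_
    rw [Finset.sum_const, Nat.card_Ico, nsmul_eq_mul]
    have h7 : ((2 * N - N : ℕ) : ℝ) ≤ 50 := by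
      have : 2 * N - N ≤ 50 := by omega
      exact_mod_cast this
    have h8 : ((2 * N - N : ℕ) : ℝ) * (Cb ^ 2 * Real.exp 100) ≤ 50 * (Cb ^ 2 * Real.exp 100) :=
      mul_le_mul_of_nonneg_right h7 (by positivity)
    refine h8.trans ?_
    have h9 : Cm + 50 * (Cb ^ 2 * Real.exp 100) ≤
        (Cm + 50 * (Cb ^ 2 * Real.exp 100)) * (N : ℝ) ^ 4 :=
      le_mul_of_one_le_right (by linarith) h4
    linarith

end ERT
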