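import Pool.Agent.Lib.MP_ed189b_nt.FD

/-!
# MP_ed189b_nt: polynomial growth of F
-/

set_option autoImplicit false

noncomputable section

namespace ERT

open Complex Filter Topology Set

private def gro_phi (x : ℝ) : ℂ := (Ioi (1 : ℝ)).indicator (fun x => ((Int.fract x : ℝ) : ℂ)) x

private lemma gro_phi_norm (x : ℝ) : ‖gro_phi x‖ ≤ 1 := by
  unfold gro_phi
  by_cases h : x ∈ Ioi (1 : ℝ)
  · rw [indicator_of_mem h, Complex.norm_real, Real.norm_eq_abs, abs_of_nonneg (Int.fract_nonneg x)]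
    exact (Int.fract_lt_one x).le
  · rw [indicator_of_notMem h, norm_zero]
    exact zero_le_one

private lemma gro_phi_meas : Measurable gro_phi :=
  (Complex.measurable_ofReal.comp measurable_fract).indicator measurableSet_Ioi

private lemma gro_phi_loc : MeasureTheory.LocallyIntegrableOn gro_phi (Ioi 0) := by
  have h1 : MeasureTheory.LocallyIntegrable gro_phi := by
    intro x
    refine ⟨Icc (x - 1) (x + 1), Icc_mem_nhds (by linarith) (by linarith), ?_⟩
    refine MeasureTheory.Measure.integrableOn_of_bounded (M := 1) ?_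
      gro_phi_meas.aestronglyMeasurable (Filter.Eventually.of_forall gro_phi_norm)
    rw [Real.volume_Icc]
    exact ENNReal.ofReal_ne_top
  exact h1.locallyIntegrableOn _

private lemma gro_phi_inf : gro_phi =O[atTop] fun x : ℝ => x ^ (-(0 : ℝ)) := by
  refine Asymptotics.IsBigO.of_bound 1 (Filter.Eventually.of_forall fun x => ?_)
  rw [neg_zero, Real.rpow_zero, norm_one, mul_one]
  exact gro_phi_norm x

private lemma gro_phi_zero (b : ℝ) : gro_phi =O[𝓝[>] 0] fun x : ℝ => x ^ (-b) := by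
  have h1 : gro_phi =ᶠ[𝓝[>] 0] fun _ => 0 := by
    have h2 : Iio (1 : ℝ) ∈ 𝓝[>] (0 : ℝ) := mem_nhdsWithin_of_mem_nhds (Iio_mem_nhds one_pos)
    filter_upwards [h2] with x hx
    unfold gro_phi
    exact indicator_of_notMem (fun h => absurd (mem_Iio.1 hx) (not_lt.2 (mem_Ioi.1 h).le)) _
  exact h1.trans_isBigO (Asymptotics.isBigO_zero _ _)

private lemma gro_diff {s : ℂ} (hs : 0 < s.re) :
    DifferentiableAt ℂ (fun s => mellin gro_phi (-s)) s := by
  have h1 : DifferentiableAt ℂ (mellin gro_phi) (-s) :=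
    mellin_differentiableAt_of_isBigO_rpow (a := 0) (b := -s.re - 1) gro_phi_loc gro_phi_inf
      (by rw [Complex.neg_re]; linarith) (gro_phi_zero _) (by rw [Complex.neg_re]; linarith)
  exact h1.comp s differentiableAt_id.neg

private lemma gro_mellin (s : ℂ) : mellin gro_phi (-s) =
    ∫ x in Ioi (1 : ℝ), ((Int.fract x : ℝ) : ℂ) * (x : ℂ) ^ (-(s + 1)) := by
  unfold mellin
  have h1 : ∀ x : ℝ, (x : ℂ) ^ (-s - 1) • gro_phi x =
      (Ioi (1 : ℝ)).indicator (fun x => ((Int.fract x : ℝ) : ℂ) * (x : ℂ) ^ (-(s + 1))) x := by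
    intro x
    unfold gro_phi
    by_cases h : x ∈ Ioi (1 : ℝ)
    · rw [indicator_of_mem h, indicator_of_mem h, smul_eq_mul, mul_comm]
      congr 2
      ring
    · rw [indicator_of_notMem h, indicator_of_notMem h, smul_zero]
  simp_rw [h1]
  rw [MeasureTheory.setIntegral_indicator measurableSet_Ioi]
  congr 2
  ext x
  simp only [mem_inter_iff, mem_Ioi]
  exact ⟨fun h => h.2, fun h => ⟨by linarith, h⟩⟩

private lemma gro_norm_le {s : ℂ} (x : ℝ) (hx : x ∈ Ioi (1 : ℝ)) :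
    ‖((Int.fract x : ℝ) : ℂ) * (x : ℂ) ^ (-(s + 1))‖ ≤ x ^ (-(s.re + 1)) := by
  have hx0 : (0 : ℝ) < x := by
    have := mem_Ioi.1 hx
    linarith
  rw [norm_mul, Complex.norm_real, Real.norm_eq_abs, abs_of_nonneg (Int.fract_nonneg x),
    Complex.norm_cpow_eq_rpow_re_of_pos hx0, Complex.neg_re, Complex.add_re, Complex.one_re]
  exact mul_le_of_le_one_left (Real.rpow_nonneg hx0.le _) (Int.fract_lt_one x).le

private lemma gro_meas (s : ℂ) : MeasureTheory.AEStronglyMeasurable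
    (fun x : ℝ => ((Int.fract x : ℝ) : ℂ) * (x : ℂ) ^ (-(s + 1)))
      (MeasureTheory.volume.restrict (Ioi (1 : ℝ))) :=
  ((Complex.measurable_ofReal.comp measurable_fract).mul
    (Complex.measurable_ofReal.pow_const _)).aestronglyMeasurable

private lemma gro_bound {s : ℂ} (hs : 0 < s.re) : ‖mellin gro_phi (-s)‖ ≤ 1 / s.re := by
  rw [gro_mellin]
  have h1 : MeasureTheory.IntegrableOn (fun x : ℝ => x ^ (-(s.re + 1))) (Ioi 1) :=
    integrableOn_Ioi_rpow_of_lt (by linarith) one_pos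
  refine (MeasureTheory.norm_integral_le_of_norm_le h1
    ((MeasureTheory.ae_restrict_iff' measurableSet_Ioi).2
      (Filter.Eventually.of_forall fun x hx => gro_norm_le x hx))).trans (le_of_eq ?_)
  rw [integral_Ioi_rpow_of_lt (by linarith) one_pos, Real.one_rpow]
  have : -(s.re + 1) + 1 = -s.re := by ring
  rw [this, neg_div_neg_eq]

private lemma gro_int {s : ℂ} (hs : 0 < s.re) : MeasureTheory.IntegrableOn
    (fun x : ℝ => ((Int.fract x : ℝ) : ℂ) * (x : ℂ) ^ (-(s + 1))) (Ioi 1) := by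
  have h1 : MeasureTheory.IntegrableOn (fun x : ℝ => x ^ (-(s.re + 1))) (Ioi 1) :=
    integrableOn_Ioi_rpow_of_lt (by linarith) one_pos
  exact MeasureTheory.Integrable.mono' h1 (gro_meas s)
    ((MeasureTheory.ae_restrict_iff' measurableSet_Ioi).2
      (Filter.Eventually.of_forall fun x hx => gro_norm_le x hx))

private lemma gro_zeta {s : ℂ} (hs : 1 < s.re) :
    riemannZeta s = s * (1 / (s - 1) - mellin gro_phi (-s)) := by
  have h1 := LSeries_eq_mul_integral' 1 (r := 1) zero_le_one hs (by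
    refine Asymptotics.IsBigO.of_bound 1 (Filter.Eventually.of_forall fun n => ?_)
    simp)
  rw [LSeries_one_eq_riemannZeta hs] at h1
  rw [h1, gro_mellin]
  congr 1
  have h2 : 1 / (s - 1) = ∫ x in Ioi (1 : ℝ), (x : ℂ) ^ (-s) := by
    rw [integral_Ioi_cpow_of_lt (by rw [Complex.neg_re]; linarith) one_pos, Complex.ofReal_one,
      Complex.one_cpow]
    have : -s + 1 = -(s - 1) := by ring
    rw [this, neg_div_neg_eq]
  have hi : MeasureTheory.IntegrableOn (fun x : ℝ => (x : ℂ) ^ (-s)) (Ioi 1) :=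
    integrableOn_Ioi_cpow_of_lt (by rw [Complex.neg_re]; linarith) one_pos
  rw [h2, ← MeasureTheory.integral_sub hi (gro_int (by linarith))]
  refine MeasureTheory.setIntegral_congr_fun measurableSet_Ioi fun x hx => ?_
  have hx1 : (1 : ℝ) < x := mem_Ioi.1 hx
  have hx0 : (x : ℂ) ≠ 0 := Complex.ofReal_ne_zero.2 (by linarith)
  have e1 : (∑ k ∈ Finset.Icc 1 ⌊x⌋₊, (1 : ℕ → ℂ) k) = ((x - Int.fract x : ℝ) : ℂ) := by
    simp only [Pi.one_apply, Finset.sum_const, Nat.card_Icc, Nat.add_sub_cancel, nsmul_eq_mul,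
      mul_one]
    have e2 : x - Int.fract x = ((⌊x⌋₊ : ℕ) : ℝ) := by
      rw [natCast_floor_eq_intCast_floor (by linarith : (0 : ℝ) ≤ x)]
      exact Int.self_sub_fract x
    rw [e2, Complex.ofReal_natCast]
  rw [e1, Complex.ofReal_sub, sub_mul]
  congr 1
  have e3 : (-s : ℂ) = 1 + (-(s + 1)) := by ring
  rw [e3, Complex.cpow_add _ _ hx0, Complex.cpow_one]

/-- For `Re s > 1`: `ζ(s) = s ∫_1^∞ ⌊x⌋ x^(-s-1) dx` (`LSeries_eq_mul_integral` for the constant
function `1`, `LSeries_one_eq_riemannZeta`), so `F s = s - s (s - 1) R(s)`,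
`R(s) = ∫_1^∞ (x - ⌊x⌋) x^(-s-1) dx`. `R` is the Mellin transform at `-s` of `{x} 1_{x > 1}`,
differentiable for `Re s > 0` (`mellin_differentiableAt_of_isBigO_rpow` with `a = 0`, any `b`), and
`|R(s)| ≤ 1 / Re s`. By the identity theorem (`AnalyticOnNhd.eqOn_of_preconnected_of_eventuallyEq`
on the convex set `Re s > 0`) the formula holds for `Re s > 0`. -/
theorem F_formula {s : ℂ} (hs : 0 < s.re) : ∃ R : ℂ, ‖R‖ ≤ 1 / s.re ∧
    F s = s - s * (s - 1) * R := by
  refine ⟨mellin gro_phi (-s), gro_bound hs, ?_⟩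
  have hU : IsOpen {s : ℂ | 0 < s.re} := isOpen_lt continuous_const Complex.continuous_re
  have hc : IsPreconnected {s : ℂ | 0 < s.re} := (convex_halfSpace_re_gt 0).isPreconnected
  have hF : AnalyticOnNhd ℂ F {s : ℂ | 0 < s.re} :=
    (F_diff.differentiableOn).analyticOnNhd hU
  have hG : AnalyticOnNhd ℂ (fun s => s - s * (s - 1) * mellin gro_phi (-s))
      {s : ℂ | 0 < s.re} := by
    refine DifferentiableOn.analyticOnNhd (fun s hs => ?_) hU
    have h1 := gro_diff (s := s) hs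
    exact (differentiableAt_id.sub ((differentiableAt_id.mul
      (differentiableAt_id.sub_const 1)).mul h1)).differentiableWithinAt
  have h2 : (2 : ℂ) ∈ {s : ℂ | 0 < s.re} := by
    show 0 < (2 : ℂ).re
    norm_num
  have he : F =ᶠ[𝓝 (2 : ℂ)] fun s => s - s * (s - 1) * mellin gro_phi (-s) := by
    have h3 : {s : ℂ | 1 < s.re} ∈ 𝓝 (2 : ℂ) :=
      (isOpen_lt continuous_const Complex.continuous_re).mem_nhds (by
        show 1 < (2 : ℂ).re
        norm_num)
    filter_upwards [h3] with s hs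
    have hs1 : s ≠ 1 := by
      rintro rfl
      have h4 : 1 < (1 : ℂ).re := hs
      rw [Complex.one_re] at h4
      exact lt_irrefl 1 h4
    rw [F_eq hs1, gro_zeta hs]
    have : s - 1 ≠ 0 := sub_ne_zero.2 hs1
    field_simp
  exact hF.eqOn_of_preconnected_of_eventuallyEq hG hc h2 he hs

theorem F_growth : ∃ C : ℝ, 1 ≤ C ∧ ∀ s : ℂ, 1 / 10 ≤ s.re → s.re ≤ 4 →
    ‖F s‖ ≤ C * (|s.im| + 2) ^ 2 := by
  refine ⟨41, by norm_num, fun s h1 h2 => ?_⟩
  obtain ⟨R, hR, hF⟩ := F_formula (s := s) (by linarith)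
  have hR10 : ‖R‖ ≤ 10 := by
    refine hR.trans ?_
    rw [div_le_iff₀ (by linarith)]
    linarith
  have hn : ‖s‖ ≤ |s.im| + 4 := by
    have h3 := Complex.norm_le_abs_re_add_abs_im s
    have h4 : |s.re| ≤ 4 := abs_le.2 ⟨by linarith, h2⟩
    linarith
  have hn1 : ‖s - 1‖ ≤ |s.im| + 4 := by
    have h3 := Complex.norm_le_abs_re_add_abs_im (s - 1)
    rw [Complex.sub_re, Complex.sub_im, Complex.one_re, Complex.one_im, sub_zero] at h3
    have h4 : |s.re - 1| ≤ 4 := abs_le.2 ⟨by linarith, by linarith⟩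
    linarith
  have ha := abs_nonneg s.im
  rw [hF]
  have h5 : ‖s - s * (s - 1) * R‖ ≤ ‖s‖ + ‖s‖ * ‖s - 1‖ * ‖R‖ := by
    refine (norm_sub_le _ _).trans ?_
    rw [norm_mul, norm_mul]
  have h6 : ‖s‖ * ‖s - 1‖ ≤ (|s.im| + 4) * (|s.im| + 4) :=
    mul_le_mul hn hn1 (norm_nonneg _) (by linarith)
  have h7 : ‖s‖ * ‖s - 1‖ * ‖R‖ ≤ (|s.im| + 4) * (|s.im| + 4) * 10 :=
    mul_le_mul h6 hR10 (norm_nonneg _) (by positivity)
  nlinarith

end ERT
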