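import Pool.Agent.Lib.MP_ed189b_nt.Defs

/-!
# MP_ed189b_nt: three elementary integrals
-/

set_option autoImplicit false

noncomputable section

namespace ERT

open Complex Filter Topology Set MeasureTheory

private theorem pr1_ne {α : ℝ} (hα : 0 < α) (y : ℝ) : (α : ℂ) + (y : ℂ) * I ≠ 0 := by
  intro h
  have h1 := congrArg Complex.re h
  simp at h1
  exact hα.ne' h1

private theorem pr1_ne' {α : ℝ} (hα : 0 < α) (y : ℝ) : (α : ℂ) - (y : ℂ) * I ≠ 0 := by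
  intro h
  have h1 := congrArg Complex.re h
  simp at h1
  exact hα.ne' h1

private theorem pr1_slit {α : ℝ} (hα : 0 < α) (y : ℝ) : (α : ℂ) + (y : ℂ) * I ∈ slitPlane := by
  rw [mem_slitPlane_iff]
  left
  simpa using hα

private theorem pr1_slit' {α : ℝ} (hα : 0 < α) (y : ℝ) : (α : ℂ) - (y : ℂ) * I ∈ slitPlane := by
  rw [mem_slitPlane_iff]
  left
  simpa using hα

private theorem pr1_nsq (α y : ℝ) : ‖(α : ℂ) + (y : ℂ) * I‖ ^ 2 = α ^ 2 + y ^ 2 := by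
  rw [← Complex.normSq_eq_norm_sq, Complex.normSq_add_mul_I]

private theorem pr1_nsq' (α y : ℝ) : ‖(α : ℂ) - (y : ℂ) * I‖ ^ 2 = α ^ 2 + y ^ 2 := by
  have h : (α : ℂ) - (y : ℂ) * I = (α : ℂ) + ((-y : ℝ) : ℂ) * I := by
    push_cast
    ring
  rw [h, pr1_nsq, neg_sq]

private theorem pr1_base {α : ℝ} (hα : 0 < α) (a : ℝ) :
    Integrable fun t : ℝ => (α ^ 2 + (t - a) ^ 2)⁻¹ := by
  have h1 := ((integrable_inv_one_add_sq.comp_div hα.ne').comp_sub_right a).const_mul (α ^ 2)⁻¹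
  refine h1.congr (Filter.Eventually.of_forall fun t => ?_)
  show (α ^ 2)⁻¹ * (1 + ((t - a) / α) ^ 2)⁻¹ = (α ^ 2 + (t - a) ^ 2)⁻¹
  rw [← mul_inv]
  congr 1
  field_simp

private theorem pr1_bound {u v : ℂ} {x y : ℝ} (hu : ‖u‖ ^ 2 = x) (hv : ‖v‖ ^ 2 = y) :
    ‖u⁻¹ * v⁻¹‖ ≤ 1 / 2 * (x⁻¹ + y⁻¹) := by
  rw [norm_mul, norm_inv, norm_inv, ← hu, ← hv, ← inv_pow, ← inv_pow]
  nlinarith [sq_nonneg (‖u‖⁻¹ - ‖v‖⁻¹)]

/-- The norm is at most `1/2 (1/(α² + (t-a)²) + 1/(β² + (t-b)²))`; continuous in `t`. -/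
theorem pr_integrable {α β : ℝ} (hα : 0 < α) (hβ : 0 < β) (a b : ℝ) :
    Integrable (fun t : ℝ => ((α : ℂ) + ((t - a : ℝ) : ℂ) * I)⁻¹ *
      ((β : ℂ) - ((t - b : ℝ) : ℂ) * I)⁻¹) ∧
    Integrable (fun t : ℝ => ((α : ℂ) + ((t - a : ℝ) : ℂ) * I)⁻¹ *
      ((β : ℂ) + ((t - b : ℝ) : ℂ) * I)⁻¹) := by
  have h0 := ((pr1_base hα a).add (pr1_base hβ b)).const_mul (1 / 2)
  have c1 : Continuous fun t : ℝ => ((α : ℂ) + ((t - a : ℝ) : ℂ) * I)⁻¹ :=
    Continuous.inv₀ (by fun_prop) fun t => pr1_ne hα _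
  have c2 : Continuous fun t : ℝ => ((β : ℂ) - ((t - b : ℝ) : ℂ) * I)⁻¹ :=
    Continuous.inv₀ (by fun_prop) fun t => pr1_ne' hβ _
  have c3 : Continuous fun t : ℝ => ((β : ℂ) + ((t - b : ℝ) : ℂ) * I)⁻¹ :=
    Continuous.inv₀ (by fun_prop) fun t => pr1_ne hβ _
  constructor
  · exact h0.mono' (c1.mul c2).aestronglyMeasurable
      (Filter.Eventually.of_forall fun t => pr1_bound (pr1_nsq _ _) (pr1_nsq' _ _))
  · exact h0.mono' (c1.mul c3).aestronglyMeasurable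
      (Filter.Eventually.of_forall fun t => pr1_bound (pr1_nsq _ _) (pr1_nsq _ _))

/-- asymptotics of the logarithm along a line -/
private theorem pr1_lim (c : ℂ) {w : ℂ} (hw : w ∈ slitPlane) :
    Tendsto (fun t : ℝ => log (c + t * w) - (Real.log t : ℂ)) atTop (𝓝 (log w)) := by
  have h1 : Tendsto (fun t : ℝ => w + c * ((t⁻¹ : ℝ) : ℂ)) atTop (𝓝 w) := by
    have h2 : Tendsto (fun t : ℝ => ((t⁻¹ : ℝ) : ℂ)) atTop (𝓝 ((0 : ℝ) : ℂ)) :=
      (continuous_ofReal.tendsto 0).comp tendsto_inv_atTop_zero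
    have h3 := (h2.const_mul c).const_add w
    simpa using h3
  have h2 : Tendsto (fun t : ℝ => log (w + c * ((t⁻¹ : ℝ) : ℂ))) atTop (𝓝 (log w)) :=
    ((continuousAt_clog hw).tendsto).comp h1
  refine h2.congr' ?_
  have h3 : ∀ᶠ t : ℝ in atTop, w + c * ((t⁻¹ : ℝ) : ℂ) ∈ slitPlane :=
    h1.eventually (isOpen_slitPlane.mem_nhds hw)
  filter_upwards [h3, eventually_gt_atTop 0] with t h4 h5
  have h6 : c + t * w = (t : ℂ) * (w + c * ((t⁻¹ : ℝ) : ℂ)) := by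
    have h7 : (t : ℂ) ≠ 0 := by exact_mod_cast h5.ne'
    push_cast
    field_simp
    ring
  rw [h6, log_ofReal_mul h5 (slitPlane_ne_zero h4)]
  ring

private theorem pr1_I : I ∈ slitPlane := by
  rw [mem_slitPlane_iff]
  right
  simp

private theorem pr1_nI : -I ∈ slitPlane := by
  rw [mem_slitPlane_iff]
  right
  simp

private theorem pr1_bot {f : ℝ → ℂ} {m : ℂ} (h : Tendsto (fun t => f (-t)) atTop (𝓝 m)) :
    Tendsto f atBot (𝓝 m) := by
  have h1 := h.comp tendsto_neg_atBot_atTop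
  refine h1.congr fun t => ?_
  show f (- -t) = f t
  rw [neg_neg]

/-- the four limits -/
private theorem pr1_A (α a : ℝ) : Tendsto (fun t : ℝ =>
    log ((α : ℂ) + ((t - a : ℝ) : ℂ) * I) - (Real.log t : ℂ)) atTop (𝓝 (Real.pi / 2 * I)) := by
  have h := pr1_lim ((α : ℂ) - a * I) pr1_I
  rw [log_I] at h
  refine h.congr fun t => ?_
  congr 2
  push_cast
  ring

private theorem pr1_A' (α a : ℝ) : Tendsto (fun t : ℝ =>
    log ((α : ℂ) + ((-t - a : ℝ) : ℂ) * I) - (Real.log t : ℂ)) atTop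
    (𝓝 (-(Real.pi / 2) * I)) := by
  have h := pr1_lim ((α : ℂ) - a * I) pr1_nI
  rw [log_neg_I] at h
  refine h.congr fun t => ?_
  congr 2
  push_cast
  ring

private theorem pr1_B (α a : ℝ) : Tendsto (fun t : ℝ =>
    log ((α : ℂ) - ((t - a : ℝ) : ℂ) * I) - (Real.log t : ℂ)) atTop
    (𝓝 (-(Real.pi / 2) * I)) := by
  have h := pr1_lim ((α : ℂ) + a * I) pr1_nI
  rw [log_neg_I] at h
  refine h.congr fun t => ?_
  congr 2
  push_cast
  ring

private theorem pr1_B' (α a : ℝ) : Tendsto (fun t : ℝ =>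
    log ((α : ℂ) - ((-t - a : ℝ) : ℂ) * I) - (Real.log t : ℂ)) atTop
    (𝓝 (Real.pi / 2 * I)) := by
  have h := pr1_lim ((α : ℂ) + a * I) pr1_I
  rw [log_I] at h
  refine h.congr fun t => ?_
  congr 2
  push_cast
  ring

private theorem pr1_dA0 (α a t : ℝ) :
    HasDerivAt (fun t : ℝ => (α : ℂ) + ((t - a : ℝ) : ℂ) * I) I t := by
  have h1 : HasDerivAt (fun t : ℝ => t - a) 1 t := (hasDerivAt_id t).sub_const a
  have h2 := (h1.ofReal_comp.mul_const I).const_add (α : ℂ)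
  simpa using h2

private theorem pr1_dA {α : ℝ} (hα : 0 < α) (a t : ℝ) :
    HasDerivAt (fun t : ℝ => -I * log ((α : ℂ) + ((t - a : ℝ) : ℂ) * I))
      ((α : ℂ) + ((t - a : ℝ) : ℂ) * I)⁻¹ t := by
  have h3 := ((pr1_dA0 α a t).clog_real (pr1_slit hα _)).const_mul (-I)
  refine h3.congr_deriv ?_
  rw [mul_div_assoc', neg_mul, I_mul_I, neg_neg, one_div]

private theorem pr1_dB {α : ℝ} (hα : 0 < α) (a t : ℝ) :
    HasDerivAt (fun t : ℝ => I * log ((α : ℂ) - ((t - a : ℝ) : ℂ) * I))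
      ((α : ℂ) - ((t - a : ℝ) : ℂ) * I)⁻¹ t := by
  have h1 : HasDerivAt (fun t : ℝ => t - a) 1 t := (hasDerivAt_id t).sub_const a
  have h2 : HasDerivAt (fun t : ℝ => (α : ℂ) - ((t - a : ℝ) : ℂ) * I) (-I) t := by
    have := (h1.ofReal_comp.mul_const I).const_sub (α : ℂ)
    simpa using this
  have h3 := (h2.clog_real (pr1_slit' hα _)).const_mul I
  refine h3.congr_deriv ?_
  rw [mul_div_assoc', mul_neg, I_mul_I, neg_neg, one_div]

/-- `(A B)⁻¹ = (A + B)⁻¹ (A⁻¹ + B⁻¹)` with `A + B = (α + β) + i (b - a)` constant; the integral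
over `[-R, R]` of `(α + i (t - a))⁻¹` tends to `π`: its primitive is `-i log (α + i (t - a))`
(principal branch, `Complex.log` is analytic on `Re > 0`), and `log (α + i (R - a)) -
log (α - i (R + a))` tends to `i π` (real parts: `log` of a ratio of norms tends to `0`;
arguments `arctan ((R - a)/α) → π/2` and `→ -π/2`). Similarly for `B⁻¹`
(`intervalIntegral_tendsto_integral`). -/
theorem pr_opp {α β : ℝ} (hα : 0 < α) (hβ : 0 < β) (a b : ℝ) :
    ∫ t : ℝ, ((α : ℂ) + ((t - a : ℝ) : ℂ) * I)⁻¹ * ((β : ℂ) - ((t - b : ℝ) : ℂ) * I)⁻¹ =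
      ((2 * Real.pi : ℝ) : ℂ) / (((α + β : ℝ) : ℂ) + ((b - a : ℝ) : ℂ) * I) := by
  obtain ⟨c, hc⟩ : ∃ c : ℂ, c = ((α + β : ℝ) : ℂ) + ((b - a : ℝ) : ℂ) * I := ⟨_, rfl⟩
  have hc0 : c ≠ 0 := by
    rw [hc]
    exact pr1_ne (by linarith) _
  have hd : ∀ t : ℝ, HasDerivAt (fun t : ℝ => c⁻¹ *
      (-I * log ((α : ℂ) + ((t - a : ℝ) : ℂ) * I) + I * log ((β : ℂ) - ((t - b : ℝ) : ℂ) * I)))
      (((α : ℂ) + ((t - a : ℝ) : ℂ) * I)⁻¹ * ((β : ℂ) - ((t - b : ℝ) : ℂ) * I)⁻¹) t := by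
    intro t
    refine (((pr1_dA hα a t).add (pr1_dB hβ b t)).const_mul c⁻¹).congr_deriv ?_
    have h1 := pr1_ne hα (t - a)
    have h2 := pr1_ne' hβ (t - b)
    have h3 : c = ((α : ℂ) + ((t - a : ℝ) : ℂ) * I) + ((β : ℂ) - ((t - b : ℝ) : ℂ) * I) := by
      rw [hc]
      push_cast
      ring
    rw [inv_add_inv h1 h2, ← h3]
    field_simp
  have hT : Tendsto (fun t : ℝ => c⁻¹ *
      (-I * log ((α : ℂ) + ((t - a : ℝ) : ℂ) * I) + I * log ((β : ℂ) - ((t - b : ℝ) : ℂ) * I)))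
      atTop (𝓝 (c⁻¹ * Real.pi)) := by
    have h1 := ((pr1_A α a).const_mul (-I)).add ((pr1_B β b).const_mul I)
    have h2 := h1.const_mul c⁻¹
    have e : c⁻¹ * (-I * (Real.pi / 2 * I) + I * (-(Real.pi / 2) * I)) = c⁻¹ * Real.pi := by
      linear_combination (-(c⁻¹ * Real.pi)) * I_mul_I
    rw [e] at h2
    refine h2.congr fun t => ?_
    ring
  have hB : Tendsto (fun t : ℝ => c⁻¹ *
      (-I * log ((α : ℂ) + ((t - a : ℝ) : ℂ) * I) + I * log ((β : ℂ) - ((t - b : ℝ) : ℂ) * I)))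
      atBot (𝓝 (-(c⁻¹ * Real.pi))) := by
    refine pr1_bot ?_
    have h1 := ((pr1_A' α a).const_mul (-I)).add ((pr1_B' β b).const_mul I)
    have h2 := h1.const_mul c⁻¹
    have e : c⁻¹ * (-I * (-(Real.pi / 2) * I) + I * (Real.pi / 2 * I)) =
        -(c⁻¹ * Real.pi) := by
      linear_combination (c⁻¹ * Real.pi) * I_mul_I
    rw [e] at h2
    refine h2.congr fun t => ?_
    ring
  rw [integral_of_hasDerivAt_of_tendsto hd (pr_integrable hα hβ a b).1 hB hT, ← hc]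
  push_cast
  field_simp
  ring

/-- If `(α, a) ≠ (β, b)`: `(A B)⁻¹ = (B - A)⁻¹ (A⁻¹ - B⁻¹)`, `B - A = (β - α) + i (a - b)`
constant, and both integrals over `[-R, R]` tend to `π`. If `(α, a) = (β, b)`: the primitive of
`A⁻²` is `i A⁻¹`, which tends to `0`. Alternatively, without case distinction: Cauchy's theorem. -/
theorem pr_same {α β : ℝ} (hα : 0 < α) (hβ : 0 < β) (a b : ℝ) :
    ∫ t : ℝ, ((α : ℂ) + ((t - a : ℝ) : ℂ) * I)⁻¹ * ((β : ℂ) + ((t - b : ℝ) : ℂ) * I)⁻¹ = 0 := by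
  obtain ⟨c, hc⟩ : ∃ c : ℂ, c = ((β - α : ℝ) : ℂ) + ((a - b : ℝ) : ℂ) * I := ⟨_, rfl⟩
  by_cases hc0 : c = 0
  · have hre := congrArg Complex.re (hc.symm.trans hc0)
    have him := congrArg Complex.im (hc.symm.trans hc0)
    simp only [add_re, ofReal_re, mul_re, I_re, mul_zero, ofReal_im, I_im, mul_one, sub_self,
      add_zero, zero_re] at hre
    simp only [add_im, ofReal_im, mul_im, ofReal_re, I_im, mul_one, I_re, mul_zero, add_zero,
      zero_add, zero_im] at him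
    have hβα : β = α := by linarith
    have hba : b = a := by linarith
    subst hβα hba
    have hd : ∀ t : ℝ, HasDerivAt (fun t : ℝ => I * ((β : ℂ) + ((t - b : ℝ) : ℂ) * I)⁻¹)
        (((β : ℂ) + ((t - b : ℝ) : ℂ) * I)⁻¹ * ((β : ℂ) + ((t - b : ℝ) : ℂ) * I)⁻¹) t := by
      intro t
      have h1 := pr1_ne hβ (t - b)
      refine (((pr1_dA0 β b t).inv h1).const_mul I).congr_deriv ?_
      rw [mul_div_assoc', mul_neg, I_mul_I, neg_neg, one_div, pow_two, mul_inv]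
    have hz : ∀ l : Filter ℝ, Tendsto (fun t : ℝ => |t - b|) l atTop →
        Tendsto (fun t : ℝ => I * ((β : ℂ) + ((t - b : ℝ) : ℂ) * I)⁻¹) l (𝓝 0) := by
      intro l hl
      have h2 : Tendsto (fun t : ℝ => ‖(β : ℂ) + ((t - b : ℝ) : ℂ) * I‖) l atTop := by
        refine tendsto_atTop_mono (fun t => ?_) hl
        have h5 := Complex.abs_im_le_norm ((β : ℂ) + ((t - b : ℝ) : ℂ) * I)
        simpa using h5
      have h3 := (tendsto_inv₀_cobounded.comp (tendsto_norm_atTop_iff_cobounded.1 h2)).const_mul I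
      rw [mul_zero] at h3
      exact h3
    have hB := hz atBot (tendsto_abs_atBot_atTop.comp
      (tendsto_atBot_add_const_right atBot (-b) tendsto_id))
    have hT := hz atTop (tendsto_abs_atTop_atTop.comp
      (tendsto_atTop_add_const_right atTop (-b) tendsto_id))
    rw [integral_of_hasDerivAt_of_tendsto hd (pr_integrable hβ hβ b b).2 hB hT, sub_zero]
  · have hd : ∀ t : ℝ, HasDerivAt (fun t : ℝ => c⁻¹ *
        (-I * log ((α : ℂ) + ((t - a : ℝ) : ℂ) * I) -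
          -I * log ((β : ℂ) + ((t - b : ℝ) : ℂ) * I)))
        (((α : ℂ) + ((t - a : ℝ) : ℂ) * I)⁻¹ * ((β : ℂ) + ((t - b : ℝ) : ℂ) * I)⁻¹) t := by
      intro t
      refine (((pr1_dA hα a t).sub (pr1_dA hβ b t)).const_mul c⁻¹).congr_deriv ?_
      have h1 := pr1_ne hα (t - a)
      have h2 := pr1_ne hβ (t - b)
      have h3 : ((β : ℂ) + ((t - b : ℝ) : ℂ) * I) - ((α : ℂ) + ((t - a : ℝ) : ℂ) * I) = c := by
        rw [hc]
        push_cast
        ring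
      rw [inv_sub_inv h1 h2, h3]
      field_simp
    have hT : Tendsto (fun t : ℝ => c⁻¹ *
        (-I * log ((α : ℂ) + ((t - a : ℝ) : ℂ) * I) -
          -I * log ((β : ℂ) + ((t - b : ℝ) : ℂ) * I))) atTop (𝓝 0) := by
      have h1 := ((pr1_A α a).const_mul (-I)).sub ((pr1_A β b).const_mul (-I))
      have h2 := h1.const_mul c⁻¹
      rw [sub_self, mul_zero] at h2
      refine h2.congr fun t => ?_
      ring
    have hB : Tendsto (fun t : ℝ => c⁻¹ *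
        (-I * log ((α : ℂ) + ((t - a : ℝ) : ℂ) * I) -
          -I * log ((β : ℂ) + ((t - b : ℝ) : ℂ) * I))) atBot (𝓝 0) := by
      refine pr1_bot ?_
      have h1 := ((pr1_A' α a).const_mul (-I)).sub ((pr1_A' β b).const_mul (-I))
      have h2 := h1.const_mul c⁻¹
      rw [sub_self, mul_zero] at h2
      refine h2.congr fun t => ?_
      ring
    rw [integral_of_hasDerivAt_of_tendsto hd (pr_integrable hα hβ a b).2 hB hT, sub_zero]

end ERT
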