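import Pool.Agent.Lib.MP_ed189b_nt.LSh
import Pool.Agent.Lib.MP_ed189b_nt.Pr1

/-!
# MP_ed189b_nt: the kernel
-/

set_option autoImplicit false

noncomputable section

namespace ERT

open Complex Filter Topology Set MeasureTheory

private theorem kx_gen {ℓ : ℝ} (hℓ : 0 < ℓ) (w : ℂ) :
    ‖Kx ℓ w‖ ≤ Real.exp (w.re ^ 2 - w.im ^ 2) * (Real.exp (2 * ℓ * w.re) + Real.exp (ℓ * w.re)) /
      (ℓ * (w.re ^ 2 + w.im ^ 2)) := by
  have h1 : ‖exp (w ^ 2)‖ = Real.exp (w.re ^ 2 - w.im ^ 2) := by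
    rw [Complex.norm_exp]
    congr 1
    simp [pow_two]
  have h2 : ‖exp (2 * ℓ * w) - exp (ℓ * w)‖ ≤ Real.exp (2 * ℓ * w.re) + Real.exp (ℓ * w.re) := by
    refine (norm_sub_le _ _).trans (le_of_eq ?_)
    rw [Complex.norm_exp, Complex.norm_exp]
    congr 2 <;> simp
  have h3 : ‖(ℓ : ℂ) * w ^ 2‖ = ℓ * (w.re ^ 2 + w.im ^ 2) := by
    rw [norm_mul, norm_pow, Complex.sq_norm, Complex.normSq_apply, Complex.norm_real,
      Real.norm_eq_abs, abs_of_pos hℓ]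
    ring
  unfold Kx
  rw [norm_div, norm_mul, h1, h3]
  gcongr

/-- `Re (c + iv)² = c² - v²`, `‖exp (2 ℓ w)‖ = exp (2 ℓ c)`, `‖w‖² = c² + v²`. -/
theorem Kx_bound {ℓ : ℝ} (hℓ : 0 < ℓ) {c : ℝ} (hc : c ≠ 0) (v : ℝ) :
    ‖Kx ℓ (ln c v)‖ ≤ Real.exp (c ^ 2 - v ^ 2) * (Real.exp (2 * ℓ * c) + Real.exp (ℓ * c)) /
      (ℓ * (c ^ 2 + v ^ 2)) := by
  have h := kx_gen hℓ (ln c v)
  rwa [ln_re, ln_im] at h

private theorem ln_ne {c : ℝ} (hc : c ≠ 0) (v : ℝ) : ln c v ≠ 0 := by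
  intro h
  have := congrArg Complex.re h
  rw [ln_re, Complex.zero_re] at this
  exact hc this

theorem Kx_cont {ℓ : ℝ} (hℓ : 0 < ℓ) {c : ℝ} (hc : c ≠ 0) :
    Continuous (fun v : ℝ => Kx ℓ (ln c v)) := by
  have hl : Continuous (fun v : ℝ => ln c v) := by
    unfold ln
    fun_prop
  unfold Kx
  refine Continuous.div (by fun_prop) (by fun_prop) fun v => ?_
  exact mul_ne_zero (by exact_mod_cast hℓ.ne') (pow_ne_zero 2 (ln_ne hc v))

/-- polynomial times gaussian -/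
private theorem poly_gauss (k : ℕ) (v : ℝ) :
    (1 + |v|) ^ k * Real.exp (-v ^ 2) ≤
      Real.exp (5 / 4) * (k + 2).factorial * ((1 + |v|) ^ 2)⁻¹ := by
  have hx0 : 0 < 1 + |v| := by positivity
  have h1 : Real.exp (-v ^ 2) ≤ Real.exp (5 / 4) * Real.exp (-(1 + |v|)) := by
    rw [← Real.exp_add]
    apply Real.exp_le_exp.2
    have h2 : v ^ 2 = |v| ^ 2 := (sq_abs v).symm
    rw [h2]
    nlinarith [sq_nonneg (|v| - 1 / 2)]
  have h3 := Real.pow_div_factorial_le_exp (1 + |v|) hx0.le (k + 2)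
  rw [div_le_iff₀ (by positivity)] at h3
  have h4 : (1 + |v|) ^ k * Real.exp (-(1 + |v|)) ≤
      (k + 2).factorial * ((1 + |v|) ^ 2)⁻¹ := by
    rw [Real.exp_neg, ← div_eq_mul_inv, ← div_eq_mul_inv, div_le_div_iff₀ (Real.exp_pos _)
      (by positivity), ← pow_add]
    linarith
  calc (1 + |v|) ^ k * Real.exp (-v ^ 2) ≤
      (1 + |v|) ^ k * (Real.exp (5 / 4) * Real.exp (-(1 + |v|))) :=
        mul_le_mul_of_nonneg_left h1 (by positivity)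
    _ = Real.exp (5 / 4) * ((1 + |v|) ^ k * Real.exp (-(1 + |v|))) := by ring
    _ ≤ Real.exp (5 / 4) * ((k + 2).factorial * ((1 + |v|) ^ 2)⁻¹) :=
        mul_le_mul_of_nonneg_left h4 (Real.exp_pos _).le
    _ = _ := by ring

private theorem sq_inv_le {x : ℝ} (hx : 1 ≤ x) : (x ^ 2)⁻¹ ≤ x ^ (-(3 / 2) : ℝ) := by
  have h1 : (x ^ 2)⁻¹ = x ^ (-(2 : ℝ)) := by
    rw [Real.rpow_neg (by linarith)]
    norm_num
  rw [h1]
  exact Real.rpow_le_rpow_of_exponent_le hx (by norm_num)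

/-- the function with the singularity removed -/
private theorem ker_H {h : ℂ → ℂ} {ℓ δ C : ℝ} {k : ℕ} (hℓ : 0 < ℓ) (hδ : 0 < δ) (hδ1 : δ ≤ 1 / 2)
    (hd : ∀ w : ℂ, -δ ≤ w.re → w.re ≤ 2 → DifferentiableAt ℂ h w)
    (hb : ∀ w : ℂ, -δ ≤ w.re → w.re ≤ 2 → ‖h w‖ ≤ C * (1 + |w.im|) ^ k) :
    ∃ (H : ℂ → ℂ) (M : ℝ),
      (∀ w : ℂ, -δ ≤ w.re → w.re ≤ 2 → DifferentiableAt ℂ H w) ∧
      (∀ w : ℂ, -δ ≤ w.re → w.re ≤ 2 → ‖H w‖ ≤ M * (1 + |w.im|) ^ (-(3 / 2) : ℝ)) ∧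
      ∀ w : ℂ, w ≠ 0 → H w = h w * Kx ℓ w - h 0 * (w⁻¹ * (w + 1)⁻¹) := by
  have hℓc : (ℓ : ℂ) ≠ 0 := by exact_mod_cast hℓ.ne'
  set E : ℂ → ℂ := fun z => exp (2 * ℓ * z) - exp (ℓ * z) with hE
  have hE0 : E 0 = 0 := by simp [hE]
  have hEd : Differentiable ℂ E := by
    rw [hE]
    fun_prop
  have hE' : deriv E 0 = ℓ := by
    have h1 : HasDerivAt E (exp (2 * ℓ * 0) * (2 * ℓ) - exp (ℓ * 0) * ℓ) 0 := by
      have a1 : HasDerivAt (fun z : ℂ => 2 * (ℓ : ℂ) * z) (2 * ℓ) 0 := by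
        simpa using (hasDerivAt_id (0:ℂ)).const_mul (2 * (ℓ : ℂ))
      have a2 : HasDerivAt (fun z : ℂ => (ℓ : ℂ) * z) ℓ 0 := by
        simpa using (hasDerivAt_id (0:ℂ)).const_mul (ℓ : ℂ)
      exact a1.cexp.sub a2.cexp
    rw [h1.deriv]
    simp
    ring
  have hEs : Differentiable ℂ (dslope E 0) := by
    have := (Complex.differentiableOn_dslope (s := univ) (c := (0:ℂ)) univ_mem).2
      hEd.differentiableOn
    rwa [differentiableOn_univ] at this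
  set q : ℂ → ℂ := fun w => h w * exp (w ^ 2) * dslope E 0 w / ℓ - h 0 / (w + 1) with hq
  have hq0 : q 0 = 0 := by
    rw [hq]
    simp only [dslope_same, hE']
    simp [hℓc]
  have hqd : ∀ w : ℂ, -δ ≤ w.re → w.re ≤ 2 → DifferentiableAt ℂ q w := by
    intro w h1 h2
    have hw1 : w + 1 ≠ 0 := by
      intro h0
      have := congrArg Complex.re h0
      rw [Complex.add_re, Complex.one_re, Complex.zero_re] at this
      linarith
    have e1 : DifferentiableAt ℂ (fun w : ℂ => exp (w ^ 2)) w := by fun_prop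
    exact ((((hd w h1 h2).mul e1).mul (hEs w)).div_const _).sub
      ((differentiableAt_const _).div (differentiableAt_id.add_const 1) hw1)
  have hHd : ∀ w : ℂ, -δ ≤ w.re → w.re ≤ 2 → DifferentiableAt ℂ (dslope q 0) w := by
    intro w h1 h2
    by_cases hw : w = 0
    · subst hw
      have hball : DifferentiableOn ℂ q (Metric.ball (0:ℂ) δ) := by
        intro w hw
        rw [mem_ball_zero_iff] at hw
        have h3 := (Complex.abs_re_le_norm w).trans_lt hw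
        rw [abs_lt] at h3
        exact (hqd w (by linarith) (by linarith)).differentiableWithinAt
      have h4 := (Complex.differentiableOn_dslope (Metric.ball_mem_nhds (0:ℂ) hδ)).2 hball
      exact h4.differentiableAt (Metric.ball_mem_nhds (0:ℂ) hδ)
    · exact (differentiableAt_dslope_of_ne hw).2 (hqd w h1 h2)
  have hHeq : ∀ w : ℂ, w ≠ 0 → dslope q 0 w = h w * Kx ℓ w - h 0 * (w⁻¹ * (w + 1)⁻¹) := by
    intro w hw
    rw [dslope_of_ne q hw, slope_def_field, hq0, sub_zero, sub_zero, hq]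
    show (h w * exp (w ^ 2) * dslope E 0 w / ℓ - h 0 / (w + 1)) / w = _
    rw [dslope_of_ne E hw, slope_def_field, hE0, sub_zero, sub_zero]
    unfold Kx
    have hEw : E w = exp (2 * ℓ * w) - exp (ℓ * w) := rfl
    rw [← hEw, sub_div]
    congr 1
    · field_simp
    · rw [div_div, mul_comm (w + 1) w, div_eq_mul_inv, mul_inv]
  -- the bound
  have hC : 0 ≤ C := by
    have h1 := hb 0 (by simpa using hδ.le) (by simp)
    simp at h1
    exact (norm_nonneg _).trans h1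
  obtain ⟨B, hB⟩ := (isCompact_Icc.reProdIm isCompact_Icc : IsCompact
    (Icc (-δ) 2 ×ℂ Icc (-1 : ℝ) 1)).exists_bound_of_continuousOn (f := dslope q 0) (by
      intro w hw
      rw [Complex.mem_reProdIm] at hw
      exact (hHd w hw.1.1 hw.1.2).continuousAt.continuousWithinAt)
  set A : ℝ := C * (Real.exp 4 * (2 * Real.exp (4 * ℓ)) / ℓ) *
    (Real.exp (5 / 4) * (k + 2).factorial) with hA
  have hA0 : 0 ≤ A := by positivity
  refine ⟨dslope q 0, A + 4 * ‖h 0‖ + 4 * |B|, hHd, fun w h1 h2 => ?_, hHeq⟩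
  have hx : 1 ≤ 1 + |w.im| := by linarith [abs_nonneg w.im]
  have hM0 : 0 ≤ A + 4 * ‖h 0‖ + 4 * |B| := by positivity
  refine le_trans ?_ (mul_le_mul_of_nonneg_left (sq_inv_le hx) hM0)
  have hxi : 0 < ((1 + |w.im|) ^ 2)⁻¹ := by positivity
  by_cases hv : |w.im| ≤ 1
  · have h3 : ‖dslope q 0 w‖ ≤ B := hB w (by
      rw [Complex.mem_reProdIm]
      exact ⟨⟨h1, h2⟩, abs_le.1 hv⟩)
    have h4 : (1 : ℝ) / 4 ≤ ((1 + |w.im|) ^ 2)⁻¹ := by
      rw [one_div]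
      apply inv_anti₀ (by positivity)
      nlinarith [abs_nonneg w.im]
    calc ‖dslope q 0 w‖ ≤ |B| := h3.trans (le_abs_self B)
      _ = 4 * |B| * (1 / 4) := by ring
      _ ≤ 4 * |B| * ((1 + |w.im|) ^ 2)⁻¹ := mul_le_mul_of_nonneg_left h4 (by positivity)
      _ ≤ (A + 4 * ‖h 0‖ + 4 * |B|) * ((1 + |w.im|) ^ 2)⁻¹ := by
          apply mul_le_mul_of_nonneg_right _ hxi.le
          linarith [norm_nonneg (h 0)]
  · push Not at hv
    have hw0 : w ≠ 0 := by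
      rintro rfl
      simp at hv
      linarith
    rw [hHeq w hw0]
    have him2 : 1 ≤ w.im ^ 2 := by
      rw [← sq_abs]
      nlinarith
    -- first term
    have t1 : ‖h w * Kx ℓ w‖ ≤ A * ((1 + |w.im|) ^ 2)⁻¹ := by
      have hk := kx_gen hℓ w
      have hk2 : Real.exp (w.re ^ 2 - w.im ^ 2) *
          (Real.exp (2 * ℓ * w.re) + Real.exp (ℓ * w.re)) / (ℓ * (w.re ^ 2 + w.im ^ 2)) ≤
          (Real.exp 4 * (2 * Real.exp (4 * ℓ)) / ℓ) * Real.exp (-w.im ^ 2) := by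
        have c1 : Real.exp (w.re ^ 2 - w.im ^ 2) ≤ Real.exp 4 * Real.exp (-w.im ^ 2) := by
          rw [← Real.exp_add]
          apply Real.exp_le_exp.2
          nlinarith
        have c2 : Real.exp (2 * ℓ * w.re) ≤ Real.exp (4 * ℓ) := by
          apply Real.exp_le_exp.2
          nlinarith
        have c3 : Real.exp (ℓ * w.re) ≤ Real.exp (4 * ℓ) := by
          apply Real.exp_le_exp.2
          nlinarith
        have c4 : ℓ ≤ ℓ * (w.re ^ 2 + w.im ^ 2) := by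
          nlinarith [sq_nonneg w.re]
        calc _ ≤ (Real.exp 4 * Real.exp (-w.im ^ 2)) *
              (Real.exp (4 * ℓ) + Real.exp (4 * ℓ)) / ℓ := by
              apply div_le_div₀ (by positivity) _ hℓ c4
              apply mul_le_mul c1 (add_le_add c2 c3) (by positivity) (by positivity)
          _ = _ := by ring
      rw [norm_mul]
      calc ‖h w‖ * ‖Kx ℓ w‖ ≤ (C * (1 + |w.im|) ^ k) *
            ((Real.exp 4 * (2 * Real.exp (4 * ℓ)) / ℓ) * Real.exp (-w.im ^ 2)) :=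
            mul_le_mul (hb w h1 h2) (hk.trans hk2) (norm_nonneg _) (by positivity)
        _ = C * (Real.exp 4 * (2 * Real.exp (4 * ℓ)) / ℓ) *
            ((1 + |w.im|) ^ k * Real.exp (-w.im ^ 2)) := by ring
        _ ≤ C * (Real.exp 4 * (2 * Real.exp (4 * ℓ)) / ℓ) *
            (Real.exp (5 / 4) * (k + 2).factorial * ((1 + |w.im|) ^ 2)⁻¹) :=
            mul_le_mul_of_nonneg_left (poly_gauss k w.im) (by positivity)
        _ = A * ((1 + |w.im|) ^ 2)⁻¹ := by rw [hA]; ring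
    -- second term
    have t2 : ‖h 0 * (w⁻¹ * (w + 1)⁻¹)‖ ≤ 4 * ‖h 0‖ * ((1 + |w.im|) ^ 2)⁻¹ := by
      have n1 : |w.im| ≤ ‖w‖ := Complex.abs_im_le_norm w
      have n2 : |w.im| ≤ ‖w + 1‖ := by
        have := Complex.abs_im_le_norm (w + 1)
        rwa [Complex.add_im, Complex.one_im, add_zero] at this
      have n3 : ‖w⁻¹ * (w + 1)⁻¹‖ ≤ (|w.im| * |w.im|)⁻¹ := by
        rw [norm_mul, norm_inv, norm_inv, ← mul_inv]
        apply inv_anti₀ (by nlinarith)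
        exact mul_le_mul n1 n2 (abs_nonneg _) (norm_nonneg _)
      have n4 : (|w.im| * |w.im|)⁻¹ ≤ 4 * ((1 + |w.im|) ^ 2)⁻¹ := by
        rw [← div_eq_mul_inv, ← one_div, div_le_div_iff₀ (by nlinarith) (by positivity)]
        nlinarith
      rw [norm_mul]
      calc ‖h 0‖ * ‖w⁻¹ * (w + 1)⁻¹‖ ≤ ‖h 0‖ * (4 * ((1 + |w.im|) ^ 2)⁻¹) :=
            mul_le_mul_of_nonneg_left (n3.trans n4) (norm_nonneg _)
        _ = _ := by ring
    calc ‖h w * Kx ℓ w - h 0 * (w⁻¹ * (w + 1)⁻¹)‖ ≤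
          ‖h w * Kx ℓ w‖ + ‖h 0 * (w⁻¹ * (w + 1)⁻¹)‖ := norm_sub_le _ _
      _ ≤ A * ((1 + |w.im|) ^ 2)⁻¹ + 4 * ‖h 0‖ * ((1 + |w.im|) ^ 2)⁻¹ := add_le_add t1 t2
      _ ≤ (A + 4 * ‖h 0‖ + 4 * |B|) * ((1 + |w.im|) ^ 2)⁻¹ := by
          nlinarith [mul_nonneg (abs_nonneg B) hxi.le]

/-- The residue at `0`: let `q w = h w * exp (w²) * dslope (fun z => exp (2 ℓ z) - exp (ℓ z)) 0 w / ℓ
- h 0 / (w + 1)`. Then `q 0 = 0`, `q` is differentiable at all points of the strip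
`-δ ≤ Re w ≤ 2` (and analytic near `0`), and `H = dslope q 0` satisfies
`H w = h w * Kx ℓ w - h 0 / (w (w + 1))` for `w ≠ 0`. `H` is differentiable at all points of the
strip; it is bounded for `|w.im| ≤ 1` (compactness) and at most
`M (1 + |w.im|)^(-3/2)` for `|w.im| ≥ 1` (`Kx_bound`-like estimate
`‖Kx ℓ w‖ ≤ C exp (-v²)`). So `lsh` gives `∫ H (ln 2 v) = ∫ H (ln (-δ) v)`. Finally
`∫ 1/(w (w+1))` over `ln 2 v` is `0` (`pr_same`) and over `ln (-δ) v` is `-2π`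
(`pr_opp` with `α = 1 - δ`, `β = δ`, `a = b = 0`: `1/w = -1/(δ - iv)`). -/
theorem ker_rep {h : ℂ → ℂ} {ℓ δ C : ℝ} {k : ℕ} (hℓ : 0 < ℓ) (hδ : 0 < δ) (hδ1 : δ ≤ 1 / 2)
    (hd : ∀ w : ℂ, -δ ≤ w.re → w.re ≤ 2 → DifferentiableAt ℂ h w)
    (hb : ∀ w : ℂ, -δ ≤ w.re → w.re ≤ 2 → ‖h w‖ ≤ C * (1 + |w.im|) ^ k) :
    Integrable (fun v : ℝ => h (ln 2 v) * Kx ℓ (ln 2 v)) ∧
    Integrable (fun v : ℝ => h (ln (-δ) v) * Kx ℓ (ln (-δ) v)) ∧
    ∫ v : ℝ, h (ln 2 v) * Kx ℓ (ln 2 v) =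
      2 * Real.pi * h 0 + ∫ v : ℝ, h (ln (-δ) v) * Kx ℓ (ln (-δ) v) := by
  obtain ⟨H, M, hHd, hHM, hHeq⟩ := ker_H hℓ hδ hδ1 hd hb
  obtain ⟨i1, i2, heq⟩ := lsh (by linarith : -δ ≤ 2) hHd hHM
  -- the elementary integrals
  have p2 : Integrable (fun v : ℝ => h 0 * ((ln 2 v)⁻¹ * (ln 2 v + 1)⁻¹)) ∧
      ∫ v : ℝ, h 0 * ((ln 2 v)⁻¹ * (ln 2 v + 1)⁻¹) = 0 := by
    have e1 : ∀ v : ℝ, (ln 2 v)⁻¹ * (ln 2 v + 1)⁻¹ =
        (((2 : ℝ) : ℂ) + ((v - 0 : ℝ) : ℂ) * I)⁻¹ * (((3 : ℝ) : ℂ) + ((v - 0 : ℝ) : ℂ) * I)⁻¹ := by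
      intro v
      unfold ln
      rw [sub_zero]
      congr 2
      push_cast
      ring
    simp only [e1]
    refine ⟨((pr_integrable (α := 2) (β := 3) (by norm_num) (by norm_num) 0 0).2).const_mul _, ?_⟩
    rw [integral_const_mul, pr_same (α := 2) (β := 3) (by norm_num) (by norm_num) 0 0, mul_zero]
  have pd : Integrable (fun v : ℝ => h 0 * ((ln (-δ) v)⁻¹ * (ln (-δ) v + 1)⁻¹)) ∧
      ∫ v : ℝ, h 0 * ((ln (-δ) v)⁻¹ * (ln (-δ) v + 1)⁻¹) = -(2 * Real.pi * h 0) := by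
    have e1 : ∀ v : ℝ, (ln (-δ) v)⁻¹ * (ln (-δ) v + 1)⁻¹ =
        -((((1 - δ : ℝ) : ℂ) + ((v - 0 : ℝ) : ℂ) * I)⁻¹ *
          ((δ : ℂ) - ((v - 0 : ℝ) : ℂ) * I)⁻¹) := by
      intro v
      unfold ln
      rw [sub_zero]
      have e2 : (((-δ : ℝ) : ℂ) + (v : ℂ) * I) = -((δ : ℂ) - (v : ℂ) * I) := by
        push_cast
        ring
      have e3 : (((-δ : ℝ) : ℂ) + (v : ℂ) * I) + 1 = ((1 - δ : ℝ) : ℂ) + (v : ℂ) * I := by
        push_cast
        ring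
      rw [e3, e2, inv_neg]
      ring
    simp only [e1]
    have hα : 0 < 1 - δ := by linarith
    constructor
    · exact (((pr_integrable hα hδ 0 0).1).neg).const_mul _
    · rw [integral_const_mul, integral_neg, pr_opp hα hδ 0 0]
      have e4 : ((((1 - δ) + δ : ℝ) : ℂ) + ((0 - 0 : ℝ) : ℂ) * I) = 1 := by
        push_cast
        ring
      rw [e4]
      push_cast
      ring
  have g2 : ∀ v : ℝ, h (ln 2 v) * Kx ℓ (ln 2 v) =
      H (ln 2 v) + h 0 * ((ln 2 v)⁻¹ * (ln 2 v + 1)⁻¹) := by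
    intro v
    rw [hHeq _ (ln_ne (by norm_num) v)]
    ring
  have gd : ∀ v : ℝ, h (ln (-δ) v) * Kx ℓ (ln (-δ) v) =
      H (ln (-δ) v) + h 0 * ((ln (-δ) v)⁻¹ * (ln (-δ) v + 1)⁻¹) := by
    intro v
    rw [hHeq _ (ln_ne (by linarith) v)]
    ring
  simp only [g2, gd]
  refine ⟨i2.add p2.1, i1.add pd.1, ?_⟩
  rw [integral_add i2 p2.1, integral_add i1 pd.1, p2.2, pd.2, heq]
  ring

end ERT
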