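import Pool.Agent.Lib.MP_ed189b_nt.Defs

/-!
# MP_ed189b_nt: shift of a line of integration
-/

set_option autoImplicit false

noncomputable section

namespace ERT

open Complex Filter Topology Set MeasureTheory

private theorem lsh_cont {H : ℂ → ℂ} {a b c : ℝ} (hac : a ≤ c) (hcb : c ≤ b)
    (hd : ∀ w : ℂ, a ≤ w.re → w.re ≤ b → DifferentiableAt ℂ H w) :
    Continuous (fun v : ℝ => H (ln c v)) := by
  rw [continuous_iff_continuousAt]
  intro v
  have h1 : ContinuousAt H (ln c v) :=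
    (hd (ln c v) (by rw [ln_re]; exact hac) (by rw [ln_re]; exact hcb)).continuousAt
  have h2 : Continuous (fun v : ℝ => ln c v) := by
    unfold ln
    fun_prop
  exact ContinuousAt.comp (f := fun v : ℝ => ln c v) h1 h2.continuousAt

private theorem lsh_int {H : ℂ → ℂ} {a b c M : ℝ} (hac : a ≤ c) (hcb : c ≤ b)
    (hd : ∀ w : ℂ, a ≤ w.re → w.re ≤ b → DifferentiableAt ℂ H w)
    (hM : ∀ w : ℂ, a ≤ w.re → w.re ≤ b → ‖H w‖ ≤ M * (1 + |w.im|) ^ (-(3 / 2) : ℝ)) :
    Integrable (fun v : ℝ => H (ln c v)) := by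
  have h1 : Integrable (fun v : ℝ => (1 + ‖v‖) ^ (-(3 / 2) : ℝ)) :=
    integrable_one_add_norm (μ := volume) (E := ℝ) (r := 3 / 2) (by norm_num)
  refine (h1.const_mul M).mono' (lsh_cont hac hcb hd).aestronglyMeasurable
    (Eventually.of_forall fun v => ?_)
  have h2 := hM (ln c v) (by rw [ln_re]; exact hac) (by rw [ln_re]; exact hcb)
  rw [ln_im] at h2
  exact h2

private theorem lsh_hor {H : ℂ → ℂ} {a b M : ℝ} (hab : a ≤ b)
    (hM : ∀ w : ℂ, a ≤ w.re → w.re ≤ b → ‖H w‖ ≤ M * (1 + |w.im|) ^ (-(3 / 2) : ℝ))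
    (r : ℝ → ℝ) (hr : ∀ R, |r R| = |R|) :
    Tendsto (fun R : ℝ => ∫ x : ℝ in a..b, H (x + r R * I)) atTop (𝓝 0) := by
  have h1 : Tendsto (fun R : ℝ => M * (1 + R) ^ (-(3 / 2) : ℝ) * |b - a|) atTop (𝓝 0) := by
    have h2 : Tendsto (fun R : ℝ => (1 + R) ^ (-(3 / 2) : ℝ)) atTop (𝓝 0) :=
      (tendsto_rpow_neg_atTop (by norm_num : (0:ℝ) < 3 / 2)).comp
        (tendsto_atTop_add_const_left atTop (1:ℝ) tendsto_id)
    have h3 := (h2.const_mul M).mul_const |b - a|
    rw [mul_zero, zero_mul] at h3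
    exact h3
  refine squeeze_zero_norm' ?_ h1
  filter_upwards [eventually_ge_atTop (0:ℝ)] with R hR
  refine intervalIntegral.norm_integral_le_of_norm_le_const fun x hx => ?_
  rw [uIoc_of_le hab] at hx
  have h2 := hM (x + r R * I) (by simp; exact hx.1.le) (by simp; exact hx.2)
  have h3 : ((x : ℂ) + r R * I).im = r R := by simp
  rw [h3, hr, abs_of_nonneg hR] at h2
  exact h2

/-- Cauchy's theorem for the rectangles `[a, b] × [-R, R]`
(`Complex.integral_boundary_rect_eq_zero_of_differentiableOn`); the horizontal sides are at most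
`(b - a) M (1 + R)^(-3/2) → 0`; the functions `v ↦ H (ln a v)`, `v ↦ H (ln b v)` are continuous
and integrable (bounded by `M (1 + |v|)^(-3/2)`: `integrable_one_add_norm` or
`integrable_rpow_neg_one_add_norm_sq`), and `intervalIntegral_tendsto_integral`. Note that
`‖H w‖ ≤ M ...` forces `0 ≤ M`. -/
theorem lsh {H : ℂ → ℂ} {a b M : ℝ} (hab : a ≤ b)
    (hd : ∀ w : ℂ, a ≤ w.re → w.re ≤ b → DifferentiableAt ℂ H w)
    (hM : ∀ w : ℂ, a ≤ w.re → w.re ≤ b → ‖H w‖ ≤ M * (1 + |w.im|) ^ (-(3 / 2) : ℝ)) :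
    Integrable (fun v : ℝ => H (ln a v)) ∧ Integrable (fun v : ℝ => H (ln b v)) ∧
      ∫ v : ℝ, H (ln a v) = ∫ v : ℝ, H (ln b v) := by
  have hia := lsh_int le_rfl hab hd hM
  have hib := lsh_int hab le_rfl hd hM
  refine ⟨hia, hib, ?_⟩
  have hta : Tendsto (fun R : ℝ => ∫ v in (-R)..R, H (ln a v)) atTop
      (𝓝 (∫ v : ℝ, H (ln a v))) :=
    intervalIntegral_tendsto_integral hia tendsto_neg_atTop_atBot tendsto_id
  have htb : Tendsto (fun R : ℝ => ∫ v in (-R)..R, H (ln b v)) atTop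
      (𝓝 (∫ v : ℝ, H (ln b v))) :=
    intervalIntegral_tendsto_integral hib tendsto_neg_atTop_atBot tendsto_id
  have h1 := lsh_hor hab hM (fun R => -R) (fun R => abs_neg R)
  have h2 := lsh_hor hab hM (fun R => R) (fun R => rfl)
  have h3 := ((h1.sub h2).add (htb.const_smul I)).sub (hta.const_smul I)
  have h4 : ∀ R : ℝ, (∫ x : ℝ in a..b, H (x + ((-R : ℝ) : ℂ) * I)) -
      (∫ x : ℝ in a..b, H (x + (R : ℂ) * I)) +
      I • (∫ v in (-R)..R, H (ln b v)) - I • (∫ v in (-R)..R, H (ln a v)) = 0 := by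
    intro R
    have h5 := Complex.integral_boundary_rect_eq_zero_of_differentiableOn H
      (⟨a, -R⟩ : ℂ) (⟨b, R⟩ : ℂ) (by
        intro w hw
        rw [mem_reProdIm] at hw
        have h6 := hw.1
        simp only [uIcc_of_le hab, mem_Icc] at h6
        exact (hd w h6.1 h6.2).differentiableWithinAt)
    exact h5
  have h5 : Tendsto (fun _ : ℝ => (0:ℂ)) atTop
      (𝓝 (0 - 0 + I • (∫ v : ℝ, H (ln b v)) - I • ∫ v : ℝ, H (ln a v))) := by
    refine h3.congr fun R => ?_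
    exact h4 R
  have h6 := tendsto_nhds_unique h5 tendsto_const_nhds
  rw [sub_zero, zero_add, ← smul_sub, smul_eq_mul] at h6
  rcases mul_eq_zero.1 h6 with h7 | h7
  · exact absurd h7 I_ne_zero
  · exact (sub_eq_zero.1 h7).symm

end ERT
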