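import Pool.Agent.Lib.MP_ed189b_nt.Gro

/-!
# MP_ed189b_nt: lower bounds to the right of the critical line
-/

set_option autoImplicit false

noncomputable section

namespace ERT

open Complex Filter Topology Set Metric

/-- an analytic logarithm of `F` on a disc to the right of the critical line -/
private theorem low_log (h : ZF) {c : ℂ} {R : ℝ} (hR : 0 < R)
    (hc : ∀ z ∈ ball c R, 1 / 2 < z.re) : ∃ l : ℂ → ℂ, l c = Complex.log (F c) ∧
      (∀ z ∈ ball c R, HasDerivAt l (P z) z) ∧ ∀ z ∈ ball c R, F z = Complex.exp (l z) := by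
  have hP : DifferentiableOn ℂ P (ball c R) := fun z hz =>
    (P_diff h (hc z hz)).differentiableWithinAt
  obtain ⟨l, hl0, hl⟩ := hP.isExactOn_ball.with_val_at c (Complex.log (F c))
  refine ⟨l, hl0, hl, ?_⟩
  have hq : ∀ z ∈ ball c R, HasDerivAt (fun z => F z * Complex.exp (-l z)) 0 z := by
    intro z hz
    have h1 : HasDerivAt F (deriv F z) z := (F_diff z).hasDerivAt
    have h2 : HasDerivAt (fun z => Complex.exp (-l z)) (Complex.exp (-l z) * -P z) z :=
      (hl z hz).neg.cexp
    refine (h1.mul h2).congr_deriv ?_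
    have h3 := F_ne h (hc z hz)
    unfold P
    field_simp
    ring
  have hcc : c ∈ ball c R := mem_ball_self hR
  intro z hz
  have h1 := isOpen_ball.is_const_of_deriv_eq_zero (convex_ball c R).isPreconnected
    (fun z hz => (hq z hz).differentiableAt.differentiableWithinAt)
    (fun z hz => (hq z hz).deriv) hz hcc
  have h2 := F_ne h (hc c hcc)
  simp only [hl0, Complex.exp_neg, Complex.exp_log h2] at h1
  rw [mul_inv_cancel₀ h2] at h1
  rw [← div_eq_mul_inv, div_eq_one_iff_eq (Complex.exp_ne_zero _)] at h1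
  exact h1

/-- Fix `t`, `c = 2 + it`. On `ball c (149/100)` (`Re > 51/100`) `F` has no zero, so `F = exp ∘ l`
with `l` analytic (`exists_continuousOn_eqOn_exp_comp` in `Analysis/Complex/BranchLogRoot`, or
integrate `F'/F` on the disc: `DifferentiableOn.isExactOn_ball`), `l c = log (F c)`. `Re l = log |F| ≤ C lg t` there
(F_growth), `|l c| ≤ log |F c| + ... ≤ C lg t` (F_two, F_growth). Borel-Caratheodory
(`Complex.borelCaratheodory`): `|l z| ≤ C' lg t` for `|z - c| ≤ 148/100`; so
`|F z| ≥ exp (-C' lg t)` there, and by Cauchy's estimate on circles of radius `1/100`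
(`Complex.norm_deriv_le_of_forall_mem_sphere_norm_le`) `|P z| = |l' z| ≤ 100 C' lg t` for
`|z - c| ≤ 147/100`. Apply with `t = Im s`. -/
theorem low (h : ZF) : ∃ C : ℝ, 0 < C ∧ ∀ s : ℂ, 53 / 100 ≤ s.re → s.re ≤ 17 / 5 →
    Real.exp (-(C * lg s.im)) ≤ ‖F s‖ ∧ ‖P s‖ ≤ C * lg s.im := by
  obtain ⟨C, hC1, hC⟩ := F_growth
  have hlog2 : 0 < Real.log 2 := Real.log_pos (by norm_num)
  obtain ⟨K, hK⟩ : ∃ K : ℝ, K = Real.log (4 * C) / Real.log 2 + 2 := ⟨_, rfl⟩
  have hlog4C : 0 ≤ Real.log (4 * C) := Real.log_nonneg (by linarith)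
  have hK0 : 0 < K := by rw [hK]; positivity
  obtain ⟨K1, hK1⟩ : ∃ K1 : ℝ, K1 = K + 2 + Real.pi / Real.log 2 := ⟨_, rfl⟩
  have hK10 : 0 < K1 := by rw [hK1]; positivity
  obtain ⟨K2, hK2⟩ : ∃ K2 : ℝ, K2 = 296 * K + 297 * K1 := ⟨_, rfl⟩
  have hK20 : 0 < K2 := by rw [hK2]; positivity
  refine ⟨100 * K2, by positivity, ?_⟩
  intro s hs1 hs2
  obtain ⟨t, ht⟩ : ∃ t, t = s.im := ⟨_, rfl⟩
  rw [← ht]
  have hlg : Real.log 2 ≤ lg t := by
    unfold lg
    exact Real.log_le_log (by norm_num) (by linarith [abs_nonneg t])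
  have hlg0 : 0 < lg t := lg_pos t
  obtain ⟨c, hc⟩ : ∃ c : ℂ, c = 2 + (t : ℂ) * I := ⟨_, rfl⟩
  have hcre : c.re = 2 := by rw [hc]; simp
  have hcim : c.im = t := by rw [hc]; simp
  have hre : ∀ z ∈ ball c (149 / 100 : ℝ), |z.re - 2| < 149 / 100 := by
    intro z hz
    rw [mem_ball, dist_eq_norm] at hz
    have h1 := Complex.abs_re_le_norm (z - c)
    rw [Complex.sub_re, hcre] at h1
    linarith
  have him : ∀ z ∈ ball c (149 / 100 : ℝ), |z.im - t| < 149 / 100 := by
    intro z hz
    rw [mem_ball, dist_eq_norm] at hz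
    have h1 := Complex.abs_im_le_norm (z - c)
    rw [Complex.sub_im, hcim] at h1
    linarith
  have hhalf : ∀ z ∈ ball c (149 / 100 : ℝ), 1 / 2 < z.re := by
    intro z hz
    have := (abs_lt.1 (hre z hz)).1
    linarith
  obtain ⟨l, hl0, hl, hFl⟩ := low_log h (by norm_num : (0 : ℝ) < 149 / 100) hhalf
  -- the upper bound of the real part
  have hup : ∀ z ∈ ball c (149 / 100 : ℝ), (l z).re ≤ K * lg t := by
    intro z hz
    have h1 := abs_lt.1 (hre z hz)
    have h2 := hC z (by linarith) (by linarith)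
    have h3 : |z.im| + 2 ≤ 2 * (|t| + 2) := by
      have h4 : |z.im| ≤ |z.im - t| + |t| := by
        have := abs_add_le (z.im - t) t
        rwa [sub_add_cancel] at this
      have h5 := him z hz
      have h6 := abs_nonneg t
      linarith
    have h4 : ‖F z‖ ≤ 4 * C * (|t| + 2) ^ 2 := by
      have h5 : (|z.im| + 2) ^ 2 ≤ (2 * (|t| + 2)) ^ 2 :=
        pow_le_pow_left₀ (by positivity) h3 2
      calc ‖F z‖ ≤ C * (|z.im| + 2) ^ 2 := h2
        _ ≤ C * (2 * (|t| + 2)) ^ 2 := mul_le_mul_of_nonneg_left h5 (by linarith)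
        _ = 4 * C * (|t| + 2) ^ 2 := by ring
    rw [hFl z hz, Complex.norm_exp] at h4
    have ht2 : 0 < |t| + 2 := by positivity
    have hC4 : 0 < 4 * C := by linarith
    have h5 : (l z).re ≤ Real.log (4 * C * (|t| + 2) ^ 2) := by
      rw [Real.le_log_iff_exp_le (by positivity)]
      exact h4
    rw [Real.log_mul hC4.ne' (by positivity), Real.log_pow] at h5
    have h6 : Real.log (4 * C) ≤ Real.log (4 * C) / Real.log 2 * lg t := by
      rw [div_mul_eq_mul_div, le_div_iff₀ hlog2]
      exact mul_le_mul_of_nonneg_left hlg hlog4C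
    have h7 : Real.log (|t| + 2) = lg t := rfl
    rw [h7] at h5
    push_cast at h5
    calc (l z).re ≤ Real.log (4 * C) + 2 * lg t := h5
      _ ≤ Real.log (4 * C) / Real.log 2 * lg t + 2 * lg t := by linarith
      _ = K * lg t := by rw [hK]; ring
  have hcc : c ∈ ball c (149 / 100 : ℝ) := mem_ball_self (by norm_num)
  -- the value at the centre
  have hl0b : ‖l c‖ ≤ K1 * lg t := by
    have h1 := Complex.norm_le_abs_re_add_abs_im (l c)
    have h2 : (l c).re = Real.log ‖F c‖ := by rw [hl0, Complex.log_re]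
    have h3 : |(l c).im| ≤ Real.pi := by
      rw [hl0, Complex.log_im]
      exact Complex.abs_arg_le_pi _
    have h4 : -(2 * lg t) ≤ (l c).re := by
      have h5 : 1 / 4 ≤ ‖F c‖ := by
        rw [hc]
        exact F_two t
      have h6 : Real.log (1 / 4) ≤ Real.log ‖F c‖ := Real.log_le_log (by norm_num) h5
      have h7 : Real.log (1 / 4) = -(2 * Real.log 2) := by
        rw [one_div, Real.log_inv]
        have : (4 : ℝ) = 2 ^ 2 := by norm_num
        rw [this, Real.log_pow]
        push_cast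
        ring
      rw [h2]
      linarith
    have h5 := hup c hcc
    have h6 : |(l c).re| ≤ (K + 2) * lg t := by
      rw [abs_le]
      constructor
      · nlinarith
      · nlinarith
    have h7 : Real.pi ≤ Real.pi / Real.log 2 * lg t := by
      rw [div_mul_eq_mul_div, le_div_iff₀ hlog2]
      exact mul_le_mul_of_nonneg_left hlg Real.pi_pos.le
    calc ‖l c‖ ≤ |(l c).re| + |(l c).im| := h1
      _ ≤ (K + 2) * lg t + Real.pi / Real.log 2 * lg t := by linarith
      _ = K1 * lg t := by rw [hK1]; ring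
  -- Borel-Caratheodory
  have hbc : ∀ z : ℂ, ‖z - c‖ ≤ 148 / 100 → ‖l z‖ ≤ K2 * lg t := by
    intro z hz
    have hmaps : ∀ y ∈ ball (0 : ℂ) (149 / 100 : ℝ), y + c ∈ ball c (149 / 100 : ℝ) := by
      intro y hy
      rw [mem_ball, dist_eq_norm, add_sub_cancel_right]
      simpa using hy
    have h1 : DifferentiableOn ℂ (fun y => l (y + c)) (ball 0 (149 / 100 : ℝ)) := by
      intro y hy
      have h2 : HasDerivAt (fun y => l (y + c)) (P (y + c)) y :=
        (hl _ (hmaps y hy)).comp_add_const y c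
      exact h2.differentiableAt.differentiableWithinAt
    have hz1 : z - c ∈ ball (0 : ℂ) (149 / 100 : ℝ) := by
      rw [mem_ball_zero_iff]
      linarith
    have h2 := Complex.borelCaratheodory (M := K * lg t) (by positivity) h1
      (fun y hy => hup _ (hmaps y hy)) (by norm_num) hz1
    simp only [sub_add_cancel, zero_add] at h2
    refine h2.trans ?_
    have hn := norm_nonneg (z - c)
    have hden : (1 : ℝ) / 100 ≤ 149 / 100 - ‖z - c‖ := by linarith
    have hden0 : (0 : ℝ) < 149 / 100 - ‖z - c‖ := by linarith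
    have h3 : 2 * (K * lg t) * ‖z - c‖ / (149 / 100 - ‖z - c‖) ≤ 296 * K * lg t := by
      rw [div_le_iff₀ hden0]
      have h4 : 0 ≤ K * lg t := by positivity
      nlinarith
    have h4 : ‖l c‖ * (149 / 100 + ‖z - c‖) / (149 / 100 - ‖z - c‖) ≤ 297 * K1 * lg t := by
      rw [div_le_iff₀ hden0]
      have h5 : 0 ≤ K1 * lg t := by positivity
      have h6 : ‖l c‖ * (149 / 100 + ‖z - c‖) ≤ K1 * lg t * (297 / 100) :=
        mul_le_mul hl0b (by linarith) (by positivity) h5
      nlinarith
    rw [hK2]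
    linarith
  have hsc : ‖s - c‖ ≤ 147 / 100 := by
    have h1 : s - c = ((s.re - 2 : ℝ) : ℂ) := by
      apply Complex.ext
      · rw [Complex.sub_re, hcre, Complex.ofReal_re]
      · rw [Complex.sub_im, hcim, Complex.ofReal_im, ht, sub_self]
    rw [h1, Complex.norm_real, Real.norm_eq_abs, abs_le]
    constructor <;> linarith
  have hsball : s ∈ ball c (149 / 100 : ℝ) := by
    rw [mem_ball, dist_eq_norm]
    linarith
  have hprod : 0 ≤ K2 * lg t := by positivity
  constructor
  · rw [hFl s hsball, Complex.norm_exp]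
    apply Real.exp_le_exp.2
    have h1 := hbc s (by linarith)
    have h2 := (abs_le.1 (Complex.abs_re_le_norm (l s))).1
    linarith
  · have hsub : closedBall s (1 / 100 : ℝ) ⊆ ball c (149 / 100 : ℝ) := by
      intro z hz
      rw [mem_closedBall, dist_eq_norm] at hz
      rw [mem_ball, dist_eq_norm]
      have := norm_add_le (z - s) (s - c)
      rw [sub_add_sub_cancel] at this
      linarith
    have hd : DifferentiableOn ℂ l (closedBall s (1 / 100 : ℝ)) := fun z hz =>
      (hl z (hsub hz)).differentiableAt.differentiableWithinAt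
    have h1 := Complex.norm_deriv_le_of_forall_mem_sphere_norm_le (c := s) (R := 1 / 100)
      (C := K2 * lg t) (f := l) (by norm_num) (hd.diffContOnCl_ball le_rfl) (by
        intro z hz
        rw [mem_sphere, dist_eq_norm] at hz
        apply hbc
        have := norm_add_le (z - s) (s - c)
        rw [sub_add_sub_cancel] at this
        linarith)
    rw [(hl s hsball).deriv] at h1
    linarith

end ERT
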