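import Pool.Agent.Lib.MP_ed189b_nt.FinB
import Pool.Agent.Lib.MP_ed189b_nt.CntB
import Pool.Agent.Lib.MP_ed189b_nt.CntC

/-!
# MP_ed189b_nt: the main theorem
-/

set_option autoImplicit false

noncomputable section

namespace ERT

open Filter Topology

theorem block_bound (h : RiemannHypothesis) : ∃ C : ℝ, BlockBound C := by
  obtain ⟨C, -, hC⟩ := fin_all (zf_of_rh h)
  exact ⟨C, hC⟩

/-- in each dyadic range of the scales only a bounded number of scales reaches the order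
`√x (log x)²` -/
theorem cnt_oct {C : ℝ} (hC : BlockBound C) {c : ℝ} (hc : 0 < c) : ∃ C' : ℝ, ∀ N : ℕ, 1 ≤ N →
    ((Set.Ico N (2 * N) ∩ Exc (fun x => c * Fabc 2 0 0 x)).ncard : ℝ) ≤ C' := by
  refine ⟨C / c ^ 2, fun N hN => ?_⟩
  have hN' : (0 : ℝ) < N := by exact_mod_cast hN
  have h1 := cnt_block hC (m := c ^ 2 * (N : ℝ) ^ 4) (G := fun x => c * Fabc 2 0 0 x) hN
    (fun x hx1 hx2 => by
      have hx0 : 0 < x := (Real.exp_pos _).trans_le hx1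
      have hlog : (N : ℝ) ≤ Real.log x := (Real.le_log_iff_exp_le hx0).2 hx1
      have hlog0 : 0 ≤ Real.log x := hN'.le.trans hlog
      have e1 : Fabc 2 0 0 x = x ^ (1 / 2 : ℝ) * Real.log x ^ 2 := by
        unfold Fabc
        rw [Real.rpow_zero, Real.rpow_zero, mul_one, mul_one]
        norm_cast
      simp only [e1]
      refine ⟨by positivity, ?_⟩
      have e2 : (c * (x ^ (1 / 2 : ℝ) * Real.log x ^ 2)) ^ 2 / x = c ^ 2 * Real.log x ^ 4 := by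
        have e3 : (x ^ (1 / 2 : ℝ)) ^ 2 = x := by
          rw [← Real.sqrt_eq_rpow, Real.sq_sqrt hx0.le]
        rw [mul_pow, mul_pow, e3]
        field_simp
      rw [e2]
      gcongr)
  rw [le_div_iff₀ (by positivity)]
  have h2 : (c ^ 2 * ((Set.Ico N (2 * N) ∩ Exc (fun x => c * Fabc 2 0 0 x)).ncard : ℝ)) *
      (N : ℝ) ^ 4 ≤ C * (N : ℝ) ^ 4 := by
    calc _ = c ^ 2 * (N : ℝ) ^ 4 *
          ((Set.Ico N (2 * N) ∩ Exc (fun x => c * Fabc 2 0 0 x)).ncard : ℝ) := by ring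
      _ ≤ _ := h1
  have h3 := le_of_mul_le_mul_right h2 (by positivity)
  linarith

theorem main (h : RiemannHypothesis) :
    (∃ C : ℝ, ∀ (N : ℕ) (x : ℕ → ℝ), 1 ≤ N →
      (∀ n ∈ Finset.Ico N (2 * N), Real.exp n ≤ x n ∧ x n ≤ Real.exp (n + 1)) →
        ∑ n ∈ Finset.Ico N (2 * N), (Chebyshev.psi (x n) - x n) ^ 2 / x n ≤ C * (N : ℝ) ^ 4) ∧
    (∀ c₀ : ℝ, 0 < c₀ → ∃ C : ℝ, ∀ N : ℕ, 1 ≤ N →
      ((Set.Ico N (2 * N) ∩ Exc (fun x => c₀ * Fabc 2 0 0 x)).ncard : ℝ) ≤ C) ∧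
    ∀ a b c c₀ : ℝ, 0 < c₀ → (3 / 2 < a ∨ (a = 3 / 2 ∧ (0 < b ∨ (b = 0 ∧ 0 < c)))) →
      Tendsto (fun M : ℕ => ((Set.Icc 1 M ∩ Exc (fun x => c₀ * Fabc a b c x)).ncard : ℝ) / M)
        atTop (𝓝 0) := by
  obtain ⟨C, hC⟩ := block_bound h
  exact ⟨⟨C, hC⟩, fun c hc => cnt_oct hC hc,
    fun a b c c₀ hc₀ hab => cnt_dens hC (fabc_large hc₀ hab)⟩

end ERT
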