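import Pool.Agent.Lib.MP_ed189b_nt.Low
import Pool.Agent.Lib.MP_ed189b_nt.Loc

/-!
# MP_ed189b_nt: the local structure of F'/F
-/

set_option autoImplicit false

noncomputable section

namespace ERT

open Complex Filter Topology Set Metric

/-- Apply `loc_factor` to `F`, `c = 11/20 + i t₀`, `r = 1/10`: `closedBall c (4/10)` lies in
`3/20 ≤ Re ≤ 19/20`, so `|F| ≤ C (|t₀| + 3)^2` there (F_growth), `|F c| ≥ exp (-C lg t₀)` (low).
The `ρ j` lie in `closedBall c (4/30)`, so `Re (ρ j) > 0` and `ρ j = 1/2 + i γ j` by `ZF`. For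
`s = pt α t`: `‖s - c‖ ≤ 1/10`, `s - ρ j = α + i (t - γ j) ≠ 0`, `P s = ∑ 1/(s - ρ j) + g'/g (s)`
(logarithmic derivative of the product, `logDeriv_prod`, `logDeriv_mul`). -/
theorem loc_str (h : ZF) : ∃ C : ℝ, 0 < C ∧ ∀ t₀ : ℝ, ∃ (k : ℕ) (γ : Fin k → ℝ),
    (k : ℝ) ≤ C * lg t₀ ∧ ∀ α t : ℝ, 0 < α → α ≤ 1 / 25 → |t - t₀| ≤ 1 / 40 →
      ‖P (pt α t) - Sg γ α t‖ ≤ C * lg t₀ := by
  obtain ⟨C1, hC1, hgr⟩ := F_growth
  obtain ⟨C2, hC2, hlow⟩ := low h
  obtain ⟨C, hC, hfac⟩ := loc_factor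
  have hl2 : (1 : ℝ) ≤ 2 * Real.log 2 := by
    have := Real.log_two_gt_d9
    linarith
  have hlC1 : 0 ≤ Real.log C1 := Real.log_nonneg hC1
  have hC3 : 0 < 2 * Real.log C1 + 6 + C2 := by linarith
  refine ⟨10 * C * (2 * Real.log C1 + 6 + C2), by positivity, fun t₀ => ?_⟩
  have hlg2 : Real.log 2 ≤ lg t₀ :=
    Real.log_le_log (by norm_num) (by linarith [abs_nonneg t₀])
  have hlg3 : Real.log (|t₀| + 3) ≤ 2 * lg t₀ := by
    have h1 : Real.log (|t₀| + 3) ≤ Real.log (2 * (|t₀| + 2)) :=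
      Real.log_le_log (by linarith [abs_nonneg t₀]) (by linarith [abs_nonneg t₀])
    have h2 : Real.log (2 * (|t₀| + 2)) = Real.log 2 + lg t₀ := by
      rw [Real.log_mul (by norm_num) (by linarith [abs_nonneg t₀])]
      rfl
    linarith
  have hlgp := lg_pos t₀
  have hlg1 : 1 ≤ 2 * lg t₀ := by linarith
  obtain ⟨L, hLdef⟩ : ∃ L : ℝ, L = Real.log C1 + 2 * Real.log (|t₀| + 3) + C2 * lg t₀ := ⟨_, rfl⟩
  have hlog3 : 0 ≤ Real.log (|t₀| + 3) := Real.log_nonneg (by linarith [abs_nonneg t₀])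
  have hL0 : 0 ≤ L := by
    rw [hLdef]
    positivity
  have hL1 : L + 1 ≤ (2 * Real.log C1 + 6 + C2) * lg t₀ := by
    rw [hLdef]
    have : Real.log C1 * 1 ≤ Real.log C1 * (2 * lg t₀) := mul_le_mul_of_nonneg_left hlg1 hlC1
    nlinarith
  obtain ⟨c, hc⟩ : ∃ c : ℂ, c = ((11 / 20 : ℝ) : ℂ) + (t₀ : ℂ) * I := ⟨_, rfl⟩
  have hcre : c.re = 11 / 20 := by rw [hc]; simp
  have hcim : c.im = t₀ := by rw [hc]; simp
  have hFlow : Real.exp (-(C2 * lg t₀)) ≤ ‖F c‖ := by
    have := (hlow c (by rw [hcre]; norm_num) (by rw [hcre]; norm_num)).1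
    rwa [hcim] at this
  have hFc : F c ≠ 0 := by
    intro h0
    rw [h0, norm_zero] at hFlow
    exact absurd hFlow (not_le.mpr (Real.exp_pos _))
  have hB : ∀ z ∈ closedBall c (4 * (1 / 10)), ‖F z‖ ≤ C1 * (|t₀| + 3) ^ 2 := by
    intro z hz
    rw [mem_closedBall, dist_eq_norm] at hz
    have hre : |z.re - 11 / 20| ≤ 4 / 10 := by
      have := (Complex.abs_re_le_norm (z - c)).trans hz
      rw [Complex.sub_re, hcre] at this
      linarith
    have him : |z.im - t₀| ≤ 4 / 10 := by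
      have := (Complex.abs_im_le_norm (z - c)).trans hz
      rw [Complex.sub_im, hcim] at this
      linarith
    have hre' := abs_le.mp hre
    refine (hgr z (by linarith [hre'.1]) (by linarith [hre'.2])).trans ?_
    have him2 : |z.im| ≤ |t₀| + 1 := by
      have : |z.im| ≤ |z.im - t₀| + |t₀| := by
        have := abs_add_le (z.im - t₀) t₀
        rwa [sub_add_cancel] at this
      linarith
    have : (|z.im| + 2) ^ 2 ≤ (|t₀| + 3) ^ 2 :=
      pow_le_pow_left₀ (by positivity) (by linarith) 2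
    exact mul_le_mul_of_nonneg_left this (by linarith)
  have hBL : C1 * (|t₀| + 3) ^ 2 ≤ Real.exp L * ‖F c‖ := by
    have h1 : Real.exp L = C1 * (|t₀| + 3) ^ 2 * Real.exp (C2 * lg t₀) := by
      rw [hLdef, Real.exp_add, Real.exp_add, Real.exp_log (by linarith)]
      congr 2
      rw [mul_comm, Real.exp_mul, Real.exp_log (by linarith [abs_nonneg t₀])]
      norm_num
    rw [h1]
    have h2 : 1 ≤ Real.exp (C2 * lg t₀) * ‖F c‖ := by
      calc (1 : ℝ) = Real.exp (C2 * lg t₀) * Real.exp (-(C2 * lg t₀)) := by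
            rw [← Real.exp_add, add_neg_cancel, Real.exp_zero]
        _ ≤ _ := mul_le_mul_of_nonneg_left hFlow (Real.exp_pos _).le
    have h3 : 0 ≤ C1 * (|t₀| + 3) ^ 2 := by positivity
    calc C1 * (|t₀| + 3) ^ 2 = C1 * (|t₀| + 3) ^ 2 * 1 := (mul_one _).symm
      _ ≤ C1 * (|t₀| + 3) ^ 2 * (Real.exp (C2 * lg t₀) * ‖F c‖) :=
          mul_le_mul_of_nonneg_left h2 h3
      _ = _ := by ring
  obtain ⟨k, ρ, g, hk, hρ, hg, hfac', hg0, hgb⟩ :=
    hfac F c (1 / 10) (C1 * (|t₀| + 3) ^ 2) L (by norm_num) hL0 F_diff hB hBL hFc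
  have hρre : ∀ j, (ρ j).re = 1 / 2 := by
    intro j
    obtain ⟨h0, hz⟩ := hρ j
    rw [mem_closedBall, dist_eq_norm] at hz
    have hre : |(ρ j).re - 11 / 20| ≤ 4 / 3 * (1 / 10) := by
      have := (Complex.abs_re_le_norm (ρ j - c)).trans hz
      rwa [Complex.sub_re, hcre] at this
    exact h (ρ j) (by linarith [(abs_le.mp hre).1]) h0
  have hCL : C * (L + 1) ≤ C * ((2 * Real.log C1 + 6 + C2) * lg t₀) :=
    mul_le_mul_of_nonneg_left hL1 hC.le
  have hCL0 : 0 ≤ C * ((2 * Real.log C1 + 6 + C2) * lg t₀) := by positivity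
  refine ⟨k, fun j => (ρ j).im, by linarith, fun α t hα hα' ht => ?_⟩
  have hsc : ‖pt α t - c‖ ≤ 1 / 10 := by
    have h1 := Complex.norm_le_abs_re_add_abs_im (pt α t - c)
    rw [Complex.sub_re, Complex.sub_im, pt_re, pt_im, hcre, hcim] at h1
    have h2 : |1 / 2 + α - 11 / 20| ≤ 1 / 20 := by
      rw [abs_le]
      constructor <;> linarith
    linarith
  have hsb : pt α t ∈ closedBall c (1 / 10) := by
    rw [mem_closedBall, dist_eq_norm]
    exact hsc
  have hsρ : ∀ j, pt α t - ρ j = (α : ℂ) + ((t - (ρ j).im : ℝ) : ℂ) * I := by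
    intro j
    apply Complex.ext
    · rw [Complex.sub_re, pt_re, hρre j]
      simp
    · rw [Complex.sub_im, pt_im]
      simp
  have hsρ0 : ∀ j, pt α t - ρ j ≠ 0 := by
    intro j h0
    have := congrArg Complex.re h0
    rw [Complex.sub_re, pt_re, hρre j, Complex.zero_re] at this
    linarith
  have hlog : P (pt α t) = Sg (fun j => (ρ j).im) α t + deriv g (pt α t) / g (pt α t) := by
    have hF : F = fun z => (∏ j, (z - ρ j)) * g z := funext hfac'
    have h1 : P (pt α t) = logDeriv F (pt α t) := rfl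
    rw [h1, hF, logDeriv_mul (f := fun z => ∏ j, (z - ρ j)) (g := g) (pt α t)
      (Finset.prod_ne_zero_iff.mpr fun j _ => hsρ0 j) (hg0 _ hsb) (by fun_prop) (hg _)]
    rw [logDeriv_prod (f := fun j z => z - ρ j) (fun j _ => hsρ0 j) (fun j _ => by fun_prop)]
    have h2 : ∀ j, logDeriv (fun z => z - ρ j) (pt α t) =
        ((α : ℂ) + ((t - (ρ j).im : ℝ) : ℂ) * I)⁻¹ := by
      intro j
      rw [logDeriv_apply, hsρ j, deriv_sub_const, deriv_id'', one_div]
    rw [Finset.sum_congr rfl fun j _ => h2 j]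
    rfl
  rw [hlog, add_sub_cancel_left]
  refine (hgb _ hsb).trans ?_
  have : C * (L + 1) / (1 / 10) = 10 * (C * (L + 1)) := by ring
  rw [this]
  linarith

/-- Pointwise bound: for `Re s ≤ 1/2 + 1/25` by `loc_str` with `t₀ = Im s` (`|Sg| ≤ k / α`), with
`α' = Re s - 1/2 ≥ α`; for `Re s ≥ 53/100` by `low`. -/
theorem P_bound (h : ZF) : ∃ C : ℝ, 0 < C ∧ ∀ (α : ℝ) (s : ℂ), 0 < α → α ≤ 1 / 100 →
    1 / 2 + α ≤ s.re → s.re ≤ 17 / 5 → ‖P s‖ ≤ C * lg s.im / α := by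
  obtain ⟨C, hC, hloc⟩ := loc_str h
  obtain ⟨C2, hC2, hlow⟩ := low h
  refine ⟨2 * C + C2, by positivity, fun α s hα hα' h1 h2 => ?_⟩
  have hlgp := lg_pos s.im
  rcases le_total (53 / 100 : ℝ) s.re with h3 | h3
  · refine (hlow s h3 h2).2.trans ?_
    rw [le_div_iff₀ hα]
    have h4 : C2 * lg s.im * α ≤ C2 * lg s.im * 1 :=
      mul_le_mul_of_nonneg_left (by linarith) (by positivity)
    nlinarith [mul_pos hC hlgp]
  · obtain ⟨k, γ, hk, hb⟩ := hloc s.im
    have hα1 : 0 < s.re - 1 / 2 := by linarith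
    have h4 := hb (s.re - 1 / 2) s.im hα1 (by linarith) (by simp)
    have h5 : pt (s.re - 1 / 2) s.im = s := by
      apply Complex.ext
      · rw [pt_re]; ring
      · rw [pt_im]
    rw [h5] at h4
    have h6 : ‖Sg γ (s.re - 1 / 2) s.im‖ ≤ k / α := by
      unfold Sg
      refine (norm_sum_le _ _).trans ?_
      have h7 : ∀ j ∈ (Finset.univ : Finset (Fin k)),
          ‖(((s.re - 1 / 2 : ℝ) : ℂ) + ((s.im - γ j : ℝ) : ℂ) * I)⁻¹‖ ≤ 1 / α := by
        intro j _
        rw [norm_inv, ← one_div]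
        apply one_div_le_one_div_of_le hα
        have h8 := Complex.abs_re_le_norm
          (((s.re - 1 / 2 : ℝ) : ℂ) + ((s.im - γ j : ℝ) : ℂ) * I)
        have h9 : (((s.re - 1 / 2 : ℝ) : ℂ) + ((s.im - γ j : ℝ) : ℂ) * I).re = s.re - 1 / 2 := by
          simp
        rw [h9, abs_of_pos hα1] at h8
        linarith
      refine (Finset.sum_le_sum h7).trans ?_
      rw [Finset.sum_const, Finset.card_univ, Fintype.card_fin, nsmul_eq_mul]
      rw [mul_one_div]
    have h10 : ‖P s‖ ≤ C * lg s.im + k / α := by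
      have := norm_add_le (P s - Sg γ (s.re - 1 / 2) s.im) (Sg γ (s.re - 1 / 2) s.im)
      rw [sub_add_cancel] at this
      linarith
    refine h10.trans ?_
    rw [le_div_iff₀ hα, add_mul, div_mul_cancel₀ _ hα.ne']
    have h11 : C * lg s.im * α ≤ C * lg s.im * 1 :=
      mul_le_mul_of_nonneg_left (by linarith) (by positivity)
    nlinarith [mul_pos hC2 hlgp]

end ERT
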